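import Mathlib

/-!
# Places: embeddings of function fields in fields of Laurent series
-/

set_option linter.unusedSectionVars false
set_option linter.unusedSimpArgs false

namespace Pool.ML

section expansion

variable {k R : Type} [Field k] [CommRing R] [IsDomain R]

/-- The expansion of the elements of a ring in powers of an element generating the kernel of a
retraction to a field of coefficients. -/
theorem exists_expansion (i : k →+* R) (r : R →+* k) (hri : ∀ a, r (i a) = a) (π : R) (hπ : π ≠ 0)
    (hπr : r π = 0) (hker : ∀ a, r a = 0 → π ∣ a) :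
    ∃ φ : R →+* PowerSeries k, (∀ a, φ (i a) = PowerSeries.C a) ∧ φ π = PowerSeries.X ∧
      ∀ a, PowerSeries.constantCoeff (φ a) = r a := by
  have hS : ∀ a : R, ∃ b : R, a = i (r a) + π * b := by
    intro a
    obtain ⟨b, hb⟩ := hker (a - i (r a)) (by rw [map_sub, hri, sub_self])
    exact ⟨b, by rw [← hb]; ring⟩
  choose S hS using hS
  have hSu : ∀ a b : R, a = i (r a) + π * b → b = S a := by
    intro a b hb
    have h1 : π * b = π * S a := by
      have h2 := hS a
      have h3 : i (r a) + π * b = i (r a) + π * S a := by rw [← hb, ← h2]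
      exact add_left_cancel h3
    exact mul_left_cancel₀ hπ h1
  have hadd : ∀ a b, S (a + b) = S a + S b := by
    intro a b
    symm
    apply hSu
    rw [map_add, map_add]
    conv_lhs => rw [hS a, hS b]
    ring
  have hmul : ∀ a b, S (a * b) = i (r a) * S b + S a * b := by
    intro a b
    symm
    apply hSu
    rw [map_mul, map_mul]
    have h1 := hS a
    have h2 := hS b
    linear_combination b * h1 + i (r a) * h2
  have hi : ∀ a, S (i a) = 0 := by
    intro a
    symm
    apply hSu
    rw [hri, mul_zero, add_zero]
  have h0 : S 0 = 0 := by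
    have := hi 0
    rwa [map_zero] at this
  have hpi : S π = 1 := by
    symm
    apply hSu
    rw [hπr, map_zero, zero_add, mul_one]
  have hS0 : ∀ n, S^[n] 0 = 0 := by
    intro n
    induction n with
    | zero => rfl
    | succ n ih => rw [Function.iterate_succ_apply, h0, ih]
  have hiter : ∀ n a b, S^[n] (a + b) = S^[n] a + S^[n] b := by
    intro n
    induction n with
    | zero => intro a b; rfl
    | succ n ih => intro a b; rw [Function.iterate_succ_apply, hadd, ih]; rfl
  let φ : R → PowerSeries k := fun a => PowerSeries.mk fun n => r (S^[n] a)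
  have hφ : ∀ a n, PowerSeries.coeff n (φ a) = r (S^[n] a) := fun a n => PowerSeries.coeff_mk _ _
  have hφsucc : ∀ a n, PowerSeries.coeff (n + 1) (φ a) = PowerSeries.coeff n (φ (S a)) := by
    intro a n
    rw [hφ, hφ, Function.iterate_succ_apply]
  have hφ0 : ∀ a, PowerSeries.coeff 0 (φ a) = r a := fun a => hφ a 0
  have hφadd : ∀ a b, φ (a + b) = φ a + φ b := by
    intro a b
    ext n
    rw [map_add, hφ, hφ, hφ, hiter, map_add]
  have hφi : ∀ a, φ (i a) = PowerSeries.C a := by
    intro a
    ext n
    rw [hφ, PowerSeries.coeff_C]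
    rcases n with _ | n
    · simp [hri]
    · rw [Function.iterate_succ_apply, hi, hS0, map_zero, if_neg (Nat.succ_ne_zero n)]
  have hφimul : ∀ n a b, PowerSeries.coeff n (φ (i a * b)) = a * PowerSeries.coeff n (φ b) := by
    intro n
    induction n with
    | zero => intro a b; rw [hφ0, hφ0, map_mul, hri]
    | succ n ih =>
      intro a b
      rw [hφsucc, hφsucc, hmul, hi, zero_mul, add_zero, hri, ih]
  have hφmul : ∀ n a b, PowerSeries.coeff n (φ (a * b)) = PowerSeries.coeff n (φ a * φ b) := by
    intro n
    induction n with
    | zero =>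
      intro a b
      rw [PowerSeries.coeff_zero_eq_constantCoeff_apply, PowerSeries.coeff_zero_eq_constantCoeff_apply,
        map_mul, ← PowerSeries.coeff_zero_eq_constantCoeff_apply,
        ← PowerSeries.coeff_zero_eq_constantCoeff_apply,
        ← PowerSeries.coeff_zero_eq_constantCoeff_apply, hφ0, hφ0, hφ0, map_mul]
    | succ n ih =>
      intro a b
      rw [hφsucc, hmul, hφadd, map_add, hφimul, ih, PowerSeries.coeff_mul, PowerSeries.coeff_mul,
        Finset.Nat.antidiagonal_succ, Finset.sum_cons, Finset.sum_map]
      rw [hφ0, ← hφsucc]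
      congr 1
      refine Finset.sum_congr rfl fun x _ => ?_
      rw [← hφsucc]
      rfl
  refine ⟨{ toFun := φ, map_one' := ?_, map_mul' := ?_, map_zero' := ?_, map_add' := hφadd },
    hφi, ?_, ?_⟩
  · have := hφi 1
    rwa [map_one, map_one] at this
  · intro a b
    ext n
    exact hφmul n a b
  · have := hφi 0
    rwa [map_zero, map_zero] at this
  · change φ π = PowerSeries.X
    ext n
    rw [PowerSeries.coeff_X]
    rcases n with _ | n
    · rw [hφ0, hπr, if_neg (by omega)]
    · rw [hφsucc, hpi]
      have h1 := hφi 1
      rw [map_one, map_one] at h1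
      rw [h1, PowerSeries.coeff_one]
      by_cases hn : n = 0
      · simp [hn]
      · rw [if_neg hn, if_neg (by omega)]
  · intro a
    rw [← PowerSeries.coeff_zero_eq_constantCoeff_apply]
    exact hφ0 a

end expansion

section core

open nonZeroDivisors

theorem place_core {k A F : Type} (K : Type) [Field k] [IsAlgClosed k] [CommRing A]
    [IsDedekindDomain A] [Field K] [Algebra A K] [IsFractionRing A K] [Field F] [Algebra K F]
    [Algebra A F] [IsScalarTower A K F] [FiniteDimensional K F] [Algebra.IsSeparable K F]
    [Algebra k A] [Algebra k F] [IsScalarTower k A F]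
    (ev : A →ₐ[k] k) (x : A) (hx : ev x = 0) (hx0 : x ≠ 0) :
    ∃ f : F →+* LaurentSeries k, (∀ a : k, f (algebraMap k F a) = HahnSeries.C a) ∧
      0 < (f (algebraMap A F x)).order := by
  have hded : IsDedekindDomain (integralClosure A F) := integralClosure.isDedekindDomain A K F
  have hfrac : IsFractionRing (integralClosure A F) F :=
    integralClosure.isFractionRing_of_finite_extension K F
  have hinj : Function.Injective (algebraMap A F) := by
    rw [IsScalarTower.algebraMap_eq A K F]
    exact (algebraMap K F).injective.comp (IsFractionRing.injective A K)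
  have hinjB : Function.Injective (algebraMap A (integralClosure A F)) := by
    intro a b hab
    apply hinj
    have h1 := congrArg (algebraMap (integralClosure A F) F) hab
    exact h1
  -- the maximal ideal
  have hevs : Function.Surjective ev := by
    intro a
    exact ⟨algebraMap k A a, by rw [AlgHom.commutes]; rfl⟩
  have hPmax : (RingHom.ker (ev : A →+* k)).IsMaximal :=
    RingHom.ker_isMaximal_of_surjective _ hevs
  obtain ⟨Q, hQmax, hQc⟩ := Ideal.exists_ideal_over_maximal_of_isIntegral
    (S := integralClosure A F) (RingHom.ker (ev : A →+* k)) (by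
      rw [(RingHom.injective_iff_ker_eq_bot _).mp hinjB]
      exact bot_le)
  have hmemQ : ∀ a : A, ev a = 0 → algebraMap A (integralClosure A F) a ∈ Q := by
    intro a ha
    rw [← Ideal.mem_comap, hQc]
    exact ha
  have hQ0 : Q ≠ ⊥ := by
    intro h
    have h1 := hmemQ x hx
    rw [h, Ideal.mem_bot, map_eq_zero_iff _ hinjB] at h1
    exact hx0 h1
  -- the residue field
  let i : k →+* integralClosure A F := (algebraMap A (integralClosure A F)).comp (algebraMap k A)
  have hred : ∀ a : A, Ideal.Quotient.mk Q (algebraMap A (integralClosure A F) a) =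
      Ideal.Quotient.mk Q (i (ev a)) := by
    intro a
    rw [Ideal.Quotient.eq]
    change algebraMap A (integralClosure A F) a -
      algebraMap A (integralClosure A F) (algebraMap k A (ev a)) ∈ Q
    rw [← map_sub]
    apply hmemQ
    rw [map_sub, AlgHom.commutes]
    exact sub_self _
  let : Field ((integralClosure A F) ⧸ Q) := Ideal.Quotient.field Q
  let : Algebra k ((integralClosure A F) ⧸ Q) := ((Ideal.Quotient.mk Q).comp i).toAlgebra
  have hint : Algebra.IsIntegral k ((integralClosure A F) ⧸ Q) := by
    constructor
    intro b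
    obtain ⟨b, rfl⟩ := Ideal.Quotient.mk_surjective b
    have hb : IsIntegral A b := IsIntegralClosure.isIntegral A F b
    obtain ⟨p, hp, hpb⟩ := hb
    refine ⟨p.map (ev : A →+* k), hp.map _, ?_⟩
    have h1 := congrArg (Ideal.Quotient.mk Q) hpb
    rw [map_zero, Polynomial.hom_eval₂] at h1
    rw [Polynomial.eval₂_map]
    rw [← h1]
    congr 1
    ext a
    exact (hred a).symm
  have hbij : Function.Bijective (algebraMap k ((integralClosure A F) ⧸ Q)) :=
    IsAlgClosed.algebraMap_bijective_of_isIntegral
  let e : k ≃+* ((integralClosure A F) ⧸ Q) := RingEquiv.ofBijective _ hbij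
  let rB : integralClosure A F →+* k := (e.symm : _ →+* k).comp (Ideal.Quotient.mk Q)
  have hrBi : ∀ a, rB (i a) = a := by
    intro a
    change e.symm (Ideal.Quotient.mk Q (i a)) = a
    rw [RingEquiv.symm_apply_eq]
    rfl
  have hrBQ : ∀ b, rB b = 0 ↔ b ∈ Q := by
    intro b
    change e.symm (Ideal.Quotient.mk Q b) = 0 ↔ b ∈ Q
    rw [map_eq_zero_iff _ e.symm.injective, Ideal.Quotient.eq_zero_iff_mem]
  -- the local ring
  have hle : Q.primeCompl ≤ (integralClosure A F)⁰ := Ideal.primeCompl_le_nonZeroDivisors Q
  let R := Localization.subalgebra.ofField F Q.primeCompl hle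
  have hloc : IsLocalization.AtPrime R Q := Localization.subalgebra.isLocalization_ofField F _ hle
  have hfr : IsFractionRing R F := Localization.subalgebra.isFractionRing_ofField F _ hle
  have hdvr : IsDiscreteValuationRing R :=
    IsLocalization.AtPrime.isDiscreteValuationRing_of_dedekind_domain _ hQ0 R
  let r : R →+* k := IsLocalization.lift (M := Q.primeCompl) (g := rB) (by
    intro y
    rw [isUnit_iff_ne_zero, Ne, hrBQ]
    exact y.2)
  have hr : ∀ b, r (algebraMap (integralClosure A F) R b) = rB b := fun b =>
    IsLocalization.lift_eq _ _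
  obtain ⟨π, hπ⟩ := IsDiscreteValuationRing.exists_irreducible R
  have hker : ∀ a, r a = 0 → π ∣ a := by
    intro a ha
    rw [← Ideal.mem_span_singleton, ← hπ.maximalIdeal_eq, IsLocalRing.mem_maximalIdeal,
      mem_nonunits_iff]
    intro hu
    have h1 := hu.map r
    rw [ha] at h1
    exact not_isUnit_zero h1
  have htow : ∀ b, algebraMap R F (algebraMap (integralClosure A F) R b) =
      algebraMap (integralClosure A F) F b := fun b => rfl
  have hinjR : Function.Injective (algebraMap (integralClosure A F) R) := by
    intro a b hab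
    apply IsFractionRing.injective (integralClosure A F) F
    rw [← htow, ← htow, hab]
  have hy0 : algebraMap (integralClosure A F) R (algebraMap A (integralClosure A F) x) ≠ 0 := by
    intro h
    rw [map_eq_zero_iff _ hinjR, map_eq_zero_iff _ hinjB] at h
    exact hx0 h
  have hry : r (algebraMap (integralClosure A F) R (algebraMap A (integralClosure A F) x)) = 0 := by
    rw [hr, hrBQ]
    exact hmemQ x hx
  have hπr : r π = 0 := by
    by_contra h
    obtain ⟨n, u, hu⟩ := IsDiscreteValuationRing.eq_unit_mul_pow_irreducible hy0 hπ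
    rw [hu, map_mul, map_pow] at hry
    have h1 : r (u : R) ≠ 0 := (u.isUnit.map r).ne_zero
    exact mul_ne_zero h1 (pow_ne_zero _ h) hry
  obtain ⟨φ, hφi, hφπ, hφ0⟩ := exists_expansion ((algebraMap (integralClosure A F) R).comp i) r
    (by
      intro a
      change r (algebraMap (integralClosure A F) R (i a)) = a
      rw [hr, hrBi]) π hπ.ne_zero hπr hker
  have hφinj : Function.Injective φ := by
    rw [injective_iff_map_eq_zero]
    intro a ha
    by_contra h
    obtain ⟨n, u, hu⟩ := IsDiscreteValuationRing.eq_unit_mul_pow_irreducible h hπ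
    rw [hu, map_mul, map_pow, hφπ] at ha
    have h1 : φ (u : R) ≠ 0 := (u.isUnit.map φ).ne_zero
    exact mul_ne_zero h1 (pow_ne_zero _ PowerSeries.X_ne_zero) ha
  have hginj : Function.Injective ((HahnSeries.ofPowerSeries ℤ k).comp φ) := by
    intro a b hab
    exact hφinj (HahnSeries.ofPowerSeries_injective hab)
  have hlift : ∀ a : R, (IsFractionRing.lift hginj : F →+* LaurentSeries k) (algebraMap R F a) =
      HahnSeries.ofPowerSeries ℤ k (φ a) := fun a => IsFractionRing.lift_algebraMap hginj a
  refine ⟨IsFractionRing.lift hginj, ?_, ?_⟩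
  · intro a
    have h1 : algebraMap k F a = algebraMap R F
        (((algebraMap (integralClosure A F) R).comp i) a) := by
      rw [RingHom.comp_apply, htow, IsScalarTower.algebraMap_apply k A F]
      rfl
    rw [h1, hlift, hφi, HahnSeries.ofPowerSeries_C]
  · set y := algebraMap (integralClosure A F) R (algebraMap A (integralClosure A F) x) with hy
    have h1 : algebraMap A F x = algebraMap R F y := rfl
    rw [h1, hlift]
    have hc : PowerSeries.constantCoeff (φ y) = 0 := by rw [hφ0, hry]
    have hne : HahnSeries.ofPowerSeries ℤ k (φ y) ≠ 0 := by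
      intro h
      rw [map_eq_zero_iff _ HahnSeries.ofPowerSeries_injective,
        map_eq_zero_iff _ hφinj] at h
      exact hy0 h
    by_contra hneg
    rw [not_lt] at hneg
    have hco : (HahnSeries.ofPowerSeries ℤ k (φ y)).coeff
        (HahnSeries.ofPowerSeries ℤ k (φ y)).order ≠ 0 := by
      rw [Ne, HahnSeries.coeff_order_eq_zero]
      exact hne
    rcases lt_or_eq_of_le hneg with hlt | heq
    · apply hco
      rw [HahnSeries.ofPowerSeries_apply]
      apply HahnSeries.embDomain_of_notMem_range
      rintro ⟨m, hm⟩
      rw [← HahnSeries.ofPowerSeries_apply] at hm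
      have h5 : ((m : ℕ) : ℤ) = (HahnSeries.ofPowerSeries ℤ k (φ y)).order := hm
      omega
    · rw [heq] at hco
      apply hco
      have h6 := HahnSeries.ofPowerSeries_apply_coeff (Γ := ℤ) (φ y) 0
      rw [Nat.cast_zero] at h6
      rw [h6, PowerSeries.coeff_zero_eq_constantCoeff_apply, hc]

end core

open scoped IntermediateField.algebraAdjoinAdjoin in
/-- Places: a finite extension of `k(x)` embeds in the field of Laurent series over `k`, with `x`
going to a series of positive order. -/
theorem exists_place (k Ω : Type) [Field k] [IsAlgClosed k] [CharZero k] [Field Ω] [Algebra k Ω]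
    (x : Ω) (hx : Transcendental k x) (S : Finset Ω)
    (hS : ∀ s ∈ S, IsAlgebraic (IntermediateField.adjoin k {x}) s) :
    ∃ (F : IntermediateField k Ω) (f : F →+* LaurentSeries k) (hxF : x ∈ F),
      (∀ s ∈ S, s ∈ F) ∧ (∀ a : k, f (algebraMap k F a) = HahnSeries.C a) ∧
      0 < (f ⟨x, hxF⟩).order := by
  classical
  let K := IntermediateField.adjoin k {x}
  let A := Algebra.adjoin k {x}
  let F' : IntermediateField K Ω := IntermediateField.adjoin K (S : Set Ω)
  have hfin : FiniteDimensional K F' := by
    apply IntermediateField.finiteDimensional_adjoin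
    intro s hs
    exact (hS s hs).isIntegral
  have hcz : CharZero K := charZero_of_injective_algebraMap (algebraMap k K).injective
  have hsep : Algebra.IsSeparable K F' := Algebra.IsAlgebraic.isSeparable_of_perfectField
  have hxA : x ∈ A := Algebra.self_mem_adjoin_singleton k x
  have hrange : A = (Polynomial.aeval (R := k) x).range := Algebra.adjoin_singleton_eq_range_aeval k x
  have hinj : Function.Injective (Polynomial.aeval (R := k) x) :=
    transcendental_iff_injective.mp hx
  let e : Polynomial k ≃ₐ[k] A :=
    (AlgEquiv.ofInjective (Polynomial.aeval (R := k) x) hinj).trans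
      (Subalgebra.equivOfEq _ _ hrange.symm)
  have heX : e Polynomial.X = ⟨x, hxA⟩ := by
    apply Subtype.ext
    change Polynomial.aeval x Polynomial.X = x
    rw [Polynomial.aeval_X]
  have hpid : IsPrincipalIdealRing A :=
    IsPrincipalIdealRing.of_surjective (e : Polynomial k →+* A) e.surjective
  have hded : IsDedekindDomain A := inferInstance
  let ev : A →ₐ[k] k := (Polynomial.aeval (0 : k)).comp (e.symm : A →ₐ[k] Polynomial k)
  have hev : ev ⟨x, hxA⟩ = 0 := by
    change Polynomial.aeval (0 : k) (e.symm ⟨x, hxA⟩) = 0
    rw [← heX, AlgEquiv.symm_apply_apply, Polynomial.aeval_X]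
  have hx0 : (⟨x, hxA⟩ : A) ≠ 0 := by
    intro h
    have h1 : x = 0 := congrArg Subtype.val h
    apply hx
    rw [h1]
    exact isAlgebraic_zero
  let : Algebra A F' := ((algebraMap K F').comp (algebraMap A K)).toAlgebra
  have ht1 : IsScalarTower A K F' := IsScalarTower.of_algebraMap_eq fun _ => rfl
  have ht2 : IsScalarTower k A F' := IsScalarTower.of_algebraMap_eq fun _ => rfl
  obtain ⟨f, hf1, hf2⟩ := place_core K ev ⟨x, hxA⟩ hev hx0 (F := F')
  refine ⟨F'.restrictScalars k, f, ?_, ?_, hf1, hf2⟩
  · rw [IntermediateField.mem_restrictScalars]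
    exact (algebraMap K F' ⟨x, IntermediateField.mem_adjoin_simple_self k x⟩).2
  · intro s hs
    rw [IntermediateField.mem_restrictScalars]
    exact IntermediateField.subset_adjoin K _ (Finset.mem_coe.mpr hs)

end Pool.ML
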