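import Mathlib

/-!
# Valuations and the Euler derivation on Laurent series
-/

set_option linter.unusedSectionVars false
set_option linter.unusedSimpArgs false

namespace Pool.ML

open Finset Matrix

section V

variable {k : Type} [Field k]

/-- `τ d/dτ` -/
noncomputable def euler (f : LaurentSeries k) : LaurentSeries k :=
  HahnSeries.mk (fun n => (n : k) * f.coeff n) (f.isPWO_support.mono (by
    intro n hn
    rw [Function.mem_support] at hn
    exact right_ne_zero_of_mul hn))

theorem euler_coeff (f : LaurentSeries k) (n : ℤ) : (euler f).coeff n = (n : k) * f.coeff n := rfl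

theorem euler_add (f g : LaurentSeries k) : euler (f + g) = euler f + euler g := by
  ext n
  simp only [euler_coeff, HahnSeries.coeff_add]
  ring

theorem euler_zero : euler (0 : LaurentSeries k) = 0 := by
  ext n
  simp [euler_coeff]

theorem euler_sum {ι : Type*} (s : Finset ι) (f : ι → LaurentSeries k) :
    euler (∑ i ∈ s, f i) = ∑ i ∈ s, euler (f i) := by
  classical
  induction s using Finset.induction with
  | empty => simp [euler_zero]
  | insert a s ha ih => rw [Finset.sum_insert ha, Finset.sum_insert ha, euler_add, ih]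

theorem support_euler (f : LaurentSeries k) : (euler f).support ⊆ f.support := by
  intro n hn
  rw [HahnSeries.mem_support, euler_coeff] at hn
  exact right_ne_zero_of_mul hn

theorem euler_mul (f g : LaurentSeries k) : euler (f * g) = euler f * g + f * euler g := by
  ext n
  rw [HahnSeries.coeff_add, euler_coeff,
    HahnSeries.coeff_mul_left' f.isPWO_support (support_euler f),
    HahnSeries.coeff_mul_right' g.isPWO_support (support_euler g), HahnSeries.coeff_mul,
    Finset.mul_sum, ← Finset.sum_add_distrib]
  refine Finset.sum_congr rfl fun x hx => ?_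
  rw [euler_coeff, euler_coeff]
  have h1 : x.1 + x.2 = n := (Finset.mem_antidiagonal.mp hx).2.2
  rw [← h1]
  push_cast
  ring

theorem euler_C (a : k) : euler (HahnSeries.C a : LaurentSeries k) = 0 := by
  ext n
  rw [euler_coeff, HahnSeries.C_apply, HahnSeries.coeff_single]
  split_ifs with h
  · simp [h]
  · simp

theorem euler_single (n : ℤ) (a : k) :
    euler (HahnSeries.single n a : LaurentSeries k) = HahnSeries.single n ((n : k) * a) := by
  ext m
  rw [euler_coeff, HahnSeries.coeff_single, HahnSeries.coeff_single]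
  split_ifs with h
  · rw [h]
  · simp

/-- the inclusion of power series -/
noncomputable abbrev ofPS : PowerSeries k →+* LaurentSeries k := HahnSeries.ofPowerSeries ℤ k

theorem ofPS_injective : Function.Injective (ofPS : PowerSeries k →+* LaurentSeries k) :=
  HahnSeries.ofPowerSeries_injective

theorem ofPS_coeff_neg (F : PowerSeries k) (n : ℤ) (hn : n < 0) : (ofPS F).coeff n = 0 := by
  rw [ofPS, HahnSeries.ofPowerSeries_apply]
  apply HahnSeries.embDomain_of_notMem_range
  rintro ⟨m, hm⟩
  simp at hm
  omega

theorem exists_ofPS (f : LaurentSeries k) (h : ∀ n < 0, f.coeff n = 0) :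
    ∃ F : PowerSeries k, ofPS F = f := by
  refine ⟨PowerSeries.mk fun n => f.coeff n, ?_⟩
  ext n
  rcases lt_or_ge n 0 with hn | hn
  · rw [ofPS_coeff_neg _ n hn, h n hn]
  · obtain ⟨m, rfl⟩ := Int.eq_ofNat_of_zero_le hn
    have h1 := HahnSeries.ofPowerSeries_apply_coeff (Γ := ℤ)
      (PowerSeries.mk fun n => f.coeff (n : ℤ)) m
    simpa using h1

theorem exists_ofPS_of_order (f : LaurentSeries k) (h : 0 ≤ f.order) :
    ∃ F : PowerSeries k, ofPS F = f := by
  apply exists_ofPS
  intro n hn
  apply HahnSeries.coeff_eq_zero_of_lt_order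
  omega

/-- `τ d/dτ` on power series -/
noncomputable def eulerP (F : PowerSeries k) : PowerSeries k :=
  PowerSeries.mk fun n => (n : k) * PowerSeries.coeff n F

theorem constantCoeff_eulerP (F : PowerSeries k) : PowerSeries.constantCoeff (eulerP F) = 0 := by
  rw [← PowerSeries.coeff_zero_eq_constantCoeff_apply, eulerP, PowerSeries.coeff_mk]
  simp

theorem ofPS_coeff (F : PowerSeries k) (n : ℕ) : (ofPS F).coeff (n : ℤ) = PowerSeries.coeff n F := by
  have h1 := HahnSeries.ofPowerSeries_apply_coeff (Γ := ℤ) F n
  exact h1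

theorem euler_ofPS (F : PowerSeries k) : euler (ofPS F) = ofPS (eulerP F) := by
  ext n
  rw [euler_coeff]
  rcases lt_or_ge n 0 with hn | hn
  · rw [ofPS_coeff_neg _ n hn, ofPS_coeff_neg _ n hn, mul_zero]
  · obtain ⟨m, rfl⟩ := Int.eq_ofNat_of_zero_le hn
    rw [ofPS_coeff, ofPS_coeff, eulerP, PowerSeries.coeff_mk]
    simp

/-- The logarithmic derivative is a power series with constant term the order. -/
theorem euler_div (f : LaurentSeries k) (hf : f ≠ 0) :
    ∃ H : PowerSeries k, euler f / f = ofPS H ∧
      PowerSeries.constantCoeff H = ((f.order : ℤ) : k) := by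
  set G := f.powerSeriesPart with hG
  have hfG : (HahnSeries.single f.order 1 : LaurentSeries k) * ofPS G = f :=
    LaurentSeries.single_order_mul_powerSeriesPart f
  have hG0 : PowerSeries.constantCoeff G ≠ 0 := by
    rw [← PowerSeries.coeff_zero_eq_constantCoeff_apply, hG, LaurentSeries.powerSeriesPart_coeff]
    simp only [Nat.cast_zero, add_zero]
    rw [Ne, HahnSeries.coeff_order_eq_zero]
    exact hf
  have hs : (HahnSeries.single f.order 1 : LaurentSeries k) ≠ 0 := by
    rw [Ne, HahnSeries.single_eq_zero_iff]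
    exact one_ne_zero
  have hGne : ofPS G ≠ 0 := by
    intro h
    rw [map_eq_zero_iff _ ofPS_injective] at h
    rw [h] at hG0
    simp at hG0
  have hinv : ofPS G * ofPS G⁻¹ = 1 := by
    rw [← map_mul, PowerSeries.mul_inv_cancel _ hG0, map_one]
  generalize f.order = n at *
  refine ⟨PowerSeries.C ((n : ℤ) : k) + eulerP G * G⁻¹, ?_, ?_⟩
  · have h1 : euler f = (HahnSeries.C ((n : ℤ) : k) : LaurentSeries k) * f +
        (HahnSeries.single n 1 : LaurentSeries k) * ofPS (eulerP G) := by
      conv_lhs => rw [← hfG]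
      rw [euler_mul, euler_single, euler_ofPS]
      congr 1
      conv_rhs => rw [← hfG]
      rw [← mul_assoc]
      congr 1
      rw [HahnSeries.C_apply, HahnSeries.single_mul_single, zero_add]
    rw [div_eq_iff hf, h1, map_add, map_mul, add_mul]
    congr 1
    · rw [ofPS, HahnSeries.ofPowerSeries_C]
    · conv_rhs => rw [← hfG]
      calc (HahnSeries.single n 1 : LaurentSeries k) * ofPS (eulerP G)
          = (HahnSeries.single n 1 : LaurentSeries k) * ofPS (eulerP G) *
            (ofPS G * ofPS G⁻¹) := by rw [hinv, mul_one]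
        _ = _ := by ring
  · rw [map_add, map_mul, constantCoeff_eulerP, zero_mul, add_zero, PowerSeries.constantCoeff_C]

/-- The order relation: a weighted sum of logarithmic derivatives. -/
theorem sum_order_eq_zero {I : Type*} [Fintype I] (D : I → PowerSeries k)
    (Q : I → LaurentSeries k) (hQ : ∀ i, Q i ≠ 0) (S : PowerSeries k)
    (hS : PowerSeries.constantCoeff S = 0)
    (h : ∑ i, ofPS (D i) * (euler (Q i) / Q i) = ofPS S) :
    ∑ i, PowerSeries.constantCoeff (D i) * (((Q i).order : ℤ) : k) = 0 := by
  choose H hH hH0 using fun i => euler_div (Q i) (hQ i)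
  have h1 : ofPS (∑ i, D i * H i) = ofPS S := by
    rw [← h, map_sum]
    exact Finset.sum_congr rfl fun i _ => by rw [map_mul, hH]
  have h2 := ofPS_injective h1
  rw [← hS, ← h2, map_sum]
  exact Finset.sum_congr rfl fun i _ => by rw [map_mul, hH0]

/-- The critical equations force a rational relation between the data. -/
theorem sum_order_eq_zero' {I J : Type*} [Fintype I] [Fintype J] (D : I → J → PowerSeries k)
    (P : I → J → LaurentSeries k) (hP : ∀ i j, P i j ≠ 0)
    (h1 : ∑ i, ∑ j, (ofPS (D i j) / P i j - 1) * euler (P i j) = 0)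
    (h2 : ∑ i, ∑ j, (ofPS (D i j) / P i j - 1) * P i j = 0) :
    ∑ i, ∑ j, PowerSeries.constantCoeff (D i j) * (((P i j).order : ℤ) : k) = 0 := by
  have h3 : ∑ i, ∑ j, P i j = ofPS (∑ i, ∑ j, D i j) := by
    rw [map_sum]
    have h4 : ∑ i, (ofPS (∑ j, D i j) - ∑ j, P i j) = 0 := by
      rw [← h2]
      refine Finset.sum_congr rfl fun i _ => ?_
      rw [map_sum, ← Finset.sum_sub_distrib]
      refine Finset.sum_congr rfl fun j _ => ?_
      have := hP i j
      field_simp
    rw [Finset.sum_sub_distrib, sub_eq_zero] at h4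
    exact h4.symm
  have h5 : ∑ i, ∑ j, ofPS (D i j) * (euler (P i j) / P i j) =
      ofPS (eulerP (∑ i, ∑ j, D i j)) := by
    rw [← euler_ofPS, ← h3, euler_sum]
    have h6 : ∑ i, ∑ j, ofPS (D i j) * (euler (P i j) / P i j) -
        ∑ i, ∑ j, euler (P i j) = 0 := by
      rw [← h1, ← Finset.sum_sub_distrib]
      refine Finset.sum_congr rfl fun i _ => ?_
      rw [← Finset.sum_sub_distrib]
      exact Finset.sum_congr rfl fun j _ => by ring
    rw [sub_eq_zero] at h6
    rw [h6]
    exact Finset.sum_congr rfl fun i _ => (euler_sum _ _).symm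
  have h7 := sum_order_eq_zero (fun x : I × J => D x.1 x.2) (fun x => P x.1 x.2)
    (fun x => hP x.1 x.2) (eulerP (∑ i, ∑ j, D i j)) (constantCoeff_eulerP _) (by
      rw [Fintype.sum_prod_type]
      exact h5)
  rw [Fintype.sum_prod_type] at h7
  exact h7

/-- The Euler derivative of a matrix. -/
noncomputable def eulerM {a b : Type*} (P : Matrix a b (LaurentSeries k)) :
    Matrix a b (LaurentSeries k) := P.map euler

theorem eulerM_mul {a b c : Type*} [Fintype b] (P : Matrix a b (LaurentSeries k))
    (Q : Matrix b c (LaurentSeries k)) : eulerM (P * Q) = eulerM P * Q + P * eulerM Q := by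
  ext i j
  simp only [eulerM, Matrix.map_apply, Matrix.mul_apply, Matrix.add_apply, euler_sum, euler_mul,
    Finset.sum_add_distrib]

/-- The matrix form. -/
theorem no_escape {I J ρ : Type*} [Fintype I] [Fintype J] [Fintype ρ]
    (D : I → J → PowerSeries k) (X : Matrix I ρ (LaurentSeries k))
    (Y : Matrix ρ J (LaurentSeries k)) (hP : ∀ i j, (X * Y) i j ≠ 0)
    (hX : (Matrix.of fun i j => ofPS (D i j) / (X * Y) i j - 1)ᵀ * X = 0)
    (hY : Y * (Matrix.of fun i j => ofPS (D i j) / (X * Y) i j - 1)ᵀ = 0) :
    ∑ i, ∑ j, PowerSeries.constantCoeff (D i j) * ((((X * Y) i j).order : ℤ) : k) = 0 := by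
  set G := Matrix.of fun i j => ofPS (D i j) / (X * Y) i j - 1 with hG
  have key : ∀ M : Matrix I J (LaurentSeries k), ∑ i, ∑ j, G i j * M i j = (Gᵀ * M).trace := by
    intro M
    rw [Matrix.trace, Finset.sum_comm]
    exact Finset.sum_congr rfl fun j _ => by
      rw [Matrix.diag_apply, Matrix.mul_apply]
      rfl
  apply sum_order_eq_zero' D (fun i j => (X * Y) i j) hP
  · have h1 := key (eulerM (X * Y))
    rw [eulerM_mul, Matrix.mul_add, ← Matrix.mul_assoc, ← Matrix.mul_assoc, hX, Matrix.zero_mul,
      add_zero, Matrix.mul_assoc, Matrix.trace_mul_comm, Matrix.mul_assoc, hY, Matrix.mul_zero,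
      Matrix.trace_zero, ← eulerM_mul] at h1
    exact h1
  · have h1 := key (X * Y)
    rw [← Matrix.mul_assoc, hX, Matrix.zero_mul, Matrix.trace_zero] at h1
    exact h1

/-- The column form, with a constant column space. -/
theorem no_escape_col {I ρ : Type*} [Fintype I] [Fintype ρ]
    (D : I → k) (X : Matrix I ρ k) (y : ρ → LaurentSeries k)
    (hP : ∀ i, ∑ a, HahnSeries.C (X i a) * y a ≠ 0)
    (hX : ∀ a, ∑ i, (HahnSeries.C (D i) / (∑ b, HahnSeries.C (X i b) * y b) - 1) *
      (HahnSeries.C (X i a) : LaurentSeries k) = 0) :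
    ∑ i, D i * (((∑ a, HahnSeries.C (X i a) * y a : LaurentSeries k).order : ℤ) : k) = 0 := by
  have key : ∀ z : ρ → LaurentSeries k,
      ∑ i, (HahnSeries.C (D i) / (∑ b, HahnSeries.C (X i b) * y b) - 1) *
        (∑ a, (HahnSeries.C (X i a) : LaurentSeries k) * z a) = 0 := by
    intro z
    simp only [Finset.mul_sum]
    rw [Finset.sum_comm]
    apply Finset.sum_eq_zero
    intro a _
    have h1 := hX a
    have h2 := congrArg (fun t => t * z a) h1
    simp only [Finset.sum_mul, zero_mul] at h2
    rw [← h2]
    exact Finset.sum_congr rfl fun i _ => by ring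
  have h1 := sum_order_eq_zero' (J := Unit) (fun i _ => PowerSeries.C (D i))
    (fun i _ => ∑ a, HahnSeries.C (X i a) * y a) (fun i _ => hP i) (by
      simp only [Finset.univ_unique, Finset.sum_singleton, ofPS, HahnSeries.ofPowerSeries_C]
      have h2 := key fun a => euler (y a)
      rw [← h2]
      refine Finset.sum_congr rfl fun i _ => ?_
      congr 1
      rw [euler_sum]
      refine Finset.sum_congr rfl fun a _ => ?_
      rw [euler_mul, euler_C, zero_mul, zero_add]) (by
      simp only [Finset.univ_unique, Finset.sum_singleton, ofPS, HahnSeries.ofPowerSeries_C]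
      exact key y)
  simp only [Finset.univ_unique, Finset.sum_singleton, PowerSeries.constantCoeff_C] at h1
  exact h1

/-- No escape: entries of a critical point are units. -/
theorem val_zero [CharZero k] [Algebra ℚ k] {I J ρ : Type*} [Fintype I] [Fintype J] [Fintype ρ]
    (X : Matrix I ρ (LaurentSeries k)) (Y : Matrix ρ J (LaurentSeries k))
    (g : Matrix I J (LaurentSeries k)) (D : Matrix I J (PowerSeries k))
    (hX : gᵀ * X = 0) (hY : Y * gᵀ = 0)
    (hD : ∀ i j, (X * Y) i j * (1 + g i j) = ofPS (D i j))
    (hlin : LinearIndependent ℚ (fun a : I × J => PowerSeries.constantCoeff (D a.1 a.2))) :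
    ∀ i j, (X * Y) i j ≠ 0 ∧ ((X * Y) i j).order = 0 := by
  have hne : ∀ i j, (X * Y) i j ≠ 0 := by
    intro i j h
    have h1 := hD i j
    rw [h, zero_mul] at h1
    have h2 : D i j = 0 := by
      apply ofPS_injective
      rw [← h1, map_zero]
    have h3 := hlin.ne_zero (i, j)
    rw [h2, map_zero] at h3
    exact h3 rfl
  have hg : g = Matrix.of fun i j => ofPS (D i j) / (X * Y) i j - 1 := by
    ext1 i j
    rw [Matrix.of_apply, ← hD i j, mul_div_cancel_left₀ _ (hne i j)]
    ring
  rw [hg] at hX hY
  have h1 := no_escape (fun i j => D i j) X Y hne hX hY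
  rw [Fintype.linearIndependent_iff] at hlin
  have h2 := hlin (fun a => ((((X * Y) a.1 a.2).order : ℤ) : ℚ)) (by
    rw [Fintype.sum_prod_type, ← h1]
    refine Finset.sum_congr rfl fun i _ => Finset.sum_congr rfl fun j _ => ?_
    rw [Algebra.smul_def, map_intCast, mul_comm])
  intro i j
  refine ⟨hne i j, ?_⟩
  exact_mod_cast h2 (i, j)

end V

end Pool.ML
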