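import Pool.Agent.ML61.Defs
import Pool.Agent.ML61.Val
import Pool.Agent.ML61.Place

/-!
# The extra columns: `y` and `g` are algebraic over `ℚ(A, w)`
-/

set_option linter.unusedSectionVars false
set_option linter.unusedVariables false

namespace Pool.ML

open Matrix

theorem isAlgebraic_of_incl {K₁ K₂ : Type} [Field K₁] [Field K₂] [Algebra K₁ ℂ] [Algebra K₂ ℂ]
    (φ : K₁ →+* K₂) (hφ : ∀ a, algebraMap K₂ ℂ (φ a) = algebraMap K₁ ℂ a) {z : ℂ}
    (h : IsAlgebraic K₁ z) : IsAlgebraic K₂ z := by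
  letI := φ.toAlgebra
  haveI : IsScalarTower K₁ K₂ ℂ := IsScalarTower.of_algebraMap_eq fun a => (hφ a).symm
  exact h.extendScalars φ.injective

theorem transcendental_of_notMem_acl {T : Set ℂ} {z : ℂ} (hz : z ∉ acl T) :
    Transcendental (acl T) z := by
  intro h
  apply hz
  have h1 : z ∈ acl (acl T : Set ℂ) := by
    rw [mem_acl]
    refine isAlgebraic_of_incl (K₁ := acl T)
      (K₂ := IntermediateField.adjoin ℚ (acl T : Set ℂ))
      (IntermediateField.inclusion (IntermediateField.subset_adjoin ℚ (acl T : Set ℂ))).toRingHom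
      (fun a => rfl) h
  exact acl_le (subset_refl _) h1

theorem isAlgebraic_adjoin_of_mem_acl {T : Set ℂ} {z y : ℂ} (hy : y ∈ acl (insert z T)) :
    IsAlgebraic (IntermediateField.adjoin (acl T) {z}) y := by
  rw [mem_acl] at hy
  have h1 : IntermediateField.adjoin ℚ (insert z T) ≤
      (IntermediateField.adjoin (acl T) {z}).restrictScalars ℚ := by
    rw [IntermediateField.adjoin_le_iff]
    intro a ha
    rw [SetLike.mem_coe, IntermediateField.mem_restrictScalars]
    rcases ha with ha | ha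
    · rw [ha]
      exact IntermediateField.mem_adjoin_simple_self (acl T) z
    · exact (IntermediateField.adjoin (acl T) {z}).algebraMap_mem (⟨a, subset_acl T ha⟩ : acl T)
  exact isAlgebraic_of_incl (K₁ := IntermediateField.adjoin ℚ (insert z T))
    (K₂ := IntermediateField.adjoin (acl T) {z})
    (IntermediateField.inclusion h1).toRingHom (fun a => rfl) hy

variable {ρ σ κ ε : Type} [Fintype ρ] [Fintype σ] [Fintype κ] [Fintype ε]
  [DecidableEq ρ] [DecidableEq σ] [DecidableEq κ] [DecidableEq ε]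

theorem NA_transpose_mul_LA {R : Type} [CommRing R] (A : Matrix σ ρ R) : (NA A)ᵀ * LA A = 0 := by
  rw [NA, LA, Matrix.transpose_fromRows, Matrix.fromCols_mul_fromRows]
  simp

theorem sum_NA_LA (A : Matrix σ ρ ℂ) (g : σ → ℂ) (a : ρ) :
    ∑ i, (NA A *ᵥ g) i * LA A i a = 0 := by
  have h : (NA A *ᵥ g) ᵥ* LA A = 0 := by
    rw [← Matrix.vecMul_transpose, Matrix.vecMul_vecMul, NA_transpose_mul_LA, Matrix.vecMul_zero]
  exact congrFun h a

theorem fib_alg (A : Matrix σ ρ ℂ) (w : ρ ⊕ σ → ℂ) (hw : LinearIndependent ℚ w) (y : ρ → ℂ)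
    (g : σ → ℂ) (h : ∀ i, (LA A *ᵥ y) i * (1 + (NA A *ᵥ g) i) = w i) :
    (∀ k, y k ∈ acl (Set.range (fun x : σ × ρ => A x.1 x.2) ∪ Set.range w)) ∧
    (∀ t, g t ∈ acl (Set.range (fun x : σ × ρ => A x.1 x.2) ∪ Set.range w)) := by
  set T := Set.range (fun x : σ × ρ => A x.1 x.2) ∪ Set.range w with hT
  have hA : ∀ s k, A s k ∈ acl T := fun s k => subset_acl T (Or.inl ⟨(s, k), rfl⟩)
  have hwT : ∀ i, w i ∈ acl T := fun i => subset_acl T (Or.inr ⟨i, rfl⟩)
  have hw0 : ∀ i, w i ≠ 0 := hw.ne_zero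
  have hq0 : ∀ i, (LA A *ᵥ y) i ≠ 0 := fun i hi => hw0 i (by rw [← h i, hi, zero_mul])
  have hLA : ∀ i k, LA A i k ∈ acl T := by
    intro i k
    rcases i with i | i
    · simp only [LA, Matrix.fromRows_apply_inl, Matrix.one_apply]
      split_ifs
      · exact one_mem _
      · exact zero_mem _
    · exact hA i k
  have hy : ∀ k, y k ∈ acl T := by
    by_contra hcon
    push Not at hcon
    obtain ⟨k₀, hk₀⟩ := hcon
    obtain ⟨T', hTT', hz, hF⟩ := exists_acl_basis T (y k₀) hk₀ (Finset.univ.image y ∪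
      Finset.univ.image g)
    haveI := isAlgClosed_acl T'
    have hTT : acl T ≤ acl T' := acl_mono hTT'
    obtain ⟨F, f, hxF, hSF, hC, hord⟩ := exists_place (acl T') ℂ (y k₀)
      (transcendental_of_notMem_acl hz) (Finset.univ.image y ∪ Finset.univ.image g)
      (fun s hs => isAlgebraic_adjoin_of_mem_acl (hF s hs))
    have hyF : ∀ k, y k ∈ F := fun k => hSF _ (Finset.mem_union_left _
      (Finset.mem_image_of_mem _ (Finset.mem_univ _)))
    have hgF : ∀ t, g t ∈ F := fun t => hSF _ (Finset.mem_union_right _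
      (Finset.mem_image_of_mem _ (Finset.mem_univ _)))
    -- constants
    let X : Matrix (ρ ⊕ σ) ρ (acl T') := Matrix.of fun i k => ⟨LA A i k, hTT (hLA i k)⟩
    let D : ρ ⊕ σ → acl T' := fun i => ⟨w i, hTT (hwT i)⟩
    let Y : ρ → F := fun k => ⟨y k, hyF k⟩
    let Q : ρ ⊕ σ → F := fun i => ∑ a, algebraMap (acl T') F (X i a) * Y a
    have hQ : ∀ i, ((Q i : F) : ℂ) = (LA A *ᵥ y) i := by
      intro i
      simp only [Q, Matrix.mulVec, dotProduct]
      rw [← IntermediateField.coe_val, map_sum]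
      rfl
    have hQ0 : ∀ i, Q i ≠ 0 := by
      intro i hi
      apply hq0 i
      rw [← hQ i, hi]
      rfl
    have hfQ : ∀ i, f (Q i) = ∑ a, HahnSeries.C (X i a) * f (Y a) := by
      intro i
      simp only [Q]
      rw [map_sum]
      exact Finset.sum_congr rfl fun a _ => by rw [map_mul, hC]
    have key := no_escape_col D X (fun a => f (Y a)) (by
      intro i
      rw [← hfQ]
      exact (map_ne_zero f).mpr (hQ0 i)) (by
      intro a
      have h1 : ∑ i, (algebraMap (acl T') F (D i) / Q i - 1) * algebraMap (acl T') F (X i a) =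
          0 := by
        apply Subtype.ext
        have h2 : ∀ i, ((algebraMap (acl T') F (D i) / Q i - 1 : F) : ℂ) = (NA A *ᵥ g) i := by
          intro i
          have h3 : ((algebraMap (acl T') F (D i) / Q i - 1 : F) : ℂ) =
              w i / ((Q i : F) : ℂ) - 1 := rfl
          rw [h3, hQ, ← h i, mul_div_cancel_left₀ _ (hq0 i)]
          ring
        show F.val (∑ i, (algebraMap (acl T') F (D i) / Q i - 1) *
          algebraMap (acl T') F (X i a)) = 0
        rw [map_sum, ← sum_NA_LA A g a]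
        refine Finset.sum_congr rfl fun i _ => ?_
        rw [map_mul]
        exact congrArg₂ (· * ·) (h2 i) rfl
      have h5 := congrArg f h1
      rw [map_sum, map_zero] at h5
      rw [← h5]
      refine Finset.sum_congr rfl fun i _ => ?_
      rw [map_mul, map_sub, map_div₀, hC, hC, map_one, hfQ])
    have h6 : ∀ i, (f (Q i)).order = 0 := by
      have h7 := congrArg (acl T').val key
      rw [map_sum, map_zero] at h7
      have h8 : ∑ i, (((f (Q i)).order : ℤ) : ℚ) • w i = 0 := by
        rw [← h7]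
        refine Finset.sum_congr rfl fun i _ => ?_
        rw [map_mul, map_intCast, ← hfQ, Algebra.smul_def, mul_comm]
        congr 1
      intro i
      have h9 := Fintype.linearIndependent_iff.mp hw _ h8 i
      exact_mod_cast h9
    have h8 : Q (Sum.inl k₀) = ⟨y k₀, hxF⟩ := by
      apply Subtype.ext
      rw [hQ]
      simp [LA, Matrix.fromRows_mulVec]
    have h9 := h6 (Sum.inl k₀)
    rw [h8] at h9
    rw [h9] at hord
    exact lt_irrefl _ hord
  refine ⟨hy, fun t => ?_⟩
  have h1 : (LA A *ᵥ y) (Sum.inr t) ∈ acl T := by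
    simp only [Matrix.mulVec, dotProduct]
    exact sum_mem fun k _ => mul_mem (hLA _ _) (hy k)
  have h2 : g t = w (Sum.inr t) / (LA A *ᵥ y) (Sum.inr t) - 1 := by
    have h3 := h (Sum.inr t)
    have h4 : (NA A *ᵥ g) (Sum.inr t) = g t := by
      simp [NA, Matrix.fromRows_mulVec]
    rw [h4] at h3
    rw [← h3, mul_div_cancel_left₀ _ (hq0 _)]
    ring
  rw [h2]
  exact sub_mem (div_mem (hwT _) h1) (one_mem _)

end Pool.ML
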