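import Pool.Agent.ML61.Acl

/-!
# Derivations of the complex numbers
-/

set_option linter.unusedSectionVars false
set_option linter.unusedSimpArgs false

namespace Pool.ML

open KaehlerDifferential TensorProduct

/-- A derivation is determined on a formally étale extension and extends to it. -/
theorem exists_derivation_of_formallyEtale (S : Type) [CommRing S] [Algebra ℚ S] [Algebra S ℂ]
    [IsScalarTower ℚ S ℂ] [Algebra.FormallyEtale S ℂ] (d : Derivation ℚ S ℂ) :
    ∃ D : Derivation ℚ ℂ ℂ, ∀ s, D (algebraMap S ℂ s) = d s := by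
  let l : ℂ ⊗[S] Ω[S⁄ℚ] →ₗ[ℂ] ℂ := d.liftKaehlerDifferential.liftBaseChange ℂ
  let e := KaehlerDifferential.tensorKaehlerEquivOfFormallyEtale ℚ S ℂ
  refine ⟨(l.comp (e.symm : Ω[ℂ⁄ℚ] →ₗ[ℂ] ℂ ⊗[S] Ω[S⁄ℚ])).compDer (KaehlerDifferential.D ℚ ℂ), ?_⟩
  intro s
  change l (e.symm (KaehlerDifferential.D ℚ ℂ (algebraMap S ℂ s))) = d s
  rw [KaehlerDifferential.tensorKaehlerEquivOfFormallyEtale_symm_D_algebraMap]
  change d.liftKaehlerDifferential.liftBaseChange ℂ (1 ⊗ₜ[S] KaehlerDifferential.D ℚ S s) = d s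
  rw [LinearMap.liftBaseChange_tmul, one_smul, Derivation.liftKaehlerDifferential_comp_D]

theorem exists_derivation {ι : Type} [Finite ι] (x : ι → ℂ) (hx : AlgebraicIndependent ℚ x)
    (v : ι → ℂ) : ∃ D : Derivation ℚ ℂ ℂ, ∀ i, D (x i) = v i := by
  classical
  obtain ⟨s, hxs, hs⟩ := exists_isTranscendenceBasis_superset hx.to_subtype_range
  let A := MvPolynomial s ℚ
  let K := FractionRing A
  have hinj : Function.Injective (MvPolynomial.aeval (R := ℚ) ((↑) : s → ℂ)) :=
    algebraicIndependent_iff_injective_aeval.mp hs.1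
  let : Algebra A ℂ := (MvPolynomial.aeval (R := ℚ) ((↑) : s → ℂ)).toRingHom.toAlgebra
  have hA : ∀ a : A, algebraMap A ℂ a = MvPolynomial.aeval ((↑) : s → ℂ) a := fun _ => rfl
  have ht1 : IsScalarTower ℚ A ℂ := IsScalarTower.of_algebraMap_eq fun q => by
    rw [hA, AlgHom.commutes]
  let : Algebra K ℂ := (IsFractionRing.lift (K := K) (g := algebraMap A ℂ) hinj).toAlgebra
  have ht2 : IsScalarTower A K ℂ := IsScalarTower.of_algebraMap_eq fun a =>
    (IsFractionRing.lift_algebraMap (K := K) (g := algebraMap A ℂ) hinj a).symm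
  have halgA : ∀ z : ℂ, IsAlgebraic A z := by
    intro z
    have h1 := hs.isAlgebraic.isAlgebraic z
    obtain ⟨p, hp, hpz⟩ := h1
    let e : A ≃+* Algebra.adjoin ℚ (Set.range ((↑) : s → ℂ)) := hs.1.aevalEquiv.toRingEquiv
    have he : ∀ a : A, ((e a : Algebra.adjoin ℚ (Set.range ((↑) : s → ℂ))) : ℂ) =
        algebraMap A ℂ a := by
      intro a
      rw [hA]
      exact hs.1.algebraMap_aevalEquiv a
    refine ⟨p.map (e.symm : _ →+* A), ?_, ?_⟩
    · rw [Ne, Polynomial.map_eq_zero_iff (e.symm : _ ≃+* A).injective]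
      exact hp
    · rw [Polynomial.aeval_def, Polynomial.eval₂_map]
      rw [Polynomial.aeval_def] at hpz
      rw [← hpz]
      congr 1
      ext b
      change algebraMap A ℂ (e.symm b) = (b : ℂ)
      rw [← he, RingEquiv.apply_symm_apply]
  have halg : Algebra.IsAlgebraic K ℂ :=
    ⟨fun z => (IsFractionRing.isAlgebraic_iff A K ℂ).mp (halgA z)⟩
  have hcz : CharZero K := charZero_of_injective_algebraMap (IsFractionRing.injective A K)
  have hsep : Algebra.IsSeparable K ℂ := Algebra.IsAlgebraic.isSeparable_of_perfectField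
  have h1 : Algebra.FormallyEtale A K := Algebra.FormallyEtale.of_isLocalization (nonZeroDivisors A)
  have h2 : Algebra.FormallyEtale K ℂ := Algebra.FormallyEtale.of_isSeparable K ℂ
  have h3 : Algebra.FormallyEtale A ℂ := Algebra.FormallyEtale.comp A K ℂ
  let f : s → ℂ := fun a => if h : ∃ i, x i = a then v h.choose else 0
  obtain ⟨D, hD⟩ := exists_derivation_of_formallyEtale A (MvPolynomial.mkDerivation ℚ f)
  refine ⟨D, fun i => ?_⟩
  have h4 := hD (MvPolynomial.X ⟨x i, hxs ⟨i, rfl⟩⟩)
  rw [hA, MvPolynomial.aeval_X, MvPolynomial.mkDerivation_X] at h4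
  rw [h4]
  have h5 : ∃ j, x j = x i := ⟨i, rfl⟩
  change (if h : ∃ j, x j = x i then v h.choose else 0) = v i
  rw [dif_pos h5]
  exact congrArg v (hx.injective h5.choose_spec)

/-- A derivation vanishing on `T` vanishes on the numbers algebraic over `ℚ(T)`. -/
theorem derivation_acl (D : Derivation ℚ ℂ ℂ) (T : Set ℂ) (h : ∀ t ∈ T, D t = 0) (z : ℂ)
    (hz : z ∈ acl T) : D z = 0 := by
  rw [mem_acl] at hz
  have h0 : ∀ a ∈ IntermediateField.adjoin ℚ T, D a = 0 := by
    intro a ha
    induction ha using IntermediateField.adjoin_induction with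
    | mem a ha => exact h a ha
    | algebraMap q => exact D.map_algebraMap q
    | add a b _ _ ha hb => rw [map_add, ha, hb, add_zero]
    | inv a _ ha => rw [Derivation.leibniz_inv, ha, smul_zero]
    | mul a b _ _ ha hb => rw [Derivation.leibniz, ha, hb, smul_zero, smul_zero, add_zero]
  let D' : Derivation (IntermediateField.adjoin ℚ T) ℂ ℂ :=
    { toFun := D
      map_add' := D.map_add
      map_smul' := by
        intro k a
        rw [RingHom.id_apply, Algebra.smul_def, Derivation.leibniz]
        have h1 : D (algebraMap (IntermediateField.adjoin ℚ T) ℂ k) = 0 := h0 _ k.2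
        rw [h1, smul_zero, add_zero, Algebra.smul_def]
        rfl
      map_one_eq_zero' := D.map_one_eq_zero
      leibniz' := D.leibniz }
  set p := minpoly (IntermediateField.adjoin ℚ T) z with hp
  have hint : IsIntegral (IntermediateField.adjoin ℚ T) z := hz.isIntegral
  have h2 := D'.map_aeval p z
  rw [hp, minpoly.aeval, map_zero] at h2
  have h3 : (minpoly (IntermediateField.adjoin ℚ T) z).Separable :=
    (minpoly.irreducible hint).separable
  have h4 := h3.aeval_derivative_ne_zero (minpoly.aeval _ z)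
  exact (smul_eq_zero.mp h2.symm).resolve_left h4

end Pool.ML
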