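import Mathlib

/-!
# Automorphisms of the complex numbers over a subfield
-/

set_option linter.unusedSectionVars false
set_option linter.unusedSimpArgs false

namespace Pool.ML

section aut

variable {k : Type} [Field k] [Algebra k ℂ]

/-- Two numbers transcendental over `k` are conjugate over `k`. -/
theorem exists_autom_move (t t' : ℂ) (ht : Transcendental k t) (ht' : Transcendental k t') :
    ∃ σ : ℂ ≃ₐ[k] ℂ, σ t = t' := by
  classical
  have hx : AlgebraicIndependent k (fun _ : Unit => t) :=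
    (algebraicIndependent_unique_type_iff).mpr ht
  have hx' : AlgebraicIndependent k (fun _ : Unit => t') :=
    (algebraicIndependent_unique_type_iff).mpr ht'
  obtain ⟨s, hvs, hs⟩ := exists_isTranscendenceBasis_superset hx.to_subtype_range
  obtain ⟨s', hvs', hs'⟩ := exists_isTranscendenceBasis_superset hx'.to_subtype_range
  let b : s := ⟨t, hvs ⟨(), rfl⟩⟩
  let b' : s' := ⟨t', hvs' ⟨(), rfl⟩⟩
  have hne : Nonempty (s ≃ s') := by
    rw [← Cardinal.eq]
    exact hs.cardinalMk_eq hs'
  obtain ⟨e0⟩ := hne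
  let e : s ≃ s' := e0.trans (Equiv.swap (e0 b) b')
  have heb : e b = b' := by
    change Equiv.swap (e0 b) b' (e0 b) = b'
    rw [Equiv.swap_apply_left]
  let := IsAlgClosed.isAlgClosure_of_transcendence_basis _ hs
  let := IsAlgClosed.isAlgClosure_of_transcendence_basis _ hs'
  let r : MvPolynomial s k ≃ₐ[k] MvPolynomial s' k := MvPolynomial.renameEquiv k e
  let E0 : Algebra.adjoin k (Set.range ((↑) : s → ℂ)) ≃ₐ[k]
      Algebra.adjoin k (Set.range ((↑) : s' → ℂ)) :=
    hs.1.aevalEquiv.symm.trans (r.trans hs'.1.aevalEquiv)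
  let E := E0.toRingEquiv
  have hk : ∀ a : k, IsAlgClosure.equivOfEquiv ℂ ℂ E (algebraMap k ℂ a) = algebraMap k ℂ a := by
    intro a
    have h1 := IsAlgClosure.equivOfEquiv_algebraMap ℂ ℂ E
      (algebraMap k (Algebra.adjoin k (Set.range ((↑) : s → ℂ))) a)
    have h2 : E (algebraMap k (Algebra.adjoin k (Set.range ((↑) : s → ℂ))) a) =
        algebraMap k _ a := E0.commutes a
    rw [h2] at h1
    exact h1
  refine ⟨AlgEquiv.ofRingEquiv (f := IsAlgClosure.equivOfEquiv ℂ ℂ E) hk, ?_⟩
  change IsAlgClosure.equivOfEquiv ℂ ℂ E t = t'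
  have hmem : t ∈ Algebra.adjoin k (Set.range ((↑) : s → ℂ)) :=
    Algebra.subset_adjoin ⟨b, rfl⟩
  have h1 := IsAlgClosure.equivOfEquiv_algebraMap ℂ ℂ E ⟨t, hmem⟩
  have h2 : algebraMap (Algebra.adjoin k (Set.range ((↑) : s → ℂ))) ℂ ⟨t, hmem⟩ = t := rfl
  rw [h2] at h1
  rw [h1]
  have h3 : hs.1.aevalEquiv.symm ⟨t, hmem⟩ = MvPolynomial.X b := by
    rw [AlgEquiv.symm_apply_eq]
    apply Subtype.ext
    simp [b]
  have h4 : E ⟨t, hmem⟩ = hs'.1.aevalEquiv (r (hs.1.aevalEquiv.symm ⟨t, hmem⟩)) := rfl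
  rw [h4, h3]
  have h5 : r (MvPolynomial.X b) = MvPolynomial.X b' := by
    simp only [r, MvPolynomial.renameEquiv_apply, MvPolynomial.rename_X]
    rw [heb]
  rw [h5]
  change ((hs'.1.aevalEquiv (MvPolynomial.X b') : Algebra.adjoin k
    (Set.range ((↑) : s' → ℂ))) : ℂ) = t'
  simp [b']

/-- An automorphism of a subfield extends. -/
theorem exists_autom_extend {L : Type} [Field L] [Algebra L ℂ] (τ : L ≃+* L) :
    ∃ σ : ℂ ≃+* ℂ, ∀ a : L, σ (algebraMap L ℂ a) = algebraMap L ℂ (τ a) := by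
  classical
  obtain ⟨s, hs⟩ := exists_isTranscendenceBasis L ℂ
  let := IsAlgClosed.isAlgClosure_of_transcendence_basis _ hs
  let r : MvPolynomial s L ≃+* MvPolynomial s L := MvPolynomial.mapEquiv s τ
  let E : Algebra.adjoin L (Set.range ((↑) : s → ℂ)) ≃+*
      Algebra.adjoin L (Set.range ((↑) : s → ℂ)) :=
    (hs.1.aevalEquiv.symm.toRingEquiv).trans (r.trans hs.1.aevalEquiv.toRingEquiv)
  refine ⟨IsAlgClosure.equivOfEquiv ℂ ℂ E, fun a => ?_⟩
  have h1 := IsAlgClosure.equivOfEquiv_algebraMap ℂ ℂ E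
    (algebraMap L (Algebra.adjoin L (Set.range ((↑) : s → ℂ))) a)
  have h2 : E (algebraMap L (Algebra.adjoin L (Set.range ((↑) : s → ℂ))) a) =
      algebraMap L _ (τ a) := by
    change hs.1.aevalEquiv (MvPolynomial.map (τ : L →+* L) (hs.1.aevalEquiv.symm
      (algebraMap L _ a))) = _
    rw [AlgEquiv.commutes, MvPolynomial.algebraMap_eq, MvPolynomial.map_C,
      ← MvPolynomial.algebraMap_eq, AlgEquiv.commutes]
    rfl
  rw [h2] at h1
  exact h1

/-- A number not in the subfield `k` is moved by an automorphism over `k`. -/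
theorem exists_autom_ne (a : ℂ) (ha : ∀ b : k, algebraMap k ℂ b ≠ a) :
    ∃ σ : ℂ ≃ₐ[k] ℂ, σ a ≠ a := by
  have hck : CharZero k := ⟨fun a b h => by
    have h1 := congrArg (algebraMap k ℂ) h
    rw [map_natCast, map_natCast] at h1
    exact Nat.cast_injective h1⟩
  by_cases halg : IsAlgebraic k a
  · let L := algebraicClosure k ℂ
    have haL : a ∈ L := mem_algebraicClosure_iff.mpr halg
    have hcl : IsAlgClosure k L := algebraicClosure.isAlgClosure k ℂ
    have hac : IsAlgClosed L := hcl.isAlgClosed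
    have halgL : Algebra.IsAlgebraic k L := hcl.isAlgebraic
    have hn : Normal k L := normal_iff.mpr fun x =>
      ⟨(halgL.isAlgebraic x).isIntegral, IsAlgClosed.splits _⟩
    have hsep : Algebra.IsSeparable k L := Algebra.IsAlgebraic.isSeparable_of_perfectField
    have hg : IsGalois k L := ⟨⟩
    have h1 : (⟨a, haL⟩ : L) ∉ (⊥ : IntermediateField k L) := by
      intro h
      rw [IntermediateField.mem_bot] at h
      obtain ⟨b, hb⟩ := h
      exact ha b (congrArg Subtype.val hb)
    rw [InfiniteGalois.mem_bot_iff_fixed] at h1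
    push Not at h1
    obtain ⟨τ, hτ⟩ := h1
    obtain ⟨σ, hσ⟩ := exists_autom_extend τ.toRingEquiv
    refine ⟨AlgEquiv.ofRingEquiv (f := σ) ?_, ?_⟩
    · intro b
      have h2 := hσ (algebraMap k L b)
      have h3 : τ.toRingEquiv (algebraMap k L b) = algebraMap k L b := τ.commutes b
      rw [h3] at h2
      exact h2
    · intro h2
      have h3 := hσ ⟨a, haL⟩
      have h4 : σ (algebraMap L ℂ ⟨a, haL⟩) = a := h2
      rw [h4] at h3
      apply hτ
      apply Subtype.ext
      exact h3.symm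
  · have h1 : Transcendental k (a + 1) := by
      intro h
      apply halg
      have h2 : IsAlgebraic k (1 : ℂ) := isAlgebraic_one
      have h3 := h.sub h2
      rwa [add_sub_cancel_right] at h3
    obtain ⟨σ, hσ⟩ := exists_autom_move a (a + 1) halg h1
    refine ⟨σ, ?_⟩
    rw [hσ]
    intro h
    have : (1 : ℂ) = 0 := by linear_combination h
    exact one_ne_zero this

/-- The numbers fixed by the automorphisms over `k` fixing `t` lie in `k(t)`. -/
theorem mem_adjoin_of_fixed (t a : ℂ) (h : ∀ σ : ℂ ≃ₐ[k] ℂ, σ t = t → σ a = a) :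
    a ∈ IntermediateField.adjoin k {t} := by
  by_contra ha
  obtain ⟨σ, hσ⟩ := exists_autom_ne (k := IntermediateField.adjoin k {t}) a (by
    intro b hb
    exact ha (hb ▸ b.2))
  apply hσ
  refine h (σ.restrictScalars k) ?_
  exact σ.commutes ⟨t, IntermediateField.mem_adjoin_simple_self k t⟩

end aut

end Pool.ML
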