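import Pool.Agent.ML61.IndexLocal
import Pool.Agent.ML61.IndexAut

/-!
# The number of zeros of a generic function on a curve over the line
-/

set_option linter.unusedSectionVars false
set_option linter.unusedSimpArgs false

namespace Pool.ML

open Polynomial

section index

variable {k : Type} [Field k] [Algebra k ℂ]

/-- A place: an embedding, over `k`, of a subfield containing `t` and the numbers in `H` in the
field of Laurent series. -/
structure FPlace (k : Type) [Field k] [Algebra k ℂ] (t : ℂ) (H : Multiset ℂ) where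
  F : IntermediateField k ℂ
  φ : F →+* LaurentSeries k
  htF : t ∈ F
  hC : ∀ a : k, φ (algebraMap k F a) = HahnSeries.C a
  hH : ∀ h ∈ H, h ∈ F

open Classical in
/-- The series of a number in the field. -/
noncomputable def FPlace.ser {t : ℂ} {H : Multiset ℂ} (p : FPlace k t H) (x : ℂ) :
    LaurentSeries k :=
  if h : x ∈ p.F then p.φ ⟨x, h⟩ else 0

theorem FPlace.ser_coe {t : ℂ} {H : Multiset ℂ} (p : FPlace k t H) (x : p.F) :
    p.ser (x : ℂ) = p.φ x := by
  rw [FPlace.ser, dif_pos x.2]

theorem exists_prim (t : ℂ) (ht : Transcendental k t) (Q : Polynomial ℂ) (hQ : Q ≠ 0)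
    (hco : ∀ i, Q.coeff i ∈ IntermediateField.adjoin k {t}) :
    ∃ P : Polynomial (Polynomial k), P.IsPrimitive ∧ ∃ c : ℂ, c ≠ 0 ∧ spec t P = C c * Q := by
  classical
  have hinj : Function.Injective (aeval t : Polynomial k →ₐ[k] ℂ) :=
    transcendental_iff_injective.mp ht
  have h1 : ∀ i, ∃ r s : Polynomial k, s ≠ 0 ∧ Q.coeff i * aeval t s = aeval t r := by
    intro i
    obtain ⟨r, s, hrs⟩ := (IntermediateField.mem_adjoin_simple_iff k _).mp (hco i)
    by_cases hs : s = 0
    · refine ⟨0, 1, one_ne_zero, ?_⟩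
      rw [hrs, hs]
      simp
    · refine ⟨r, s, hs, ?_⟩
      have h2 : aeval t s ≠ 0 := by
        intro h
        exact hs (hinj (h.trans (map_zero _).symm))
      rw [hrs, div_mul_cancel₀ _ h2]
  choose r s hs hrs using h1
  let I := Finset.range (Q.natDegree + 1)
  let P0 : Polynomial (Polynomial k) :=
    ∑ i ∈ I, monomial i (r i * ∏ j ∈ I.erase i, s j)
  let d : Polynomial k := ∏ j ∈ I, s j
  have hd : aeval t d ≠ 0 := by
    intro h
    have h2 : d = 0 := hinj (h.trans (map_zero _).symm)
    rw [Finset.prod_eq_zero_iff] at h2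
    obtain ⟨j, -, hj⟩ := h2
    exact hs j hj
  have h0 : spec t P0 = C (aeval t d) * Q := by
    ext n
    rw [spec, Polynomial.coeff_map, Polynomial.coeff_C_mul, Polynomial.finsetSum_coeff]
    simp only [Polynomial.coeff_monomial]
    rw [Finset.sum_ite_eq' I n]
    by_cases hn : n ∈ I
    · rw [if_pos hn]
      have h2 : d = s n * ∏ j ∈ I.erase n, s j := (Finset.mul_prod_erase I s hn).symm
      rw [h2]
      change aeval t (r n * ∏ j ∈ I.erase n, s j) = _
      rw [map_mul, map_mul, ← hrs]
      ring
    · rw [if_neg hn]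
      have h2 : Q.coeff n = 0 := by
        apply Polynomial.coeff_eq_zero_of_natDegree_lt
        by_contra h
        apply hn
        rw [Finset.mem_range]
        omega
      rw [h2, mul_zero, map_zero]
  have hP0 : P0 ≠ 0 := by
    intro h
    rw [h, spec, Polynomial.map_zero] at h0
    have h2 := mul_eq_zero.mp h0.symm
    rcases h2 with h2 | h2
    · exact hd (Polynomial.C_eq_zero.mp h2)
    · exact hQ h2
  have hc0 : aeval t P0.content ≠ 0 := by
    intro h
    have h2 : P0.content = 0 := hinj (h.trans (map_zero _).symm)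
    exact hP0 (Polynomial.content_eq_zero_iff.mp h2)
  refine ⟨P0.primPart, P0.isPrimitive_primPart, (aeval t P0.content)⁻¹ * aeval t d,
    mul_ne_zero (inv_ne_zero hc0) hd, ?_⟩
  have h3 : spec t P0 = C (aeval t P0.content) * spec t P0.primPart := by
    conv_lhs => rw [P0.eq_C_content_mul_primPart]
    rw [spec, Polynomial.map_mul, Polynomial.map_C]
    rfl
  rw [C_mul, mul_assoc, ← h0, h3, ← mul_assoc, ← C_mul, inv_mul_cancel₀ hc0, C_1, one_mul]

/-- The factorisation at a place. -/
theorem place_factor (t : ℂ) (Q : Polynomial ℂ) (hQ : Q.Monic)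
    (P : Polynomial (Polynomial k)) (ht : Transcendental k t) (c : ℂ) (hc : c ≠ 0)
    (hP : spec t P = C c * Q) (p : FPlace k t Q.roots) :
    P.map (evL (p.ser t)) = C (evL (p.ser t) P.leadingCoeff) *
      ((Q.roots.map p.ser).map fun h => X - C h).prod := by
  classical
  have hinj : Function.Injective (aeval t : Polynomial k →ₐ[k] ℂ) :=
    transcendental_iff_injective.mp ht
  obtain ⟨H', hH'⟩ : ∃ H' : Multiset p.F, H'.map (algebraMap p.F ℂ) = Q.roots := by
    refine ⟨Q.roots.pmap (fun x hx => ⟨x, hx⟩) p.hH, ?_⟩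
    rw [Multiset.map_pmap]
    exact (Multiset.pmap_eq_map _ _ _ p.hH).trans (Multiset.map_id' _)
  let tF : p.F := ⟨t, p.htF⟩
  have hsplit : Q = (Q.roots.map fun a => X - C a).prod := by
    have h1 := (IsAlgClosed.splits Q).eq_prod_roots
    rw [hQ.leadingCoeff, C_1, one_mul] at h1
    exact h1
  have hlc : c = aeval t P.leadingCoeff := by
    have h1 : (spec t P).leadingCoeff = aeval t P.leadingCoeff :=
      Polynomial.leadingCoeff_map_of_injective hinj P
    rw [hP, Polynomial.leadingCoeff_mul, Polynomial.leadingCoeff_C, hQ.leadingCoeff, mul_one] at h1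
    exact h1
  have hF : P.map (aeval tF : Polynomial k →ₐ[k] p.F).toRingHom =
      C (aeval tF P.leadingCoeff) * (H'.map fun h => X - C h).prod := by
    apply Polynomial.map_injective (algebraMap p.F ℂ) (algebraMap p.F ℂ).injective
    rw [Polynomial.map_map, Polynomial.map_mul, Polynomial.map_C, Polynomial.map_multiset_prod,
      Multiset.map_map]
    have e1 : (algebraMap p.F ℂ).comp (aeval tF : Polynomial k →ₐ[k] p.F).toRingHom =
        (aeval t : Polynomial k →ₐ[k] ℂ).toRingHom := by
      apply Polynomial.ringHom_ext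
      · intro a
        simp
      · simp [tF]
    have e2 : algebraMap p.F ℂ (aeval tF P.leadingCoeff) = aeval t P.leadingCoeff :=
      congrArg (fun f => f P.leadingCoeff) e1
    rw [e1, e2, ← hlc]
    change spec t P = _
    rw [hP]
    congr 1
    conv_lhs => rw [hsplit, ← hH', Multiset.map_map]
    congr 1
    apply Multiset.map_congr rfl
    intro a _
    simp
  have h1 := congrArg (Polynomial.map p.φ) hF
  rw [Polynomial.map_map, Polynomial.map_mul, Polynomial.map_C, Polynomial.map_multiset_prod,
    Multiset.map_map] at h1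
  have e3 : p.φ.comp (aeval tF : Polynomial k →ₐ[k] p.F).toRingHom = evL (p.ser t) := by
    apply Polynomial.ringHom_ext
    · intro a
      have h2 := p.hC a
      simp only [evL, RingHom.comp_apply, coe_eval₂RingHom, eval₂_C, AlgHom.toRingHom_eq_coe,
        RingHom.coe_coe, aeval_C]
      exact h2
    · simp only [evL, RingHom.comp_apply, coe_eval₂RingHom, eval₂_X, AlgHom.toRingHom_eq_coe,
        RingHom.coe_coe, aeval_X]
      exact (p.ser_coe tF).symm
  have e4 : p.φ (aeval tF P.leadingCoeff) = evL (p.ser t) P.leadingCoeff :=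
    congrArg (fun f => f P.leadingCoeff) e3
  rw [e3, e4] at h1
  rw [h1]
  congr 1
  have e5 : Q.roots.map p.ser = H'.map (fun a => p.φ a) := by
    have e6 : ∀ s : Multiset ℂ, H'.map (algebraMap p.F ℂ) = s →
        s.map p.ser = H'.map (fun a => p.φ a) := by
      rintro s rfl
      rw [Multiset.map_map]
      apply Multiset.map_congr rfl
      intro a _
      exact p.ser_coe a
    exact e6 _ hH'
  rw [e5, Multiset.map_map]
  congr 1
  apply Multiset.map_congr rfl
  intro a _
  simp

/-- The number of zeros. -/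
theorem index_count [IsAlgClosed k] (R : ℂ → Polynomial ℂ)
    (hmon : ∀ t, Transcendental k t → (R t).Monic)
    (heq : ∀ (σ : ℂ ≃ₐ[k] ℂ) (t : ℂ), Transcendental k t →
      R (σ t) = (R t).map (σ : ℂ ≃+* ℂ).toRingHom)
    (t : ℂ) (ht : Transcendental k t) (E : k → ℕ)
    (hfin : ∀ t0 : k, ∃ p : FPlace k t (R t).roots, 0 < (p.ser t - HahnSeries.C t0).order ∧
      (∀ h ∈ (R t).roots, 0 ≤ (p.ser h).order ∨
        (p.ser h).order = -(p.ser t - HahnSeries.C t0).order) ∧
      (R t).roots.countP (fun h => (p.ser h).order < 0) = E t0)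
    (hinf : ∃ p : FPlace k t (R t).roots, (p.ser t).order < 0 ∧
      ∀ h ∈ (R t).roots, 0 ≤ (p.ser h).order)
    (c : ℂ) (hc : Transcendental k c) :
    (Function.support E).Finite ∧ ∃ S : Finset ℂ, (∀ s ∈ S, Transcendental k s) ∧
      (∀ s, Transcendental k s → ((R s).IsRoot c ↔ s ∈ S)) ∧
      ∑ s ∈ S, (R s).rootMultiplicity c = ∑ᶠ t0, E t0 := by
  classical
  have hR0 := (hmon t ht).ne_zero
  have hco : ∀ i, (R t).coeff i ∈ IntermediateField.adjoin k {t} := by
    intro i
    apply mem_adjoin_of_fixed t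
    intro σ hσ
    have h1 := heq σ t ht
    rw [hσ] at h1
    have h2 := congrArg (fun Q => Q.coeff i) h1
    simp only [Polynomial.coeff_map] at h2
    exact h2.symm
  obtain ⟨P, hprim, c', hc', hP⟩ := exists_prim t ht (R t) hR0 hco
  have hfac := place_factor t (R t) (hmon t ht) P ht c' hc' hP
  have hE : ∀ t0, E t0 = P.leadingCoeff.rootMultiplicity t0 := by
    intro t0
    obtain ⟨p, hp1, hp2, hp3⟩ := hfin t0
    rw [local_mult P hprim (p.ser t) t0 hp1 ((R t).roots.map p.ser) ?_ (hfac p),
      Multiset.countP_map, ← hp3, Multiset.countP_eq_card_filter]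
    intro h hh
    obtain ⟨a, ha, rfl⟩ := Multiset.mem_map.mp hh
    exact hp2 a ha
  have hdeg : ∀ i, (P.coeff i).natDegree ≤ P.leadingCoeff.natDegree := by
    obtain ⟨p, hp1, hp2⟩ := hinf
    apply inf_degree P (p.ser t) hp1 ((R t).roots.map p.ser) ?_ (hfac p)
    intro h hh
    obtain ⟨a, ha, rfl⟩ := Multiset.mem_map.mp hh
    exact hp2 a ha
  have hq : P.leadingCoeff ≠ 0 := by
    rw [Ne, Polynomial.leadingCoeff_eq_zero]
    exact hprim.ne_zero
  have hsupp : Function.support E ⊆ (P.leadingCoeff.roots.toFinset : Set k) := by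
    intro t0 h0
    rw [Function.mem_support, hE] at h0
    rw [Finset.mem_coe, Multiset.mem_toFinset, ← Multiset.one_le_count_iff_mem,
      Polynomial.count_roots]
    omega
  have hsum : ∑ᶠ t0, E t0 = P.leadingCoeff.natDegree := by
    rw [finsum_eq_sum_of_support_subset E hsupp, Finset.sum_congr rfl fun t0 _ => hE t0]
    have h1 : ∀ t0 ∈ P.leadingCoeff.roots.toFinset, P.leadingCoeff.rootMultiplicity t0 =
        P.leadingCoeff.roots.count t0 := fun t0 _ => (Polynomial.count_roots _).symm
    rw [Finset.sum_congr rfl h1, Multiset.toFinset_sum_count_eq]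
    exact IsAlgClosed.card_roots_eq_natDegree
  obtain ⟨S, hS1, hS2, hS3⟩ := index_core P hprim hdeg c hc
  have hRs : ∀ s, Transcendental k s → ∃ d : ℂ, d ≠ 0 ∧ spec s P = C d * R s := by
    intro s hs
    obtain ⟨σ, hσ⟩ := exists_autom_move t s ht hs
    refine ⟨σ c', ?_, ?_⟩
    · intro h
      apply hc'
      exact σ.injective (h.trans (map_zero σ).symm)
    · have h1 := heq σ t ht
      rw [hσ] at h1
      rw [h1]
      have h2 := congrArg (Polynomial.map (σ : ℂ ≃+* ℂ).toRingHom) hP
      rw [Polynomial.map_mul, Polynomial.map_C] at h2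
      rw [spec, Polynomial.map_map] at h2
      have h3 : ((σ : ℂ ≃+* ℂ).toRingHom).comp (aeval t : Polynomial k →ₐ[k] ℂ).toRingHom =
          (aeval s : Polynomial k →ₐ[k] ℂ).toRingHom := by
        apply Polynomial.ringHom_ext
        · intro a
          simp
        · simp
          exact hσ
      rw [h3] at h2
      exact h2
  refine ⟨(Finset.finite_toSet _).subset hsupp, S, hS1, ?_, ?_⟩
  · intro s hs
    obtain ⟨d, hd, hds⟩ := hRs s hs
    rw [← hS2 s hs, hds, Polynomial.IsRoot, Polynomial.IsRoot, Polynomial.eval_mul,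
      Polynomial.eval_C, mul_eq_zero, or_iff_right hd]
  · rw [hsum, ← hS3]
    refine Finset.sum_congr rfl fun s hs => ?_
    obtain ⟨d, hd, hds⟩ := hRs s (hS1 s hs)
    rw [hds, Polynomial.rootMultiplicity_mul]
    · rw [Polynomial.rootMultiplicity_C, zero_add]
    · exact mul_ne_zero (Polynomial.C_ne_zero.mpr hd) (hmon s (hS1 s hs)).ne_zero

end index

end Pool.ML
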