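import Mathlib

set_option linter.unusedSectionVars false
set_option linter.unusedSimpArgs false

namespace Pool.ML

open Cardinal AlgebraicIndependent

/-- The complex numbers which are algebraic over `ℚ(T)`. -/
noncomputable def acl (T : Set ℂ) : IntermediateField ℚ ℂ :=
  (algebraicClosure (IntermediateField.adjoin ℚ T) ℂ).restrictScalars ℚ

theorem mem_acl {T : Set ℂ} {z : ℂ} :
    z ∈ acl T ↔ IsAlgebraic (IntermediateField.adjoin ℚ T) z := by
  rw [acl, IntermediateField.mem_restrictScalars, mem_algebraicClosure_iff]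

theorem subset_acl (T : Set ℂ) : T ⊆ acl T := by
  intro z hz
  rw [SetLike.mem_coe, mem_acl]
  exact isAlgebraic_algebraMap
    (⟨z, IntermediateField.subset_adjoin ℚ T hz⟩ : IntermediateField.adjoin ℚ T)

theorem mem_acl' {T : Set ℂ} {z : ℂ} :
    z ∈ acl T ↔ IsAlgebraic (Algebra.adjoin ℚ T) z := by
  rw [mem_acl]
  open scoped IntermediateField.algebraAdjoinAdjoin in
  exact (IsFractionRing.isAlgebraic_iff (Algebra.adjoin ℚ T) (IntermediateField.adjoin ℚ T) ℂ).symm

theorem coe_acl (T : Set ℂ) : (acl T : Set ℂ) = (matroid ℚ ℂ).closure T := by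
  rw [matroid_closure_eq]
  ext z
  rw [SetLike.mem_coe, SetLike.mem_coe, mem_acl', Subalgebra.mem_algebraicClosure]

theorem acl_mono {S T : Set ℂ} (h : S ⊆ T) : acl S ≤ acl T := by
  rw [← SetLike.coe_subset_coe, coe_acl, coe_acl]
  exact (matroid ℚ ℂ).closure_subset_closure h

/-- transitivity -/
theorem acl_le {S T : Set ℂ} (h : S ⊆ acl T) : acl S ≤ acl T := by
  rw [← SetLike.coe_subset_coe, coe_acl, coe_acl]
  apply Matroid.closure_subset_closure_of_subset_closure
  rw [← coe_acl]
  exact h

theorem isAlgClosed_acl (T : Set ℂ) : IsAlgClosed (acl T) := by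
  have h := algebraicClosure.isAlgClosure (IntermediateField.adjoin ℚ T) ℂ
  have h2 : IsAlgClosed (algebraicClosure (IntermediateField.adjoin ℚ T) ℂ) := h.isAlgClosed
  exact h2

theorem indep_range {ι : Type} {y : ι → ℂ} (hy : AlgebraicIndependent ℚ y) :
    (matroid ℚ ℂ).Indep (Set.range y) := by
  rw [matroid_indep_iff]
  exact hy.to_subtype_range

theorem encard_range {ι : Type} [Fintype ι] {y : ι → ℂ} (hy : Function.Injective y) :
    (Set.range y).encard = Fintype.card ι := by
  rw [← Set.image_univ, hy.encard_image, Set.encard_univ, ENat.card_eq_coe_fintype_card]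

theorem encard_range_le {ι : Type} [Fintype ι] (y : ι → ℂ) :
    (Set.range y).encard ≤ Fintype.card ι := by
  rw [← Set.image_univ, ← ENat.card_eq_coe_fintype_card (α := ι), ← Set.encard_univ]
  exact Set.encard_image_le _ _

/-- dimension count -/
theorem card_le_of_acl {ι κ : Type} [Fintype ι] [Fintype κ] (y : ι → ℂ) (x : κ → ℂ)
    (hy : AlgebraicIndependent ℚ y) (h : ∀ i, y i ∈ acl (Set.range x)) :
    Fintype.card ι ≤ Fintype.card κ := by
  have h1 : Set.range y ⊆ (matroid ℚ ℂ).closure (Set.range x) := by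
    rw [← coe_acl]
    rintro _ ⟨i, rfl⟩
    exact h i
  have h2 := (indep_range hy).encard_le_eRk_of_subset h1
  rw [Matroid.eRk_closure_eq, encard_range hy.injective] at h2
  have h3 := h2.trans (((matroid ℚ ℂ).eRk_le_encard _).trans (encard_range_le x))
  exact_mod_cast h3

/-- exchange: same number of elements -/
theorem algInd_of_acl {ι κ : Type} [Fintype ι] [Fintype κ] (y : ι → ℂ) (x : κ → ℂ)
    (hy : AlgebraicIndependent ℚ y) (h : ∀ i, y i ∈ acl (Set.range x))
    (hc : Fintype.card κ ≤ Fintype.card ι) :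
    AlgebraicIndependent ℚ x ∧ ∀ k, x k ∈ acl (Set.range y) := by
  have h1 : Set.range y ⊆ (matroid ℚ ℂ).closure (Set.range x) := by
    rw [← coe_acl]
    rintro _ ⟨i, rfl⟩
    exact h i
  have hI := indep_range hy
  have h2 := hI.encard_le_eRk_of_subset h1
  rw [Matroid.eRk_closure_eq, encard_range hy.injective] at h2
  have h3 := (matroid ℚ ℂ).eRk_le_encard (Set.range x)
  have h4 := encard_range_le x
  have hc' : (Fintype.card κ : ℕ∞) ≤ Fintype.card ι := by exact_mod_cast hc
  have hfin : (Set.range x).Finite := Set.finite_range x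
  have hxI : (matroid ℚ ℂ).Indep (Set.range x) := by
    rw [Matroid.indep_iff_eRk_eq_encard_of_finite hfin]
    exact le_antisymm h3 (h4.trans (hc'.trans h2))
  have hinj : Function.Injective x := by
    have h5 : (Fintype.card κ : ℕ∞) ≤ (Set.range x).encard := hc'.trans (h2.trans h3)
    have h6 : Nat.card κ ≤ Nat.card (Set.range x) := by
      rw [Nat.card_coe_set_eq, Nat.card_eq_fintype_card]
      rw [← hfin.cast_ncard_eq] at h5
      exact_mod_cast h5
    have h7 := Set.rangeFactorization_surjective (f := x) |>.bijective_of_nat_card_le h6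
    intro a b hab
    exact h7.1 (Subtype.ext hab)
  refine ⟨?_, ?_⟩
  · rw [matroid_indep_iff] at hxI
    exact AlgebraicIndependent.of_subtype_range hinj hxI
  · have hr : (matroid ℚ ℂ).IsRkFinite (Set.range y) := by
      rw [← Matroid.eRk_lt_top_iff]
      refine lt_of_le_of_lt ((matroid ℚ ℂ).eRk_le_encard _) ?_
      rw [encard_range hy.injective]
      exact ENat.natCast_lt_top _
    have h7 : (matroid ℚ ℂ).closure (Set.range y) =
        (matroid ℚ ℂ).closure ((matroid ℚ ℂ).closure (Set.range x)) := by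
      apply hr.closure_eq_closure_of_subset_of_eRk_ge_eRk h1
      rw [Matroid.eRk_closure_eq, hI.eRk_eq_encard, encard_range hy.injective]
      exact h3.trans (h4.trans hc')
    intro k
    rw [← SetLike.mem_coe, coe_acl, h7, Matroid.closure_closure]
    exact (matroid ℚ ℂ).subset_closure (Set.range x) (Set.subset_univ _) (Set.mem_range_self k)

theorem acl_exchange {T : Set ℂ} {z y : ℂ} (hz : z ∉ acl T) (h : z ∈ acl (insert y T)) :
    y ∈ acl (insert z T) := by
  rw [← SetLike.mem_coe, coe_acl] at *
  exact ((matroid ℚ ℂ).closure_exchange ⟨h, hz⟩).1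

theorem exists_acl_basis (T : Set ℂ) (z : ℂ) (hz : z ∉ acl T) (F : Finset ℂ) : ∃ T', T ⊆ T' ∧
    z ∉ acl T' ∧ ∀ y ∈ F, y ∈ acl (insert z T') := by
  classical
  induction F using Finset.induction with
  | empty => exact ⟨T, subset_rfl, hz, by simp⟩
  | insert a F ha ih =>
    obtain ⟨T', h1, h2, h3⟩ := ih
    by_cases h4 : z ∈ acl (insert a T')
    · refine ⟨T', h1, h2, ?_⟩
      intro y hy
      rcases Finset.mem_insert.mp hy with rfl | hy
      · exact acl_exchange h2 h4
      · exact h3 y hy
    · refine ⟨insert a T', h1.trans (Set.subset_insert _ _), h4, ?_⟩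
      intro y hy
      rcases Finset.mem_insert.mp hy with rfl | hy
      · exact subset_acl _ (Set.mem_insert_of_mem _ (Set.mem_insert _ _))
      · exact acl_mono (Set.insert_subset_insert (Set.subset_insert _ _)) (h3 y hy)

end Pool.ML
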