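import Pool.Agent.ML14.Growth
import Pool.Agent.ML61.Acl

/-!
# Data with proportional extra columns: definitions
-/

set_option linter.unusedSectionVars false
set_option linter.unusedSimpArgs false

namespace Pool.ML

open Matrix

section basic

variable {ρ σ ν κ ε I : Type} [Fintype ρ] [Fintype σ] [Fintype ν] [Fintype κ] [Fintype ε]
  [Fintype I] [DecidableEq ρ] [DecidableEq σ] [DecidableEq ν] [DecidableEq κ] [DecidableEq ε]
variable {R : Type} [CommRing R]

/-- The columns `(1, A)`: a basis of the column space. -/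
def LA (A : Matrix σ ρ R) : Matrix (ρ ⊕ σ) ρ R := Matrix.fromRows 1 A

/-- A basis of the orthogonal space. -/
def NA (A : Matrix σ ρ R) : Matrix (ρ ⊕ σ) σ R := Matrix.fromRows (-Aᵀ) 1

/-- The data `(u | c_1 w | ... | c_k w)`. -/
def sdata (u : Matrix I ν ℂ) (w : I → ℂ) (c : ε → ℂ) : Matrix I (ν ⊕ ε) ℂ :=
  Matrix.of fun i j => Sum.elim (fun a => u i a) (fun e => c e * w i) j

/-- The same data in the chart. -/
def sdat (u : Matrix (ρ ⊕ σ) (ρ ⊕ κ) ℂ) (w : ρ ⊕ σ → ℂ) (c : ε → ℂ) :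
    Matrix (ρ ⊕ σ) (ρ ⊕ (κ ⊕ ε)) ℂ :=
  (sdata u w c).submatrix id (Equiv.sumAssoc ρ κ ε).symm

/-- `u`, `w`, `c` together are algebraically independent. -/
def SAlg (u : Matrix I ν ℂ) (w : I → ℂ) (c : ε → ℂ) : Prop :=
  AlgebraicIndependent ℚ (Sum.elim (fun x : I × ν => u x.1 x.2) (Sum.elim w c))

/-- The set of all numbers in `u`, `w`, `c`. -/
def sset (u : Matrix I ν ℂ) (w : I → ℂ) (c : ε → ℂ) : Set ℂ :=
  Set.range (Sum.elim (fun x : I × ν => u x.1 x.2) (Sum.elim w c))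

/-- The normalised extra column. -/
noncomputable def branch (c : ε → ℂ) (P : Matrix I (ν ⊕ ε) ℂ) (e : ε) : I → ℂ :=
  fun i => P i (Sum.inr e) / c e

/-- A solution of the critical equations with a chosen column space `(1, A)`; the rank of `y` may
be smaller. -/
structure Sol (u : Matrix (ρ ⊕ σ) ν ℂ) (w : ρ ⊕ σ → ℂ) (c : ε → ℂ) (A : Matrix σ ρ ℂ)
    (y : Matrix ρ (ν ⊕ ε) ℂ) (g : Matrix σ (ν ⊕ ε) ℂ) : Prop where
  orth : y * gᵀ = 0
  eq : ∀ i j, (LA A * y) i j * (1 + (NA A * g) i j) = sdata u w c i j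

/-- Enough generic columns: at least as many columns as rows, or one less if there is an extra
column. -/
def Ample (ρ σ ν ε : Type) [Fintype ρ] [Fintype σ] [Fintype ν] : Prop :=
  Fintype.card ρ ≤ Fintype.card ν ∧
    (Fintype.card ρ + Fintype.card σ ≤ Fintype.card ν ∨
      (Fintype.card ρ + Fintype.card σ ≤ Fintype.card ν + 1 ∧ Nonempty ε))

/-- The coordinates of the chart that stay free: `A`, `W`, `B` and `g` on the generic columns, and
`w`, `c`. -/
def freeFam (X : Matrix (ρ ⊕ σ) (ρ ⊕ (κ ⊕ ε)) ℂ) (w : ρ ⊕ σ → ℂ) (c : ε → ℂ) :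
    ((ρ ⊕ σ) × (ρ ⊕ κ)) ⊕ ((ρ ⊕ σ) ⊕ ε) → ℂ :=
  Sum.elim (fun x => X x.1 (Sum.map id Sum.inl x.2)) (Sum.elim w c)

/-- The critical points of the special data whose branches in `T` are pairwise distinct. -/
def Mset (r : ℕ) (u : Matrix I ν ℂ) (w : I → ℂ) (c : ε → ℂ) (T : Set ε) :
    Set (Matrix I (ν ⊕ ε) ℂ) :=
  {P | PCrit r (sdata u w c) P ∧ Set.InjOn (branch c P) T}

end basic

end Pool.ML
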