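import Pool.Agent.ML61.Comb6

/-!
# The constants as numbers of critical points
-/

set_option linter.unusedSectionVars false
set_option linter.unusedSimpArgs false
set_option linter.unusedVariables false

namespace Pool.ML

open Matrix

variable {m n r l : ℕ}

/-- The data `(u | c_1 w | ... | c_l w)` as an `m × (n + l)` matrix. -/
theorem sdata_eq_append (u : Matrix (Fin m) (Fin n) ℂ) (w : Fin m → ℂ) (c : Fin l → ℂ) :
    sdata u w c = (Matrix.of fun i => Fin.append (u i) fun s => c s * w i).submatrix id
      (finSumFinEquiv : Fin n ⊕ Fin l ≃ Fin (n + l)) := by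
  ext i j
  rcases j with j | s
  · simp [sdata]
  · simp [sdata]

theorem SAlg.sum_append_ne (hm : 1 ≤ m) (hl : 1 ≤ n + l) (u : Matrix (Fin m) (Fin n) ℂ)
    (w : Fin m → ℂ) (c : Fin l → ℂ) (hS : SAlg u w c) :
    ∑ i, ∑ j, (Matrix.of fun i => Fin.append (u i) fun s => c s * w i :
      Matrix (Fin m) (Fin (n + l)) ℂ) i j ≠ 0 := by
  intro h
  simp only [Matrix.of_apply, Fin.sum_univ_add, Fin.append_left, Fin.append_right] at h
  have h1 := (algebraicIndependent_iff.mp hS)
    (∑ i : Fin m, ((∑ j : Fin n, MvPolynomial.X (Sum.inl (i, j))) +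
      ∑ s : Fin l, MvPolynomial.X (Sum.inr (Sum.inr s)) * MvPolynomial.X (Sum.inr (Sum.inl i))))
    (by
      simp only [map_sum, map_add, map_mul, MvPolynomial.aeval_X, Sum.elim_inl, Sum.elim_inr]
      exact h)
  have h2 := congrArg (MvPolynomial.eval
    (fun _ : (Fin m × Fin n) ⊕ (Fin m ⊕ Fin l) => (1 : ℚ))) h1
  simp only [map_sum, map_add, map_mul, MvPolynomial.eval_X, map_zero, Finset.sum_const,
    Finset.card_univ, Fintype.card_fin, nsmul_eq_mul, mul_one] at h2
  have h3 : (m : ℚ) * ((n : ℚ) + l) = 0 := h2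
  have h4 : (0 : ℚ) < m := by exact_mod_cast hm
  have h5 : (0 : ℚ) < (n : ℚ) + l := by exact_mod_cast hl
  exact (mul_pos h4 h5).ne' h3

/-- The constants of the recursion: the number of critical points of the data
`(u | c_1 w | ... | c_l w)` whose last `l` columns, divided by `c_1, ..., c_l`, are pairwise
distinct. -/
theorem ncard_distinct (hC : SpecCount m n r) (hm : 1 ≤ m) (hl : 1 ≤ l)
    (u : Matrix (Fin m) (Fin n) ℂ) (w : Fin m → ℂ) (c : Fin l → ℂ) (hS : SAlg u w c) :
    {p | IsCritical r (Matrix.of fun i => Fin.append (u i) fun s => c s * w i) p ∧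
        ∀ s t, s ≠ t → ∃ i, p i (Fin.natAdd n s) / c s ≠ p i (Fin.natAdd n t) / c t}.Finite ∧
      {p | IsCritical r (Matrix.of fun i => Fin.append (u i) fun s => c s * w i) p ∧
        ∀ s t, s ≠ t →
          ∃ i, p i (Fin.natAdd n s) / c s ≠ p i (Fin.natAdd n t) / c t}.ncard =
        MM m n r l 0 := by
  classical
  have hne : Nonempty (Fin l) := ⟨⟨0, hl⟩⟩
  set D : Matrix (Fin m) (Fin (n + l)) ℂ :=
    Matrix.of fun i => Fin.append (u i) fun s => c s * w i with hD
  have hsum : ∑ i, ∑ j, D i j ≠ 0 := SAlg.sum_append_ne hm (by omega) u w c hS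
  set a : ℂ := ∑ i, ∑ j, D i j with ha
  set f : Fin n ⊕ Fin l ≃ Fin (n + l) := finSumFinEquiv with hf
  have hfs : ∀ s : Fin l, f (Sum.inr s) = Fin.natAdd n s := fun s => by simp [hf]
  set S : Set (Matrix (Fin m) (Fin (n + l)) ℂ) := {p | IsCritical r D p ∧
        ∀ s t, s ≠ t → ∃ i, p i (Fin.natAdd n s) / c s ≠ p i (Fin.natAdd n t) / c t} with hSdef
  have himg : (fun p : Matrix (Fin m) (Fin (n + l)) ℂ => (a • p).submatrix id f) '' S =
      Mset r u w c Set.univ := by
    ext P
    constructor
    · rintro ⟨p, ⟨hp, hd⟩, rfl⟩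
      have h1 : a • p ∈ {q | PCrit r D q} := by
        rw [← crit_image hsum]
        exact ⟨p, hp, rfl⟩
      refine ⟨?_, ?_⟩
      · rw [sdata_eq_append]
        exact PCrit.submatrix h1 (Equiv.refl (Fin m)) f
      · intro s _ t _ hst
        by_contra hne'
        obtain ⟨i, hi⟩ := hd s t hne'
        apply hi
        have h2 := congrFun hst i
        simp only [branch, Matrix.submatrix_apply, id_eq, hfs, Matrix.smul_apply,
          smul_eq_mul] at h2
        rw [mul_div_assoc, mul_div_assoc] at h2
        exact mul_left_cancel₀ hsum h2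
    · rintro ⟨hP, hinj⟩
      have h1 : PCrit r D (P.submatrix id f.symm) := by
        have h2 := PCrit.submatrix hP (Equiv.refl (Fin m)) f.symm
        have h3 : (sdata u w c).submatrix (Equiv.refl (Fin m)) f.symm = D := by
          rw [sdata_eq_append]
          ext i j
          simp [hf, hD]
        rw [h3] at h2
        exact h2
      have h2 : P.submatrix id f.symm ∈ (fun p => (∑ i, ∑ j, D i j) • p) ''
          {p | IsCritical r D p} := by
        rw [crit_image hsum]
        exact h1
      obtain ⟨p, hp, hpP⟩ := h2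
      have h3 : ∀ i j, a * p i j = P i (f.symm j) := by
        intro i j
        have h4 := congrFun (congrFun hpP i) j
        simpa using h4
      refine ⟨p, ⟨hp, ?_⟩, ?_⟩
      · intro s t hst
        by_contra hno
        push Not at hno
        apply hst
        apply hinj (Set.mem_univ s) (Set.mem_univ t)
        funext i
        have h4 := hno i
        have h5 : ∀ s : Fin l, f.symm (Fin.natAdd n s) = Sum.inr s := fun s => by
          rw [← hfs, Equiv.symm_apply_apply]
        have h6 := h3 i (Fin.natAdd n s)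
        have h7 := h3 i (Fin.natAdd n t)
        rw [h5] at h6 h7
        simp only [branch]
        rw [← h6, ← h7, mul_div_assoc, mul_div_assoc, h4]
      · ext i j
        simp only [Matrix.submatrix_apply, id_eq, Matrix.smul_apply, smul_eq_mul]
        rw [h3, Equiv.symm_apply_apply]
  have hinj : Function.Injective
      (fun p : Matrix (Fin m) (Fin (n + l)) ℂ => (a • p).submatrix id f) := by
    intro p q hpq
    ext i j
    have h1 := congrFun (congrFun hpq i) (f.symm j)
    simp only [Matrix.submatrix_apply, id_eq, Matrix.smul_apply, smul_eq_mul,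
      Equiv.apply_symm_apply] at h1
    exact mul_left_cancel₀ hsum h1
  have hfin : (Mset r u w c Set.univ).Finite := (hC _ u w c hS).1.subset fun P hP => hP.1
  refine ⟨?_, ?_⟩
  · rw [← himg] at hfin
    exact Set.Finite.of_finite_image hfin hinj.injOn
  · rw [← Set.ncard_image_of_injective S hinj, himg]
    apply Mset_eq_MM u w c hS Set.univ l 0
    · rw [Set.ncard_univ, Nat.card_eq_fintype_card, Fintype.card_fin]
    · simp

/-- The count as a function of the number of columns, for more than `n` columns, with the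
constants made explicit. -/
theorem final_alg_MM (hC : SpecCount m n r) (hr : 1 ≤ r) (hm : r ≤ m) (hn : r ≤ n) (n' : ℕ)
    (v : Matrix (Fin m) (Fin n') ℂ) (hn' : n < n') (hv : Alg v) :
    {p | IsCritical r v p}.ncard = ∑ l ∈ Finset.Icc 1 ((m - 1).choose (r - 1)),
      Nat.stirlingSecond (n' - n) l * MM m n r l 0 ∧
    ({p | IsCritical r v p}.ncard : ℚ) =
      ∑ a ∈ Finset.Icc 1 ((m - 1).choose (r - 1)), Lam m n r a / (a : ℚ) ^ n * (a : ℚ) ^ n' := by
  have key : ∀ {M : Type} [AddCommMonoid M] (b : ℕ) (F : ℕ → M), F 0 = 0 →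
      ∑ a ∈ Finset.range (b + 1), F a = ∑ a ∈ Finset.Icc 1 b, F a := by
    intro M _ b F h0
    symm
    apply Finset.sum_subset
    · intro a ha
      rw [Finset.mem_Icc] at ha
      rw [Finset.mem_range]
      omega
    · intro a ha ha'
      rw [Finset.mem_range] at ha
      rw [Finset.mem_Icc] at ha'
      have : a = 0 := by omega
      rw [this, h0]
  obtain ⟨k, rfl⟩ : ∃ k, n' = n + (k + 1) := ⟨n' - n - 1, by omega⟩
  have hsub : n + (k + 1) - n = k + 1 := by omega
  refine ⟨?_, ?_⟩
  · rw [stirling_alg hC hr hm hn (k + 1) (by omega) v hv, hsub]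
    apply key
    rw [Nat.stirlingSecond_succ_zero, zero_mul]
  · rw [exp_alg hC hr hm hn (k + 1) (by omega) v hv]
    rw [key _ (fun a => Lam m n r a * (a : ℚ) ^ (k + 1)) (by
      rw [Nat.cast_zero, zero_pow (by omega), mul_zero])]
    refine Finset.sum_congr rfl fun a ha => ?_
    have ha1 := (Finset.mem_Icc.mp ha).1
    have h2 : ((a : ℕ) : ℚ) ≠ 0 := by
      have : a ≠ 0 := by omega
      exact_mod_cast this
    rw [pow_add (a : ℚ) n (k + 1)]
    field_simp

/-- The ML degree as a function of the number of columns, with the meaning of the constants. -/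
theorem final_pack_MM (hr : 1 ≤ r) (hm : r ≤ m) (hC : r < m → SpecCount m (m - 1) r) :
    ∃ (g : ℕ → ℕ) (lam : ℕ → ℚ), 0 < g ((m - 1).choose (r - 1)) ∧
      0 < lam ((m - 1).choose (r - 1)) ∧
      (∀ (n' : ℕ) (v : Matrix (Fin m) (Fin n') ℂ), m ≤ n' → Alg v →
        {p | IsCritical r v p}.ncard = ∑ l ∈ Finset.Icc 1 ((m - 1).choose (r - 1)),
          Nat.stirlingSecond (n' - m + 1) l * g l ∧
        ({p | IsCritical r v p}.ncard : ℚ) =
          ∑ a ∈ Finset.Icc 1 ((m - 1).choose (r - 1)), lam a * (a : ℚ) ^ n') ∧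
      (r < m → g = fun l => MM m (m - 1) r l 0) := by
  have hb1 : 1 ≤ (m - 1).choose (r - 1) := Nat.choose_pos (by omega)
  rcases Nat.lt_or_eq_of_le hm with h | h
  · refine ⟨fun l => MM m (m - 1) r l 0, fun a => Lam m (m - 1) r a / (a : ℚ) ^ (m - 1),
      MM_top_pos (hC h) hr hm (by omega), ?_, ?_, fun _ => rfl⟩
    · have h1 := Lam_top (hC h) hr hm (by omega)
      have h2 : (0 : ℚ) < (((m - 1).choose (r - 1) : ℕ) : ℚ) := by exact_mod_cast hb1
      positivity
    · intro n' v hn' hv
      have h1 := final_alg_MM (hC h) hr hm (by omega) n' v (by omega) hv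
      have h2 : n' - (m - 1) = n' - m + 1 := by omega
      rwa [h2] at h1
  · subst h
    refine ⟨fun _ => 1, fun _ => 1, one_pos, one_pos, fun n' v hn' hv => ?_,
      fun h => absurd h (lt_irrefl r)⟩
    rw [ncard_full hr hn' v hv, Nat.choose_self]
    simp [Nat.stirlingSecond_one_right]

end Pool.ML
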