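import Pool.Agent.ML61.Defs

/-!
# Automorphisms, reindexing and merging of proportional columns
-/

set_option linter.unusedSectionVars false
set_option linter.unusedSimpArgs false

namespace Pool.ML

open Matrix

variable {I I' ν ε ε' : Type} [Fintype I] [Fintype ν] [Fintype ε] [Fintype ε']
  [DecidableEq I] [DecidableEq ν] [DecidableEq ε] [DecidableEq ε']

theorem sdata_inl (u : Matrix I ν ℂ) (w : I → ℂ) (c : ε → ℂ) (i : I) (j : ν) :
    sdata u w c i (Sum.inl j) = u i j := rfl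

theorem sdata_inr (u : Matrix I ν ℂ) (w : I → ℂ) (c : ε → ℂ) (i : I) (e : ε) :
    sdata u w c i (Sum.inr e) = c e * w i := rfl

/-- A field automorphism moves the critical points. -/
theorem Mset_map {r : ℕ} (u u' : Matrix I ν ℂ) (w w' : I → ℂ) (c c' : ε → ℂ) (T : Set ε)
    (φ : ℂ ≃+* ℂ) (hu : ∀ i j, φ (u i j) = u' i j) (hw : ∀ i, φ (w i) = w' i)
    (hc : ∀ e, φ (c e) = c' e) (P : Matrix I (ν ⊕ ε) ℂ) (hP : P ∈ Mset r u w c T) :
    P.map φ ∈ Mset r u' w' c' T := by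
  obtain ⟨h1, h2⟩ := hP
  have hd : (sdata u w c).map φ = sdata u' w' c' := by
    ext i j
    rcases j with j | e
    · rw [Matrix.map_apply, sdata_inl, sdata_inl, hu]
    · rw [Matrix.map_apply, sdata_inr, sdata_inr, map_mul, hw, hc]
  refine ⟨by rw [← hd]; exact h1.map φ, ?_⟩
  intro e he e' he' h
  apply h2 he he'
  funext i
  have h3 := congrFun h i
  simp only [branch, Matrix.map_apply] at h3 ⊢
  rw [← hc, ← hc, ← map_div₀, ← map_div₀] at h3
  exact φ.injective h3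

/-- The number does not depend on the algebraically independent data. -/
theorem Mset_ncard_eq' {r : ℕ} (u u' : Matrix I ν ℂ) (w w' : I → ℂ)
    (c c' : ε → ℂ) (hS : SAlg u w c) (hS' : SAlg u' w' c') (T : Set ε) :
    (Mset r u w c T).ncard = (Mset r u' w' c' T).ncard := by
  obtain ⟨φ, hφ⟩ := exists_autom _ _ hS hS'
  have hu : ∀ i j, φ (u i j) = u' i j := fun i j => hφ (Sum.inl (i, j))
  have hw : ∀ i, φ (w i) = w' i := fun i => hφ (Sum.inr (Sum.inl i))
  have hc : ∀ e, φ (c e) = c' e := fun e => hφ (Sum.inr (Sum.inr e))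
  have himg : (fun P : Matrix I (ν ⊕ ε) ℂ => P.map φ) '' (Mset r u w c T) =
      Mset r u' w' c' T := by
    apply Set.Subset.antisymm
    · rintro _ ⟨P, hP, rfl⟩
      exact Mset_map u u' w w' c c' T φ hu hw hc P hP
    · intro P hP
      refine ⟨P.map φ.symm, ?_, ?_⟩
      · refine Mset_map u' u w' w c' c T φ.symm ?_ ?_ ?_ P hP
        · intro i j
          rw [← hu, RingEquiv.symm_apply_apply]
        · intro i
          rw [← hw, RingEquiv.symm_apply_apply]
        · intro i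
          rw [← hc, RingEquiv.symm_apply_apply]
      · ext i j
        simp
  have hinj : Function.Injective fun P : Matrix I (ν ⊕ ε) ℂ => P.map φ := by
    intro P Q h
    ext i j
    have := congrFun (congrFun h i) j
    simpa using this
  rw [← himg, Set.ncard_image_of_injective _ hinj]

/-- C1: automorphisms -/
theorem Mset_ncard_eq {m n r : ℕ} (u u' : Matrix (Fin m) (Fin n) ℂ) (w w' : Fin m → ℂ)
    (c c' : ε → ℂ) (hS : SAlg u w c) (hS' : SAlg u' w' c') (T : Set ε) :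
    (Mset r u w c T).ncard = (Mset r u' w' c' T).ncard :=
  Mset_ncard_eq' u u' w w' c c' hS hS' T

/-- Reindexing of the extra columns. -/
theorem Mset_reindex {r : ℕ} (u : Matrix I ν ℂ) (w : I → ℂ) (c : ε → ℂ) (T : Set ε)
    (f : ε' ≃ ε) : (Mset r u w (c ∘ f) (f ⁻¹' T)).ncard = (Mset r u w c T).ncard := by
  have key : ∀ {ε₁ ε₂ : Type} [Fintype ε₁] [Fintype ε₂] (c : ε₁ → ℂ) (T : Set ε₁)
      (f : ε₂ ≃ ε₁) (P : Matrix I (ν ⊕ ε₁) ℂ), P ∈ Mset r u w c T →
      P.submatrix id (Sum.map id f) ∈ Mset r u w (c ∘ f) (f ⁻¹' T) := by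
    intro ε₁ ε₂ _ _ c T f P hP
    refine ⟨?_, ?_⟩
    · have h1 := hP.1.submatrix (Equiv.refl I) (Equiv.sumCongr (Equiv.refl ν) f)
      have h2 : (sdata u w c).submatrix (Equiv.refl I) (Equiv.sumCongr (Equiv.refl ν) f) =
          sdata u w (c ∘ f) := by
        ext i j
        rcases j with j | e <;> rfl
      rw [h2] at h1
      exact h1
    · intro e he e' he' h
      apply f.injective
      exact hP.2 he he' h
  have himg : (fun P : Matrix I (ν ⊕ ε) ℂ => P.submatrix id (Sum.map id f)) ''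
      (Mset r u w c T) = Mset r u w (c ∘ f) (f ⁻¹' T) := by
    apply Set.Subset.antisymm
    · rintro _ ⟨P, hP, rfl⟩
      exact key c T f P hP
    · intro P hP
      have h1 := key (c ∘ f) (f ⁻¹' T) f.symm P hP
      have h2 : (c ∘ f) ∘ f.symm = c := by
        funext e
        simp
      have h3 : f.symm ⁻¹' (f ⁻¹' T) = T := by
        ext e
        simp
      rw [h2, h3] at h1
      refine ⟨_, h1, ?_⟩
      ext i j
      rcases j with j | e <;> simp
  have hinj : Function.Injective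
      fun P : Matrix I (ν ⊕ ε) ℂ => P.submatrix id (Sum.map id f) := by
    intro P Q h
    ext i j
    rcases j with j | e
    · exact congrFun (congrFun h i) (Sum.inl j)
    · have := congrFun (congrFun h i) (Sum.inr (f.symm e))
      simpa using this
  rw [← himg, Set.ncard_image_of_injective _ hinj]

theorem ncard_eq_of_inv {α β : Type} {S : Set α} {S' : Set β} (Φ : α → β) (Ψ : β → α)
    (h1 : ∀ a ∈ S, Φ a ∈ S') (h2 : ∀ b ∈ S', Ψ b ∈ S) (h3 : ∀ a ∈ S, Ψ (Φ a) = a)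
    (h4 : ∀ b ∈ S', Φ (Ψ b) = b) : S.ncard = S'.ncard := by
  have himg : Φ '' S = S' := by
    apply Set.Subset.antisymm
    · rintro _ ⟨a, ha, rfl⟩
      exact h1 a ha
    · intro b hb
      exact ⟨Ψ b, h2 b hb, h4 b hb⟩
  rw [← himg, Set.ncard_image_of_injOn]
  intro a ha a' ha' h
  rw [← h3 a ha, ← h3 a' ha', h]

section Merge

variable (c : ε → ℂ) (e₀ e₁ : ε)

/-- The factors after merging. -/
def mc : {e // e ≠ e₀} → ℂ := fun e => if e.1 = e₁ then c e₁ + c e₀ else c e.1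

/-- Merging the column `e₀` into the column `e₁`. -/
noncomputable def merge (P : Matrix I (ν ⊕ ε) ℂ) : Matrix I (ν ⊕ {e // e ≠ e₀}) ℂ :=
  Matrix.of fun i j => Sum.elim (fun a => P i (Sum.inl a))
    (fun e : {e // e ≠ e₀} => mc c e₀ e₁ e * branch c P e.1 i) j

/-- Splitting the column `e₁`. -/
noncomputable def unmerge (h01 : e₁ ≠ e₀) (P : Matrix I (ν ⊕ {e // e ≠ e₀}) ℂ) :
    Matrix I (ν ⊕ ε) ℂ :=
  Matrix.of fun i j => Sum.elim (fun a => P i (Sum.inl a))
    (fun e => if h : e = e₀ then c e₀ * branch (mc c e₀ e₁) P ⟨e₁, h01⟩ i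
      else c e * branch (mc c e₀ e₁) P ⟨e, h⟩ i) j

variable {c e₀ e₁}

theorem merge_inl (P : Matrix I (ν ⊕ ε) ℂ) (i : I) (j : ν) :
    merge c e₀ e₁ P i (Sum.inl j) = P i (Sum.inl j) := rfl

theorem merge_inr (P : Matrix I (ν ⊕ ε) ℂ) (i : I) (e : {e // e ≠ e₀}) :
    merge c e₀ e₁ P i (Sum.inr e) = mc c e₀ e₁ e * branch c P e.1 i := rfl

theorem unmerge_inl (h01 : e₁ ≠ e₀) (P : Matrix I (ν ⊕ {e // e ≠ e₀}) ℂ) (i : I) (j : ν) :
    unmerge c e₀ e₁ h01 P i (Sum.inl j) = P i (Sum.inl j) := rfl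

theorem unmerge_self (h01 : e₁ ≠ e₀) (P : Matrix I (ν ⊕ {e // e ≠ e₀}) ℂ) (i : I) :
    unmerge c e₀ e₁ h01 P i (Sum.inr e₀) =
      c e₀ * branch (mc c e₀ e₁) P ⟨e₁, h01⟩ i := by
  simp [unmerge]

theorem unmerge_inr (h01 : e₁ ≠ e₀) (P : Matrix I (ν ⊕ {e // e ≠ e₀}) ℂ) (i : I) (e : ε)
    (he : e ≠ e₀) : unmerge c e₀ e₁ h01 P i (Sum.inr e) =
      c e * branch (mc c e₀ e₁) P ⟨e, he⟩ i := by
  simp [unmerge, he]

theorem mc_ne (hc : ∀ e, c e ≠ 0) (hs : c e₁ + c e₀ ≠ 0) (e : {e // e ≠ e₀}) :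
    mc c e₀ e₁ e ≠ 0 := by
  rw [mc]
  split_ifs
  · exact hs
  · exact hc _

theorem branch_merge (hc : ∀ e, c e ≠ 0) (hs : c e₁ + c e₀ ≠ 0) (P : Matrix I (ν ⊕ ε) ℂ)
    (e : {e // e ≠ e₀}) : branch (mc c e₀ e₁) (merge c e₀ e₁ P) e = branch c P e.1 := by
  funext i
  have h := mc_ne hc hs e
  rw [branch, merge_inr]
  field_simp

theorem branch_unmerge (hc : ∀ e, c e ≠ 0) (h01 : e₁ ≠ e₀)
    (P : Matrix I (ν ⊕ {e // e ≠ e₀}) ℂ) (e : ε) (he : e ≠ e₀) :
    branch c (unmerge c e₀ e₁ h01 P) e = branch (mc c e₀ e₁) P ⟨e, he⟩ := by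
  funext i
  have h := hc e
  rw [branch, unmerge_inr h01 P i e he]
  field_simp

theorem branch_unmerge_self (hc : ∀ e, c e ≠ 0) (h01 : e₁ ≠ e₀)
    (P : Matrix I (ν ⊕ {e // e ≠ e₀}) ℂ) :
    branch c (unmerge c e₀ e₁ h01 P) e₀ = branch (mc c e₀ e₁) P ⟨e₁, h01⟩ := by
  funext i
  have h := hc e₀
  rw [branch, unmerge_self h01 P i]
  field_simp

theorem unmerge_merge (hc : ∀ e, c e ≠ 0) (hs : c e₁ + c e₀ ≠ 0) (h01 : e₁ ≠ e₀)
    (P : Matrix I (ν ⊕ ε) ℂ) (hb : branch c P e₀ = branch c P e₁) :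
    unmerge c e₀ e₁ h01 (merge c e₀ e₁ P) = P := by
  ext i j
  rcases j with j | e
  · rfl
  · by_cases he : e = e₀
    · subst he
      rw [unmerge_self, branch_merge hc hs, ← hb, branch]
      have h := hc e
      field_simp
    · rw [unmerge_inr h01 _ i e he, branch_merge hc hs, branch]
      have h := hc e
      field_simp

theorem merge_unmerge (hc : ∀ e, c e ≠ 0) (hs : c e₁ + c e₀ ≠ 0) (h01 : e₁ ≠ e₀)
    (P : Matrix I (ν ⊕ {e // e ≠ e₀}) ℂ) :
    merge c e₀ e₁ (unmerge c e₀ e₁ h01 P) = P := by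
  ext i j
  rcases j with j | e
  · rfl
  · rw [merge_inr, branch_unmerge hc h01 P e.1 e.2, branch]
    have h := mc_ne hc hs e
    field_simp

end Merge

end Pool.ML
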