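import Pool.Agent.ML61.Comb1

/-!
# Merging keeps the critical equations
-/

set_option linter.unusedSectionVars false
set_option linter.unusedSimpArgs false

namespace Pool.ML

open Matrix

variable {I J J' ν ε : Type} [Fintype I] [Fintype J] [Fintype J'] [Fintype ν] [Fintype ε]
  [DecidableEq I] [DecidableEq J] [DecidableEq J'] [DecidableEq ν] [DecidableEq ε]

theorem rank_le_of_cols (P : Matrix I J ℂ) (P' : Matrix I J' ℂ) (s : J → ℂ) (f : J → J')
    (hP : ∀ i j, P i j = s j * P' i (f j)) : P.rank ≤ P'.rank := by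
  have h1 : P = P' * (Matrix.of fun j' j => if j' = f j then s j else 0) := by
    ext i j
    rw [Matrix.mul_apply, hP]
    simp only [Matrix.of_apply, mul_ite, mul_zero, Finset.sum_ite_eq', Finset.mem_univ, if_true]
    ring
  rw [h1]
  exact Matrix.rank_mul_le_left _ _

theorem PCrit_of_cols {r : ℕ} (d : Matrix I J ℂ) (d' : Matrix I J' ℂ) (P : Matrix I J ℂ)
    (P' : Matrix I J' ℂ) (s : J → ℂ) (f : J → J') (hs : ∀ j, s j ≠ 0)
    (hP : ∀ i j, P i j = s j * P' i (f j)) (hd : ∀ i j, d i j = s j * d' i (f j))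
    (h : PCrit r d' P') (hrk : P'.rank ≤ P.rank) (hright : P * (G d P)ᵀ = 0) :
    PCrit r d P := by
  have hG : ∀ i j, G d P i j = G d' P' i (f j) := by
    intro i j
    have h1 := hs j
    have h2 := h.ne i (f j)
    rw [G, G, Matrix.of_apply, Matrix.of_apply, hP, hd]
    congr 1
    field_simp
  refine ⟨?_, ?_, hright, ?_⟩
  · exact le_antisymm (by rw [← h.rk]; exact rank_le_of_cols P P' s f hP) (by rw [← h.rk]; exact hrk)
  · intro i j
    rw [hP]
    exact mul_ne_zero (hs j) (h.ne i (f j))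
  · ext j j'
    have h1 := congrFun (congrFun h.left (f j)) (f j')
    rw [Matrix.mul_apply] at h1 ⊢
    have h2 : ∀ i, (G d P)ᵀ j i * P i j' = s j' * ((G d' P')ᵀ (f j) i * P' i (f j')) := by
      intro i
      rw [Matrix.transpose_apply, Matrix.transpose_apply, hG, hP]
      ring
    rw [Finset.sum_congr rfl fun i _ => h2 i, ← Finset.mul_sum, h1, Matrix.zero_apply,
      Matrix.zero_apply, mul_zero]

theorem G_sdata_inr (u : Matrix I ν ℂ) (w : I → ℂ) (c : ε → ℂ) (P : Matrix I (ν ⊕ ε) ℂ)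
    (e : ε) (i : I) (hc : c e ≠ 0) : G (sdata u w c) P i (Sum.inr e) =
      w i / branch c P e i - 1 := by
  rw [G, Matrix.of_apply, sdata_inr, branch]
  congr 1
  by_cases h : P i (Sum.inr e) = 0
  · rw [h]
    simp
  · field_simp

theorem right_apply (u : Matrix I ν ℂ) (w : I → ℂ) (c : ε → ℂ) (P : Matrix I (ν ⊕ ε) ℂ)
    (hc : ∀ e, c e ≠ 0) (i i' : I) : (P * (G (sdata u w c) P)ᵀ) i i' =
      (∑ a, P i (Sum.inl a) * (u i' a / P i' (Sum.inl a) - 1)) +
        ∑ e, c e * (branch c P e i * (w i' / branch c P e i' - 1)) := by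
  rw [Matrix.mul_apply, Fintype.sum_sum_type]
  congr 1
  refine Finset.sum_congr rfl fun e _ => ?_
  rw [Matrix.transpose_apply, G_sdata_inr u w c P e i' (hc e)]
  have h := hc e
  have h1 : c e * branch c P e i = P i (Sum.inr e) := by
    rw [branch]
    field_simp
  rw [← mul_assoc, h1]

theorem sum_mc (c : ε → ℂ) (e₀ e₁ : ε) (h01 : e₁ ≠ e₀) (F : ε → ℂ) (hF : F e₀ = F e₁) :
    ∑ e : {e // e ≠ e₀}, mc c e₀ e₁ e * F e.1 = ∑ e, c e * F e := by
  have h1 : ∑ e : {e // e ≠ e₀}, mc c e₀ e₁ e * F e.1 =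
      ∑ e ∈ Finset.univ.erase e₀, (if e = e₁ then c e₁ + c e₀ else c e) * F e := by
    symm
    apply Finset.sum_subtype (Finset.univ.erase e₀) (p := fun e => e ≠ e₀) (by simp)
  have h2 : ∀ e, (if e = e₁ then c e₁ + c e₀ else c e) * F e =
      c e * F e + (if e = e₁ then c e₀ * F e₀ else 0) := by
    intro e
    split_ifs with h
    · rw [h, hF]
      ring
    · ring
  rw [h1, Finset.sum_congr rfl fun e _ => h2 e, Finset.sum_add_distrib,
    Finset.sum_ite_eq', if_pos (Finset.mem_erase.mpr ⟨h01, Finset.mem_univ _⟩),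
    Finset.sum_erase_add _ _ (Finset.mem_univ e₀)]

variable {r : ℕ} {u : Matrix I ν ℂ} {w : I → ℂ} {c : ε → ℂ} {e₀ e₁ : ε}

/-- The column kept for a given column. -/
def mproj (h01 : e₁ ≠ e₀) (e : ε) : {e // e ≠ e₀} :=
  if h : e = e₀ then ⟨e₁, h01⟩ else ⟨e, h⟩

theorem unmerge_inr' (h01 : e₁ ≠ e₀) (P : Matrix I (ν ⊕ {e // e ≠ e₀}) ℂ) (i : I) (e : ε) :
    unmerge c e₀ e₁ h01 P i (Sum.inr e) =
      c e * branch (mc c e₀ e₁) P (mproj h01 e) i := by
  by_cases he : e = e₀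
  · subst he
    rw [unmerge_self, mproj, dif_pos rfl]
  · rw [unmerge_inr h01 P i e he, mproj, dif_neg he]

theorem merge_cols (P : Matrix I (ν ⊕ ε) ℂ) (i : I) (j : ν ⊕ {e // e ≠ e₀}) :
    merge c e₀ e₁ P i j = Sum.elim (fun _ => 1)
      (fun e : {e // e ≠ e₀} => mc c e₀ e₁ e / c e.1) j * P i (Sum.map id Subtype.val j) := by
  rcases j with j | e
  · simp [merge_inl]
  · rw [merge_inr, branch]
    simp only [Sum.elim_inr, Sum.map_inr]
    ring

theorem unmerge_cols (h01 : e₁ ≠ e₀) (P : Matrix I (ν ⊕ {e // e ≠ e₀}) ℂ) (i : I) (j : ν ⊕ ε) :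
    unmerge c e₀ e₁ h01 P i j = Sum.elim (fun _ => 1)
      (fun e : ε => c e / mc c e₀ e₁ (mproj h01 e)) j * P i (Sum.map id (mproj h01) j) := by
  rcases j with j | e
  · simp [unmerge_inl]
  · rw [unmerge_inr', branch]
    simp only [Sum.elim_inr, Sum.map_inr]
    ring

theorem merge_PCrit (hc : ∀ e, c e ≠ 0) (hs : c e₁ + c e₀ ≠ 0) (h01 : e₁ ≠ e₀)
    (P : Matrix I (ν ⊕ ε) ℂ) (hb : branch c P e₀ = branch c P e₁)
    (hP : PCrit r (sdata u w c) P) :
    PCrit r (sdata u w (mc c e₀ e₁)) (merge c e₀ e₁ P) := by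
  refine PCrit_of_cols _ (sdata u w c) _ P (Sum.elim (fun _ => 1)
      (fun e : {e // e ≠ e₀} => mc c e₀ e₁ e / c e.1)) (Sum.map id Subtype.val) ?_
      (merge_cols P) ?_ hP ?_ ?_
  · rintro (j | e)
    · exact one_ne_zero
    · exact div_ne_zero (mc_ne hc hs e) (hc e.1)
  · rintro i (j | e)
    · simp [sdata_inl]
    · simp only [sdata_inr, Sum.elim_inr, Sum.map_inr]
      have h := hc e.1
      field_simp
  · have h := rank_le_of_cols (unmerge c e₀ e₁ h01 (merge c e₀ e₁ P)) (merge c e₀ e₁ P) _ _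
      (unmerge_cols h01 _)
    rwa [unmerge_merge hc hs h01 P hb] at h
  · ext i i'
    rw [right_apply u w _ _ (mc_ne hc hs), Matrix.zero_apply]
    have h1 := congrFun (congrFun hP.right i) i'
    rw [right_apply u w c P hc, Matrix.zero_apply] at h1
    rw [← h1]
    congr 1
    simp only [branch_merge hc hs]
    exact sum_mc c e₀ e₁ h01 (fun e => branch c P e i * (w i' / branch c P e i' - 1))
      (by simp only [hb])

theorem unmerge_PCrit (hc : ∀ e, c e ≠ 0) (hs : c e₁ + c e₀ ≠ 0) (h01 : e₁ ≠ e₀)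
    (P : Matrix I (ν ⊕ {e // e ≠ e₀}) ℂ) (hP : PCrit r (sdata u w (mc c e₀ e₁)) P) :
    PCrit r (sdata u w c) (unmerge c e₀ e₁ h01 P) := by
  have hbr : branch c (unmerge c e₀ e₁ h01 P) e₀ = branch c (unmerge c e₀ e₁ h01 P) e₁ := by
    rw [branch_unmerge_self hc h01 P, branch_unmerge hc h01 P e₁ h01]
  refine PCrit_of_cols _ (sdata u w (mc c e₀ e₁)) _ P (Sum.elim (fun _ => 1)
      (fun e : ε => c e / mc c e₀ e₁ (mproj h01 e))) (Sum.map id (mproj h01)) ?_
      (unmerge_cols h01 P) ?_ hP ?_ ?_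
  · rintro (j | e)
    · exact one_ne_zero
    · exact div_ne_zero (hc e) (mc_ne hc hs _)
  · rintro i (j | e)
    · simp [sdata_inl]
    · simp only [sdata_inr, Sum.elim_inr, Sum.map_inr]
      have h := mc_ne hc hs (mproj h01 e)
      field_simp
  · have h := rank_le_of_cols (merge c e₀ e₁ (unmerge c e₀ e₁ h01 P)) (unmerge c e₀ e₁ h01 P) _ _
      (merge_cols _)
    rwa [merge_unmerge hc hs h01 P] at h
  · ext i i'
    rw [right_apply u w c _ hc, Matrix.zero_apply]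
    have h1 := congrFun (congrFun hP.right i) i'
    rw [right_apply u w _ P (mc_ne hc hs), Matrix.zero_apply] at h1
    rw [← h1]
    congr 1
    rw [← sum_mc c e₀ e₁ h01 (fun e => branch c (unmerge c e₀ e₁ h01 P) e i *
      (w i' / branch c (unmerge c e₀ e₁ h01 P) e i' - 1)) (by simp only [hbr])]
    refine Finset.sum_congr rfl fun e _ => ?_
    simp only [branch_unmerge hc h01 P e.1 e.2]

/-- C2: merging the column `e₀` into the column `e₁` -/
theorem merge_ncard' (hc : ∀ e, c e ≠ 0) (h01 : e₁ ≠ e₀) (hs : c e₁ + c e₀ ≠ 0)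
    (T : Set ε) (hT : e₀ ∉ T) :
    ({P | P ∈ Mset r u w c T ∧ branch c P e₀ = branch c P e₁}).ncard =
      (Mset r u w (mc c e₀ e₁) {e | e.1 ∈ T}).ncard := by
  apply ncard_eq_of_inv (merge c e₀ e₁) (unmerge c e₀ e₁ h01)
  · rintro P ⟨⟨hP, hinj⟩, hb⟩
    refine ⟨merge_PCrit hc hs h01 P hb hP, ?_⟩
    intro e he e' he' h
    rw [branch_merge hc hs, branch_merge hc hs] at h
    exact Subtype.ext (hinj he he' h)
  · rintro P ⟨hP, hinj⟩
    refine ⟨⟨unmerge_PCrit hc hs h01 P hP, ?_⟩, ?_⟩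
    · intro e he e' he' h
      have hne : e ≠ e₀ := fun h => hT (h ▸ he)
      have hne' : e' ≠ e₀ := fun h => hT (h ▸ he')
      rw [branch_unmerge hc h01 P e hne, branch_unmerge hc h01 P e' hne'] at h
      have h2 := hinj (show (⟨e, hne⟩ : {e // e ≠ e₀}) ∈ {e : {e // e ≠ e₀} | e.1 ∈ T} from he)
        (show (⟨e', hne'⟩ : {e // e ≠ e₀}) ∈ {e : {e // e ≠ e₀} | e.1 ∈ T} from he') h
      exact congrArg Subtype.val h2
    · rw [branch_unmerge_self hc h01 P, branch_unmerge hc h01 P e₁ h01]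
  · rintro P ⟨_, hb⟩
    exact unmerge_merge hc hs h01 P hb
  · intro P _
    exact merge_unmerge hc hs h01 P

theorem merge_ncard {m n r : ℕ} (_hr : 1 ≤ r) (u : Matrix (Fin m) (Fin n) ℂ) (w : Fin m → ℂ)
    (c : ε → ℂ) (hc : ∀ e, c e ≠ 0) (e₀ e₁ : ε) (h01 : e₁ ≠ e₀) (hs : c e₁ + c e₀ ≠ 0)
    (T : Set ε) (hT : e₀ ∉ T) :
    ({P | P ∈ Mset r u w c T ∧ branch c P e₀ = branch c P e₁}).ncard =
      (Mset r u w (fun e : {e // e ≠ e₀} => if e.1 = e₁ then c e₁ + c e₀ else c e.1)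
        {e | e.1 ∈ T}).ncard :=
  merge_ncard' hc h01 hs T hT

end Pool.ML
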