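import Pool.Agent.ML61.Comb2

/-!
# The recursion
-/

set_option linter.unusedSectionVars false
set_option linter.unusedSimpArgs false

namespace Pool.ML

open Matrix

/-- The count of the critical points of the special data, with at least one extra column. -/
def SpecCount (m n r : ℕ) : Prop :=
  ∀ (ε : Type) [Fintype ε] [DecidableEq ε] [Nonempty ε] (u : Matrix (Fin m) (Fin n) ℂ)
    (w : Fin m → ℂ) (c : ε → ℂ), SAlg u w c → {P | PCrit r (sdata u w c) P}.Finite ∧
      ∀ v : Matrix (Fin m) (Fin n ⊕ ε) ℂ, Alg v →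
        {P | PCrit r (sdata u w c) P}.ncard = {P | PCrit r v P}.ncard

section General

variable {I ν ε ε' : Type} [Fintype I] [Fintype ν] [Fintype ε] [Fintype ε']
  [DecidableEq I] [DecidableEq ν] [DecidableEq ε] [DecidableEq ε']

theorem exists_SAlg (I ν ε : Type) [Fintype I] [Fintype ν] [Fintype ε] :
    ∃ (u : Matrix I ν ℂ) (w : I → ℂ) (c : ε → ℂ), SAlg u w c := by
  classical
  obtain ⟨x, _, hx⟩ := exists_algInd (ι := (I × ν) ⊕ (I ⊕ ε)) Set.univ isOpen_univ
    ⟨0, trivial⟩
  refine ⟨Matrix.of fun i j => x (Sum.inl (i, j)), fun i => x (Sum.inr (Sum.inl i)),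
    fun e => x (Sum.inr (Sum.inr e)), ?_⟩
  rw [SAlg]
  convert hx using 1
  funext a
  rcases a with ⟨i, j⟩ | i | e <;> rfl

theorem SAlg.comp {u : Matrix I ν ℂ} {w : I → ℂ} {c : ε → ℂ} (h : SAlg u w c) (f : ε' → ε)
    (hf : Function.Injective f) : SAlg u w (c ∘ f) := by
  have h1 := AlgebraicIndependent.comp h
    (Sum.map id (Sum.map id f) : (I × ν) ⊕ (I ⊕ ε') → (I × ν) ⊕ (I ⊕ ε))
    (Function.injective_id.sumMap (Function.injective_id.sumMap hf))
  rw [SAlg]
  convert h1 using 1
  funext a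
  rcases a with ⟨i, j⟩ | i | e <;> rfl

theorem SAlg.c_ne' {u : Matrix I ν ℂ} {w : I → ℂ} {c : ε → ℂ} (h : SAlg u w c) (e : ε) :
    c e ≠ 0 := AlgebraicIndependent.ne_zero h (Sum.inr (Sum.inr e))

theorem SAlg.add_ne {u : Matrix I ν ℂ} {w : I → ℂ} {c : ε → ℂ} (h : SAlg u w c) (e e' : ε) :
    c e + c e' ≠ 0 := by
  intro h0
  have h1 := (algebraicIndependent_iff.mp h) (MvPolynomial.X (Sum.inr (Sum.inr e)) +
    MvPolynomial.X (Sum.inr (Sum.inr e'))) (by
      rw [map_add, MvPolynomial.aeval_X, MvPolynomial.aeval_X]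
      exact h0)
  have h2 := congrArg (MvPolynomial.eval
    (fun _ : (I × ν) ⊕ (I ⊕ ε) => (1 : ℚ))) h1
  rw [map_add, MvPolynomial.eval_X, MvPolynomial.eval_X, map_zero] at h2
  norm_num at h2

theorem SAlg.merge {u : Matrix I ν ℂ} {w : I → ℂ} {c : ε → ℂ} (h : SAlg u w c) (e₀ e₁ : ε)
    (h01 : e₁ ≠ e₀) : SAlg u w (mc c e₀ e₁) := by
  set c' : ε → ℂ := fun e => if e = e₁ then c e₁ + c e₀ else c e with hc'
  have h1 : SAlg u w c' := by
    apply algInd_transfer _ _ h
    rintro (⟨i, j⟩ | i | e)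
    · exact Algebra.subset_adjoin ⟨Sum.inl (i, j), rfl⟩
    · exact Algebra.subset_adjoin ⟨Sum.inr (Sum.inl i), rfl⟩
    · have h2 : ∀ e', c' e' ∈ Algebra.adjoin ℚ (Set.range
          (Sum.elim (fun x : I × ν => u x.1 x.2) (Sum.elim w c'))) := fun e' =>
        Algebra.subset_adjoin ⟨Sum.inr (Sum.inr e'), rfl⟩
      change c e ∈ _
      by_cases he : e = e₁
      · have h3 : c e = c' e₁ - c' e₀ := by
          rw [hc']
          simp only [if_true]
          rw [if_neg (Ne.symm h01), he]
          ring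
        rw [h3]
        exact Subalgebra.sub_mem _ (h2 _) (h2 _)
      · have h3 : c e = c' e := by
          rw [hc']
          simp only
          rw [if_neg he]
        rw [h3]
        exact h2 _
  exact h1.comp (Subtype.val : {e // e ≠ e₀} → ε) Subtype.val_injective

end General

/-- The number of critical points whose first `l` of the `l + k` branches are distinct. -/
noncomputable def MM (m n r l k : ℕ) : ℕ :=
  (Mset r (exists_SAlg (Fin m) (Fin n) (Fin l ⊕ Fin k)).choose
    (exists_SAlg (Fin m) (Fin n) (Fin l ⊕ Fin k)).choose_spec.choose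
    (exists_SAlg (Fin m) (Fin n) (Fin l ⊕ Fin k)).choose_spec.choose_spec.choose
    (Set.range Sum.inl)).ncard

variable {m n r : ℕ} {ε : Type} [Fintype ε] [DecidableEq ε]

theorem Mset_eq_MM (u : Matrix (Fin m) (Fin n) ℂ) (w : Fin m → ℂ) (c : ε → ℂ)
    (hS : SAlg u w c) (T : Set ε) (l k : ℕ) (hT : T.ncard = l)
    (hε : Fintype.card ε = l + k) : (Mset r u w c T).ncard = MM m n r l k := by
  classical
  have h1 : Fintype.card T = l := by rw [← hT, Set.ncard_eq_toFinset_card', Set.toFinset_card]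
  have h2 : Fintype.card (Tᶜ : Set ε) = k := by
    rw [Fintype.card_compl_set, h1, hε]
    omega
  let e1 : Fin l ≃ T := Fintype.equivOfCardEq (by rw [Fintype.card_fin, h1])
  let e2 : Fin k ≃ (Tᶜ : Set ε) := Fintype.equivOfCardEq (by rw [Fintype.card_fin, h2])
  let f : Fin l ⊕ Fin k ≃ ε := (Equiv.sumCongr e1 e2).trans (Equiv.Set.sumCompl T)
  have hf : f ⁻¹' T = Set.range Sum.inl := by
    ext x
    rcases x with x | x
    · simp only [Set.mem_preimage, Set.mem_range, Sum.inl.injEq, exists_eq, iff_true]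
      have : f (Sum.inl x) = (e1 x : ε) := by simp [f]
      rw [this]
      exact (e1 x).2
    · simp only [Set.mem_preimage, Set.mem_range, reduceCtorEq, exists_false, iff_false]
      have : f (Sum.inr x) = (e2 x : ε) := by simp [f]
      rw [this]
      exact (e2 x).2
  rw [← Mset_reindex u w c T f, hf, MM]
  exact Mset_ncard_eq _ _ _ _ _ _ (hS.comp f f.injective)
    (exists_SAlg (Fin m) (Fin n) (Fin l ⊕ Fin k)).choose_spec.choose_spec.choose_spec _

/-- The recursion. -/
theorem MM_rec (hC : SpecCount m n r) (l k : ℕ) :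
    MM m n r l (k + 1) = l * MM m n r l k + MM m n r (l + 1) k := by
  classical
  have hne : Nonempty (Fin l ⊕ Fin (k + 1)) := ⟨Sum.inr 0⟩
  obtain ⟨u, w, c, hS⟩ := exists_SAlg (Fin m) (Fin n) (Fin l ⊕ Fin (k + 1))
  set e₀ : Fin l ⊕ Fin (k + 1) := Sum.inr 0 with he₀
  set T : Set (Fin l ⊕ Fin (k + 1)) := Set.range Sum.inl with hT
  have hTc : T.ncard = l := by
    rw [hT, ← Set.image_univ, Set.ncard_image_of_injective _ Sum.inl_injective,
      Set.ncard_univ, Nat.card_eq_fintype_card, Fintype.card_fin]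
  have he₀T : e₀ ∉ T := by
    rintro ⟨a, ha⟩
    simp [he₀] at ha
  have hfin : (Mset r u w c T).Finite :=
    (hC _ u w c hS).1.subset fun P hP => hP.1
  rw [← Mset_eq_MM (r := r) u w c hS T l (k + 1) hTc (by simp)]
  -- the fibres
  let g : Matrix (Fin m) (Fin n ⊕ (Fin l ⊕ Fin (k + 1))) ℂ → Option (Fin l) := fun P =>
    if h : ∃ a : Fin l, branch c P e₀ = branch c P (Sum.inl a) then some h.choose else none
  have hsum := Finset.card_eq_sum_card_fiberwise (f := g) (s := hfin.toFinset)
    (t := Finset.univ) (fun _ _ => Finset.mem_coe.mpr (Finset.mem_univ _))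
  rw [← Set.ncard_eq_toFinset_card _ hfin, Fintype.sum_option] at hsum
  have hnone : (hfin.toFinset.filter fun P => g P = none).card = MM m n r (l + 1) k := by
    rw [← Mset_eq_MM (r := r) u w c hS (insert e₀ T) (l + 1) k
      (by rw [Set.ncard_insert_of_notMem he₀T, hTc]) (by
        simp only [Fintype.card_sum, Fintype.card_fin]
        omega), ← Set.ncard_coe_finset]
    congr 1
    ext P
    simp only [Finset.coe_filter, Set.Finite.mem_toFinset, Set.mem_ofPred_eq]
    constructor
    · rintro ⟨⟨hP, hinj⟩, hg⟩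
      refine ⟨hP, ?_⟩
      have hno : ¬∃ a : Fin l, branch c P e₀ = branch c P (Sum.inl a) := by
        intro h
        simp only [g] at hg
        rw [dif_pos h] at hg
        exact Option.some_ne_none _ hg
      rw [Set.injOn_insert he₀T]
      refine ⟨hinj, ?_⟩
      rintro ⟨e, ⟨a, rfl⟩, ha⟩
      exact hno ⟨a, ha.symm⟩
    · rintro ⟨hP, hinj⟩
      rw [Set.injOn_insert he₀T] at hinj
      refine ⟨⟨hP, hinj.1⟩, ?_⟩
      simp only [g]
      rw [dif_neg]
      rintro ⟨a, ha⟩
      exact hinj.2 ⟨Sum.inl a, ⟨a, rfl⟩, ha.symm⟩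
  have hsome : ∀ a : Fin l, (hfin.toFinset.filter fun P => g P = some a).card =
      MM m n r l k := by
    intro a
    have h01 : (Sum.inl a : Fin l ⊕ Fin (k + 1)) ≠ e₀ := by simp [he₀]
    have h1 := merge_ncard' (r := r) (u := u) (w := w) (c := c) (e₀ := e₀)
      (e₁ := Sum.inl a) hS.c_ne' h01 (hS.add_ne _ _) T he₀T
    have h2 : (Mset r u w (mc c e₀ (Sum.inl a)) {e | e.1 ∈ T}).ncard = MM m n r l k := by
      apply Mset_eq_MM _ _ _ (hS.merge e₀ (Sum.inl a) h01)
      · have h3 : (Subtype.val : {e // e ≠ e₀} → Fin l ⊕ Fin (k + 1)) ''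
            {e | e.1 ∈ T} = T := by
          ext e
          constructor
          · rintro ⟨e', he', rfl⟩
            exact he'
          · intro he
            exact ⟨⟨e, fun h => he₀T (h ▸ he)⟩, he, rfl⟩
        have h5 := Set.ncard_image_of_injective {e : {e // e ≠ e₀} | e.1 ∈ T}
          Subtype.val_injective
        rw [h3, hTc] at h5
        exact h5.symm
      · have h4 : Fintype.card {e : Fin l ⊕ Fin (k + 1) // e ≠ e₀} =
            Fintype.card (Fin l ⊕ Fin (k + 1)) - 1 := by
          rw [Fintype.card_subtype_compl, Fintype.card_subtype_eq]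
        rw [h4]
        simp only [Fintype.card_sum, Fintype.card_fin]
        omega
    rw [← h2, ← h1, ← Set.ncard_coe_finset]
    congr 1
    ext P
    simp only [Finset.coe_filter, Set.Finite.mem_toFinset, Set.mem_ofPred_eq]
    constructor
    · rintro ⟨hP, hg⟩
      refine ⟨hP, ?_⟩
      by_cases h : ∃ a : Fin l, branch c P e₀ = branch c P (Sum.inl a)
      · simp only [g] at hg
        rw [dif_pos h, Option.some.injEq] at hg
        rw [← hg]
        exact h.choose_spec
      · simp only [g] at hg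
        rw [dif_neg h] at hg
        exact absurd hg.symm (Option.some_ne_none _)
    · rintro ⟨hP, hb⟩
      refine ⟨hP, ?_⟩
      have h : ∃ a : Fin l, branch c P e₀ = branch c P (Sum.inl a) := ⟨a, hb⟩
      simp only [g]
      rw [dif_pos h, Option.some.injEq]
      have h5 := hP.2 (show Sum.inl h.choose ∈ T from ⟨_, rfl⟩)
        (show Sum.inl a ∈ T from ⟨_, rfl⟩) (h.choose_spec.symm.trans hb)
      exact Sum.inl_injective h5
  rw [hsum, hnone, Finset.sum_congr rfl fun a _ => hsome a, Finset.sum_const,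
    Finset.card_univ, Fintype.card_fin, smul_eq_mul]
  ring

end Pool.ML
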