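import Pool.Agent.ML61.Comb3

/-!
# The Stirling transform
-/

set_option linter.unusedSectionVars false
set_option linter.unusedSimpArgs false
set_option linter.unusedVariables false

namespace Pool.ML

open Matrix Filter Topology

theorem no_growth (x y C c d : ℕ) (h : x < y) (H : ∀ j, y ^ j ≤ C * (j + c) ^ d * x ^ j) :
    False := by
  rcases Nat.eq_zero_or_pos x with hx | hx
  · have h1 := H 1
    rw [hx, pow_one, pow_one, mul_zero] at h1
    omega
  · have hx' : (0 : ℝ) < x := by exact_mod_cast hx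
    have hxy : (x : ℝ) < y := by exact_mod_cast h
    set q : ℝ := (y : ℝ) / x with hq
    have hq1 : 1 < q := by rw [hq, lt_div_iff₀ hx']; linarith
    have hq0 : 0 < q := by linarith
    have h1 : ∀ j : ℕ, q ^ j ≤ C * ((j + c : ℕ) : ℝ) ^ d := by
      intro j
      have h2 : ((y : ℝ)) ^ j ≤ C * ((j + c : ℕ) : ℝ) ^ d * (x : ℝ) ^ j := by
        exact_mod_cast H j
      rw [hq, div_pow, div_le_iff₀ (by positivity)]
      exact h2
    have h3 := tendsto_pow_const_div_const_pow_of_one_lt d hq1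
    have h4 : Tendsto (fun j : ℕ => (((j + c : ℕ) : ℝ)) ^ d / q ^ (j + c)) atTop (𝓝 0) :=
      h3.comp (tendsto_add_atTop_nat c)
    have h5 := (h4.const_mul ((C : ℝ) * q ^ c))
    rw [mul_zero] at h5
    have h6 := h5.eventually (gt_mem_nhds (zero_lt_one))
    obtain ⟨j, hj⟩ := h6.exists
    have h7 := h1 j
    have h8 : (C : ℝ) * q ^ c * (((j + c : ℕ) : ℝ) ^ d / q ^ (j + c)) =
        (C * ((j + c : ℕ) : ℝ) ^ d) / q ^ j := by
      rw [pow_add]
      field_simp
    rw [h8, div_lt_one (by positivity)] at hj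
    linarith

variable {m n r : ℕ}

theorem ncard_PCrit_reindex {I J J' : Type} [Fintype I] [Fintype J] [Fintype J']
    (f : J' ≃ J) (v : Matrix I J ℂ) :
    {P | PCrit r (v.submatrix id f) P}.ncard = {P | PCrit r v P}.ncard := by
  symm
  apply ncard_eq_of_inv (fun P => P.submatrix id f) (fun P => P.submatrix id f.symm)
  · intro P hP
    exact hP.submatrix (Equiv.refl I) f
  · intro P hP
    have h := PCrit.submatrix hP (Equiv.refl I) f.symm
    have h1 : (v.submatrix id f).submatrix (Equiv.refl I) f.symm = v := by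
      ext i j
      simp
    rw [h1] at h
    exact h
  · intro P _
    ext i j
    simp
  · intro P _
    ext i j
    simp

theorem MM_zero (hC : SpecCount m n r) (hm : 1 ≤ m) (hn : 1 ≤ n) (k : ℕ) (hk : 1 ≤ k)
    (v : Matrix (Fin m) (Fin (n + k)) ℂ) (hv : Alg v) :
    MM m n r 0 k = {p | IsCritical r v p}.ncard := by
  have hne : Nonempty (Fin k) := ⟨⟨0, hk⟩⟩
  obtain ⟨u, w, c, hS⟩ := exists_SAlg (Fin m) (Fin n) (Fin k)
  rw [← Mset_eq_MM (r := r) u w c hS ∅ 0 k (by simp) (by simp)]
  have h1 : Mset r u w c ∅ = {P | PCrit r (sdata u w c) P} := by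
    ext P
    simp [Mset]
  have h2 : Alg (v.submatrix (Equiv.refl (Fin m)) (finSumFinEquiv : Fin n ⊕ Fin k ≃ _)) :=
    hv.submatrix _ _
  rw [h1, (hC _ u w c hS).2 _ h2]
  have h3 := ncard_PCrit_reindex (r := r) (finSumFinEquiv : Fin n ⊕ Fin k ≃ _) v
  have h4 : v.submatrix (Equiv.refl (Fin m)) (finSumFinEquiv : Fin n ⊕ Fin k ≃ _) =
      v.submatrix id (finSumFinEquiv : Fin n ⊕ Fin k ≃ _) := rfl
  rw [h4, h3]
  exact ncard_PCrit (Alg.sum_ne hm (by omega) v hv)

theorem MM_le (hC : SpecCount m n r) (l k : ℕ) (hlk : 1 ≤ l + k) :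
    MM m n r l k ≤ MM m n r 0 (l + k) := by
  classical
  have hne : Nonempty (Fin l ⊕ Fin k) := by
    rw [← Fintype.card_pos_iff]
    simp only [Fintype.card_sum, Fintype.card_fin]
    omega
  obtain ⟨u, w, c, hS⟩ := exists_SAlg (Fin m) (Fin n) (Fin l ⊕ Fin k)
  have hTc : (Set.range (Sum.inl : Fin l → Fin l ⊕ Fin k)).ncard = l := by
    rw [← Set.image_univ, Set.ncard_image_of_injective _ Sum.inl_injective,
      Set.ncard_univ, Nat.card_eq_fintype_card, Fintype.card_fin]
  rw [← Mset_eq_MM (r := r) u w c hS (Set.range Sum.inl) l k hTc (by simp),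
    ← Mset_eq_MM (r := r) u w c hS ∅ 0 (l + k) (by simp) (by simp)]
  apply Set.ncard_le_ncard
  · rintro P ⟨hP, _⟩
    exact ⟨hP, by simp⟩
  · exact (hC _ u w c hS).1.subset fun P hP => hP.1

theorem exists_Alg (I J : Type) [Fintype I] [Fintype J] : ∃ v : Matrix I J ℂ, Alg v := by
  obtain ⟨x, _, hx⟩ := exists_algInd (ι := I × J) Set.univ isOpen_univ ⟨0, trivial⟩
  exact ⟨Matrix.of fun i j => x (i, j), hx⟩

theorem MM_pow (hC : SpecCount m n r) (l k j : ℕ) :
    l ^ j * MM m n r l k ≤ MM m n r l (k + j) := by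
  induction j with
  | zero => simp
  | succ j ih =>
    rw [← Nat.add_assoc, MM_rec hC, pow_succ]
    calc l ^ j * l * MM m n r l k = l * (l ^ j * MM m n r l k) := by ring
      _ ≤ l * MM m n r l (k + j) := Nat.mul_le_mul_left _ ih
      _ ≤ _ := Nat.le_add_right _ _

theorem MM_eq_zero (hC : SpecCount m n r) (hr : 1 ≤ r) (hm : r ≤ m) (hn : r ≤ n) (l k : ℕ)
    (hl : (m - 1).choose (r - 1) < l) : MM m n r l k = 0 := by
  by_contra h0
  have hpos : 1 ≤ MM m n r l k := Nat.one_le_iff_ne_zero.mpr h0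
  set b := (m - 1).choose (r - 1) with hb
  set A := 3 ^ ((r + 1) * (m - 1)) * (m - 1).factorial ^ r *
    (r ^ 2 + r + 1) ^ (r * (r - 1)) with hA
  apply no_growth b l (A * 8 ^ (r * (m - r)) * b ^ (n + l + k - r)) (n + l + k)
    (2 * (r * (m - r))) hl
  intro j
  have h1 : l ^ j ≤ MM m n r 0 (l + (k + j)) := by
    calc l ^ j = l ^ j * 1 := by ring
      _ ≤ l ^ j * MM m n r l k := Nat.mul_le_mul_left _ hpos
      _ ≤ MM m n r l (k + j) := MM_pow hC l k j
      _ ≤ _ := MM_le hC l (k + j) (by omega)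
  obtain ⟨v, hv⟩ := exists_Alg (Fin m) (Fin (n + (l + (k + j))))
  rw [MM_zero hC (le_trans hr hm) (le_trans hr hn) _ (by omega) v hv] at h1
  have h2 := (finite_of_alg hr hm (by omega) v hv).2
  rw [UBq_eq hr hm (by omega)] at h2
  refine le_trans h1 (le_trans h2 (le_of_eq ?_))
  have h3 : n + (l + (k + j)) - r = (n + l + k - r) + j := by omega
  have h4 : n + (l + (k + j)) = j + (n + l + k) := by omega
  rw [h3, h4, ← hb, ← hA, mul_pow, ← pow_mul, pow_add]
  ring

/-- The Stirling transform. -/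
theorem MM_stirling (hC : SpecCount m n r) (k j : ℕ) :
    MM m n r 0 (k + j) =
      ∑ l ∈ Finset.range (k + 1), Nat.stirlingSecond k l * MM m n r l j := by
  induction k generalizing j with
  | zero => simp
  | succ k ih =>
    have h1 : k + 1 + j = k + (j + 1) := by ring
    rw [h1, ih]
    have h2 : ∀ l ∈ Finset.range (k + 1), Nat.stirlingSecond k l * MM m n r l (j + 1) =
        l * Nat.stirlingSecond k l * MM m n r l j +
          Nat.stirlingSecond k l * MM m n r (l + 1) j := by
      intro l _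
      rw [MM_rec hC]
      ring
    rw [Finset.sum_congr rfl h2, Finset.sum_add_distrib, Finset.sum_range_succ' _ (k + 1)]
    have h3 : ∀ l, Nat.stirlingSecond (k + 1) (l + 1) * MM m n r (l + 1) j =
        (l + 1) * Nat.stirlingSecond k (l + 1) * MM m n r (l + 1) j +
          Nat.stirlingSecond k l * MM m n r (l + 1) j := by
      intro l
      rw [Nat.stirlingSecond_succ_succ]
      ring
    rw [Finset.sum_congr rfl fun l _ => h3 l, Finset.sum_add_distrib,
      Nat.stirlingSecond_succ_zero, zero_mul, add_zero]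
    congr 1
    rw [Finset.sum_range_succ' _ k, Finset.sum_range_succ]
    have h4 : Nat.stirlingSecond k (k + 1) = 0 := Nat.stirlingSecond_eq_zero_of_lt (by omega)
    rw [h4]
    simp

theorem stirling_le (k l : ℕ) : Nat.stirlingSecond k l ≤ k.choose l * l ^ k := by
  induction k generalizing l with
  | zero =>
    rcases l with _ | l
    · simp
    · simp
  | succ k ih =>
    rcases l with _ | l
    · simp
    · rw [Nat.stirlingSecond_succ_succ, Nat.choose_succ_succ]
      have h1 := ih (l + 1)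
      have h2 := ih l
      have h3 : l ^ k ≤ (l + 1) ^ (k + 1) := by
        calc l ^ k ≤ (l + 1) ^ k := Nat.pow_le_pow_left (by omega) k
          _ ≤ (l + 1) ^ (k + 1) := Nat.pow_le_pow_right (by omega) (by omega)
      calc (l + 1) * Nat.stirlingSecond k (l + 1) + Nat.stirlingSecond k l
          ≤ (l + 1) * (k.choose (l + 1) * (l + 1) ^ k) + k.choose l * l ^ k :=
            Nat.add_le_add (Nat.mul_le_mul_left _ h1) h2
        _ ≤ (l + 1) * (k.choose (l + 1) * (l + 1) ^ k) + k.choose l * (l + 1) ^ (k + 1) :=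
            Nat.add_le_add_left (Nat.mul_le_mul_left _ h3) _
        _ = _ := by ring

theorem MM_top_pos (hC : SpecCount m n r) (hr : 1 ≤ r) (hm : r ≤ m) (hn : r ≤ n) :
    0 < MM m n r ((m - 1).choose (r - 1)) 0 := by
  set b := (m - 1).choose (r - 1) with hb
  have hb1 : 1 ≤ b := Nat.choose_pos (by omega)
  by_contra hcon
  have h0 : MM m n r b 0 = 0 := by omega
  apply no_growth (b - 1) b ((∑ l ∈ Finset.range b, MM m n r l 0) * (b - 1)) 2 b (by omega)
  intro k
  obtain ⟨v, hv⟩ := exists_Alg (Fin m) (Fin (n + (k + 1)))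
  have hlow : b ^ k ≤ MM m n r 0 (k + 1) := by
    rw [MM_zero hC (le_trans hr hm) (le_trans hr hn) (k + 1) (by omega) v hv]
    have h1 := le_encard (le_trans hr hm) (le_trans hr (by omega))
      (LB_simple hr hm (show r ≤ n + (k + 1) by omega)) v hv
    rw [← (finite_of_alg hr hm (by omega) v hv).1.cast_ncard_eq] at h1
    have h2 : b ^ (n + (k + 1) - r) ≤ {p | IsCritical r v p}.ncard := by exact_mod_cast h1
    exact le_trans (Nat.pow_le_pow_right hb1 (by omega)) h2
  have hst := MM_stirling hC (k + 1) 0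
  rw [Nat.add_zero] at hst
  refine le_trans hlow ?_
  have h9 : (∑ l ∈ Finset.range b, MM m n r l 0) * (b - 1) * (k + 2) ^ b * (b - 1) ^ k =
      (∑ l ∈ Finset.range b, MM m n r l 0) * ((k + 2) ^ b * (b - 1) ^ (k + 1)) := by ring
  rw [h9, hst, Finset.sum_mul]
  have hterm : ∀ l ∈ Finset.range (k + 1 + 1), Nat.stirlingSecond (k + 1) l * MM m n r l 0 ≤
      if l < b then MM m n r l 0 * ((k + 2) ^ b * (b - 1) ^ (k + 1)) else 0 := by
    intro l _
    split_ifs with hl
    · rw [mul_comm]
      apply Nat.mul_le_mul_left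
      refine le_trans (stirling_le (k + 1) l)
        (Nat.mul_le_mul ?_ (Nat.pow_le_pow_left (by omega) (k + 1)))
      calc (k + 1).choose l ≤ (k + 1) ^ l := Nat.choose_le_pow (k + 1) l
        _ ≤ (k + 2) ^ l := Nat.pow_le_pow_left (by omega) l
        _ ≤ (k + 2) ^ b := Nat.pow_le_pow_right (by omega) (by omega)
    · rcases Nat.lt_or_eq_of_le (not_lt.mp hl) with h1 | h1
      · rw [MM_eq_zero hC hr hm hn l 0 h1, mul_zero]
      · rw [← h1, h0, mul_zero]
  refine le_trans (Finset.sum_le_sum hterm) ?_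
  rw [← Finset.sum_filter]
  apply Finset.sum_le_sum_of_subset_of_nonneg
  · intro l hl
    exact Finset.mem_range.mpr (Finset.mem_filter.mp hl).2
  · intro l _ _
    exact Nat.zero_le _

/-- The count for data with algebraically independent entries. -/
theorem stirling_alg (hC : SpecCount m n r) (hr : 1 ≤ r) (hm : r ≤ m) (hn : r ≤ n) (k : ℕ)
    (hk : 1 ≤ k) (v : Matrix (Fin m) (Fin (n + k)) ℂ) (hv : Alg v) :
    {p | IsCritical r v p}.ncard = ∑ l ∈ Finset.range ((m - 1).choose (r - 1) + 1),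
      Nat.stirlingSecond k l * MM m n r l 0 := by
  rw [← MM_zero hC (le_trans hr hm) (le_trans hr hn) k hk v hv]
  have hst := MM_stirling hC k 0
  rw [Nat.add_zero] at hst
  rw [hst]
  set b := (m - 1).choose (r - 1) with hb
  have h1 : ∀ l, l ∉ Finset.range (k + 1) → Nat.stirlingSecond k l * MM m n r l 0 = 0 := by
    intro l hl
    rw [Finset.mem_range, not_lt] at hl
    rw [Nat.stirlingSecond_eq_zero_of_lt (by omega), zero_mul]
  have h2 : ∀ l, l ∉ Finset.range (b + 1) → Nat.stirlingSecond k l * MM m n r l 0 = 0 := by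
    intro l hl
    rw [Finset.mem_range, not_lt] at hl
    rw [MM_eq_zero hC hr hm hn l 0 (by omega), mul_zero]
  have e1 : ∑ l ∈ Finset.range (k + 1), Nat.stirlingSecond k l * MM m n r l 0 =
      ∑ l ∈ Finset.range (k + 1 + (b + 1)), Nat.stirlingSecond k l * MM m n r l 0 :=
    Finset.sum_subset (fun l hl => Finset.mem_range.mpr
      (lt_of_lt_of_le (Finset.mem_range.mp hl) (by omega))) (fun l _ hl => h1 l hl)
  have e2 : ∑ l ∈ Finset.range (b + 1), Nat.stirlingSecond k l * MM m n r l 0 =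
      ∑ l ∈ Finset.range (k + 1 + (b + 1)), Nat.stirlingSecond k l * MM m n r l 0 :=
    Finset.sum_subset (fun l hl => Finset.mem_range.mpr
      (lt_of_lt_of_le (Finset.mem_range.mp hl) (by omega))) (fun l _ hl => h2 l hl)
  rw [e1, e2]

end Pool.ML
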