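import Pool.Agent.ML61.Comb4

/-!
# The sum of exponentials
-/

set_option linter.unusedSectionVars false
set_option linter.unusedSimpArgs false
set_option linter.unusedVariables false

namespace Pool.ML

open Matrix Filter Topology

/-- The coefficients of the Stirling numbers of the second kind. -/
def mu (l a : ℕ) : ℚ :=
  if a ≤ l then (-1) ^ (l - a) / ((a.factorial : ℚ) * ((l - a).factorial : ℚ)) else 0

theorem mu_self (l : ℕ) : mu l l = 1 / (l.factorial : ℚ) := by
  simp [mu]

theorem mu_step (l a : ℕ) : ((a : ℚ) - (l + 1)) * mu (l + 1) a = mu l a := by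
  rw [mu, mu]
  by_cases h : a ≤ l
  · rw [if_pos (by omega), if_pos h]
    have h1 : l + 1 - a = (l - a) + 1 := by omega
    have h2 : ((a : ℚ) - (l + 1)) = -(((l - a : ℕ) : ℚ) + 1) := by
      rw [Nat.cast_sub h]
      ring
    rw [h1, h2, pow_succ, Nat.factorial_succ]
    push_cast
    have h3 : (a.factorial : ℚ) ≠ 0 := by exact_mod_cast a.factorial_ne_zero
    have h4 : ((l - a).factorial : ℚ) ≠ 0 := by exact_mod_cast (l - a).factorial_ne_zero
    have h5 : (((l - a : ℕ) : ℚ) + 1) ≠ 0 := by positivity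
    field_simp
  · rw [if_neg h]
    by_cases h' : a ≤ l + 1
    · have h1 : a = l + 1 := by omega
      rw [h1]
      push_cast
      ring
    · rw [if_neg h', mul_zero]

theorem sum_mu (l : ℕ) : ∑ a ∈ Finset.range (l + 1), mu l a = if l = 0 then 1 else 0 := by
  have h1 := Int.alternating_sum_range_choose (n := l)
  have h2 : ∀ a ∈ Finset.range (l + 1), mu l a =
      (-1) ^ l / (l.factorial : ℚ) * (((-1) ^ a * (l.choose a : ℤ) : ℤ) : ℚ) := by
    intro a ha
    have hal : a ≤ l := by
      have := Finset.mem_range.mp ha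
      omega
    rw [mu, if_pos hal]
    have h3 : (l.factorial : ℚ) = (l.choose a : ℚ) * (a.factorial : ℚ) *
        ((l - a).factorial : ℚ) := by
      exact_mod_cast (Nat.choose_mul_factorial_mul_factorial hal).symm
    have h4 : (a.factorial : ℚ) ≠ 0 := by exact_mod_cast a.factorial_ne_zero
    have h5 : ((l - a).factorial : ℚ) ≠ 0 := by exact_mod_cast (l - a).factorial_ne_zero
    have h6 : (l.choose a : ℚ) ≠ 0 := by exact_mod_cast (Nat.choose_pos hal).ne'
    have h7 : ((-1 : ℚ)) ^ l = (-1) ^ (l - a) * (-1) ^ a := by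
      rw [← pow_add]
      congr 1
      omega
    have h8 : ((-1 : ℚ)) ^ a * (-1) ^ a = 1 := by
      rw [← mul_pow]
      norm_num
    rw [h3, h7]
    push_cast
    field_simp
    rw [sq]
    exact h8.symm
  rw [Finset.sum_congr rfl h2, ← Finset.mul_sum, ← Int.cast_sum, h1]
  split_ifs with h
  · rw [h]
    simp
  · simp

/-- The Stirling numbers of the second kind as a sum of exponentials. -/
theorem stirling_eq (k l : ℕ) : (Nat.stirlingSecond k l : ℚ) =
    ∑ a ∈ Finset.range (l + 1), mu l a * (a : ℚ) ^ k := by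
  induction k generalizing l with
  | zero =>
    simp only [pow_zero, mul_one]
    rw [sum_mu]
    rcases l with _ | l
    · simp
    · simp
  | succ k ih =>
    rcases l with _ | l
    · simp
    · rw [Nat.stirlingSecond_succ_succ]
      push_cast
      rw [ih (l + 1), ih l, Finset.mul_sum]
      have h1 : ∑ a ∈ Finset.range (l + 1), mu l a * (a : ℚ) ^ k =
          ∑ a ∈ Finset.range (l + 1 + 1), mu l a * (a : ℚ) ^ k := by
        rw [Finset.sum_range_succ _ (l + 1)]
        have h2 : mu l (l + 1) = 0 := by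
          rw [mu, if_neg (by omega)]
        rw [h2]
        ring
      rw [h1, ← Finset.sum_add_distrib]
      refine Finset.sum_congr rfl fun a _ => ?_
      rw [← mu_step l a]
      ring

variable {m n r : ℕ}

/-- The coefficients of the sum of exponentials. -/
noncomputable def Lam (m n r a : ℕ) : ℚ :=
  ∑ l ∈ Finset.range ((m - 1).choose (r - 1) + 1), (MM m n r l 0 : ℚ) * mu l a

theorem Lam_top (hC : SpecCount m n r) (hr : 1 ≤ r) (hm : r ≤ m) (hn : r ≤ n) :
    0 < Lam m n r ((m - 1).choose (r - 1)) := by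
  rw [Lam, Finset.sum_range_succ]
  have h1 : ∑ l ∈ Finset.range ((m - 1).choose (r - 1)), (MM m n r l 0 : ℚ) *
      mu l ((m - 1).choose (r - 1)) = 0 := by
    refine Finset.sum_eq_zero fun l hl => ?_
    rw [mu, if_neg (by have := Finset.mem_range.mp hl; omega), mul_zero]
  rw [h1, zero_add, mu_self]
  have h2 : (0 : ℚ) < MM m n r ((m - 1).choose (r - 1)) 0 := by
    exact_mod_cast MM_top_pos hC hr hm hn
  positivity

theorem exp_alg (hC : SpecCount m n r) (hr : 1 ≤ r) (hm : r ≤ m) (hn : r ≤ n) (k : ℕ)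
    (hk : 1 ≤ k) (v : Matrix (Fin m) (Fin (n + k)) ℂ) (hv : Alg v) :
    ({p | IsCritical r v p}.ncard : ℚ) =
      ∑ a ∈ Finset.range ((m - 1).choose (r - 1) + 1), Lam m n r a * (a : ℚ) ^ k := by
  rw [stirling_alg hC hr hm hn k hk v hv]
  push_cast
  simp only [Lam, Finset.sum_mul]
  rw [Finset.sum_comm]
  refine Finset.sum_congr rfl fun l hl => ?_
  rw [stirling_eq, Finset.sum_mul]
  have h1 : ∑ a ∈ Finset.range (l + 1), mu l a * (a : ℚ) ^ k * (MM m n r l 0 : ℚ) =
      ∑ a ∈ Finset.range ((m - 1).choose (r - 1) + 1),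
        mu l a * (a : ℚ) ^ k * (MM m n r l 0 : ℚ) := by
    apply Finset.sum_subset
    · intro a ha
      rw [Finset.mem_range] at ha hl ⊢
      omega
    · intro a _ ha
      rw [Finset.mem_range, not_lt] at ha
      rw [mu, if_neg (by omega), zero_mul, zero_mul]
  rw [h1]
  refine Finset.sum_congr rfl fun a _ => ?_
  ring

/-- The count as a function of the number of columns, for more than `n` columns. -/
theorem final_alg (hC : SpecCount m n r) (hr : 1 ≤ r) (hm : r ≤ m) (hn : r ≤ n) :
    ∃ (g : ℕ → ℕ) (lam : ℕ → ℚ), 0 < g ((m - 1).choose (r - 1)) ∧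
      0 < lam ((m - 1).choose (r - 1)) ∧
      ∀ (n' : ℕ) (v : Matrix (Fin m) (Fin n') ℂ), n < n' → Alg v →
        {p | IsCritical r v p}.ncard = ∑ l ∈ Finset.Icc 1 ((m - 1).choose (r - 1)),
          Nat.stirlingSecond (n' - n) l * g l ∧
        ({p | IsCritical r v p}.ncard : ℚ) =
          ∑ a ∈ Finset.Icc 1 ((m - 1).choose (r - 1)), lam a * (a : ℚ) ^ n' := by
  have hb1 : 1 ≤ (m - 1).choose (r - 1) := Nat.choose_pos (by omega)
  have key : ∀ {M : Type} [AddCommMonoid M] (b : ℕ) (F : ℕ → M), F 0 = 0 →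
      ∑ a ∈ Finset.range (b + 1), F a = ∑ a ∈ Finset.Icc 1 b, F a := by
    intro M _ b F h0
    symm
    apply Finset.sum_subset
    · intro a ha
      rw [Finset.mem_Icc] at ha
      rw [Finset.mem_range]
      omega
    · intro a ha ha'
      rw [Finset.mem_range] at ha
      rw [Finset.mem_Icc] at ha'
      have : a = 0 := by omega
      rw [this, h0]
  refine ⟨fun l => MM m n r l 0, fun a => Lam m n r a / (a : ℚ) ^ n,
    MM_top_pos hC hr hm hn, ?_, ?_⟩
  · have h1 := Lam_top hC hr hm hn
    have h2 : (0 : ℚ) < (((m - 1).choose (r - 1) : ℕ) : ℚ) := by exact_mod_cast hb1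
    positivity
  · intro n' v hn' hv
    obtain ⟨k, rfl⟩ : ∃ k, n' = n + (k + 1) := ⟨n' - n - 1, by omega⟩
    have hsub : n + (k + 1) - n = k + 1 := by omega
    refine ⟨?_, ?_⟩
    · rw [stirling_alg hC hr hm hn (k + 1) (by omega) v hv, hsub]
      apply key
      rw [Nat.stirlingSecond_succ_zero, zero_mul]
    · rw [exp_alg hC hr hm hn (k + 1) (by omega) v hv]
      rw [key _ (fun a => Lam m n r a * (a : ℚ) ^ (k + 1)) (by
        rw [Nat.cast_zero, zero_pow (by omega), mul_zero])]
      refine Finset.sum_congr rfl fun a ha => ?_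
      have ha1 := (Finset.mem_Icc.mp ha).1
      have h2 : ((a : ℕ) : ℚ) ≠ 0 := by
        have : a ≠ 0 := by omega
        exact_mod_cast this
      rw [pow_add (a : ℚ) n (k + 1)]
      field_simp

/-- For `r = m ≤ n` there is exactly one critical point. -/
theorem ncard_full (hm : 1 ≤ m) {n' : ℕ} (hn : m ≤ n') (v : Matrix (Fin m) (Fin n') ℂ)
    (hv : Alg v) : {p | IsCritical m v p}.ncard = 1 := by
  have hlow := le_encard hm (le_trans hm hn) (LB_simple hm le_rfl hn) v hv
  have hfin := (finite_of_alg hm le_rfl hn v hv).1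
  rw [← hfin.cast_ncard_eq] at hlow
  have h1 : (m - 1).choose (m - 1) ^ (n' - m) ≤ {p | IsCritical m v p}.ncard := by
    exact_mod_cast hlow
  rw [Nat.choose_self, one_pow] at h1
  have hsum := Alg.sum_ne hm (le_trans hm hn) v hv
  rw [← ncard_PCrit hsum] at h1 ⊢
  have hsub : {q | PCrit m v q} ⊆ {v} := by
    intro q hq
    rw [Set.mem_singleton_iff]
    have hli : LinearIndependent ℂ q.row := by
      rw [linearIndependent_iff_card_eq_finrank_span, Fintype.card_fin, Set.finrank,
        ← Matrix.rank_eq_finrank_span_row]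
      exact hq.rk.symm
    have hinj := Matrix.vecMul_injective_iff.mpr hli
    have hG : ∀ j i, (G v q)ᵀ j i = 0 := by
      intro j i
      have h2 : ((G v q)ᵀ j) ᵥ* q = 0 := by
        funext j'
        exact congrFun (congrFun hq.left j) j'
      have h3 := hinj (h2.trans (Matrix.zero_vecMul q).symm)
      exact congrFun h3 i
    ext i j
    have h2 := hG j i
    rw [Matrix.transpose_apply, G, Matrix.of_apply, sub_eq_zero,
      div_eq_one_iff_eq (hq.ne i j)] at h2
    exact h2.symm
  have h2 := Set.ncard_le_ncard hsub (Set.finite_singleton v)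
  rw [Set.ncard_singleton] at h2
  omega

/-- The ML degree as a function of the number of columns. -/
theorem final_pack (hr : 1 ≤ r) (hm : r ≤ m) (hC : r < m → SpecCount m (m - 1) r) :
    ∃ (g : ℕ → ℕ) (lam : ℕ → ℚ), 0 < g ((m - 1).choose (r - 1)) ∧
      0 < lam ((m - 1).choose (r - 1)) ∧
      ∀ (n' : ℕ) (v : Matrix (Fin m) (Fin n') ℂ), m ≤ n' → Alg v →
        {p | IsCritical r v p}.ncard = ∑ l ∈ Finset.Icc 1 ((m - 1).choose (r - 1)),
          Nat.stirlingSecond (n' - m + 1) l * g l ∧
        ({p | IsCritical r v p}.ncard : ℚ) =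
          ∑ a ∈ Finset.Icc 1 ((m - 1).choose (r - 1)), lam a * (a : ℚ) ^ n' := by
  rcases Nat.lt_or_eq_of_le hm with h | h
  · obtain ⟨g, lam, hg, hlam, H⟩ := final_alg (hC h) hr hm (by omega)
    refine ⟨g, lam, hg, hlam, fun n' v hn' hv => ?_⟩
    have h1 := H n' v (by omega) hv
    have h2 : n' - (m - 1) = n' - m + 1 := by omega
    rwa [h2] at h1
  · subst h
    refine ⟨fun _ => 1, fun _ => 1, one_pos, one_pos, fun n' v hn' hv => ?_⟩
    rw [ncard_full hr hn' v hv, Nat.choose_self]
    simp [Nat.stirlingSecond_one_right]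

end Pool.ML
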