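import Pool.Agent.ML61.Comb5

/-!
# The form of the result
-/

set_option linter.unusedSectionVars false
set_option linter.unusedSimpArgs false
set_option linter.unusedVariables false

namespace Pool.ML

open Matrix

/-- The final statement from the count of the special data. -/
theorem final_result (m r : ℕ) (hr : 1 ≤ r) (hm : r ≤ m)
    (hC : r < m → SpecCount m (m - 1) r) :
    ∃ (g : ℕ → ℕ) (lam : ℕ → ℚ), 0 < g ((m - 1).choose (r - 1)) ∧
      0 < lam ((m - 1).choose (r - 1)) ∧
      (∀ n N : ℕ, m ≤ n → (IsMLDegree m n r N ∨ IsMLDegree n m r N) →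
        N = ∑ l ∈ Finset.Icc 1 ((m - 1).choose (r - 1)),
          Nat.stirlingSecond (n - m + 1) l * g l ∧
        (N : ℚ) = ∑ a ∈ Finset.Icc 1 ((m - 1).choose (r - 1)), lam a * (a : ℚ) ^ n) ∧
      (∀ (n : ℕ) (u : Matrix (Fin m) (Fin n) ℂ), m ≤ n →
        AlgebraicIndependent ℚ (fun x : Fin m × Fin n => u x.1 x.2) →
        {p | IsCritical r u p}.Finite ∧
        {p | IsCritical r u p}.ncard = ∑ l ∈ Finset.Icc 1 ((m - 1).choose (r - 1)),
          Nat.stirlingSecond (n - m + 1) l * g l ∧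
        ({p | IsCritical r u p}.ncard : ℚ) =
          ∑ a ∈ Finset.Icc 1 ((m - 1).choose (r - 1)), lam a * (a : ℚ) ^ n) := by
  obtain ⟨g, lam, hg, hlam, H⟩ := final_pack hr hm hC
  refine ⟨g, lam, hg, hlam, ?_, ?_⟩
  · rintro n N hn (hN | hN)
    · obtain ⟨u, hu, hcard⟩ := exists_alg_of_MLDegree (le_trans hr hm)
        (le_trans hr (le_trans hm hn)) hN
      rw [← hcard]
      exact H n u hn hu
    · obtain ⟨u, hu, hcard⟩ := exists_alg_of_MLDegree (le_trans hr (le_trans hm hn))
        (le_trans hr hm) hN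
      have hs := Alg.sum_ne (le_trans hr (le_trans hm hn)) (le_trans hr hm) u hu
      rw [← hcard, ← ncard_transpose hs]
      exact H n uᵀ hn hu.transpose
  · intro n u hn hu
    exact ⟨(finite_of_alg hr hm (le_trans hm hn) u hu).1, H n u hn hu⟩

end Pool.ML
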