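import Pool.Agent.ML61.Acl
import Pool.Agent.ML61.Defs

/-!
# Matrices with entries in a subfield, and solutions for the special data
-/

set_option linter.unusedSectionVars false
set_option linter.unusedSimpArgs false

namespace Pool.ML

open Matrix

section entries

variable {I J L : Type} [Fintype I] [Fintype J] [Fintype L] [DecidableEq I] [DecidableEq J]
  [DecidableEq L]

/-- All entries of the matrix are in the field `K`. -/
def MIn (K : IntermediateField ℚ ℂ) (M : Matrix I J ℂ) : Prop := ∀ i j, M i j ∈ K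

variable {K : IntermediateField ℚ ℂ}

theorem MIn.mul {M : Matrix I J ℂ} {N : Matrix J L ℂ} (hM : MIn K M) (hN : MIn K N) :
    MIn K (M * N) := by
  intro i j
  rw [Matrix.mul_apply]
  exact sum_mem fun l _ => mul_mem (hM i l) (hN l j)

theorem MIn.add {M N : Matrix I J ℂ} (hM : MIn K M) (hN : MIn K N) : MIn K (M + N) :=
  fun i j => add_mem (hM i j) (hN i j)

theorem MIn.sub {M N : Matrix I J ℂ} (hM : MIn K M) (hN : MIn K N) : MIn K (M - N) :=
  fun i j => sub_mem (hM i j) (hN i j)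

theorem MIn.neg {M : Matrix I J ℂ} (hM : MIn K M) : MIn K (-M) :=
  fun i j => neg_mem (hM i j)

theorem MIn.transpose {M : Matrix I J ℂ} (hM : MIn K M) : MIn K Mᵀ :=
  fun i j => hM j i

theorem MIn.one : MIn K (1 : Matrix I I ℂ) := by
  intro i j
  rw [Matrix.one_apply]
  split_ifs
  · exact one_mem K
  · exact zero_mem K

theorem MIn.inv {M : Matrix I I ℂ} (hM : MIn K M) : MIn K M⁻¹ := by
  have h1 : M = (algebraMap K ℂ).mapMatrix (Matrix.of fun i j => (⟨M i j, hM i j⟩ : K)) := by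
    ext i j
    rfl
  intro i j
  rw [Matrix.inv_def, h1, ← RingHom.map_det, ← RingHom.map_adjugate, Matrix.smul_apply,
    Ring.inverse_eq_inv', smul_eq_mul]
  exact mul_mem (inv_mem (SetLike.coe_mem _)) (SetLike.coe_mem _)

end entries

section main

variable {ρ σ κ ε ν : Type} [Fintype ρ] [Fintype σ] [Fintype κ] [Fintype ε] [Fintype ν]
  [DecidableEq ρ] [DecidableEq σ] [DecidableEq κ] [DecidableEq ε] [DecidableEq ν]

theorem MIn.LA {K : IntermediateField ℚ ℂ} {A : Matrix σ ρ ℂ} (hA : MIn K A) :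
    MIn K (Pool.ML.LA A) := by
  intro i j
  rcases i with i | i
  · exact MIn.one i j
  · exact hA i j

theorem MIn.NA {K : IntermediateField ℚ ℂ} {A : Matrix σ ρ ℂ} (hA : MIn K A) :
    MIn K (Pool.ML.NA A) := by
  intro i j
  rcases i with i | i
  · exact hA.transpose.neg i j
  · exact MIn.one i j

theorem SAlg.w_ind {I : Type} [Fintype I] {u : Matrix I ν ℂ} {w : I → ℂ} {c : ε → ℂ}
    (hS : SAlg u w c) : AlgebraicIndependent ℚ w :=
  AlgebraicIndependent.comp hS (fun i => Sum.inr (Sum.inl i))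
    (fun i j h => Sum.inl_injective (Sum.inr_injective h))

theorem SAlg.c_ne {I : Type} [Fintype I] {u : Matrix I ν ℂ} {w : I → ℂ} {c : ε → ℂ}
    (hS : SAlg u w c) (e : ε) : c e ≠ 0 :=
  AlgebraicIndependent.ne_zero hS (Sum.inr (Sum.inr e))

/-- Columns through a non-zero minor of maximal size span all columns. -/
theorem factor_minor {I J : Type} [Fintype I] [Fintype J] [DecidableEq I] [DecidableEq J]
    {t : ℕ} (p : Matrix I J ℂ) (hr : p.rank = t) (a : Fin t → I) (b : Fin t → J)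
    (hab : (p.submatrix a b).det ≠ 0) :
    p = p.submatrix id b * ((p.submatrix a b)⁻¹ * p.submatrix a id) := by
  have hU : IsUnit (p.submatrix a b).det := isUnit_iff_ne_zero.mpr hab
  have hpb : p.submatrix id b = p * (1 : Matrix J J ℂ).submatrix id b := by
    ext i l
    simp [Matrix.mul_apply, Matrix.one_apply]
  have hrb : (p.submatrix id b).rank = t := by
    apply le_antisymm
    · exact le_trans (Matrix.rank_le_card_width _) (by simp)
    · have h1 : p.submatrix a b = (1 : Matrix I I ℂ).submatrix a id * p.submatrix id b := by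
        ext i l
        simp [Matrix.mul_apply, Matrix.one_apply]
      have h2 := Matrix.rank_of_det_ne_zero hab
      rw [Fintype.card_fin] at h2
      calc t = (p.submatrix a b).rank := h2.symm
        _ ≤ (p.submatrix id b).rank := by
          rw [h1]
          exact Matrix.rank_mul_le_right _ _
  have hrange : LinearMap.range (p.submatrix id b).mulVecLin = LinearMap.range p.mulVecLin := by
    apply Submodule.eq_of_le_of_finrank_eq
    · rw [hpb, Matrix.mulVecLin_mul]
      exact LinearMap.range_comp_le_range _ _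
    · change (p.submatrix id b).rank = p.rank
      rw [hrb, hr]
  have h1 : ∀ j : J, ∃ z : Fin t → ℂ, p.submatrix id b *ᵥ z = p.col j := by
    intro j
    have h2 : p *ᵥ Pi.single j 1 ∈ LinearMap.range p.mulVecLin := ⟨_, rfl⟩
    rw [← hrange] at h2
    obtain ⟨z, hz⟩ := h2
    refine ⟨z, ?_⟩
    rw [Matrix.mulVecLin_apply, Matrix.mulVec_single_one] at hz
    exact hz
  choose z hz using h1
  have h2 : p = p.submatrix id b * Matrix.of fun l j => z j l := by
    ext i j
    have h3 := congrFun (hz j) i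
    rw [Matrix.mul_apply]
    simp only [Matrix.mulVec, dotProduct, Matrix.col_apply] at h3
    rw [← h3]
    rfl
  have h3 : p.submatrix a id = p.submatrix a b * Matrix.of fun l j => z j l := by
    conv_lhs => rw [h2]
    ext i j
    simp [Matrix.mul_apply]
  rw [h3, ← Matrix.mul_assoc (p.submatrix a b)⁻¹, Matrix.nonsing_inv_mul _ hU, Matrix.one_mul,
    ← h2]

/-- The free numbers of a solution of rank `t`: `A`, `w`, `c`, the columns `b` of `y`, the rows `a`
of the other columns of `y`, the other columns of `g`. -/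
def rfam {t : ℕ} (w : ρ ⊕ σ → ℂ) (c : ε → ℂ) (A : Matrix σ ρ ℂ) (y : Matrix ρ (ν ⊕ ε) ℂ)
    (g : Matrix σ (ν ⊕ ε) ℂ) (a : Fin t → ρ) (b : Fin t → ν) :
    (σ × ρ) ⊕ (((ρ ⊕ σ) ⊕ ε) ⊕ ((ρ × Fin t) ⊕
      ((Fin t × {j : ν // j ∉ Set.range b}) ⊕ (σ × {j : ν // j ∉ Set.range b})))) → ℂ :=
  Sum.elim (fun x => A x.1 x.2) (Sum.elim (Sum.elim w c)
    (Sum.elim (fun x => y x.1 (Sum.inl (b x.2))) (Sum.elim (fun x => y (a x.1) (Sum.inl x.2.1))
      (fun x => g x.1 (Sum.inl x.2.1)))))

theorem rfam_sub {t : ℕ} (w : ρ ⊕ σ → ℂ) (c : ε → ℂ) (A : Matrix σ ρ ℂ) (y : Matrix ρ (ν ⊕ ε) ℂ)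
    (g : Matrix σ (ν ⊕ ε) ℂ) (a : Fin t → ρ) (b : Fin t → ν) :
    Set.range (fun x : σ × ρ => A x.1 x.2) ∪ Set.range w ⊆ Set.range (rfam w c A y g a b) := by
  rintro x (⟨z, rfl⟩ | ⟨i, rfl⟩)
  · exact ⟨Sum.inl z, rfl⟩
  · exact ⟨Sum.inr (Sum.inl (Sum.inl i)), rfl⟩

/-- Everything is algebraic over any field which contains the free numbers and the extra
columns. -/
theorem Sol.mem_of_rfam {u : Matrix (ρ ⊕ σ) ν ℂ}
    {w : ρ ⊕ σ → ℂ} {c : ε → ℂ} {A : Matrix σ ρ ℂ} {y : Matrix ρ (ν ⊕ ε) ℂ}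
    {g : Matrix σ (ν ⊕ ε) ℂ} (h : Sol u w c A y g) {t : ℕ}
    (ht : (y.submatrix id (Sum.inl : ν → ν ⊕ ε)).rank = t) (a : Fin t → ρ) (b : Fin t → ν)
    (hab : (y.submatrix a (fun l => Sum.inl (b l))).det ≠ 0) (K : IntermediateField ℚ ℂ)
    (hmem : ∀ x, rfam w c A y g a b x ∈ K)
    (hex : (∀ k e, y k (Sum.inr e) ∈ K) ∧ (∀ s e, g s (Sum.inr e) ∈ K)) :
    MIn K y ∧ MIn K g ∧
      ∀ x, Sum.elim (fun x : (ρ ⊕ σ) × ν => u x.1 x.2) (Sum.elim w c) x ∈ K := by
  classical
  obtain ⟨y0, hy0⟩ : ∃ y0 : Matrix ρ ν ℂ, y0 = y.submatrix id Sum.inl := ⟨_, rfl⟩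
  rw [← hy0] at ht
  have hab' : (y0.submatrix a b).det ≠ 0 := by
    rw [hy0]
    exact hab
  have hU : IsUnit (y0.submatrix a b).det := isUnit_iff_ne_zero.mpr hab'
  have hb : Function.Injective b := by
    intro k l hkl
    by_contra hne
    apply hab
    exact Matrix.det_zero_of_column_eq hne (by intro i; simp [hkl])
  have hA : MIn K A := fun s k => hmem (Sum.inl (s, k))
  have hw : ∀ i, w i ∈ K := fun i => hmem (Sum.inr (Sum.inl (Sum.inl i)))
  have hcK : ∀ e, c e ∈ K := fun e => hmem (Sum.inr (Sum.inl (Sum.inr e)))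
  have hyb : MIn K (y0.submatrix id b) := by
    intro k l
    rw [hy0]
    exact hmem (Sum.inr (Sum.inr (Sum.inl (k, l))))
  have hya : MIn K (y0.submatrix a id) := by
    intro i j
    by_cases hj : j ∈ Set.range b
    · obtain ⟨l, rfl⟩ := hj
      exact hyb (a i) l
    · rw [hy0]
      exact hmem (Sum.inr (Sum.inr (Sum.inr (Sum.inl (i, ⟨j, hj⟩)))))
  have hgN : ∀ s (j : ν), j ∉ Set.range b → g s (Sum.inl j) ∈ K := fun s j hj =>
    hmem (Sum.inr (Sum.inr (Sum.inr (Sum.inr (s, ⟨j, hj⟩)))))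
  have hyab : MIn K (y0.submatrix a b)⁻¹ := MIn.inv fun i l => hyb (a i) l
  have hy0K : MIn K y0 := by
    rw [factor_minor y0 ht a b hab']
    exact hyb.mul (hyab.mul hya)
  have hyK : MIn K y := by
    intro k j
    rcases j with j | e
    · have := hy0K k j
      rwa [hy0] at this
    · exact hex.1 k e
  -- the columns of `g` at `b`
  have hgb : MIn K (g.submatrix id (fun l => Sum.inl (b l)) : Matrix σ (Fin t) ℂ) := by
    obtain ⟨R, hR⟩ : ∃ R : Matrix (Fin t) σ ℂ, R = Matrix.of fun i s =>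
      -(∑ j : {j : ν // j ∉ Set.range b}, y0 (a i) j * g s (Sum.inl j.1)) -
        ∑ e, y (a i) (Sum.inr e) * g s (Sum.inr e) := ⟨_, rfl⟩
    have hRK : MIn K R := by
      intro i s
      rw [hR, Matrix.of_apply]
      exact sub_mem (neg_mem (sum_mem fun j _ => mul_mem (hya i j.1) (hgN s j.1 j.2)))
        (sum_mem fun e _ => mul_mem (hex.1 _ _) (hex.2 _ _))
    have h1 : y0.submatrix a b * (g.submatrix id (fun l => Sum.inl (b l)))ᵀ = R := by
      ext i s
      have h2 := congrFun (congrFun h.orth (a i)) s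
      rw [Matrix.mul_apply, Fintype.sum_sum_type, Matrix.zero_apply] at h2
      simp only [Matrix.transpose_apply] at h2
      have h3 : ∑ j : ν, y (a i) (Sum.inl j) * g s (Sum.inl j) =
          ∑ l : Fin t, y0 (a i) (b l) * g s (Sum.inl (b l)) +
          ∑ j : {j : ν // j ∉ Set.range b}, y0 (a i) j * g s (Sum.inl j.1) := by
        rw [hy0]
        have h4 := Fintype.sum_subtype_add_sum_subtype (fun j : ν => j ∈ Set.range b)
          (fun j : ν => y (a i) (Sum.inl j) * g s (Sum.inl j))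
        rw [← h4]
        congr 1
        exact (@Fintype.sum_equiv (Fin t) {j : ν // j ∈ Set.range b} ℂ _
          (Subtype.fintype fun j => j ∈ Set.range b) _ (Equiv.ofInjective b hb)
          (fun l => y.submatrix id Sum.inl (a i) (b l) * g s (Sum.inl (b l)))
          (fun j => y (a i) (Sum.inl j.1) * g s (Sum.inl j.1)) fun l => rfl).symm
      rw [h3] at h2
      rw [Matrix.mul_apply, hR, Matrix.of_apply]
      simp only [Matrix.submatrix_apply, Matrix.transpose_apply, id]
      linear_combination h2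
    have h2 : (g.submatrix id (fun l => Sum.inl (b l)))ᵀ = (y0.submatrix a b)⁻¹ * R := by
      rw [← h1, ← Matrix.mul_assoc, Matrix.nonsing_inv_mul _ hU, Matrix.one_mul]
    have h3 : MIn K (g.submatrix id (fun l => Sum.inl (b l)) : Matrix σ (Fin t) ℂ)ᵀ := by
      rw [h2]
      exact hyab.mul hRK
    exact fun s l => h3 l s
  have hgK : MIn K g := by
    intro s j
    rcases j with j | e
    · by_cases hj : j ∈ Set.range b
      · obtain ⟨l, rfl⟩ := hj
        exact hgb s l
      · exact hgN s j hj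
    · exact hex.2 s e
  refine ⟨hyK, hgK, ?_⟩
  have huK : ∀ i j, u i j ∈ K := by
    intro i j
    have h1 := h.eq i (Sum.inl j)
    have h2 : sdata u w c i (Sum.inl j) = u i j := rfl
    rw [← h2, ← h1]
    exact mul_mem (hA.LA.mul hyK _ _) (add_mem (one_mem K) (hA.NA.mul hgK _ _))
  rintro (⟨i, j⟩ | i | e)
  · exact huK i j
  · exact hw i
  · exact hcK e

theorem card_rfam {t : ℕ} (b : Fin t → ν) (hb : Function.Injective b) :
    Fintype.card ((σ × ρ) ⊕ (((ρ ⊕ σ) ⊕ ε) ⊕ ((ρ × Fin t) ⊕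
      ((Fin t × {j : ν // j ∉ Set.range b}) ⊕ (σ × {j : ν // j ∉ Set.range b}))))) =
    Fintype.card σ * Fintype.card ρ + (Fintype.card ρ + Fintype.card σ + Fintype.card ε +
      (Fintype.card ρ * t + (t * (Fintype.card ν - t) +
        Fintype.card σ * (Fintype.card ν - t)))) := by
  have hN : Fintype.card {j : ν // j ∉ Set.range b} = Fintype.card ν - t := by
    rw [Fintype.card_subtype_compl]
    congr 1
    exact (Fintype.card_congr (Equiv.ofInjective b hb)).symm.trans (Fintype.card_fin t)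
  simp only [Fintype.card_sum, Fintype.card_prod, hN, Fintype.card_fin]

theorem MIn.toBlocks {K : IntermediateField ℚ ℂ} {X : Matrix (ρ ⊕ σ) (ρ ⊕ κ) ℂ}
    (hX : MIn K X) : MIn K X.toBlocks₁₁ ∧ MIn K X.toBlocks₁₂ ∧ MIn K X.toBlocks₂₁ ∧
      MIn K X.toBlocks₂₂ :=
  ⟨fun _ _ => hX _ _, fun _ _ => hX _ _, fun _ _ => hX _ _, fun _ _ => hX _ _⟩

theorem MIn.psi {K : IntermediateField ℚ ℂ} {X : Matrix (ρ ⊕ σ) (ρ ⊕ κ) ℂ}
    (hX : MIn K X) : MIn K (Pool.ML.psi X) := by
  obtain ⟨h1, h2, h3, h4⟩ := hX.toBlocks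
  have hL : MIn K (Lm X) := MIn.LA h3
  have hN : MIn K (Nm X) := MIn.NA h3
  have hU : MIn K (Um X) := by
    intro k j
    rcases j with j | j
    · exact MIn.one k j
    · exact h2 k j
  have hV : MIn K (Vm X) := by
    intro k j
    rcases j with j | j
    · exact h2.transpose.neg k j
    · exact MIn.one k j
  intro i j
  exact mul_mem (((hL.mul h1).mul hU) i j) (add_mem (one_mem K) (((hN.mul h4).mul hV) i j))

/-- A point of the chart gives a solution. -/
theorem Sol.of_psi {u : Matrix (ρ ⊕ σ) ν ℂ} {w : ρ ⊕ σ → ℂ} {c : ε → ℂ}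
    (X : Matrix (ρ ⊕ σ) (ρ ⊕ κ) ℂ) (f : ν ⊕ ε ≃ ρ ⊕ κ)
    (h : Pool.ML.psi X = (sdata u w c).submatrix id f.symm) :
    Sol u w c X.toBlocks₂₁ ((X.toBlocks₁₁ * Um X).submatrix id f)
      ((X.toBlocks₂₂ * Vm X).submatrix id f) where
  orth := by
    rw [Matrix.transpose_submatrix, Matrix.submatrix_mul_equiv, Matrix.transpose_mul,
      Matrix.mul_assoc, ← Matrix.mul_assoc (Um X), Um_mul_Vm_transpose]
    simp
  eq i j := by
    have h1 : Pool.ML.psi X i (f j) = sdata u w c i j := by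
      rw [h]
      simp
    rw [← h1]
    have h2 : (LA X.toBlocks₂₁ * (X.toBlocks₁₁ * Um X).submatrix id f) i j =
        pmat X i (f j) := by
      rw [pmat, Matrix.mul_assoc]
      rfl
    have h3 : (NA X.toBlocks₂₁ * (X.toBlocks₂₂ * Vm X).submatrix id f) i j =
        gmat X i (f j) := by
      rw [gmat, Matrix.mul_assoc]
      rfl
    rw [h2, h3]
    rfl

theorem SAlg.submatrix {I J I' J' : Type} [Fintype I] [Fintype J] [Fintype I'] [Fintype J']
    {u : Matrix I J ℂ} {w : I → ℂ} {c : ε → ℂ} (h : SAlg u w c) (e : I' ≃ I) (f : J' ≃ J) :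
    SAlg (u.submatrix e f) (w ∘ e) c := by
  have h1 := AlgebraicIndependent.comp h
    (Sum.map (fun x : I' × J' => (e x.1, f x.2)) (Sum.map e id)) (by
      apply Function.Injective.sumMap
      · intro x y hxy
        simp only [Prod.mk.injEq] at hxy
        exact Prod.ext (e.injective hxy.1) (f.injective hxy.2)
      · exact Function.Injective.sumMap e.injective Function.injective_id)
  have h2 : Sum.elim (fun x : I' × J' => u.submatrix e f x.1 x.2) (Sum.elim (w ∘ e) c) =
      Sum.elim (fun x : I × J => u x.1 x.2) (Sum.elim w c) ∘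
        Sum.map (fun x : I' × J' => (e x.1, f x.2)) (Sum.map e id) := by
    funext x
    rcases x with x | x | x <;> rfl
  rw [SAlg, h2]
  exact h1

end main

end Pool.ML
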