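import Pool.Agent.ML61.Entries
import Pool.Agent.ML61.Fib

/-!
# The extra columns of a solution are algebraic over the column space and `w`
-/

set_option linter.unusedSectionVars false
set_option linter.unusedSimpArgs false

namespace Pool.ML

open Matrix

variable {ρ σ κ ε ν : Type} [Fintype ρ] [Fintype σ] [Fintype κ] [Fintype ε] [Fintype ν]
  [DecidableEq ρ] [DecidableEq σ] [DecidableEq κ] [DecidableEq ε] [DecidableEq ν]

/-- The extra columns are algebraic over `A` and `w`. -/
theorem Sol.extra {u : Matrix (ρ ⊕ σ) ν ℂ}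
    {w : ρ ⊕ σ → ℂ} {c : ε → ℂ} {A : Matrix σ ρ ℂ} {y : Matrix ρ (ν ⊕ ε) ℂ}
    {g : Matrix σ (ν ⊕ ε) ℂ} (hS : SAlg u w c) (h : Sol u w c A y g)
    {K : IntermediateField ℚ ℂ}
    (hK : acl (Set.range (fun x : σ × ρ => A x.1 x.2) ∪ Set.range w) ≤ K)
    (hc : ∀ e, c e ∈ K) :
    (∀ k e, y k (Sum.inr e) ∈ K) ∧ (∀ s e, g s (Sum.inr e) ∈ K) := by
  have key : ∀ e : ε, (∀ k, y k (Sum.inr e) / c e ∈ K) ∧ (∀ s, g s (Sum.inr e) ∈ K) := by
    intro e
    have h1 := fib_alg A w hS.w_ind.linearIndependent (fun k => y k (Sum.inr e) / c e)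
      (fun s => g s (Sum.inr e)) (by
        intro i
        have h2 := h.eq i (Sum.inr e)
        have h3 : (LA A *ᵥ fun k => y k (Sum.inr e) / c e) i =
            (LA A * y) i (Sum.inr e) / c e := by
          simp only [Matrix.mulVec, dotProduct, Matrix.mul_apply]
          rw [Finset.sum_div]
          exact Finset.sum_congr rfl fun k _ => by rw [mul_div_assoc]
        have h4 : (NA A *ᵥ fun s => g s (Sum.inr e)) i = (NA A * g) i (Sum.inr e) := rfl
        rw [h3, h4, div_mul_eq_mul_div, h2]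
        simp only [sdata, Matrix.of_apply, Sum.elim_inr]
        rw [mul_div_cancel_left₀ _ (hS.c_ne e)])
    exact ⟨fun k => hK (h1.1 k), fun s => hK (h1.2 s)⟩
  refine ⟨fun k e => ?_, fun s e => (key e).2 s⟩
  have h1 := mul_mem ((key e).1 k) (hc e)
  rwa [div_mul_cancel₀ _ (hS.c_ne e)] at h1

end Pool.ML
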