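import Pool.Agent.ML61.Rank

/-!
# Genericity of the solutions for the special data
-/

set_option linter.unusedSectionVars false
set_option linter.unusedSimpArgs false

namespace Pool.ML

open Matrix

variable {ρ σ κ ε ν : Type} [Fintype ρ] [Fintype σ] [Fintype κ] [Fintype ε] [Fintype ν]
  [DecidableEq ρ] [DecidableEq σ] [DecidableEq κ] [DecidableEq ε] [DecidableEq ν]

theorem free_alg {u : Matrix (ρ ⊕ σ) (ρ ⊕ κ) ℂ} {w : ρ ⊕ σ → ℂ} {c : ε → ℂ} (hS : SAlg u w c)
    (X : Matrix (ρ ⊕ σ) (ρ ⊕ (κ ⊕ ε)) ℂ) (hW : X.toBlocks₁₁.det ≠ 0)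
    (hpsi : psi X = sdat u w c) :
    AlgebraicIndependent ℚ (freeFam X w c) ∧ ∀ i j, X i j ∈ acl (sset u w c) := by
  have hU : IsUnit X.toBlocks₁₁.det := isUnit_iff_ne_zero.mpr hW
  have hsol := Sol.of_psi X (Equiv.sumAssoc ρ κ ε) hpsi
  obtain ⟨K, hK⟩ : ∃ K, K = acl (Set.range (freeFam X w c)) := ⟨_, rfl⟩
  have hmem : ∀ x, freeFam X w c x ∈ K := fun x => by
    rw [hK]
    exact subset_acl _ ⟨x, rfl⟩
  have hex := hsol.extra hS (K := K) (by
    rw [hK]
    apply acl_mono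
    rintro x (⟨z, rfl⟩ | ⟨i, rfl⟩)
    · exact ⟨Sum.inl (Sum.inr z.1, Sum.inl z.2), rfl⟩
    · exact ⟨Sum.inr (Sum.inl i), rfl⟩) (fun e => hmem (Sum.inr (Sum.inr e)))
  have hW1 : MIn K X.toBlocks₁₁ := fun k l => hmem (Sum.inl (Sum.inl k, Sum.inl l))
  have hB : ∀ k e, X (Sum.inl k) (Sum.inr (Sum.inr e)) ∈ K := by
    have h1 : MIn K (Matrix.of fun k e => (X.toBlocks₁₁ * Um X) k (Sum.inr (Sum.inr e)) :
        Matrix ρ ε ℂ) := fun k e => hex.1 k e
    have h2 : (Matrix.of fun k e => (X.toBlocks₁₁ * Um X) k (Sum.inr (Sum.inr e)) :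
        Matrix ρ ε ℂ) = X.toBlocks₁₁ * Matrix.of fun k e => X (Sum.inl k) (Sum.inr (Sum.inr e)) :=
      rfl
    have h3 : (Matrix.of fun k e => X (Sum.inl k) (Sum.inr (Sum.inr e)) : Matrix ρ ε ℂ) =
        X.toBlocks₁₁⁻¹ * (Matrix.of fun k e => (X.toBlocks₁₁ * Um X) k (Sum.inr (Sum.inr e))) := by
      rw [h2, ← Matrix.mul_assoc, Matrix.nonsing_inv_mul _ hU, Matrix.one_mul]
    have h4 : MIn K (Matrix.of fun k e => X (Sum.inl k) (Sum.inr (Sum.inr e)) :
        Matrix ρ ε ℂ) := by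
      rw [h3]
      exact hW1.inv.mul h1
    exact h4
  have hg : ∀ s e, X (Sum.inr s) (Sum.inr (Sum.inr e)) ∈ K := by
    intro s e
    have h1 := hex.2 s e
    have h2 : (X.toBlocks₂₂ * Vm X) s (Sum.inr (Sum.inr e)) =
        X (Sum.inr s) (Sum.inr (Sum.inr e)) := by
      rw [Vm, Matrix.mul_fromCols]
      simp [Matrix.toBlocks₂₂]
    rw [← h2]
    exact h1
  have hX : MIn K X := by
    intro i j
    rcases j with j | j | e
    · exact hmem (Sum.inl (i, Sum.inl j))
    · exact hmem (Sum.inl (i, Sum.inr j))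
    · rcases i with k | s
      · exact hB k e
      · exact hg s e
  have hu : ∀ x, Sum.elim (fun x : (ρ ⊕ σ) × (ρ ⊕ κ) => u x.1 x.2) (Sum.elim w c) x ∈ K := by
    rintro (⟨i, j⟩ | x)
    · have h1 := hX.psi i ((Equiv.sumAssoc ρ κ ε) (Sum.inl j))
      have h2 : sdat u w c i ((Equiv.sumAssoc ρ κ ε) (Sum.inl j)) = u i j := by
        simp [sdat, sdata]
      rw [hpsi, h2] at h1
      exact h1
    · exact hmem (Sum.inr x)
  have hmain := algInd_of_acl _ (freeFam X w c) hS (by rw [← hK]; exact hu) (le_refl _)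
  refine ⟨hmain.1, fun i j => ?_⟩
  have h1 : K ≤ acl (sset u w c) := by
    rw [hK]
    apply acl_le
    rintro x ⟨z, rfl⟩
    exact hmain.2 z
  exact h1 (hX i j)

/-- all critical points of the special data are in the standard chart -/
theorem spec_minor_ne {u : Matrix (ρ ⊕ σ) (ρ ⊕ κ) ℂ} {w : ρ ⊕ σ → ℂ} {c : ε → ℂ}
    (hS : SAlg u w c) (hc : Ample ρ σ (ρ ⊕ κ) ε)
    (P : Matrix (ρ ⊕ σ) (ρ ⊕ (κ ⊕ ε)) ℂ) (hP : PCrit (Fintype.card ρ) (sdat u w c) P) :
    P.toBlocks₁₁.det ≠ 0 := by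
  -- a non-zero minor in the generic columns
  have key : ∃ (a : ρ → ρ ⊕ σ) (b : ρ → ρ ⊕ κ),
      (P.submatrix a fun l => Sum.map id Sum.inl (b l)).det ≠ 0 := by
    obtain ⟨a, b, hab⟩ := exists_minor_ne P hP.rk
    have ha : Function.Injective a := by
      intro k l hkl
      by_contra hne
      apply hab
      exact Matrix.det_zero_of_row_eq hne (by funext j; simp [hkl])
    have hb : Function.Injective b := by
      intro k l hkl
      by_contra hne
      apply hab
      exact Matrix.det_zero_of_column_eq hne (by intro i; simp [hkl])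
    obtain ⟨e, he⟩ := exists_perm_extend a ha
    obtain ⟨f, hf⟩ := exists_perm_extend b hb
    have hW : (P.submatrix e f).toBlocks₁₁.det ≠ 0 := by
      have h2 : (P.submatrix e f).toBlocks₁₁ = P.submatrix a b := by
        ext k l
        simp [Matrix.toBlocks₁₁, he, hf]
      rw [h2]
      exact hab
    have hP' := hP.submatrix e f
    obtain ⟨X, hX⟩ : ∃ X, X = chart ((sdat u w c).submatrix e f) (P.submatrix e f) := ⟨_, rfl⟩
    have hpsi := psi_chart _ _ hP' hW
    have hpm := pmat_chart ((sdat u w c).submatrix e f) _ hP'.rk hW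
    rw [← hX] at hpsi hpm
    have hsol := Sol.of_psi (u := u.submatrix e id) (w := w ∘ e) (c := c) X
      ((Equiv.sumAssoc ρ κ ε).trans f.symm) (by
        rw [hpsi]
        ext i j
        rfl)
    have hrk := hsol.rank (hS.submatrix e (Equiv.refl _)) hc
    obtain ⟨a', b', hab'⟩ := exists_minor_ne _ hrk
    refine ⟨fun k => e (Sum.inl (a' k)), b', ?_⟩
    convert hab' using 2
    ext k l
    simp only [Matrix.submatrix_apply, id]
    have h1 : P (e (Sum.inl (a' k))) (Sum.map id Sum.inl (b' l)) =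
        pmat X (Sum.inl (a' k)) (f.symm (Sum.map id Sum.inl (b' l))) := by
      rw [hpm]
      simp
    have h2 : (Equiv.sumAssoc ρ κ ε).trans f.symm (Sum.inl (b' l)) =
        f.symm (Sum.map id Sum.inl (b' l)) := by
      rw [Equiv.trans_apply]
      rfl
    rw [h1, h2, pmat, Matrix.mul_assoc]
    simp [Lm, Matrix.fromRows_mul]
  obtain ⟨a, b, hab⟩ := key
  have ha : Function.Injective a := by
    intro k l hkl
    by_contra hne
    apply hab
    exact Matrix.det_zero_of_row_eq hne (by funext j; simp [hkl])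
  have hb : Function.Injective b := by
    intro k l hkl
    by_contra hne
    apply hab
    exact Matrix.det_zero_of_column_eq hne (by intro i; simp [hkl])
  obtain ⟨e, he⟩ := exists_perm_extend a ha
  obtain ⟨f, hf⟩ := exists_perm_extend b hb
  obtain ⟨f', hf'⟩ : ∃ f' : ρ ⊕ (κ ⊕ ε) ≃ ρ ⊕ (κ ⊕ ε), f' = (Equiv.sumAssoc ρ κ ε).symm.trans
    ((Equiv.sumCongr f (Equiv.refl ε)).trans (Equiv.sumAssoc ρ κ ε)) := ⟨_, rfl⟩
  have hf1 : ∀ x : ρ ⊕ κ, f' (Sum.map id Sum.inl x) = Sum.map id Sum.inl (f x) := by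
    intro x
    rw [hf']
    rcases x with x | x
    · simp only [Sum.map_inl, id, Equiv.trans_apply, Equiv.sumAssoc_symm_apply_inl]
      simp only [Equiv.sumCongr_apply, Sum.map_inl]
      rcases f (Sum.inl x) with z | z <;> rfl
    · simp only [Sum.map_inr, Equiv.trans_apply, Equiv.sumAssoc_symm_apply_inr_inl]
      simp only [Equiv.sumCongr_apply, Sum.map_inl]
      rcases f (Sum.inr x) with z | z <;> rfl
  have hD : (sdat u w c).submatrix e f' = sdat (u.submatrix e f) (w ∘ e) c := by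
    ext i j
    rw [hf']
    simp only [sdat, Matrix.submatrix_apply, Equiv.trans_apply, Equiv.symm_apply_apply, id]
    rcases (Equiv.sumAssoc ρ κ ε).symm j with z | z <;> rfl
  have hP' := hP.submatrix e f'
  rw [hD] at hP'
  have hW : (P.submatrix e f').toBlocks₁₁.det ≠ 0 := by
    have h2 : (P.submatrix e f').toBlocks₁₁ =
        P.submatrix a fun l => Sum.map id Sum.inl (b l) := by
      ext k l
      have h3 := hf1 (Sum.inl l)
      simp only [Sum.map_inl, id] at h3
      simp only [Matrix.toBlocks₁₁, Matrix.of_apply, Matrix.submatrix_apply, he, h3, hf]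
    rw [h2]
    exact hab
  obtain ⟨X, hX⟩ : ∃ X, X = chart (sdat (u.submatrix e f) (w ∘ e) c) (P.submatrix e f') :=
    ⟨_, rfl⟩
  have hpsi := psi_chart _ _ hP' hW
  have hpm := pmat_chart (sdat (u.submatrix e f) (w ∘ e) c) _ hP'.rk hW
  have hXW : X.toBlocks₁₁.det ≠ 0 := by
    rw [hX]
    simpa [chart] using hW
  rw [← hX] at hpsi hpm
  have hfree := (free_alg (hS.submatrix e f) X hXW hpsi).1
  obtain ⟨X₀, hX₀⟩ : ∃ X₀ : Matrix (ρ ⊕ σ) (ρ ⊕ κ) ℂ,
    X₀ = X.submatrix id (Sum.map id Sum.inl) := ⟨_, rfl⟩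
  have hAlg : Alg X₀ := by
    have := AlgebraicIndependent.comp hfree (fun x : (ρ ⊕ σ) × (ρ ⊕ κ) => Sum.inl x)
      Sum.inl_injective
    rw [hX₀]
    exact this
  have hpm0 : ∀ i j, pmat X₀ i j = pmat X i (Sum.map id Sum.inl j) := by
    intro i j
    have h1 : Lm X₀ = Lm X := by rw [hX₀]; rfl
    have h2 : X₀.toBlocks₁₁ = X.toBlocks₁₁ := by rw [hX₀]; rfl
    have h3 : ∀ k, Um X₀ k j = Um X k (Sum.map id Sum.inl j) := by
      intro k
      rcases j with j | j
      · simp [Um]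
      · simp [Um, hX₀, Matrix.toBlocks₁₂]
    rw [pmat, pmat, h1, h2, Matrix.mul_apply, Matrix.mul_apply]
    exact Finset.sum_congr rfl fun k _ => by rw [h3]
  have hfin : ((pmat X₀).submatrix (fun k => e.symm (Sum.inl k))
      (fun k => f.symm (Sum.inl k))).det ≠ 0 := by
    rw [submatrix_pmat]
    refine mul_ne_zero (mul_ne_zero ?_ (W_ne_of_alg _ hAlg)) ?_
    · exact Dm_ne_of_alg _ hAlg _
        (fun k l h => Sum.inl_injective (e.symm.injective (Option.some.inj h)))
    · exact Dm_ne_of_alg _ hAlg.transpose _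
        (fun k l h => Sum.inl_injective (f.symm.injective (Option.some.inj h)))
  have h3 : (pmat X₀).submatrix (fun k => e.symm (Sum.inl k))
      (fun k => f.symm (Sum.inl k)) = P.toBlocks₁₁ := by
    ext k l
    simp only [Matrix.submatrix_apply, hpm0, hpm, hf1, Equiv.apply_symm_apply, Sum.map_inl, id]
    rfl
  rwa [h3] at hfin

end Pool.ML
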