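import Pool.Agent.ML61.IndexMult

/-!
# Counting the zeros of a polynomial in two variables in the inner direction
-/

set_option linter.unusedSectionVars false
set_option linter.unusedSimpArgs false

namespace Pool.ML

open Polynomial Polynomial.Bivariate

section core

variable {k : Type} [Field k]

theorem coeff_coeff_swap (P : Polynomial (Polynomial k)) (i j : ℕ) :
    ((Bivariate.swap P).coeff i).coeff j = (P.coeff j).coeff i := by
  induction P using Polynomial.induction_on' with
  | add p q hp hq => simp only [map_add, coeff_add, hp, hq]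
  | monomial n a =>
    induction a using Polynomial.induction_on' with
    | add p q hp hq => simp only [map_add, coeff_add, hp, hq]
    | monomial m r =>
      rw [Bivariate.swap_monomial_monomial, coeff_monomial, coeff_monomial]
      by_cases h1 : m = i <;> by_cases h2 : n = j <;> simp [h1, h2, coeff_monomial]

variable [Algebra k ℂ]

theorem natDegree_swap (P : Polynomial (Polynomial k)) (hP : P ≠ 0)
    (hdeg : ∀ i, (P.coeff i).natDegree ≤ P.leadingCoeff.natDegree) :
    (Bivariate.swap P).natDegree = P.leadingCoeff.natDegree := by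
  apply le_antisymm
  · rw [Polynomial.natDegree_le_iff_coeff_eq_zero]
    intro j hj
    ext i
    rw [coeff_coeff_swap, coeff_zero]
    exact Polynomial.coeff_eq_zero_of_natDegree_lt (lt_of_le_of_lt (hdeg i) hj)
  · apply Polynomial.le_natDegree_of_ne_zero
    intro h
    have h1 := coeff_coeff_swap P P.leadingCoeff.natDegree P.natDegree
    rw [h, coeff_zero] at h1
    have h2 : P.leadingCoeff.leadingCoeff = 0 := h1.symm
    rw [Polynomial.leadingCoeff_eq_zero, Polynomial.leadingCoeff_eq_zero] at h2
    exact hP h2

theorem eval_ne_zero_of_primitive [IsAlgClosed k] (P : Polynomial (Polynomial k))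
    (hprim : P.IsPrimitive) (t : k) (c : ℂ) (hc : Transcendental k c) :
    ev2 (algebraMap k ℂ t) c P ≠ 0 := by
  intro h
  let Q : Polynomial k := P.map (evalRingHom t)
  have hQ : Q ≠ 0 := by
    intro h0
    have h1 : C (X - C t) ∣ P := by
      rw [Polynomial.C_dvd_iff_dvd_coeff]
      intro i
      rw [Polynomial.dvd_iff_isRoot]
      have h2 : Q.coeff i = 0 := by rw [h0, coeff_zero]
      rw [Polynomial.coeff_map] at h2
      exact h2
    have h2 := hprim _ h1
    exact Polynomial.not_isUnit_X_sub_C t h2
  apply hc
  refine ⟨Q, hQ, ?_⟩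
  rw [ev2] at h
  rw [Polynomial.aeval_def, ← Polynomial.eval_map, Polynomial.map_map]
  convert h using 2
  congr 1
  ext
  simp only [coeff_map, RingHom.comp_apply, coe_evalRingHom]
  change _ = aeval (algebraMap k ℂ t) _
  rw [Polynomial.aeval_algebraMap_apply, Polynomial.coe_aeval_eq_eval]

theorem exists_of_isAlgebraic [IsAlgClosed k] (t : ℂ) (h : IsAlgebraic k t) :
    ∃ t0 : k, algebraMap k ℂ t0 = t :=
  minpoly.mem_range_of_degree_eq_one k t
    (IsAlgClosed.degree_eq_one_of_irreducible k (minpoly.irreducible h.isIntegral))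

/-- The number of zeros, counted with their multiplicities in the outer direction. -/
theorem index_core [IsAlgClosed k] (P : Polynomial (Polynomial k)) (hprim : P.IsPrimitive)
    (hdeg : ∀ i, (P.coeff i).natDegree ≤ P.leadingCoeff.natDegree) (c : ℂ)
    (hc : Transcendental k c) :
    ∃ S : Finset ℂ, (∀ t ∈ S, Transcendental k t) ∧
      (∀ t, Transcendental k t → ((spec t P).IsRoot c ↔ t ∈ S)) ∧
      ∑ t ∈ S, (spec t P).rootMultiplicity c = P.leadingCoeff.natDegree := by
  classical
  have hP : P ≠ 0 := hprim.ne_zero
  have hS : Bivariate.swap P ≠ 0 := by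
    intro h2
    apply hP
    have h3 := congrArg Bivariate.swap h2
    rwa [Bivariate.swap_swap_apply, map_zero] at h3
  set G : Polynomial ℂ := spec c (Bivariate.swap P) with hG
  have hG0 : G ≠ 0 := spec_ne_zero c hc _ hS
  have hGdeg : G.natDegree = P.leadingCoeff.natDegree := by
    rw [hG, spec, Polynomial.natDegree_map_eq_of_injective, natDegree_swap P hP hdeg]
    exact transcendental_iff_injective.mp hc
  have htr : ∀ t ∈ G.roots.toFinset, Transcendental k t := by
    intro t ht
    rw [Multiset.mem_toFinset, Polynomial.mem_roots hG0, hG, isRoot_spec, ev2_swap] at ht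
    intro halg
    obtain ⟨t0, ht0⟩ := exists_of_isAlgebraic t halg
    rw [← ht0] at ht
    exact eval_ne_zero_of_primitive P hprim t0 c hc ht
  refine ⟨G.roots.toFinset, htr, ?_, ?_⟩
  · intro t ht
    rw [Multiset.mem_toFinset, Polynomial.mem_roots hG0, hG, isRoot_spec, isRoot_spec, ev2_swap]
  · have h1 : ∀ t ∈ G.roots.toFinset, (spec t P).rootMultiplicity c = G.roots.count t := by
      intro t ht
      rw [mult_symm P hP t c (htr t ht) hc, Polynomial.count_roots]
    rw [Finset.sum_congr rfl h1, Multiset.toFinset_sum_count_eq, ← hGdeg]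
    exact IsAlgClosed.card_roots_eq_natDegree

end core

end Pool.ML
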