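import Mathlib

/-!
# Derivations of the complex numbers over a subfield
-/

set_option linter.unusedSectionVars false
set_option linter.unusedSimpArgs false

namespace Pool.ML

open KaehlerDifferential TensorProduct

section der

variable {k : Type} [Field k] [Algebra k ℂ]

theorem exists_kderivation_of_formallyEtale (S : Type) [CommRing S] [Algebra k S] [Algebra S ℂ]
    [IsScalarTower k S ℂ] [Algebra.FormallyEtale S ℂ] (d : Derivation k S ℂ) :
    ∃ D : Derivation k ℂ ℂ, ∀ s, D (algebraMap S ℂ s) = d s := by
  let l : ℂ ⊗[S] Ω[S⁄k] →ₗ[ℂ] ℂ := d.liftKaehlerDifferential.liftBaseChange ℂ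
  let e := KaehlerDifferential.tensorKaehlerEquivOfFormallyEtale k S ℂ
  refine ⟨(l.comp (e.symm : Ω[ℂ⁄k] →ₗ[ℂ] ℂ ⊗[S] Ω[S⁄k])).compDer (KaehlerDifferential.D k ℂ), ?_⟩
  intro s
  change l (e.symm (KaehlerDifferential.D k ℂ (algebraMap S ℂ s))) = d s
  rw [KaehlerDifferential.tensorKaehlerEquivOfFormallyEtale_symm_D_algebraMap]
  change d.liftKaehlerDifferential.liftBaseChange ℂ (1 ⊗ₜ[S] KaehlerDifferential.D k S s) = d s
  rw [LinearMap.liftBaseChange_tmul, one_smul, Derivation.liftKaehlerDifferential_comp_D]

/-- For `t` transcendental over `k` there is a derivation over `k` with `D t = 1`. -/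
theorem exists_kderivation (t : ℂ) (ht : Transcendental k t) :
    ∃ D : Derivation k ℂ ℂ, D t = 1 := by
  classical
  have hx : AlgebraicIndependent k (fun _ : Unit => t) :=
    (algebraicIndependent_unique_type_iff).mpr ht
  obtain ⟨s, hxs, hs⟩ := exists_isTranscendenceBasis_superset hx.to_subtype_range
  let A := MvPolynomial s k
  let K := FractionRing A
  have hinj : Function.Injective (MvPolynomial.aeval (R := k) ((↑) : s → ℂ)) :=
    algebraicIndependent_iff_injective_aeval.mp hs.1
  let : Algebra A ℂ := (MvPolynomial.aeval (R := k) ((↑) : s → ℂ)).toRingHom.toAlgebra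
  have hA : ∀ a : A, algebraMap A ℂ a = MvPolynomial.aeval ((↑) : s → ℂ) a := fun _ => rfl
  have ht1 : IsScalarTower k A ℂ := IsScalarTower.of_algebraMap_eq fun q => by
    rw [hA]
    exact ((MvPolynomial.aeval (R := k) ((↑) : s → ℂ)).commutes q).symm
  let : Algebra K ℂ := (IsFractionRing.lift (K := K) (g := algebraMap A ℂ) hinj).toAlgebra
  have ht2 : IsScalarTower A K ℂ := IsScalarTower.of_algebraMap_eq fun a =>
    (IsFractionRing.lift_algebraMap (K := K) (g := algebraMap A ℂ) hinj a).symm
  have halgA : ∀ z : ℂ, IsAlgebraic A z := by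
    intro z
    have h1 := hs.isAlgebraic.isAlgebraic z
    obtain ⟨p, hp, hpz⟩ := h1
    let e : A ≃+* Algebra.adjoin k (Set.range ((↑) : s → ℂ)) := hs.1.aevalEquiv.toRingEquiv
    have he : ∀ a : A, ((e a : Algebra.adjoin k (Set.range ((↑) : s → ℂ))) : ℂ) =
        algebraMap A ℂ a := by
      intro a
      rw [hA]
      exact hs.1.algebraMap_aevalEquiv a
    refine ⟨p.map (e.symm : _ →+* A), ?_, ?_⟩
    · rw [Ne, Polynomial.map_eq_zero_iff (e.symm : _ ≃+* A).injective]
      exact hp
    · rw [Polynomial.aeval_def, Polynomial.eval₂_map]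
      rw [Polynomial.aeval_def] at hpz
      rw [← hpz]
      congr 1
      ext b
      change algebraMap A ℂ (e.symm b) = (b : ℂ)
      rw [← he, RingEquiv.apply_symm_apply]
  have halg : Algebra.IsAlgebraic K ℂ :=
    ⟨fun z => (IsFractionRing.isAlgebraic_iff A K ℂ).mp (halgA z)⟩
  have hck : CharZero k := by
    have : CharZero ℂ := inferInstance
    exact ⟨fun a b h => by
      have h1 := congrArg (algebraMap k ℂ) h
      rw [map_natCast, map_natCast] at h1
      exact Nat.cast_injective h1⟩
  have hcA : CharZero A := charZero_of_injective_algebraMap (MvPolynomial.C_injective s k)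
  have hcz : CharZero K := charZero_of_injective_algebraMap (IsFractionRing.injective A K)
  have hsep : Algebra.IsSeparable K ℂ := Algebra.IsAlgebraic.isSeparable_of_perfectField
  have h1 : Algebra.FormallyEtale A K := Algebra.FormallyEtale.of_isLocalization (nonZeroDivisors A)
  have h2 : Algebra.FormallyEtale K ℂ := Algebra.FormallyEtale.of_isSeparable K ℂ
  have h3 : Algebra.FormallyEtale A ℂ := Algebra.FormallyEtale.comp A K ℂ
  obtain ⟨D, hD⟩ := exists_kderivation_of_formallyEtale A
    (MvPolynomial.mkDerivation k (fun _ : s => (1 : ℂ)))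
  refine ⟨D, ?_⟩
  have h4 := hD (MvPolynomial.X ⟨t, hxs ⟨(), rfl⟩⟩)
  rw [hA, MvPolynomial.aeval_X, MvPolynomial.mkDerivation_X] at h4
  exact h4

/-- A derivation over `k` vanishing at `c` vanishes at the numbers algebraic over `k(c)`. -/
theorem kderivation_eq_zero (D : Derivation k ℂ ℂ) (c z : ℂ) (hc : D c = 0)
    (hz : IsAlgebraic (IntermediateField.adjoin k {c}) z) : D z = 0 := by
  have h0 : ∀ a ∈ IntermediateField.adjoin k {c}, D a = 0 := by
    intro a ha
    induction ha using IntermediateField.adjoin_induction with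
    | mem a ha => rw [Set.mem_singleton_iff.mp ha, hc]
    | algebraMap q => exact D.map_algebraMap q
    | add a b _ _ ha hb => rw [map_add, ha, hb, add_zero]
    | inv a _ ha => rw [Derivation.leibniz_inv, ha, smul_zero]
    | mul a b _ _ ha hb => rw [Derivation.leibniz, ha, hb, smul_zero, smul_zero, add_zero]
  let D' : Derivation (IntermediateField.adjoin k {c}) ℂ ℂ :=
    { toFun := D
      map_add' := D.map_add
      map_smul' := by
        intro k' a
        rw [RingHom.id_apply, Algebra.smul_def, Derivation.leibniz]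
        have h1 : D (algebraMap (IntermediateField.adjoin k {c}) ℂ k') = 0 := h0 _ k'.2
        rw [h1, smul_zero, add_zero, Algebra.smul_def]
        rfl
      map_one_eq_zero' := D.map_one_eq_zero
      leibniz' := D.leibniz }
  have hint : IsIntegral (IntermediateField.adjoin k {c}) z := hz.isIntegral
  have h2 := D'.map_aeval (minpoly (IntermediateField.adjoin k {c}) z) z
  rw [minpoly.aeval, map_zero] at h2
  have hck : CharZero (IntermediateField.adjoin k {c}) := by
    exact ⟨fun a b h => by
      have h1 := congrArg (algebraMap (IntermediateField.adjoin k {c}) ℂ) h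
      rw [map_natCast, map_natCast] at h1
      exact Nat.cast_injective h1⟩
  have h3 : (minpoly (IntermediateField.adjoin k {c}) z).Separable :=
    (minpoly.irreducible hint).separable
  have h4 := h3.aeval_derivative_ne_zero (minpoly.aeval _ z)
  exact (smul_eq_zero.mp h2.symm).resolve_left h4

end der

end Pool.ML
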