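import Pool.Agent.ML61.Val
import Pool.Agent.ML61.IndexCore

/-!
# The lemma of Gauss over the field of Laurent series
-/

set_option linter.unusedSectionVars false
set_option linter.unusedSimpArgs false

namespace Pool.ML

open Polynomial

section gauss

variable {k : Type} [Field k]

theorem ofPS_C (a : k) : ofPS (PowerSeries.C a) = (HahnSeries.C a : LaurentSeries k) := by
  exact HahnSeries.ofPowerSeries_C a

theorem exists_unit_ofPS (f : LaurentSeries k) (h0 : f ≠ 0) (h : f.order = 0) :
    ∃ W : PowerSeries k, ofPS W = f ∧ PowerSeries.constantCoeff W ≠ 0 := by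
  obtain ⟨W, hW⟩ := exists_ofPS_of_order f h.ge
  refine ⟨W, hW, ?_⟩
  rw [← PowerSeries.coeff_zero_eq_constantCoeff_apply, ← ofPS_coeff, hW]
  intro h1
  have h2 : f.coeff f.order = 0 := by
    rw [h]
    exact h1
  exact h0 (HahnSeries.coeff_order_eq_zero.mp h2)

theorem exists_pos_ofPS (f : LaurentSeries k) (h : 0 < f.order) :
    ∃ W : PowerSeries k, ofPS W = f ∧ PowerSeries.constantCoeff W = 0 := by
  obtain ⟨W, hW⟩ := exists_ofPS_of_order f h.le
  refine ⟨W, hW, ?_⟩
  rw [← PowerSeries.coeff_zero_eq_constantCoeff_apply, ← ofPS_coeff, hW]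
  exact HahnSeries.coeff_eq_zero_of_lt_order h

theorem order_ofPS_nonneg (F : PowerSeries k) : 0 ≤ (ofPS F).order := by
  by_cases h : ofPS F = 0
  · rw [h, HahnSeries.order_zero]
  · by_contra h1
    push Not at h1
    have h2 := ofPS_coeff_neg F _ h1
    exact h (HahnSeries.coeff_order_eq_zero.mp h2)

theorem order_ofPS_unit (F : PowerSeries k) (h : PowerSeries.constantCoeff F ≠ 0) :
    (ofPS F).order = 0 := by
  apply le_antisymm _ (order_ofPS_nonneg F)
  apply HahnSeries.order_le_of_coeff_ne_zero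
  have h1 := ofPS_coeff F 0
  rw [Nat.cast_zero] at h1
  rw [h1, PowerSeries.coeff_zero_eq_constantCoeff_apply]
  exact h

theorem order_inv (f : LaurentSeries k) (h : f ≠ 0) : (f⁻¹).order = -f.order := by
  have h1 := HahnSeries.order_mul h (inv_ne_zero h)
  rw [mul_inv_cancel₀ h, HahnSeries.order_one] at h1
  linarith

/-- Polynomials with integral coefficients, not all divisible by the variable. -/
def Prim (Q : Polynomial (LaurentSeries k)) : Prop :=
  ∃ Q' : Polynomial (PowerSeries k), Q'.map ofPS = Q ∧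
    Q'.map (PowerSeries.constantCoeff (R := k)) ≠ 0

theorem Prim.mul {P Q : Polynomial (LaurentSeries k)} (hP : Prim P) (hQ : Prim Q) :
    Prim (P * Q) := by
  obtain ⟨P', hP1, hP2⟩ := hP
  obtain ⟨Q', hQ1, hQ2⟩ := hQ
  refine ⟨P' * Q', by rw [Polynomial.map_mul, hP1, hQ1], ?_⟩
  rw [Polynomial.map_mul]
  exact mul_ne_zero hP2 hQ2

theorem Prim.one : Prim (1 : Polynomial (LaurentSeries k)) :=
  ⟨1, by rw [Polynomial.map_one], by rw [Polynomial.map_one]; exact one_ne_zero⟩

theorem Prim.X_sub_C (h : LaurentSeries k) (hh : 0 ≤ h.order) : Prim (X - C h) := by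
  obtain ⟨W, hW⟩ := exists_ofPS_of_order h hh
  refine ⟨X - C W, ?_, ?_⟩
  · rw [Polynomial.map_sub, Polynomial.map_X, Polynomial.map_C, hW]
  · rw [Polynomial.map_sub, Polynomial.map_X, Polynomial.map_C]
    exact Polynomial.X_sub_C_ne_zero _

theorem Prim.scaled (h u : LaurentSeries k) (hu : 0 < u.order) (hh : h.order = -u.order) :
    Prim (C u * (X - C h)) := by
  have hu0 : u ≠ 0 := by
    rintro rfl
    rw [HahnSeries.order_zero] at hu
    exact lt_irrefl _ hu
  have hh0 : h ≠ 0 := by
    rintro rfl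
    rw [HahnSeries.order_zero] at hh
    omega
  obtain ⟨U, hU, hU0⟩ := exists_pos_ofPS u hu
  have h1 : (u * h).order = 0 := by
    rw [HahnSeries.order_mul hu0 hh0, hh]
    ring
  obtain ⟨W, hW, hW0⟩ := exists_unit_ofPS (u * h) (mul_ne_zero hu0 hh0) h1
  refine ⟨C U * X - C W, ?_, ?_⟩
  · rw [Polynomial.map_sub, Polynomial.map_mul, Polynomial.map_X, Polynomial.map_C,
      Polynomial.map_C, hU, hW, C_mul]
    ring
  · rw [Polynomial.map_sub, Polynomial.map_mul, Polynomial.map_X, Polynomial.map_C,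
      Polynomial.map_C, hU0, C_0, zero_mul, zero_sub, neg_ne_zero]
    exact Polynomial.C_ne_zero.mpr hW0

theorem Prim.not_of_pos (Q : Polynomial (LaurentSeries k)) (hQ : Prim Q) (c : LaurentSeries k)
    (hc : 0 < c.order) : ¬ Prim (C c * Q) := by
  rintro ⟨Q'', h1, h2⟩
  obtain ⟨Q', h3, h4⟩ := hQ
  obtain ⟨Λ, hΛ, hΛ0⟩ := exists_pos_ofPS c hc
  have h5 : (C Λ * Q').map ofPS = Q''.map ofPS := by
    rw [Polynomial.map_mul, Polynomial.map_C, h3, hΛ, h1]
  have h6 := Polynomial.map_injective _ ofPS_injective h5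
  apply h2
  rw [← h6, Polynomial.map_mul, Polynomial.map_C, hΛ0, C_0, zero_mul]

theorem Prim.order_eq (Q : Polynomial (LaurentSeries k)) (hQ : Prim Q) (c : LaurentSeries k)
    (hc : c ≠ 0) (h : Prim (C c * Q)) : c.order = 0 := by
  rcases lt_trichotomy c.order 0 with h1 | h1 | h1
  · exfalso
    have h2 : 0 < (c⁻¹).order := by
      rw [order_inv c hc]
      omega
    apply Prim.not_of_pos _ h _ h2
    rw [← mul_assoc, ← C_mul, inv_mul_cancel₀ hc, C_1, one_mul]
    exact hQ
  · exact h1
  · exact absurd h (Prim.not_of_pos Q hQ c h1)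

/-- The evaluation of polynomials at a Laurent series. -/
noncomputable def evL (w : LaurentSeries k) : Polynomial k →+* LaurentSeries k :=
  eval₂RingHom (HahnSeries.C : k →+* LaurentSeries k) w

theorem exists_evL (w : LaurentSeries k) (t0 : k) (hw : 0 < (w - HahnSeries.C t0).order) :
    ∃ W : PowerSeries k, ofPS W = w ∧ PowerSeries.constantCoeff W = t0 := by
  obtain ⟨U, hU, hU0⟩ := exists_pos_ofPS _ hw
  refine ⟨PowerSeries.C t0 + U, ?_, ?_⟩
  · rw [map_add, ofPS_C, hU]
    ring
  · rw [map_add, hU0, add_zero, PowerSeries.constantCoeff_C]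

theorem evL_eq (W : PowerSeries k) :
    evL (ofPS W) = (ofPS).comp (eval₂RingHom (PowerSeries.C (R := k)) W) := by
  apply Polynomial.ringHom_ext
  · intro a
    simp [evL, ofPS_C]
  · simp [evL]

theorem constantCoeff_eval₂ (W : PowerSeries k) :
    (PowerSeries.constantCoeff (R := k)).comp (eval₂RingHom (PowerSeries.C (R := k)) W) =
      evalRingHom (PowerSeries.constantCoeff W) := by
  apply Polynomial.ringHom_ext
  · intro a
    simp
  · simp

theorem Prim.map_evL (P : Polynomial (Polynomial k)) (hprim : P.IsPrimitive)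
    (w : LaurentSeries k) (t0 : k) (hw : 0 < (w - HahnSeries.C t0).order) :
    Prim (P.map (evL w)) := by
  obtain ⟨W, hW, hW0⟩ := exists_evL w t0 hw
  refine ⟨P.map (eval₂RingHom (PowerSeries.C (R := k)) W), ?_, ?_⟩
  · rw [Polynomial.map_map, ← evL_eq, hW]
  · rw [Polynomial.map_map, constantCoeff_eval₂, hW0]
    intro h0
    have h1 : C (X - C t0) ∣ P := by
      rw [Polynomial.C_dvd_iff_dvd_coeff]
      intro i
      rw [Polynomial.dvd_iff_isRoot]
      have h2 : (P.map (evalRingHom t0)).coeff i = 0 := by rw [h0, coeff_zero]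
      rw [Polynomial.coeff_map] at h2
      exact h2
    exact Polynomial.not_isUnit_X_sub_C t0 (hprim _ h1)

/-- The order at a place over `t0`. -/
theorem order_evL (q : Polynomial k) (hq : q ≠ 0) (w : LaurentSeries k) (t0 : k)
    (hw : 0 < (w - HahnSeries.C t0).order) :
    evL w q ≠ 0 ∧ (evL w q).order = q.rootMultiplicity t0 * (w - HahnSeries.C t0).order := by
  classical
  obtain ⟨W, hW, hW0⟩ := exists_evL w t0 hw
  obtain ⟨q1, hq1, hq2⟩ := Polynomial.exists_eq_pow_rootMultiplicity_mul_and_not_dvd q hq t0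
  have hu0 : w - HahnSeries.C t0 ≠ 0 := by
    intro h
    rw [h, HahnSeries.order_zero] at hw
    exact lt_irrefl _ hw
  have h1 : evL w (X - C t0) = w - HahnSeries.C t0 := by
    simp [evL]
  have h2 : evL w q1 = ofPS (eval₂RingHom (PowerSeries.C (R := k)) W q1) := by
    rw [← hW, evL_eq]
    rfl
  have h3 : PowerSeries.constantCoeff (eval₂RingHom (PowerSeries.C (R := k)) W q1) ≠ 0 := by
    have h4 := congrArg (fun f => f q1) (constantCoeff_eval₂ W)
    change PowerSeries.constantCoeff (eval₂RingHom (PowerSeries.C (R := k)) W q1) = _ at h4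
    rw [h4, hW0]
    intro h5
    exact hq2 (Polynomial.dvd_iff_isRoot.mpr h5)
  have h4 := order_ofPS_unit _ h3
  have h5 : evL w q1 ≠ 0 := by
    rw [h2]
    intro h6
    have h7 := ofPS_injective (h6.trans (map_zero ofPS).symm)
    rw [h7, map_zero] at h3
    exact h3 rfl
  have h6 : evL w q = (w - HahnSeries.C t0) ^ q.rootMultiplicity t0 * evL w q1 := by
    conv_lhs => rw [hq1]
    rw [map_mul, map_pow, h1]
  refine ⟨?_, ?_⟩
  · rw [h6]
    exact mul_ne_zero (pow_ne_zero _ hu0) h5
  · rw [h6, HahnSeries.order_mul (pow_ne_zero _ hu0) h5, HahnSeries.order_pow, h2, h4, add_zero]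
    simp

/-- The order at a place at infinity. -/
theorem order_evL_inf (q : Polynomial k) (hq : q ≠ 0) (w : LaurentSeries k) (hw : w.order < 0) :
    evL w q ≠ 0 ∧ (evL w q).order = q.natDegree * w.order := by
  have hw0 : w ≠ 0 := by
    rintro rfl
    rw [HahnSeries.order_zero] at hw
    exact lt_irrefl _ hw
  let : Invertible w := invertibleOfNonzero hw0
  have h1 := Polynomial.eval₂_reverse_mul_pow (HahnSeries.C : k →+* LaurentSeries k) w q
  have hinv : (⅟w : LaurentSeries k) = w⁻¹ := invOf_eq_inv w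
  have h2 : 0 < (w⁻¹ - HahnSeries.C (0 : k)).order := by
    rw [map_zero, sub_zero, order_inv w hw0]
    omega
  have hr : q.reverse ≠ 0 := by
    rw [Ne, Polynomial.reverse_eq_zero]
    exact hq
  have h3 := order_evL q.reverse hr w⁻¹ 0 h2
  have h4 : q.reverse.rootMultiplicity 0 = 0 := by
    rw [Polynomial.rootMultiplicity_eq_zero]
    rw [Polynomial.IsRoot, ← Polynomial.coeff_zero_eq_eval_zero, Polynomial.coeff_zero_reverse]
    intro h
    exact hq (Polynomial.leadingCoeff_eq_zero.mp h)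
  rw [h4, Nat.cast_zero, zero_mul] at h3
  have h5 : evL w q = evL w⁻¹ q.reverse * w ^ q.natDegree := by
    rw [hinv] at h1
    exact h1.symm
  refine ⟨?_, ?_⟩
  · rw [h5]
    exact mul_ne_zero h3.1 (pow_ne_zero _ hw0)
  · rw [h5, HahnSeries.order_mul h3.1 (pow_ne_zero _ hw0), h3.2, HahnSeries.order_pow, zero_add]
    simp

end gauss

end Pool.ML
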