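import Pool.Agent.ML61.IndexGauss

/-!
# The poles at one place
-/

set_option linter.unusedSectionVars false
set_option linter.unusedSimpArgs false

namespace Pool.ML

open Polynomial

section loc

variable {k : Type} [Field k]

theorem prim_prod (u : LaurentSeries k) (hu : 0 < u.order) (H : Multiset (LaurentSeries k))
    (hH : ∀ h ∈ H, 0 ≤ h.order ∨ h.order = -u.order) :
    Prim (C (u ^ (H.countP fun h => h.order < 0)) * (H.map fun h => X - C h).prod) := by
  classical
  induction H using Multiset.induction_on with
  | empty =>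
    simp only [Multiset.countP_zero, pow_zero, C_1, Multiset.map_zero, Multiset.prod_zero, mul_one]
    exact Prim.one
  | cons h H ih =>
    have ih' := ih fun a ha => hH a (Multiset.mem_cons_of_mem ha)
    rw [Multiset.map_cons, Multiset.prod_cons]
    by_cases hn : h.order < 0
    · have hc : Multiset.countP (fun h : LaurentSeries k => h.order < 0) (h ::ₘ H) =
          Multiset.countP (fun h : LaurentSeries k => h.order < 0) H + 1 :=
        Multiset.countP_cons_of_pos (p := fun h : LaurentSeries k => h.order < 0) H hn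
      rw [hc]
      have h1 := (hH h (Multiset.mem_cons_self _ _)).resolve_left (not_le.mpr hn)
      have h2 := (Prim.scaled h u hu h1).mul ih'
      convert h2 using 1
      rw [pow_succ, C_mul]
      ring
    · have hc : Multiset.countP (fun h : LaurentSeries k => h.order < 0) (h ::ₘ H) =
          Multiset.countP (fun h : LaurentSeries k => h.order < 0) H :=
        Multiset.countP_cons_of_neg (p := fun h : LaurentSeries k => h.order < 0) H hn
      rw [hc]
      have h2 := (Prim.X_sub_C h (not_lt.mp hn)).mul ih'
      convert h2 using 1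
      ring

theorem local_mult (P : Polynomial (Polynomial k)) (hprim : P.IsPrimitive) (w : LaurentSeries k)
    (t0 : k) (hw : 0 < (w - HahnSeries.C t0).order) (H : Multiset (LaurentSeries k))
    (hH : ∀ h ∈ H, 0 ≤ h.order ∨ h.order = -(w - HahnSeries.C t0).order)
    (hP : P.map (evL w) = C (evL w P.leadingCoeff) * (H.map fun h => X - C h).prod) :
    P.leadingCoeff.rootMultiplicity t0 = H.countP fun h => h.order < 0 := by
  classical
  set u := w - HahnSeries.C t0 with hu
  have hu0 : u ≠ 0 := by
    intro h
    rw [h, HahnSeries.order_zero] at hw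
    exact lt_irrefl _ hw
  have hq : P.leadingCoeff ≠ 0 := by
    rw [Ne, Polynomial.leadingCoeff_eq_zero]
    exact hprim.ne_zero
  have h1 := order_evL P.leadingCoeff hq w t0 hw
  have h2 := prim_prod u hw H hH
  set n := H.countP fun h => h.order < 0 with hn
  have h3 := Prim.map_evL P hprim w t0 hw
  have h4 : P.map (evL w) = C (evL w P.leadingCoeff * (u ^ n)⁻¹) *
      (C (u ^ n) * (H.map fun h => X - C h).prod) := by
    rw [hP, ← mul_assoc, ← C_mul, mul_assoc, inv_mul_cancel₀ (pow_ne_zero _ hu0), mul_one]
  rw [h4] at h3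
  have h5 := Prim.order_eq _ h2 _ (mul_ne_zero h1.1 (inv_ne_zero (pow_ne_zero _ hu0))) h3
  rw [HahnSeries.order_mul h1.1 (inv_ne_zero (pow_ne_zero _ hu0)), h1.2,
    order_inv _ (pow_ne_zero _ hu0), HahnSeries.order_pow] at h5
  have h6 : ((P.leadingCoeff.rootMultiplicity t0 : ℤ) - n) * u.order = 0 := by
    simp only [nsmul_eq_mul] at h5
    linear_combination h5
  have h7 := (mul_eq_zero.mp h6).resolve_right hw.ne'
  omega

theorem inf_degree (P : Polynomial (Polynomial k)) (w : LaurentSeries k)
    (hw : w.order < 0) (H : Multiset (LaurentSeries k)) (hH : ∀ h ∈ H, 0 ≤ h.order)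
    (hP : P.map (evL w) = C (evL w P.leadingCoeff) * (H.map fun h => X - C h).prod) (i : ℕ) :
    (P.coeff i).natDegree ≤ P.leadingCoeff.natDegree := by
  classical
  by_cases hc : P.coeff i = 0
  · rw [hc, Polynomial.natDegree_zero]
    exact Nat.zero_le _
  have hP0 : P ≠ 0 := by
    rintro rfl
    exact hc (Polynomial.coeff_zero i)
  have hq : P.leadingCoeff ≠ 0 := by
    rw [Ne, Polynomial.leadingCoeff_eq_zero]
    exact hP0
  have hint : ∃ Q' : Polynomial (PowerSeries k), Q'.map ofPS = (H.map fun h => X - C h).prod := by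
    clear hP
    induction H using Multiset.induction_on with
    | empty => exact ⟨1, by simp⟩
    | cons h H ih =>
      obtain ⟨Q', hQ'⟩ := ih fun a ha => hH a (Multiset.mem_cons_of_mem ha)
      obtain ⟨W, hW⟩ := exists_ofPS_of_order h (hH h (Multiset.mem_cons_self _ _))
      refine ⟨(X - C W) * Q', ?_⟩
      rw [Multiset.map_cons, Multiset.prod_cons, Polynomial.map_mul, hQ', Polynomial.map_sub,
        Polynomial.map_X, Polynomial.map_C, hW]
  obtain ⟨Q', hQ'⟩ := hint
  have h1 := congrArg (fun Q => Q.coeff i) hP
  simp only [Polynomial.coeff_map, Polynomial.coeff_C_mul] at h1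
  rw [← hQ', Polynomial.coeff_map] at h1
  have h2 := order_evL_inf (P.coeff i) hc w hw
  have h3 := order_evL_inf P.leadingCoeff hq w hw
  have h4 : ofPS (Q'.coeff i) ≠ 0 := by
    intro h
    rw [h, mul_zero] at h1
    exact h2.1 h1
  have h5 := congrArg HahnSeries.order h1
  rw [HahnSeries.order_mul h3.1 h4, h2.2, h3.2] at h5
  have h6 := order_ofPS_nonneg (Q'.coeff i)
  by_contra h7
  push Not at h7
  have h8 : ((P.leadingCoeff.natDegree : ℤ) + 1) ≤ (P.coeff i).natDegree := by exact_mod_cast h7
  nlinarith

end loc

end Pool.ML
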