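import Pool.Agent.ML61.IndexDer

/-!
# The multiplicity of a generic zero of a polynomial in two variables
-/

set_option linter.unusedSectionVars false
set_option linter.unusedSimpArgs false

namespace Pool.ML

open Polynomial Polynomial.Bivariate

section mult

variable {k : Type} [Field k]

/-- The derivative in the inner variable. -/
noncomputable def dT (P : Polynomial (Polynomial k)) : Polynomial (Polynomial k) :=
  Bivariate.swap (derivative (Bivariate.swap P))

theorem dT_add (P Q : Polynomial (Polynomial k)) : dT (P + Q) = dT P + dT Q := by
  simp only [dT, map_add, derivative_add]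

theorem dT_monomial (n m : ℕ) (r : k) : dT (monomial n (monomial m r)) =
    monomial n (monomial (m - 1) (r * m)) := by
  rw [dT, Bivariate.swap_monomial_monomial, derivative_monomial]
  have h1 : (monomial n r * (m : Polynomial k)) = monomial n (r * m) := by
    rw [← C_eq_natCast, monomial_mul_C]
  rw [h1, Bivariate.swap_monomial_monomial]

theorem derivative_dT (P : Polynomial (Polynomial k)) : derivative (dT P) = dT (derivative P) := by
  induction P using Polynomial.induction_on' with
  | add p q hp hq => rw [dT_add, derivative_add, hp, hq, derivative_add, dT_add]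
  | monomial n a =>
    induction a using Polynomial.induction_on' with
    | add p q hp hq => rw [map_add, dT_add, derivative_add, hp, hq, derivative_add, dT_add]
    | monomial m r =>
      have h1 : ∀ (a b : ℕ) (s : k), derivative (monomial a (monomial b s)) =
          monomial (a - 1) (monomial b (s * a)) := by
        intro a b s
        rw [derivative_monomial]
        congr 1
        rw [← C_eq_natCast, monomial_mul_C]
      rw [dT_monomial, h1, h1, dT_monomial]
      congr 2
      ring

theorem dT_iterate (P : Polynomial (Polynomial k)) (j : ℕ) :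
    Bivariate.swap (dT^[j] P) = derivative^[j] (Bivariate.swap P) := by
  induction j with
  | zero => rfl
  | succ j ih =>
    rw [Function.iterate_succ_apply', Function.iterate_succ_apply', dT,
      Bivariate.swap_swap_apply, ih]

theorem derivative_iter_dT (P : Polynomial (Polynomial k)) (i : ℕ) :
    derivative^[i] (dT P) = dT (derivative^[i] P) := by
  induction i with
  | zero => rfl
  | succ i ih =>
    rw [Function.iterate_succ_apply', Function.iterate_succ_apply', ih, derivative_dT]

variable [Algebra k ℂ]

/-- The value at `(t, c)`: `t` for the inner variable, `c` for the outer one. -/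
noncomputable def ev2 (t c : ℂ) (P : Polynomial (Polynomial k)) : ℂ :=
  (P.map (aeval t : Polynomial k →ₐ[k] ℂ).toRingHom).eval c

theorem ev2_add (t c : ℂ) (P Q : Polynomial (Polynomial k)) :
    ev2 t c (P + Q) = ev2 t c P + ev2 t c Q := by
  simp only [ev2, Polynomial.map_add, eval_add]

theorem ev2_monomial (t c : ℂ) (n m : ℕ) (r : k) :
    ev2 t c (monomial n (monomial m r)) = algebraMap k ℂ r * t ^ m * c ^ n := by
  simp [ev2, aeval_monomial]

theorem ev2_swap (t c : ℂ) (P : Polynomial (Polynomial k)) :
    ev2 c t (Bivariate.swap P) = ev2 t c P := by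
  induction P using Polynomial.induction_on' with
  | add p q hp hq => rw [map_add, ev2_add, ev2_add, hp, hq]
  | monomial n a =>
    induction a using Polynomial.induction_on' with
    | add p q hp hq => rw [map_add, map_add, ev2_add, ev2_add, hp, hq]
    | monomial m r =>
      rw [Bivariate.swap_monomial_monomial, ev2_monomial, ev2_monomial]
      ring

theorem ev2_chain (D : Derivation k ℂ ℂ) (t c : ℂ) (P : Polynomial (Polynomial k)) :
    D (ev2 t c P) = ev2 t c (derivative P) * D c + ev2 t c (dT P) * D t := by
  induction P using Polynomial.induction_on' with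
  | add p q hp hq =>
    rw [ev2_add, map_add, hp, hq, derivative_add, dT_add, ev2_add, ev2_add]
    ring
  | monomial n a =>
    induction a using Polynomial.induction_on' with
    | add p q hp hq =>
      rw [map_add, ev2_add, map_add, hp, hq, derivative_add, dT_add, ev2_add, ev2_add]
      ring
    | monomial m r =>
      have h1 : ∀ (a b : ℕ) (s : k), derivative (monomial a (monomial b s)) =
          monomial (a - 1) (monomial b (s * a)) := by
        intro a b s
        rw [derivative_monomial]
        congr 1
        rw [← C_eq_natCast, monomial_mul_C]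
      rw [ev2_monomial, h1, dT_monomial, ev2_monomial, ev2_monomial, Derivation.leibniz,
        Derivation.leibniz, Derivation.leibniz_pow, Derivation.leibniz_pow,
        Derivation.map_algebraMap]
      simp only [smul_eq_mul, nsmul_eq_mul, map_mul, map_natCast, smul_zero, mul_zero, add_zero]
      ring

/-- vanishing of the outer derivatives implies vanishing of all of small order -/
theorem ev2_half (D : Derivation k ℂ ℂ) (t c : ℂ) (P : Polynomial (Polynomial k)) (ht : D t ≠ 0)
    (m : ℕ) (h : ∀ i < m, ev2 t c (derivative^[i] P) = 0) (j : ℕ) (hj : j < m) :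
    ev2 t c (dT^[j] P) = 0 := by
  have key : ∀ j i, i + j < m → ev2 t c (derivative^[i] (dT^[j] P)) = 0 := by
    intro j
    induction j with
    | zero => intro i hi; exact h i hi
    | succ j ih =>
      intro i hi
      have h1 := ev2_chain D t c (derivative^[i] (dT^[j] P))
      rw [ih i (by omega), map_zero] at h1
      have h2 := ih (i + 1) (by omega)
      rw [Function.iterate_succ_apply'] at h2
      rw [h2, zero_mul, zero_add] at h1
      rw [Function.iterate_succ_apply', derivative_iter_dT]
      exact (mul_eq_zero.mp h1.symm).resolve_right ht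
  exact key j 0 (by omega)

/-- The specialisation of the inner variable. -/
noncomputable def spec (t : ℂ) (P : Polynomial (Polynomial k)) : Polynomial ℂ :=
  P.map (aeval t : Polynomial k →ₐ[k] ℂ).toRingHom

theorem spec_ne_zero (t : ℂ) (ht : Transcendental k t) (P : Polynomial (Polynomial k))
    (hP : P ≠ 0) : spec t P ≠ 0 := by
  rw [spec, Ne, Polynomial.map_eq_zero_iff]
  · exact hP
  · exact transcendental_iff_injective.mp ht

theorem iterate_derivative_spec (t : ℂ) (P : Polynomial (Polynomial k)) (i : ℕ) :
    derivative^[i] (spec t P) = spec t (derivative^[i] P) := by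
  rw [spec, spec, ← Polynomial.iterate_derivative_map]

theorem isRoot_spec (t c : ℂ) (P : Polynomial (Polynomial k)) :
    (spec t P).IsRoot c ↔ ev2 t c P = 0 := Iff.rfl

/-- `t` is algebraic over `k(c)` if a polynomial vanishes at `(t, c)`, `c` transcendental. -/
theorem isAlgebraic_of_ev2 (t c : ℂ) (hc : Transcendental k c) (P : Polynomial (Polynomial k))
    (hP : P ≠ 0) (h : ev2 t c P = 0) : IsAlgebraic (IntermediateField.adjoin k {c}) t := by
  have h1 : spec c (Bivariate.swap P) ≠ 0 := by
    apply spec_ne_zero c hc
    intro h2
    apply hP
    have h3 := congrArg Bivariate.swap h2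
    rwa [Bivariate.swap_swap_apply, map_zero] at h3
  have h2 : (spec c (Bivariate.swap P)).IsRoot t := by
    rw [isRoot_spec, ev2_swap]
    exact h
  let K := IntermediateField.adjoin k {c}
  let c' : K := ⟨c, IntermediateField.mem_adjoin_simple_self k c⟩
  let Q : Polynomial K := (Bivariate.swap P).map (aeval c' : Polynomial k →ₐ[k] K).toRingHom
  have hQ : Q.map (algebraMap K ℂ) = spec c (Bivariate.swap P) := by
    rw [spec, Polynomial.map_map]
    congr 1
    ext
    · simp
    · simp [c']
  refine ⟨Q, ?_, ?_⟩
  · intro h3
    rw [h3, Polynomial.map_zero] at hQ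
    exact h1 hQ.symm
  · rw [Polynomial.aeval_def, ← Polynomial.eval_map, hQ]
    exact h2

theorem mult_symm (P : Polynomial (Polynomial k)) (hP : P ≠ 0) (t c : ℂ)
    (ht : Transcendental k t) (hc : Transcendental k c) :
    (spec t P).rootMultiplicity c = (spec c (Bivariate.swap P)).rootMultiplicity t := by
  have hS : Bivariate.swap P ≠ 0 := by
    intro h2
    apply hP
    have h3 := congrArg Bivariate.swap h2
    rwa [Bivariate.swap_swap_apply, map_zero] at h3
  have h1 := spec_ne_zero t ht P hP
  have h2 := spec_ne_zero c hc _ hS
  by_cases h0 : ev2 t c P = 0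
  swap
  · rw [Polynomial.rootMultiplicity_eq_zero, Polynomial.rootMultiplicity_eq_zero]
    · rw [isRoot_spec, ev2_swap]; exact h0
    · rw [isRoot_spec]; exact h0
  obtain ⟨D, hD⟩ := exists_kderivation t ht
  have hDt : D t ≠ 0 := by rw [hD]; exact one_ne_zero
  have hDc : D c ≠ 0 := by
    intro h3
    exact hDt (kderivation_eq_zero D c t h3 (isAlgebraic_of_ev2 t c hc P hP h0))
  have e1 : ∀ n, n < (spec t P).rootMultiplicity c ↔
      ∀ i ≤ n, ev2 t c (derivative^[i] P) = 0 := by
    intro n
    rw [Polynomial.lt_rootMultiplicity_iff_isRoot_iterate_derivative h1]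
    refine forall₂_congr fun i _ => ?_
    rw [iterate_derivative_spec, isRoot_spec]
  have e2 : ∀ n, n < (spec c (Bivariate.swap P)).rootMultiplicity t ↔
      ∀ i ≤ n, ev2 t c (dT^[i] P) = 0 := by
    intro n
    rw [Polynomial.lt_rootMultiplicity_iff_isRoot_iterate_derivative h2]
    refine forall₂_congr fun i _ => ?_
    rw [iterate_derivative_spec, isRoot_spec, ← dT_iterate, ev2_swap]
  have e3 : ∀ n, (∀ i ≤ n, ev2 t c (derivative^[i] P) = 0) ↔
      (∀ i ≤ n, ev2 t c (dT^[i] P) = 0) := by
    intro n
    constructor
    · intro h i hi
      exact ev2_half D t c P hDt (n + 1) (fun i hi => h i (by omega)) i (by omega)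
    · intro h i hi
      have h3 := ev2_half D c t (Bivariate.swap P) hDc (n + 1) (fun j hj => by
        rw [← dT_iterate, ev2_swap]
        exact h j (by omega)) i (by omega)
      have h4 : Bivariate.swap (dT^[i] (Bivariate.swap P)) = derivative^[i] P := by
        rw [dT_iterate, Bivariate.swap_swap_apply]
      rw [← h4, ev2_swap]
      exact h3
  apply le_antisymm
  · by_contra h
    push Not at h
    have h3 := (e1 _).mp h
    rw [e3, ← e2] at h3
    exact lt_irrefl _ h3
  · by_contra h
    push Not at h
    have h3 := (e2 _).mp h
    rw [← e3, ← e1] at h3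
    exact lt_irrefl _ h3

end mult

end Pool.ML
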