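import Pool.Agent.ML61.Uniq
import Pool.Agent.ML61.Defs

/-!
# Matrices over the Laurent series and their limits
-/

set_option linter.unusedSectionVars false
set_option linter.unusedSimpArgs false

namespace Pool.ML

open Matrix

section scal

variable {k : Type} [Field k]

/-- The embedding of the power series into the Laurent series. -/
noncomputable def io (k : Type) [Field k] : PowerSeries k →+* LaurentSeries k :=
  HahnSeries.ofPowerSeries ℤ k

theorem io_injective : Function.Injective (io k) := HahnSeries.ofPowerSeries_injective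

theorem io_coeff_zero (p : PowerSeries k) :
    (io k p).coeff 0 = PowerSeries.constantCoeff p := by
  have h := HahnSeries.ofPowerSeries_apply_coeff (Γ := ℤ) p 0
  rw [Nat.cast_zero, PowerSeries.coeff_zero_eq_constantCoeff_apply] at h
  exact h

theorem exists_io (x : LaurentSeries k) (h : 0 ≤ x.order) : ∃ p, io k p = x := by
  obtain ⟨n, hn⟩ := Int.eq_ofNat_of_zero_le h
  refine ⟨PowerSeries.X ^ n * x.powerSeriesPart, ?_⟩
  have h1 := x.single_order_mul_powerSeriesPart
  rw [hn] at h1
  rw [map_mul, io, HahnSeries.ofPowerSeries_X_pow]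
  exact h1

theorem exists_io_unit (x : LaurentSeries k) (hx : x ≠ 0) (h : x.order = 0) :
    ∃ p, io k p = x ∧ PowerSeries.constantCoeff p ≠ 0 := by
  obtain ⟨p, hp⟩ := exists_io x h.ge
  refine ⟨p, hp, ?_⟩
  rw [← io_coeff_zero, hp, ← h]
  exact fun h1 => hx (HahnSeries.coeff_order_eq_zero.1 h1)

theorem exists_io_pos (x : LaurentSeries k) (h : 0 < x.order) :
    ∃ p, io k p = x ∧ PowerSeries.constantCoeff p = 0 := by
  obtain ⟨p, hp⟩ := exists_io x h.le
  refine ⟨p, hp, ?_⟩
  rw [← io_coeff_zero, hp]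
  exact HahnSeries.coeff_eq_zero_of_lt_order h

theorem exists_io_div (x y : LaurentSeries k) (hy : y ≠ 0) (h : x ≠ 0 → y.order ≤ x.order) :
    ∃ p, io k p = x / y := by
  by_cases hx : x = 0
  · exact ⟨0, by rw [map_zero, hx, zero_div]⟩
  · apply exists_io
    have h1 : x / y * y = x := div_mul_cancel₀ x hy
    have h2 : (x / y) ≠ 0 := div_ne_zero hx hy
    have h3 := HahnSeries.order_mul h2 hy
    rw [h1] at h3
    have h4 := h hx
    omega

end scal

variable {ρ σ κ : Type} [Fintype ρ] [Fintype σ] [Fintype κ]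
  [DecidableEq ρ] [DecidableEq σ] [DecidableEq κ]
variable {k : Type} [Field k]

theorem map_io_injective {I J : Type} : Function.Injective
    (fun M : Matrix I J (PowerSeries k) => M.map (io k)) := by
  intro M N h
  ext1 i j
  exact io_injective (congrFun (congrFun h i) j)

/-- Cramer's rule for the rows. -/
theorem vecMul_inv_apply {K : Type} [Field K] (C : Matrix ρ ρ K) (hC : C.det ≠ 0) (b : ρ → K)
    (l : ρ) : (b ᵥ* C⁻¹) l = (C.updateRow l b).det / C.det := by
  have h := Matrix.det_smul_inv_vecMul_eq_cramer_transpose C b (isUnit_iff_ne_zero.2 hC)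
  have h1 := congrFun h l
  rw [Pi.smul_apply, smul_eq_mul, Matrix.cramer_transpose_apply] at h1
  rw [eq_div_iff hC, mul_comm]
  exact h1

/-- The choice of rows. -/
theorem exists_rows (L : Matrix (ρ ⊕ σ) ρ (LaurentSeries k))
    (h : (L.submatrix Sum.inl id).det ≠ 0) :
    ∃ (e : (ρ ⊕ σ) ≃ (ρ ⊕ σ)) (A : Matrix σ ρ (PowerSeries k)),
      (L.submatrix (e ∘ Sum.inl) id).det ≠ 0 ∧
      L.submatrix e id = (LA A).map (io k) * L.submatrix (e ∘ Sum.inl) id := by
  classical
  obtain ⟨a, ha, hmin⟩ := Finset.exists_min_image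
    (Finset.univ.filter fun a : ρ → ρ ⊕ σ => (L.submatrix a id).det ≠ 0)
    (fun a => ((L.submatrix a id).det).order)
    ⟨Sum.inl, by rw [Finset.mem_filter]; exact ⟨Finset.mem_univ _, h⟩⟩
  rw [Finset.mem_filter] at ha
  have haC := ha.2
  have hinj : Function.Injective a := by
    intro i j hij
    by_contra hne
    apply haC
    exact Matrix.det_zero_of_row_eq hne (by funext l; simp [hij])
  obtain ⟨e, he⟩ := exists_perm_extend a hinj
  have he' : e ∘ Sum.inl = a := funext he
  set C : Matrix ρ ρ (LaurentSeries k) := L.submatrix a id with hC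
  have hint : ∀ i l, ∃ p, io k p = (L * C⁻¹) i l := by
    intro i l
    have h1 : (L * C⁻¹) i l = ((L i) ᵥ* C⁻¹) l := rfl
    rw [h1, vecMul_inv_apply C haC]
    have h2 : C.updateRow l (L i) = L.submatrix (Function.update a l i) id := by
      ext1 s t
      rw [Matrix.updateRow_apply, Matrix.submatrix_apply, Function.update_apply]
      split_ifs <;> rfl
    rw [h2]
    apply exists_io_div _ _ haC
    intro h3
    exact hmin _ (by rw [Finset.mem_filter]; exact ⟨Finset.mem_univ _, h3⟩)
  choose q hq using hint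
  have hCC : C * C⁻¹ = 1 := Matrix.mul_nonsing_inv _ (isUnit_iff_ne_zero.2 haC)
  have hCC' : C⁻¹ * C = 1 := Matrix.nonsing_inv_mul _ (isUnit_iff_ne_zero.2 haC)
  refine ⟨e, Matrix.of fun t l => q (e (Sum.inr t)) l, ?_, ?_⟩
  · rw [he']
    exact haC
  · rw [he', ← hC]
    have h1 : (LA (Matrix.of fun t l => q (e (Sum.inr t)) l)).map (io k) =
        (L * C⁻¹).submatrix e id := by
      ext1 i l
      rcases i with i | t
      · have h2 : (L * C⁻¹) (a i) l = (C * C⁻¹) i l := by
          rw [Matrix.mul_apply, Matrix.mul_apply]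
          rfl
        rw [Matrix.submatrix_apply, he, id_eq, h2, hCC]
        simp [LA, Matrix.one_apply, apply_ite (io k)]
      · rw [Matrix.submatrix_apply, id_eq, ← hq]
        rfl
    rw [h1]
    have h3 : (L * C⁻¹).submatrix e id * C = (L * C⁻¹ * C).submatrix e id := by
      ext1 i l
      rw [Matrix.mul_apply, Matrix.submatrix_apply, Matrix.mul_apply]
      rfl
    rw [h3, Matrix.mul_assoc, hCC', Matrix.mul_one]

/-- The limit of a solution. -/
theorem limit_sol (X : Matrix (ρ ⊕ σ) (ρ ⊕ κ) (LaurentSeries k))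
    (P g : Matrix (ρ ⊕ σ) (ρ ⊕ κ) (PowerSeries k)) (hP : pmat X = P.map (io k))
    (hg : gmat X = g.map (io k)) :
    ∃ (e : (ρ ⊕ σ) ≃ (ρ ⊕ σ)) (A : Matrix σ ρ (PowerSeries k)),
      P.submatrix e id = LA A * P.submatrix (e ∘ Sum.inl) id ∧
      g.submatrix e id = NA A * g.submatrix (e ∘ Sum.inr) id ∧
      P.submatrix (e ∘ Sum.inl) id * (g.submatrix (e ∘ Sum.inr) id)ᵀ = 0 := by
  obtain ⟨e, A, hC, hA⟩ := exists_rows (Lm X) (by
    have h1 : (Lm X).submatrix Sum.inl id = 1 := by
      ext1 i l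
      simp [Lm]
    rw [h1, Matrix.det_one]
    exact one_ne_zero)
  set C := (Lm X).submatrix (e ∘ Sum.inl) id with hCdef
  have hsub : ∀ {I J N I' : Type} [Fintype N] (M : Matrix I N (LaurentSeries k))
      (M' : Matrix N J (LaurentSeries k)) (f : I' → I),
      (M * M').submatrix f id = M.submatrix f id * M' := by
    intro I J N I' _ M M' f
    ext1 i j
    rw [Matrix.submatrix_apply, Matrix.mul_apply, Matrix.mul_apply]
    rfl
  refine ⟨e, A, ?_, ?_, ?_⟩
  · apply map_io_injective
    change (P.submatrix e id).map (io k) = (LA A * P.submatrix (e ∘ Sum.inl) id).map (io k)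
    rw [Matrix.map_mul]
    have h1 : (P.submatrix e id).map (io k) = (pmat X).submatrix e id := by
      rw [hP]; rfl
    have h2 : (P.submatrix (e ∘ Sum.inl) id).map (io k) =
        (pmat X).submatrix (e ∘ Sum.inl) id := by
      rw [hP]; rfl
    rw [h1, h2, pmat, Matrix.mul_assoc, hsub, hsub, hA, ← hCdef]
    simp only [Matrix.mul_assoc]
  · have h1 : (LA A)ᵀ * g.submatrix e id = 0 := by
      apply map_io_injective
      change ((LA A)ᵀ * g.submatrix e id).map (io k) = (0 : Matrix _ _ _).map (io k)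
      rw [Matrix.map_mul]
      have h2 : (g.submatrix e id).map (io k) = (gmat X).submatrix e id := by
        rw [hg]; rfl
      have h3 : ((Lm X).submatrix e id)ᵀ * (gmat X).submatrix e id = 0 := by
        have h4 : (Lm X)ᵀ * gmat X = 0 := by
          rw [gmat, ← Matrix.mul_assoc, ← Matrix.mul_assoc, Lm_transpose_mul_Nm,
            Matrix.zero_mul, Matrix.zero_mul]
        rw [← h4]
        ext1 i j
        rw [Matrix.mul_apply, Matrix.mul_apply]
        exact Equiv.sum_comp e (fun x => (Lm X)ᵀ i x * gmat X x j)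
      rw [h2]
      rw [hA, Matrix.transpose_mul, Matrix.mul_assoc] at h3
      have hCt : IsUnit (Cᵀ).det := by
        rw [Matrix.det_transpose]
        exact isUnit_iff_ne_zero.2 hC
      have h5 := congrArg (fun M => (Cᵀ)⁻¹ * M) h3
      simp only [Matrix.mul_zero] at h5
      rw [← Matrix.mul_assoc, Matrix.nonsing_inv_mul _ hCt, Matrix.one_mul] at h5
      rw [Matrix.map_zero _ (map_zero _)]
      exact h5
    ext1 i j
    rcases i with i | i
    · have h2 := congrFun (congrFun h1 i) j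
      rw [Matrix.mul_apply, Fintype.sum_sum_type] at h2
      have h3 : ∀ x, (LA A)ᵀ i (Sum.inl x) = if x = i then 1 else 0 := by
        intro x
        simp [LA, Matrix.one_apply]
      have h4 : ∀ x, (LA A)ᵀ i (Sum.inr x) = A x i := by
        intro x
        simp [LA]
      simp only [h3, h4, ite_mul, one_mul, zero_mul, Finset.sum_ite_eq', Finset.mem_univ,
        if_true, Matrix.zero_apply] at h2
      rw [eq_neg_of_add_eq_zero_left h2, Matrix.mul_apply, ← Finset.sum_neg_distrib]
      refine Finset.sum_congr rfl fun x _ => ?_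
      simp [NA]
    · rw [Matrix.mul_apply]
      have h3 : ∀ x, (NA A) (Sum.inr i) x = if i = x then 1 else 0 := by
        intro x
        simp [NA, Matrix.one_apply]
      simp only [h3, ite_mul, one_mul, zero_mul, Finset.sum_ite_eq, Finset.mem_univ, if_true]
      rfl
  · have h1 : P * gᵀ = 0 := by
      apply map_io_injective
      change (P * gᵀ).map (io k) = (0 : Matrix _ _ _).map (io k)
      rw [Matrix.map_mul, Matrix.map_zero _ (map_zero _), ← pmat_mul_gmat_transpose X, hP, hg]
      rfl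
    ext1 i j
    have h2 := congrFun (congrFun h1 (e (Sum.inl i))) (e (Sum.inr j))
    rw [Matrix.mul_apply] at h2 ⊢
    exact h2

/-- The chart has integral coordinates as soon as the leading block of the limit is
invertible. -/
theorem limit_chart (X : Matrix (ρ ⊕ σ) (ρ ⊕ κ) (LaurentSeries k))
    (P g : Matrix (ρ ⊕ σ) (ρ ⊕ κ) (PowerSeries k)) (hP : pmat X = P.map (io k))
    (hg : gmat X = g.map (io k)) (hdet : PowerSeries.constantCoeff P.toBlocks₁₁.det ≠ 0) :
    ∃ X' : Matrix (ρ ⊕ σ) (ρ ⊕ κ) (PowerSeries k), X'.map (io k) = X := by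
  have hU : IsUnit P.toBlocks₁₁.det := by
    rw [PowerSeries.isUnit_iff_constantCoeff]
    exact isUnit_iff_ne_zero.2 hdet
  have h11 : P.toBlocks₁₁.map (io k) = X.toBlocks₁₁ := by
    have h1 := congrArg Matrix.toBlocks₁₁ hP
    rw [pmat_eq_fromBlocks, Matrix.toBlocks_fromBlocks₁₁] at h1
    exact h1.symm
  have h12 : P.toBlocks₁₂.map (io k) = X.toBlocks₁₁ * X.toBlocks₁₂ := by
    have h1 := congrArg Matrix.toBlocks₁₂ hP
    rw [pmat_eq_fromBlocks, Matrix.toBlocks_fromBlocks₁₂] at h1
    exact h1.symm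
  have h21 : P.toBlocks₂₁.map (io k) = X.toBlocks₂₁ * X.toBlocks₁₁ := by
    have h1 := congrArg Matrix.toBlocks₂₁ hP
    rw [pmat_eq_fromBlocks, Matrix.toBlocks_fromBlocks₂₁] at h1
    exact h1.symm
  have h22 : g.toBlocks₂₂.map (io k) = X.toBlocks₂₂ := by
    have h1 := congrArg Matrix.toBlocks₂₂ hg
    rw [gmat_eq_fromBlocks, Matrix.toBlocks_fromBlocks₂₂] at h1
    exact h1.symm
  have hU' : IsUnit X.toBlocks₁₁.det := by
    rw [← h11, ← RingHom.mapMatrix_apply, ← RingHom.map_det]
    exact hU.map _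
  refine ⟨Matrix.fromBlocks P.toBlocks₁₁ (P.toBlocks₁₁⁻¹ * P.toBlocks₁₂)
    (P.toBlocks₂₁ * P.toBlocks₁₁⁻¹) g.toBlocks₂₂, ?_⟩
  rw [Matrix.fromBlocks_map, h11, h22]
  conv_rhs => rw [← Matrix.fromBlocks_toBlocks X]
  congr 1
  · have h1 : X.toBlocks₁₁ * (P.toBlocks₁₁⁻¹ * P.toBlocks₁₂).map (io k) =
        X.toBlocks₁₁ * X.toBlocks₁₂ := by
      rw [← h11, ← Matrix.map_mul, ← Matrix.mul_assoc, Matrix.mul_nonsing_inv _ hU,
        Matrix.one_mul, h12, h11]
    have h2 := congrArg (fun M => X.toBlocks₁₁⁻¹ * M) h1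
    rw [← Matrix.mul_assoc, ← Matrix.mul_assoc, Matrix.nonsing_inv_mul _ hU', Matrix.one_mul,
      Matrix.one_mul] at h2
    exact h2
  · have h1 : (P.toBlocks₂₁ * P.toBlocks₁₁⁻¹).map (io k) * X.toBlocks₁₁ =
        X.toBlocks₂₁ * X.toBlocks₁₁ := by
      rw [← h11, ← Matrix.map_mul, Matrix.mul_assoc, Matrix.nonsing_inv_mul _ hU,
        Matrix.mul_one, h21, h11]
    have h2 := congrArg (fun M => M * X.toBlocks₁₁⁻¹) h1
    rw [Matrix.mul_assoc, Matrix.mul_assoc, Matrix.mul_nonsing_inv _ hU', Matrix.mul_one,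
      Matrix.mul_one] at h2
    exact h2

/-- If all entries of `pmat X` are units, then `pmat X` and `gmat X` are integral. -/
theorem exists_int (X : Matrix (ρ ⊕ σ) (ρ ⊕ κ) (LaurentSeries k))
    (D : Matrix (ρ ⊕ σ) (ρ ⊕ κ) (PowerSeries k)) (hD : psi X = D.map (io k))
    (hne : ∀ i j, pmat X i j ≠ 0) (h0 : ∀ i j, (pmat X i j).order = 0) :
    ∃ P g : Matrix (ρ ⊕ σ) (ρ ⊕ κ) (PowerSeries k), pmat X = P.map (io k) ∧
      gmat X = g.map (io k) ∧ ∀ i j, PowerSeries.constantCoeff (P i j) ≠ 0 := by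
  have h1 : ∀ i j, ∃ p, io k p = pmat X i j ∧ PowerSeries.constantCoeff p ≠ 0 :=
    fun i j => exists_io_unit _ (hne i j) (h0 i j)
  choose p hp hp0 using h1
  refine ⟨Matrix.of p, Matrix.of fun i j => D i j * (p i j)⁻¹ - 1, ?_, ?_, hp0⟩
  · ext1 i j
    exact (hp i j).symm
  · ext1 i j
    have h2 := congrFun (congrFun hD i) j
    rw [psi, Matrix.of_apply, Matrix.map_apply] at h2
    rw [Matrix.map_apply, Matrix.of_apply, map_sub, map_mul, map_one, ← h2]
    have h3 : io k (p i j) * io k ((p i j)⁻¹) = 1 := by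
      rw [← map_mul, PowerSeries.mul_inv_cancel _ (hp0 i j), map_one]
    rw [hp i j] at h3
    have h4 : pmat X i j * (1 + gmat X i j) * io k ((p i j)⁻¹) =
        (pmat X i j * io k ((p i j)⁻¹)) * (1 + gmat X i j) := by ring
    rw [h4, h3]
    ring

end Pool.ML
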