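import Pool.Agent.ML61.Fib
import Pool.Agent.ML14.VeryGeneral

/-!
# A line through the special data in a generic direction
-/

set_option linter.unusedSectionVars false
set_option linter.unusedSimpArgs false

namespace Pool.ML

open Matrix

/-- Algebraic independence is invariant under automorphisms. -/
theorem algInd_map {ι : Type} {x : ι → ℂ} (hx : AlgebraicIndependent ℚ x) (φ : ℂ ≃+* ℂ) :
    AlgebraicIndependent ℚ (fun i => φ (x i)) :=
  hx.map' (f := (φ : ℂ →+* ℂ).toRatAlgHom) φ.injective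

theorem encard_PCrit_le_of_alg {I J : Type} [Fintype I] [Fintype J] {r : ℕ}
    (v d : Matrix I J ℂ) (hv : Alg v) (hd : Alg d) :
    {P | PCrit r v P}.encard ≤ {P | PCrit r d P}.encard := by
  obtain ⟨φ, hφ⟩ := exists_autom _ _ hv hd
  have h1 : v.map φ = d := by
    ext1 i j
    exact hφ (i, j)
  refine Set.encard_le_encard_of_injOn (f := fun P => P.map φ) ?_ ?_
  · intro P hP
    have h2 : PCrit r v P := hP
    have h3 := h2.map φ
    rw [h1] at h3
    exact h3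
  · intro P _ Q _ h
    ext1 i j
    exact φ.injective (congrFun (congrFun h i) j)

theorem encard_PCrit_eq_of_alg {I J : Type} [Fintype I] [Fintype J] {r : ℕ}
    (v d : Matrix I J ℂ) (hv : Alg v) (hd : Alg d) :
    {P | PCrit r v P}.encard = {P | PCrit r d P}.encard :=
  le_antisymm (encard_PCrit_le_of_alg v d hv hd) (encard_PCrit_le_of_alg d v hd hv)

variable {ρ σ κ ε : Type} [Fintype ρ] [Fintype σ] [Fintype κ] [Fintype ε]
  [DecidableEq ρ] [DecidableEq σ] [DecidableEq κ] [DecidableEq ε]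

/-- The coordinates of the chart are algebraic over the data. -/
theorem mem_acl_of_psi_eq (X d : Matrix (ρ ⊕ σ) (ρ ⊕ κ) ℂ) (hd : Alg d) (h : psi X = d)
    (i : ρ ⊕ σ) (j : ρ ⊕ κ) :
    X i j ∈ acl (Set.range fun a : (ρ ⊕ σ) × (ρ ⊕ κ) => d a.1 a.2) := by
  have h1 := algInd_of_acl (fun a : (ρ ⊕ σ) × (ρ ⊕ κ) => d a.1 a.2)
    (fun a : (ρ ⊕ σ) × (ρ ⊕ κ) => X a.1 a.2) hd (by
      intro a
      have h2 : d a.1 a.2 ∈ Algebra.adjoin ℚ
          (Set.range fun a : (ρ ⊕ σ) × (ρ ⊕ κ) => X a.1 a.2) := by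
        rw [Algebra.adjoin_range_eq_range_aeval]
        refine ⟨psi (gen ρ σ κ) a.1 a.2, ?_⟩
        rw [← h]
        conv_rhs => rw [← gen_map_aeval X, psi_map]
        rfl
      have h3 : Algebra.adjoin ℚ (Set.range fun a : (ρ ⊕ σ) × (ρ ⊕ κ) => X a.1 a.2) ≤
          (acl (Set.range fun a : (ρ ⊕ σ) × (ρ ⊕ κ) => X a.1 a.2)).toSubalgebra :=
        Algebra.adjoin_le (subset_acl _)
      exact h3 h2) le_rfl
  exact h1.2 (i, j)

theorem exists_line {u : Matrix (ρ ⊕ σ) (ρ ⊕ κ) ℂ} {w : ρ ⊕ σ → ℂ} {c : ε → ℂ}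
    (hS : SAlg u w c) (v : Matrix (ρ ⊕ σ) (ρ ⊕ (κ ⊕ ε)) ℂ) (hv : Alg v) :
    ∃ (T : Set ℂ) (s : ℂ) (v' : Matrix (ρ ⊕ σ) (ρ ⊕ (κ ⊕ ε)) ℂ),
      (∀ i j, sdat u w c i j ∈ acl T) ∧ (∀ i j, v' i j ∈ acl T) ∧ Transcendental (acl T) s ∧
      Alg (sdat u w c + s • v') ∧
      (∀ X : Matrix (ρ ⊕ σ) (ρ ⊕ (κ ⊕ ε)) ℂ, X.toBlocks₁₁.det ≠ 0 →
        (∀ i j, pmat X i j ≠ 0) → psi X = sdat u w c + s • v' →
        ∀ i j, IsAlgebraic (IntermediateField.adjoin (acl T) {s}) (X i j)) ∧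
      {P | PCrit (Fintype.card ρ) v P}.encard =
        {P | PCrit (Fintype.card ρ) (sdat u w c + s • v') P}.encard := by
  obtain ⟨x, -, hx⟩ := exists_algInd
    (ι := (((ρ ⊕ σ) × (ρ ⊕ κ)) ⊕ ((ρ ⊕ σ) ⊕ ε)) ⊕ (Unit ⊕ ((ρ ⊕ σ) × (ρ ⊕ (κ ⊕ ε)))))
    Set.univ isOpen_univ ⟨0, trivial⟩
  obtain ⟨φ, hφ⟩ := exists_autom (x ∘ Sum.inl) _ (hx.comp Sum.inl Sum.inl_injective) hS
  have hz := algInd_map hx φ
  set z := fun i => φ (x i) with hzdef
  have hzl : ∀ i, z (Sum.inl i) =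
      (Sum.elim (fun x : (ρ ⊕ σ) × (ρ ⊕ κ) => u x.1 x.2) (Sum.elim w c)) i := fun i => hφ i
  set s := z (Sum.inr (Sum.inl ())) with hs
  set v' : Matrix (ρ ⊕ σ) (ρ ⊕ (κ ⊕ ε)) ℂ :=
    Matrix.of fun i j => z (Sum.inr (Sum.inr (i, j))) with hv'
  set x' := fun a : (((ρ ⊕ σ) × (ρ ⊕ κ)) ⊕ ((ρ ⊕ σ) ⊕ ε)) ⊕ ((ρ ⊕ σ) × (ρ ⊕ (κ ⊕ ε))) =>
    z (Sum.map id Sum.inr a) with hx'
  set T := Set.range x' with hT
  have hzT : ∀ i, z (Sum.inl i) ∈ acl T := fun i => subset_acl _ ⟨Sum.inl i, rfl⟩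
  have hD : ∀ S : Set ℂ, (∀ i, z (Sum.inl i) ∈ acl S) → ∀ i j, sdat u w c i j ∈ acl S := by
    intro S h i j
    have hu : ∀ i j, u i j ∈ acl S := by
      intro i j
      have h1 := h (Sum.inl (i, j))
      rw [hzl] at h1
      exact h1
    have hw : ∀ i, w i ∈ acl S := by
      intro i
      have h1 := h (Sum.inr (Sum.inl i))
      rw [hzl] at h1
      exact h1
    have hc : ∀ e, c e ∈ acl S := by
      intro e
      have h1 := h (Sum.inr (Sum.inr e))
      rw [hzl] at h1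
      exact h1
    rcases j with j | j | j
    · exact hu i _
    · exact hu i _
    · exact mul_mem (hc j) (hw i)
  have hsT : s ∉ acl T := by
    intro h
    have h1 := card_le_of_acl z x' hz (by
      intro i
      rcases i with i | i | i
      · exact hzT i
      · exact h
      · exact subset_acl _ ⟨Sum.inr i, rfl⟩)
    simp only [Fintype.card_sum, Fintype.card_unit] at h1
    omega
  have hs0 : s ≠ 0 := by
    intro h
    apply hsT
    rw [h]
    exact zero_mem _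
  set d := sdat u w c + s • v' with hd
  have hdij : ∀ i j, d i j = sdat u w c i j + s * v' i j := fun i j => rfl
  have hAlg : Alg d := by
    have h1 := algInd_of_acl z (Sum.elim (fun i => z (Sum.inl i))
      (Sum.elim (fun _ : Unit => s) (fun a : (ρ ⊕ σ) × (ρ ⊕ (κ ⊕ ε)) => d a.1 a.2))) hz (by
        set R := Set.range (Sum.elim (fun i => z (Sum.inl i))
          (Sum.elim (fun _ : Unit => s) (fun a : (ρ ⊕ σ) × (ρ ⊕ (κ ⊕ ε)) => d a.1 a.2))) with hR
        have hl : ∀ i, z (Sum.inl i) ∈ acl R := fun i => subset_acl _ ⟨Sum.inl i, rfl⟩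
        have hsR : s ∈ acl R := subset_acl _ ⟨Sum.inr (Sum.inl ()), rfl⟩
        intro i
        rcases i with i | i | i
        · exact hl i
        · exact hsR
        · have h2 : z (Sum.inr (Sum.inr i)) = (d i.1 i.2 - sdat u w c i.1 i.2) / s := by
            rw [hdij, add_sub_cancel_left, mul_div_cancel_left₀ _ hs0]
            rfl
          rw [h2]
          exact div_mem (sub_mem (subset_acl _ ⟨Sum.inr (Sum.inr i), rfl⟩)
            (hD R hl i.1 i.2)) hsR) le_rfl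
    exact h1.1.comp (fun a => Sum.inr (Sum.inr a))
      (Sum.inr_injective.comp Sum.inr_injective)
  refine ⟨T, s, v', hD T hzT, fun i j => subset_acl _ ⟨Sum.inr (i, j), rfl⟩,
    transcendental_of_notMem_acl hsT, hAlg, ?_, encard_PCrit_eq_of_alg v d hv hAlg⟩
  intro X _ _ hX i j
  apply isAlgebraic_adjoin_of_mem_acl
  have h1 := mem_acl_of_psi_eq X d hAlg hX i j
  refine acl_le ?_ h1
  rintro _ ⟨a, rfl⟩
  have h2 : acl T ≤ acl (insert s T) := acl_mono (Set.subset_insert s T)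
  have h3 : d a.1 a.2 = sdat u w c a.1 a.2 + s * v' a.1 a.2 := rfl
  rw [SetLike.mem_coe]
  change d a.1 a.2 ∈ acl (insert s T)
  rw [h3]
  exact add_mem (h2 (hD T hzT _ _)) (mul_mem (subset_acl _ (Set.mem_insert s T))
    (h2 (subset_acl _ ⟨Sum.inr (a.1, a.2), rfl⟩)))

end Pool.ML
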