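import Pool.Agent.ML61.NonDeg
import Pool.Agent.ML61.Line
import Pool.Agent.ML61.Lattice
import Pool.Agent.ML61.Val
import Pool.Agent.ML61.Place

/-!
# The special data have at least as many critical points as the generic ones
-/

set_option linter.unusedSectionVars false
set_option linter.unusedSimpArgs false

namespace Pool.ML

open Matrix

section salg

variable {I ν ε : Type} {u : Matrix I ν ℂ} {w : I → ℂ} {c : ε → ℂ}

theorem SAlg.rowPerm (hS : SAlg u w c) (e : I ≃ I) : SAlg (u.submatrix e id) (w ∘ e) c := by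
  have h1 := AlgebraicIndependent.comp hS
    (Sum.map (Prod.map e id) (Sum.map e id) : (I × ν) ⊕ (I ⊕ ε) → (I × ν) ⊕ (I ⊕ ε))
    ((e.injective.prodMap Function.injective_id).sumMap
      (e.injective.sumMap Function.injective_id))
  have h2 : (Sum.elim (fun x : I × ν => u x.1 x.2) (Sum.elim w c)) ∘
      (Sum.map (Prod.map e id) (Sum.map e id)) =
      Sum.elim (fun x : I × ν => u.submatrix e id x.1 x.2) (Sum.elim (w ∘ e) c) := by
    funext x
    rcases x with x | x | x <;> rfl
  rw [h2] at h1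
  exact h1

/-- The entries of the special data are linearly independent. -/
theorem SAlg.linInd (hS : SAlg u w c) :
    LinearIndependent ℚ (fun a : I × (ν ⊕ ε) => sdata u w c a.1 a.2) := by
  classical
  let m : I × (ν ⊕ ε) → ((I × ν) ⊕ (I ⊕ ε)) →₀ ℕ := fun a =>
    Sum.elim (fun b => Finsupp.single (Sum.inl (a.1, b)) 1)
      (fun e => Finsupp.single (Sum.inr (Sum.inr e)) 1 + Finsupp.single (Sum.inr (Sum.inl a.1)) 1)
      a.2
  have hm : Function.Injective m := by
    rintro ⟨i, b | e⟩ ⟨i', b' | e'⟩ h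
    · have h1 : Finsupp.single (Sum.inl (i, b) : (I × ν) ⊕ (I ⊕ ε)) 1 =
        Finsupp.single (Sum.inl (i', b')) 1 := h
      have h2 := Finsupp.single_left_injective (one_ne_zero (α := ℕ)) h1
      simp only [Sum.inl.injEq, Prod.mk.injEq] at h2
      rw [h2.1, h2.2]
    · exfalso
      have h1 := DFunLike.congr_fun h (Sum.inl (i, b))
      simp [m, Finsupp.single_apply] at h1
    · exfalso
      have h1 := DFunLike.congr_fun h (Sum.inl (i', b'))
      simp [m, Finsupp.single_apply] at h1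
    · have h1 := DFunLike.congr_fun h (Sum.inr (Sum.inl i))
      have h2 := DFunLike.congr_fun h (Sum.inr (Sum.inr e))
      simp [m, Finsupp.single_apply] at h1 h2
      rw [h1, h2]
  have h1 : LinearIndependent ℚ (fun a => MvPolynomial.monomial (m a) (1 : ℚ)) := by
    have h2 := (MvPolynomial.basisMonomials ((I × ν) ⊕ (I ⊕ ε)) ℚ).linearIndependent.comp m hm
    have h3 : (MvPolynomial.basisMonomials ((I × ν) ⊕ (I ⊕ ε)) ℚ) ∘ m =
        fun a => MvPolynomial.monomial (m a) (1 : ℚ) := by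
      funext a
      simp
    rw [h3] at h2
    exact h2
  have h4 := h1.map' (MvPolynomial.aeval
    (Sum.elim (fun x : I × ν => u x.1 x.2) (Sum.elim w c))).toLinearMap
    (LinearMap.ker_eq_bot.2 hS)
  have h5 : (MvPolynomial.aeval
      (Sum.elim (fun x : I × ν => u x.1 x.2) (Sum.elim w c))).toLinearMap ∘
      (fun a => MvPolynomial.monomial (m a) (1 : ℚ)) =
      fun a : I × (ν ⊕ ε) => sdata u w c a.1 a.2 := by
    funext a
    rcases a with ⟨i, b | e⟩
    · simp [m, sdata, MvPolynomial.aeval_monomial]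
    · simp only [m, sdata, Function.comp_apply, AlgHom.toLinearMap_apply,
        MvPolynomial.aeval_monomial, map_one, one_mul, Sum.elim_inr, Matrix.of_apply]
      rw [Finsupp.prod_add_index' (by simp) (by simp [pow_add])]
      simp
  rw [h5] at h4
  exact h4

end salg

variable {ρ σ κ ε : Type} [Fintype ρ] [Fintype σ] [Fintype κ] [Fintype ε]
  [DecidableEq ρ] [DecidableEq σ] [DecidableEq κ] [DecidableEq ε]

theorem sdat_linInd {u : Matrix (ρ ⊕ σ) (ρ ⊕ κ) ℂ} {w : ρ ⊕ σ → ℂ} {c : ε → ℂ}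
    (hS : SAlg u w c) :
    LinearIndependent ℚ (fun a : (ρ ⊕ σ) × (ρ ⊕ (κ ⊕ ε)) => sdat u w c a.1 a.2) := by
  have h1 := hS.linInd
  exact h1.comp (Prod.map id (Equiv.sumAssoc ρ κ ε).symm)
    (Function.injective_id.prodMap (Equiv.sumAssoc ρ κ ε).symm.injective)

/-- The entries of `pmat X` have order zero. -/
theorem pmat_order {k : Type} [Field k] [CharZero k] [Algebra ℚ k]
    (X : Matrix (ρ ⊕ σ) (ρ ⊕ κ) (LaurentSeries k)) (D : Matrix (ρ ⊕ σ) (ρ ⊕ κ) (PowerSeries k))
    (hD : psi X = D.map (io k))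
    (hlin : LinearIndependent ℚ
      (fun a : (ρ ⊕ σ) × (ρ ⊕ κ) => PowerSeries.constantCoeff (D a.1 a.2))) :
    ∀ i j, pmat X i j ≠ 0 ∧ (pmat X i j).order = 0 := by
  have h := val_zero (Lm X) (X.toBlocks₁₁ * Um X) (gmat X) D
    (by
      have h1 : (Nm X)ᵀ * Lm X = 0 := by
        rw [← Matrix.transpose_transpose (Lm X), ← Matrix.transpose_mul, Lm_transpose_mul_Nm,
          Matrix.transpose_zero]
      rw [gmat, Matrix.transpose_mul, Matrix.transpose_mul, Matrix.mul_assoc, Matrix.mul_assoc,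
        h1, Matrix.mul_zero, Matrix.mul_zero])
    (by
      rw [gmat, Matrix.transpose_mul, Matrix.mul_assoc, ← Matrix.mul_assoc (Um X),
        Um_mul_Vm_transpose, Matrix.zero_mul, Matrix.mul_zero])
    (by
      intro i j
      rw [← Matrix.mul_assoc]
      exact congrFun (congrFun hD i) j)
    hlin
  rw [← Matrix.mul_assoc] at h
  exact h

theorem rank_LA_mul {J : Type} [Fintype J] (A : Matrix σ ρ ℂ) (y : Matrix ρ J ℂ)
    (h : y.rank = Fintype.card ρ) : (LA A * y).rank = Fintype.card ρ := by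
  apply le_antisymm
  · exact le_trans (Matrix.rank_mul_le_left _ _) (Matrix.rank_le_card_width _)
  · have h1 : (Matrix.fromCols (1 : Matrix ρ ρ ℂ) (0 : Matrix ρ σ ℂ)) * (LA A * y) = y := by
      rw [← Matrix.mul_assoc, LA, Matrix.fromCols_mul_fromRows]
      simp
    calc Fintype.card ρ = y.rank := h.symm
      _ = ((Matrix.fromCols (1 : Matrix ρ ρ ℂ) (0 : Matrix ρ σ ℂ)) * (LA A * y)).rank := by
        rw [h1]
      _ ≤ (LA A * y).rank := Matrix.rank_mul_le_right _ _

/-- **The limit of a critical point.** -/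
theorem spec_point {k : Type} [Field k] (f : k →+* ℂ) {u : Matrix (ρ ⊕ σ) (ρ ⊕ κ) ℂ}
    {w : ρ ⊕ σ → ℂ} {c : ε → ℂ} (hS : SAlg u w c) (hc : Ample ρ σ (ρ ⊕ κ) ε)
    (X : Matrix (ρ ⊕ σ) (ρ ⊕ (κ ⊕ ε)) (LaurentSeries k))
    (D : Matrix (ρ ⊕ σ) (ρ ⊕ (κ ⊕ ε)) (PowerSeries k)) (hD : psi X = D.map (io k))
    (hD0 : ∀ i j, f (PowerSeries.constantCoeff (D i j)) = sdat u w c i j)
    (hne : ∀ i j, pmat X i j ≠ 0) (h0 : ∀ i j, (pmat X i j).order = 0) :
    ∃ X' : Matrix (ρ ⊕ σ) (ρ ⊕ (κ ⊕ ε)) (PowerSeries k), X'.map (io k) = X ∧ psi X' = D ∧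
      (X'.map (f.comp (PowerSeries.constantCoeff (R := k)))).toBlocks₁₁.det ≠ 0 ∧
      (∀ i j, pmat (X'.map (f.comp (PowerSeries.constantCoeff (R := k)))) i j ≠ 0) ∧
      psi (X'.map (f.comp (PowerSeries.constantCoeff (R := k)))) = sdat u w c := by
  obtain ⟨P, g, hP, hg, hP0⟩ := exists_int X D hD hne h0
  obtain ⟨e, A, h1, h2, h3⟩ := limit_sol X P g hP hg
  set ψ : PowerSeries k →+* ℂ := f.comp (PowerSeries.constantCoeff (R := k)) with hψ
  have hPne : ∀ i j, P.map ψ i j ≠ 0 := by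
    intro i j
    rw [Matrix.map_apply, hψ, RingHom.comp_apply]
    exact (map_ne_zero f).2 (hP0 i j)
  have hPD : ∀ i j, P i j * (1 + g i j) = D i j := by
    intro i j
    apply io_injective
    rw [map_mul, map_add, map_one]
    have h4 := congrFun (congrFun hD i) j
    rw [psi, Matrix.of_apply, hP, hg] at h4
    exact h4
  have hPD' : ∀ i j, P.map ψ i j * (1 + g.map ψ i j) = sdat u w c i j := by
    intro i j
    rw [← hD0, ← hPD i j, map_mul, map_mul, map_add, map_add, map_one, map_one]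
    rfl
  have hG : G (sdat u w c) (P.map ψ) = g.map ψ := by
    ext1 i j
    rw [G, Matrix.of_apply, ← hPD' i j, mul_div_cancel_left₀ _ (hPne i j)]
    ring
  -- the limit in the chosen rows
  have hsol : Sol (u.submatrix e id) (w ∘ e) c (A.map ψ)
      (((P.submatrix (e ∘ Sum.inl) id).map ψ).submatrix id (Equiv.sumAssoc ρ κ ε))
      (((g.submatrix (e ∘ Sum.inr) id).map ψ).submatrix id (Equiv.sumAssoc ρ κ ε)) := by
    constructor
    · have h4 := congrArg (fun M => M.map ψ) h3
      simp only [Matrix.map_mul] at h4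
      rw [Matrix.map_zero _ (map_zero _)] at h4
      ext1 i j
      have h5 := congrFun (congrFun h4 i) j
      rw [Matrix.mul_apply] at h5 ⊢
      rw [← (Equiv.sumAssoc ρ κ ε).sum_comp] at h5
      exact h5
    · intro i j
      have h4 : (LA (A.map ψ) * (((P.submatrix (e ∘ Sum.inl) id).map ψ).submatrix id
          (Equiv.sumAssoc ρ κ ε))) i j = P.map ψ (e i) (Equiv.sumAssoc ρ κ ε j) := by
        have h5 := congrFun (congrFun h1 i) (Equiv.sumAssoc ρ κ ε j)
        rw [Matrix.submatrix_apply, id_eq] at h5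
        rw [Matrix.map_apply, h5, Matrix.mul_apply, Matrix.mul_apply, map_sum]
        refine Finset.sum_congr rfl fun x _ => ?_
        rw [map_mul]
        congr 1
        rcases i with i | i
        · simp [LA, Matrix.one_apply, apply_ite ψ]
        · simp [LA]
      have h6 : (NA (A.map ψ) * (((g.submatrix (e ∘ Sum.inr) id).map ψ).submatrix id
          (Equiv.sumAssoc ρ κ ε))) i j = g.map ψ (e i) (Equiv.sumAssoc ρ κ ε j) := by
        have h5 := congrFun (congrFun h2 i) (Equiv.sumAssoc ρ κ ε j)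
        rw [Matrix.submatrix_apply, id_eq] at h5
        rw [Matrix.map_apply, h5, Matrix.mul_apply, Matrix.mul_apply, map_sum]
        refine Finset.sum_congr rfl fun x _ => ?_
        rw [map_mul]
        congr 1
        rcases i with i | i
        · simp [NA]
        · simp [NA, Matrix.one_apply, apply_ite ψ]
      rw [h4, h6, hPD']
      rcases j with (j | j) | j <;> rfl
  have hrk1 := Sol.rank (hS.rowPerm e) hc hsol
  have hrk2 : ((P.submatrix (e ∘ Sum.inl) id).map ψ).rank = Fintype.card ρ := by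
    apply le_antisymm (Matrix.rank_le_card_height _)
    rw [← hrk1]
    have h4 : (((P.submatrix (e ∘ Sum.inl) id).map ψ).submatrix id
        (Equiv.sumAssoc ρ κ ε)).submatrix id Sum.inl =
        ((P.submatrix (e ∘ Sum.inl) id).map ψ).submatrix id
          ((Equiv.sumAssoc ρ κ ε) ∘ Sum.inl) := rfl
    rw [h4]
    exact Matrix.rank_submatrix_le _ _ _
  have hrk : (P.map ψ).rank = Fintype.card ρ := by
    have h4 : (P.map ψ).submatrix e (Equiv.refl _) =
        LA (A.map ψ) * (P.submatrix (e ∘ Sum.inl) id).map ψ := by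
      have h5 := congrArg (fun M => M.map ψ) h1
      simp only [Matrix.map_mul] at h5
      have h6 : (LA A).map ψ = LA (A.map ψ) := by
        ext1 i j
        rcases i with i | i
        · simp [LA, Matrix.one_apply, apply_ite ψ]
        · simp [LA]
      rw [h6] at h5
      exact h5
    rw [← Matrix.rank_submatrix (P.map ψ) e (Equiv.refl _), h4]
    exact rank_LA_mul _ _ hrk2
  have hcrit : PCrit (Fintype.card ρ) (sdat u w c) (P.map ψ) := by
    refine ⟨hrk, hPne, ?_, ?_⟩
    · rw [hG]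
      have h4 : P * gᵀ = 0 := by
        apply map_io_injective
        change (P * gᵀ).map (io k) = (0 : Matrix _ _ _).map (io k)
        rw [Matrix.map_mul, Matrix.map_zero _ (map_zero _), ← pmat_mul_gmat_transpose X, hP, hg]
        rfl
      have h5 := congrArg (fun M => M.map ψ) h4
      simp only [Matrix.map_mul] at h5
      rw [Matrix.map_zero _ (map_zero _)] at h5
      exact h5
    · rw [hG]
      have h4 : gᵀ * P = 0 := by
        apply map_io_injective
        change (gᵀ * P).map (io k) = (0 : Matrix _ _ _).map (io k)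
        rw [Matrix.map_mul, Matrix.map_zero _ (map_zero _), ← gmat_transpose_mul_pmat X, hP, hg]
        rfl
      have h5 := congrArg (fun M => M.map ψ) h4
      simp only [Matrix.map_mul] at h5
      rw [Matrix.map_zero _ (map_zero _)] at h5
      exact h5
  have hminor := spec_minor_ne hS hc _ hcrit
  have hdet : PowerSeries.constantCoeff P.toBlocks₁₁.det ≠ 0 := by
    intro h4
    apply hminor
    rw [(toBlocks_map P ψ).1, ← RingHom.mapMatrix_apply, ← RingHom.map_det, hψ,
      RingHom.comp_apply, h4, map_zero]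
  obtain ⟨X', hX'⟩ := limit_chart X P g hP hg hdet
  have hpX : pmat X' = P := by
    apply map_io_injective
    change (pmat X').map (io k) = P.map (io k)
    rw [← pmat_map, hX', hP]
  have hdX : psi X' = D := by
    apply map_io_injective
    change (psi X').map (io k) = D.map (io k)
    rw [← psi_map, hX', hD]
  refine ⟨X', hX', hdX, ?_, ?_, ?_⟩
  · have h4 : (X'.map ψ).toBlocks₁₁ = (P.map ψ).toBlocks₁₁ := by
      rw [← hpX, ← pmat_map, pmat_eq_fromBlocks (X'.map ψ), Matrix.toBlocks_fromBlocks₁₁]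
    rw [h4]
    exact hminor
  · intro i j
    rw [pmat_map, hpX]
    exact hPne i j
  · rw [psi_map, hdX]
    ext1 i j
    exact hD0 i j

/-- The data along the line, at the place. -/
theorem line_data {T : Set ℂ} {s : ℂ} (d v' : Matrix (ρ ⊕ σ) (ρ ⊕ κ) ℂ)
    (hd : ∀ i j, d i j ∈ acl T) (hv' : ∀ i j, v' i j ∈ acl T) (F : IntermediateField (acl T) ℂ)
    (f : F →+* LaurentSeries (acl T)) (hsF : s ∈ F)
    (hfC : ∀ a : acl T, f (algebraMap (acl T) F a) = HahnSeries.C a)
    (hord : 0 < (f ⟨s, hsF⟩).order) :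
    ∃ D : Matrix (ρ ⊕ σ) (ρ ⊕ κ) (PowerSeries (acl T)),
      (∀ i j, algebraMap (acl T) ℂ (PowerSeries.constantCoeff (D i j)) = d i j) ∧
      ∀ X : Matrix (ρ ⊕ σ) (ρ ⊕ κ) F, psi (X.map (algebraMap F ℂ)) = d + s • v' →
        psi (X.map f) = D.map (io (acl T)) := by
  obtain ⟨p, hp, hp0⟩ := exists_io_pos _ hord
  refine ⟨Matrix.of fun i j => PowerSeries.C (⟨d i j, hd i j⟩ : acl T) +
    p * PowerSeries.C (⟨v' i j, hv' i j⟩ : acl T), ?_, ?_⟩
  · intro i j
    rw [Matrix.of_apply, map_add, map_mul, hp0, zero_mul, add_zero,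
      PowerSeries.constantCoeff_C]
    rfl
  · intro X hX
    have h1 : psi X = Matrix.of fun i j => algebraMap (acl T) F ⟨d i j, hd i j⟩ +
        ⟨s, hsF⟩ * algebraMap (acl T) F ⟨v' i j, hv' i j⟩ := by
      ext1 i j
      apply (algebraMap F ℂ).injective
      have h2 := congrFun (congrFun hX i) j
      rw [psi_map, Matrix.map_apply] at h2
      rw [h2]
      rfl
    rw [psi_map, h1]
    ext1 i j
    rw [Matrix.map_apply, Matrix.of_apply, map_add, map_mul, hfC, hfC, Matrix.map_apply,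
      Matrix.of_apply, map_add, map_mul, hp]
    rw [io, HahnSeries.ofPowerSeries_C, HahnSeries.ofPowerSeries_C]

/-- The special data have at least as many critical points as the generic ones. -/
theorem spec_ge {u : Matrix (ρ ⊕ σ) (ρ ⊕ κ) ℂ} {w : ρ ⊕ σ → ℂ} {c : ε → ℂ} (hS : SAlg u w c)
    (hc : Ample ρ σ (ρ ⊕ κ) ε) (_hρ : 1 ≤ Fintype.card ρ)
    (v : Matrix (ρ ⊕ σ) (ρ ⊕ (κ ⊕ ε)) ℂ) (hv : Alg v) :
    {P | PCrit (Fintype.card ρ) v P}.encard ≤
      {P | PCrit (Fintype.card ρ) (sdat u w c) P}.encard := by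
  classical
  obtain ⟨T, s, v', hD0, hv', hs, hAlg, hXalg, hcard⟩ := exists_line hS v hv
  rw [hcard]
  set d := sdat u w c with hd
  by_contra hlt
  rw [not_le] at hlt
  have hBfin : {P | PCrit (Fintype.card ρ) d P}.Finite :=
    Set.encard_lt_top_iff.1 (lt_of_lt_of_le hlt le_top)
  obtain ⟨F, hFA, hF⟩ := Set.exists_subset_encard_eq (Order.add_one_le_of_lt hlt)
  have hFfin : F.Finite := by
    rw [← Set.encard_lt_top_iff, hF, hBfin.encard_eq_coe]
    exact ENat.natCast_lt_top _
  suffices hmain : F.encard ≤ {P | PCrit (Fintype.card ρ) d P}.encard by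
    rw [hF, hBfin.encard_eq_coe] at hmain
    have h1 : ((hBfin.toFinset.card + 1 : ℕ) : ℕ∞) ≤ (hBfin.toFinset.card : ℕ) := by
      rw [← Set.ncard_eq_toFinset_card _ hBfin]
      push_cast
      exact hmain
    have h2 := ENat.natCast_le_natCast.1 h1
    omega
  -- the charts
  have hW : ∀ P ∈ F, P.toBlocks₁₁.det ≠ 0 := fun P hP => std_minor_ne _ _ hAlg (hFA hP)
  have hpm : ∀ P ∈ F, pmat (chart (d + s • v') P) = P :=
    fun P hP => pmat_chart _ _ (hFA hP).rk (hW P hP)
  have hps : ∀ P ∈ F, psi (chart (d + s • v') P) = d + s • v' :=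
    fun P hP => psi_chart _ _ (hFA hP) (hW P hP)
  have := isAlgClosed_acl T
  obtain ⟨F₀, f, hsF, hSF, hfC, hord⟩ := exists_place (acl T) ℂ s hs
    ((hFfin.toFinset ×ˢ (Finset.univ : Finset ((ρ ⊕ σ) × (ρ ⊕ (κ ⊕ ε))))).image
      fun q => chart (d + s • v') q.1 q.2.1 q.2.2) (by
      intro z hz
      rw [Finset.mem_image] at hz
      obtain ⟨q, hq, rfl⟩ := hz
      rw [Finset.mem_product, Set.Finite.mem_toFinset] at hq
      apply hXalg
      · have h1 : (chart (d + s • v') q.1).toBlocks₁₁ = q.1.toBlocks₁₁ := by simp [chart]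
        rw [h1]
        exact hW _ hq.1
      · rw [hpm _ hq.1]
        exact (hFA hq.1).ne
      · exact hps _ hq.1)
  have hmem : ∀ P ∈ F, ∀ i j, chart (d + s • v') P i j ∈ F₀ := by
    intro P hP i j
    apply hSF
    rw [Finset.mem_image]
    exact ⟨(P, (i, j)), by
      rw [Finset.mem_product, Set.Finite.mem_toFinset]
      exact ⟨hP, Finset.mem_univ _⟩, rfl⟩
  obtain ⟨D, hDc, hDX⟩ := line_data d v' hD0 hv' F₀ f hsF hfC hord
  have hlin : LinearIndependent ℚ (fun a : (ρ ⊕ σ) × (ρ ⊕ (κ ⊕ ε)) =>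
      PowerSeries.constantCoeff (D a.1 a.2)) := by
    apply LinearIndependent.of_comp (acl T).val.toLinearMap
    have h1 : (acl T).val.toLinearMap ∘ (fun a : (ρ ⊕ σ) × (ρ ⊕ (κ ⊕ ε)) =>
        PowerSeries.constantCoeff (D a.1 a.2)) = fun a => d a.1 a.2 := by
      funext a
      exact hDc a.1 a.2
    rw [h1]
    exact sdat_linInd hS
  have key : ∀ P ∈ F, ∃ X' : Matrix (ρ ⊕ σ) (ρ ⊕ (κ ⊕ ε)) (PowerSeries (acl T)),
      (∀ (hP : ∀ i j, chart (d + s • v') P i j ∈ F₀) i j,
        io (acl T) (X' i j) = f ⟨chart (d + s • v') P i j, hP i j⟩) ∧ psi X' = D ∧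
      (X'.map ((algebraMap (acl T) ℂ).comp
        (PowerSeries.constantCoeff (R := acl T)))).toBlocks₁₁.det ≠ 0 ∧
      (∀ i j, pmat (X'.map ((algebraMap (acl T) ℂ).comp
        (PowerSeries.constantCoeff (R := acl T)))) i j ≠ 0) ∧
      psi (X'.map ((algebraMap (acl T) ℂ).comp
        (PowerSeries.constantCoeff (R := acl T)))) = d := by
    intro P hP
    have h1 := hDX (Matrix.of fun i j => ⟨chart (d + s • v') P i j, hmem P hP i j⟩)
      (hps P hP)
    have h2 := pmat_order _ D h1 hlin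
    obtain ⟨X', e1, e2, e3, e4, e5⟩ := spec_point (algebraMap (acl T) ℂ) hS hc _ D h1 hDc
      (fun i j => (h2 i j).1) (fun i j => (h2 i j).2)
    refine ⟨X', ?_, e2, e3, e4, e5⟩
    intro hP' i j
    exact congrFun (congrFun e1 i) j
  choose! Φ hΦ1 hΦ2 hΦ3 hΦ4 hΦ5 using key
  set ψ : PowerSeries (acl T) →+* ℂ := (algebraMap (acl T) ℂ).comp
    (PowerSeries.constantCoeff (R := acl T)) with hψ
  refine Set.encard_le_encard_of_injOn (f := fun P => pmat ((Φ P).map ψ)) ?_ ?_
  · intro P hP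
    have h1 := pcrit_pmat _ (hΦ3 P hP) (hΦ4 P hP)
    rw [hΦ5 P hP] at h1
    exact h1
  · intro P hP Q hQ hPQ
    have hPQ' : pmat ((Φ P).map ψ) = pmat ((Φ Q).map ψ) := hPQ
    have h1 : (Φ P).map ψ = (Φ Q).map ψ := by
      rw [← chart_pmat _ (hΦ3 P hP) (hΦ4 P hP), ← chart_pmat _ (hΦ3 Q hQ) (hΦ4 Q hQ),
        hΦ5 P hP, hΦ5 Q hQ, hPQ']
    have h2 : (Φ P).map (PowerSeries.constantCoeff (R := acl T)) =
        (Φ Q).map (PowerSeries.constantCoeff (R := acl T)) := by
      ext1 i j
      apply (algebraMap (acl T) ℂ).injective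
      exact congrFun (congrFun h1 i) j
    have h3 : (Jac ((Φ P).map (PowerSeries.constantCoeff (R := acl T)))).det ≠ 0 := by
      intro h4
      apply spec_Jac_ne hS _ (hΦ3 P hP) (hΦ5 P hP)
      have h5 : (Φ P).map ψ = ((Φ P).map (PowerSeries.constantCoeff (R := acl T))).map
        (algebraMap (acl T) ℂ) := rfl
      rw [h5, Jac_map, ← RingHom.mapMatrix_apply, ← RingHom.map_det, h4, map_zero]
    have h4 : Φ P = Φ Q := eq_of_psi_eq _ _ h2 h3 (by rw [hΦ2 P hP, hΦ2 Q hQ])
    have h5 : chart (d + s • v') P = chart (d + s • v') Q := by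
      ext1 i j
      have h6 := hΦ1 P hP (hmem P hP) i j
      rw [h4, hΦ1 Q hQ (hmem Q hQ) i j] at h6
      exact (congrArg Subtype.val (f.injective h6)).symm
    rw [← hpm P hP, ← hpm Q hQ, h5]

end Pool.ML
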