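import Pool.Agent.ML61.NonDegCore
import Pool.Agent.ML61.Gen

/-!
# Non-degeneracy of the critical points of the special data
-/

namespace Pool.ML

open Matrix

variable {ρ σ κ ε : Type} [Fintype ρ] [Fintype σ] [Fintype κ] [Fintype ε]
  [DecidableEq ρ] [DecidableEq σ] [DecidableEq κ] [DecidableEq ε]

theorem spec_Jac_ne {u : Matrix (ρ ⊕ σ) (ρ ⊕ κ) ℂ} {w : ρ ⊕ σ → ℂ} {c : ε → ℂ} (hS : SAlg u w c)
    (X : Matrix (ρ ⊕ σ) (ρ ⊕ (κ ⊕ ε)) ℂ) (hW : X.toBlocks₁₁.det ≠ 0)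
    (hpsi : psi X = sdat u w c) : (Jac X).det ≠ 0 :=
  spec_Jac_ne_of X hW hpsi (free_alg hS X hW hpsi).1 (free_alg hS X hW hpsi).2

end Pool.ML
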