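import Pool.Agent.ML61.Defs
import Pool.Agent.ML61.Der

/-!
# Non-degeneracy of the critical points of the special data
-/

set_option linter.unusedSectionVars false
set_option linter.unusedSimpArgs false

namespace Pool.ML

open Matrix

section ext

variable {ρ σ : Type} [Fintype ρ] [Fintype σ] [DecidableEq ρ] [DecidableEq σ]
variable {R S : Type} [CommRing R] [CommRing S]

/-- The derivative of `(y, g) ↦ (L y) ∘ (1 + N g)`. -/
def Km (A : Matrix σ ρ R) (y : ρ → R) (g : σ → R) : Matrix (ρ ⊕ σ) (ρ ⊕ σ) R :=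
  Matrix.of fun i j => Sum.elim (fun k => LA A i k * (1 + (NA A *ᵥ g) i))
    (fun t => (LA A *ᵥ y) i * NA A i t) j

theorem Km_mulVec (A : Matrix σ ρ R) (y : ρ → R) (g : σ → R) (a : ρ → R) (b : σ → R) (i : ρ ⊕ σ) :
    (Km A y g *ᵥ Sum.elim a b) i =
      (LA A *ᵥ a) i * (1 + (NA A *ᵥ g) i) + (LA A *ᵥ y) i * (NA A *ᵥ b) i := by
  change ∑ j, Km A y g i j * Sum.elim a b j = (∑ k, LA A i k * a k) * (1 + (NA A *ᵥ g) i) +
    (LA A *ᵥ y) i * ∑ t, NA A i t * b t
  rw [Fintype.sum_sum_type, Finset.sum_mul, Finset.mul_sum]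
  congr 1
  · refine Finset.sum_congr rfl fun k _ => ?_
    change LA A i k * (1 + (NA A *ᵥ g) i) * a k = LA A i k * a k * (1 + (NA A *ᵥ g) i)
    ring
  · refine Finset.sum_congr rfl fun k _ => ?_
    change (LA A *ᵥ y) i * NA A i k * b k = (LA A *ᵥ y) i * (NA A i k * b k)
    ring

theorem LA_map (A : Matrix σ ρ R) (f : R →+* S) : LA (A.map f) = (LA A).map f := by
  ext i k
  rcases i with i | i
  · simp [LA, Matrix.one_apply, apply_ite f]
  · simp [LA]

theorem NA_map (A : Matrix σ ρ R) (f : R →+* S) : NA (A.map f) = (NA A).map f := by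
  ext i k
  rcases i with i | i
  · simp [NA]
  · simp [NA, Matrix.one_apply, apply_ite f]

theorem mulVec_map {a b : Type} [Fintype b] (M : Matrix a b R) (v : b → R) (f : R →+* S) (i : a) :
    ((M.map f) *ᵥ (fun j => f (v j))) i = f ((M *ᵥ v) i) := by
  simp [Matrix.mulVec, dotProduct, map_sum]

theorem Km_map (A : Matrix σ ρ R) (y : ρ → R) (g : σ → R) (f : R →+* S) :
    Km (A.map f) (fun i => f (y i)) (fun i => f (g i)) = (Km A y g).map f := by
  ext i j
  rcases j with j | j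
  · simp only [Km, Matrix.of_apply, Sum.elim_inl, Matrix.map_apply, LA_map, NA_map, mulVec_map,
      map_mul, map_add, map_one]
  · simp only [Km, Matrix.of_apply, Sum.elim_inr, Matrix.map_apply, LA_map, NA_map, mulVec_map,
      map_mul]

theorem LA_transpose_mul_NA (A : Matrix σ ρ R) : (LA A)ᵀ * NA A = 0 := by
  simp [LA, NA, Matrix.transpose_fromRows, Matrix.fromCols_mul_fromRows]

theorem LA_mulVec_inl (A : Matrix σ ρ R) (y : ρ → R) (k : ρ) : (LA A *ᵥ y) (Sum.inl k) = y k := by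
  simp [LA, Matrix.fromRows_mulVec]

theorem NA_mulVec_inr (A : Matrix σ ρ R) (g : σ → R) (k : σ) : (NA A *ᵥ g) (Sum.inr k) = g k := by
  simp [NA, Matrix.fromRows_mulVec]

/-- non-degenerate at a positive rational point -/
theorem Km_rat [Nonempty ρ] : (Km (R := ℚ) (Matrix.of fun (_ : σ) (_ : ρ) => 1) (fun _ => 1)
    (fun _ => 0)).det ≠ 0 := by
  intro h
  obtain ⟨v, hv, h1⟩ := Matrix.exists_mulVec_eq_zero_iff.mpr h
  apply hv
  set A : Matrix σ ρ ℚ := Matrix.of fun _ _ => 1 with hA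
  set a : ρ → ℚ := fun k => v (Sum.inl k) with ha
  set b : σ → ℚ := fun k => v (Sum.inr k) with hb
  have hvab : v = Sum.elim a b := by
    funext i
    rcases i with i | i <;> rfl
  rw [hvab] at h1
  have h2 : ∀ i, (LA A *ᵥ a) i + (LA A *ᵥ fun _ => 1) i * (NA A *ᵥ b) i = 0 := by
    intro i
    have h3 := congrFun h1 i
    rw [Km_mulVec] at h3
    have h4 : (NA A *ᵥ fun _ => (0 : ℚ)) i = 0 := by
      simp [Matrix.mulVec, dotProduct]
    rw [h4, add_zero, mul_one] at h3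
    exact h3
  have hq : ∀ i, 0 < (LA A *ᵥ fun _ => (1 : ℚ)) i := by
    intro i
    rcases i with i | i
    · rw [LA_mulVec_inl]; norm_num
    · simp [LA, Matrix.fromRows_mulVec, Matrix.mulVec, dotProduct, hA, Fintype.card_pos]
  have horth : ∑ i, (LA A *ᵥ a) i * (NA A *ᵥ b) i = 0 := by
    have h3 : (LA A *ᵥ a) ⬝ᵥ (NA A *ᵥ b) = 0 := by
      rw [← Matrix.vecMul_transpose, ← Matrix.dotProduct_mulVec, Matrix.mulVec_mulVec,
        LA_transpose_mul_NA, Matrix.zero_mulVec, dotProduct_zero]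
    exact h3
  have hsum : ∑ i, (LA A *ᵥ fun _ => (1 : ℚ)) i * (NA A *ᵥ b) i ^ 2 = 0 := by
    have h3 : ∀ i, (LA A *ᵥ fun _ => (1 : ℚ)) i * (NA A *ᵥ b) i ^ 2 =
        -((LA A *ᵥ a) i * (NA A *ᵥ b) i) := by
      intro i
      have := h2 i
      have h4 : (LA A *ᵥ a) i = -((LA A *ᵥ fun _ => 1) i * (NA A *ᵥ b) i) := by linarith
      rw [h4]; ring
    rw [Finset.sum_congr rfl fun i _ => h3 i, Finset.sum_neg_distrib, horth, neg_zero]
  have hN : ∀ i, (NA A *ᵥ b) i = 0 := by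
    intro i
    have h3 := (Finset.sum_eq_zero_iff_of_nonneg
      (fun i _ => mul_nonneg (hq i).le (sq_nonneg _))).mp hsum i (Finset.mem_univ i)
    rcases mul_eq_zero.mp h3 with h4 | h4
    · exact absurd h4 (hq i).ne'
    · exact pow_eq_zero_iff (two_ne_zero) |>.mp h4
  have hL : ∀ i, (LA A *ᵥ a) i = 0 := by
    intro i
    have := h2 i
    rw [hN, mul_zero, add_zero] at this
    exact this
  rw [hvab]
  funext i
  rcases i with i | i
  · have := hL (Sum.inl i)
    rw [LA_mulVec_inl] at this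
    exact this
  · have := hN (Sum.inr i)
    rw [NA_mulVec_inr] at this
    exact this

/-- non-degenerate at algebraically independent points -/
theorem Km_det_ne [Nonempty ρ] (A : Matrix σ ρ ℂ) (y : ρ → ℂ) (g : σ → ℂ)
    (h : AlgebraicIndependent ℚ (Sum.elim (fun x : σ × ρ => A x.1 x.2) (Sum.elim y g))) :
    (Km A y g).det ≠ 0 := by
  let V := (σ × ρ) ⊕ (ρ ⊕ σ)
  let A' : Matrix σ ρ (MvPolynomial V ℚ) := Matrix.of fun s k => MvPolynomial.X (Sum.inl (s, k))
  let y' : ρ → MvPolynomial V ℚ := fun k => MvPolynomial.X (Sum.inr (Sum.inl k))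
  let g' : σ → MvPolynomial V ℚ := fun k => MvPolynomial.X (Sum.inr (Sum.inr k))
  set x : V → ℂ := Sum.elim (fun x : σ × ρ => A x.1 x.2) (Sum.elim y g) with hx
  have h1 : Km A y g = (Km A' y' g').map (MvPolynomial.aeval (R := ℚ) x).toRingHom := by
    rw [← Km_map]
    congr 1
    · ext s k
      change A s k = MvPolynomial.aeval x (MvPolynomial.X (Sum.inl (s, k)))
      rw [MvPolynomial.aeval_X]
      rfl
    · funext k
      change y k = MvPolynomial.aeval x (MvPolynomial.X (Sum.inr (Sum.inl k)))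
      rw [MvPolynomial.aeval_X]
      rfl
    · funext k
      change g k = MvPolynomial.aeval x (MvPolynomial.X (Sum.inr (Sum.inr k)))
      rw [MvPolynomial.aeval_X]
      rfl
  have h2 : (Km A' y' g').det ≠ 0 := by
    intro h0
    let z : V → ℚ := Sum.elim (fun _ => 1) (Sum.elim (fun _ => 1) (fun _ => 0))
    have h3 := congrArg (MvPolynomial.aeval (R := ℚ) z).toRingHom h0
    rw [map_zero, RingHom.map_det, RingHom.mapMatrix_apply, ← Km_map] at h3
    apply Km_rat (ρ := ρ) (σ := σ)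
    refine Eq.trans ?_ h3
    congr 1
    congr 1
    · ext s k
      change (1 : ℚ) = MvPolynomial.aeval z (MvPolynomial.X (Sum.inl (s, k)))
      rw [MvPolynomial.aeval_X]
      rfl
    · funext k
      change (1 : ℚ) = MvPolynomial.aeval z (MvPolynomial.X (Sum.inr (Sum.inl k)))
      rw [MvPolynomial.aeval_X]
      rfl
    · funext k
      change (0 : ℚ) = MvPolynomial.aeval z
        (MvPolynomial.X (Sum.inr (Sum.inr k)) : MvPolynomial V ℚ)
      rw [MvPolynomial.aeval_X]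
      rfl
  intro h3
  apply h2
  rw [h1, ← RingHom.mapMatrix_apply, ← RingHom.map_det] at h3
  have h4 : MvPolynomial.aeval (R := ℚ) x (Km A' y' g').det = 0 := h3
  have h5 : Function.Injective (MvPolynomial.aeval (R := ℚ) x) := h
  apply h5
  rw [h4, map_zero]

end ext

section main

variable {ρ σ κ ε : Type} [Fintype ρ] [Fintype σ] [Fintype κ] [Fintype ε]
  [DecidableEq ρ] [DecidableEq σ] [DecidableEq κ] [DecidableEq ε]

/-- derivation of `psi` -/
theorem derivation_psi (D : Derivation ℚ ℂ ℂ) (X : Matrix (ρ ⊕ σ) (ρ ⊕ κ) ℂ) :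
    (psi X).map D = dpsi X (X.map D) := by
  have hmul : ∀ {a b c : Type} [Fintype b] (M : Matrix a b ℂ) (N : Matrix b c ℂ),
      (M * N).map D = M.map D * N + M * N.map D := by
    intro a b c _ M N
    ext i j
    simp only [Matrix.map_apply, Matrix.mul_apply, Matrix.add_apply, map_sum, Derivation.leibniz,
      smul_eq_mul]
    rw [← Finset.sum_add_distrib]
    exact Finset.sum_congr rfl fun k _ => by ring
  have hL : (Lm X).map D = Ld (X.map D) := by
    ext i k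
    rcases i with i | i
    · simp [Lm, Ld, Matrix.one_apply, apply_ite D]
    · rfl
  have hU : (Um X).map D = Ud (X.map D) := by
    ext i k
    rcases k with k | k
    · simp [Um, Ud, Matrix.one_apply, apply_ite D]
    · rfl
  have hN : (Nm X).map D = Nd (X.map D) := by
    ext i k
    rcases i with i | i
    · simp [Nm, Nd, Matrix.toBlocks₂₁]
    · simp [Nm, Nd, Matrix.one_apply, apply_ite D]
  have hV : (Vm X).map D = Vd (X.map D) := by
    ext i k
    rcases k with k | k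
    · simp [Vm, Vd, Matrix.toBlocks₁₂]
    · simp [Vm, Vd, Matrix.one_apply, apply_ite D]
  have hp : (pmat X).map D = dpmat X (X.map D) := by
    rw [pmat, hmul, hmul, hL, hU, dpmat, Matrix.add_mul]
    rfl
  have hg : (gmat X).map D = dgmat X (X.map D) := by
    rw [gmat, hmul, hmul, hN, hV, dgmat, Matrix.add_mul]
    rfl
  ext i j
  have hp' := congrFun (congrFun hp i) j
  have hg' := congrFun (congrFun hg i) j
  rw [Matrix.map_apply] at hp' hg'
  rw [Matrix.map_apply, psi, Matrix.of_apply, dpsi, Matrix.of_apply, Derivation.leibniz, map_add,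
    Derivation.map_one_eq_zero, hp', hg', smul_eq_mul, smul_eq_mul]
  ring

/-- the extra column `e` of `psi X` -/
theorem psi_col (X : Matrix (ρ ⊕ σ) (ρ ⊕ κ) ℂ) (i : ρ ⊕ σ) (e : κ) :
    psi X i (Sum.inr e) = (LA X.toBlocks₂₁ *ᵥ (X.toBlocks₁₁ *ᵥ fun k => X.toBlocks₁₂ k e)) i *
      (1 + (NA X.toBlocks₂₁ *ᵥ fun t => X.toBlocks₂₂ t e) i) := by
  have hp : pmat X i (Sum.inr e) =
      (LA X.toBlocks₂₁ *ᵥ (X.toBlocks₁₁ *ᵥ fun k => X.toBlocks₁₂ k e)) i := by
    rw [pmat, Matrix.mul_assoc, Um, Matrix.mul_fromCols, Matrix.mul_fromCols,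
      Matrix.fromCols_apply_inr, Lm, LA]
    simp only [Matrix.mulVec, dotProduct, Matrix.mul_apply]
  have hg : gmat X i (Sum.inr e) = (NA X.toBlocks₂₁ *ᵥ fun t => X.toBlocks₂₂ t e) i := by
    rw [gmat, Vm, Matrix.mul_fromCols, Matrix.fromCols_apply_inr, Nm, NA, Matrix.mul_one,
      Matrix.mul_apply]
    rfl
  rw [psi, Matrix.of_apply, hp, hg]

/-- the extra column `e` of `dpsi X Y`, for two tangent vectors with the same `A` and `W` -/
theorem dpsi_col (X Y Y' : Matrix (ρ ⊕ σ) (ρ ⊕ κ) ℂ) (h21 : Y.toBlocks₂₁ = Y'.toBlocks₂₁)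
    (h11 : Y.toBlocks₁₁ = Y'.toBlocks₁₁) (i : ρ ⊕ σ) (e : κ) :
    dpsi X (Y - Y') i (Sum.inr e) =
      (LA X.toBlocks₂₁ *ᵥ (X.toBlocks₁₁ *ᵥ fun k => (Y - Y').toBlocks₁₂ k e)) i *
        (1 + (NA X.toBlocks₂₁ *ᵥ fun t => X.toBlocks₂₂ t e) i) +
      (LA X.toBlocks₂₁ *ᵥ (X.toBlocks₁₁ *ᵥ fun k => X.toBlocks₁₂ k e)) i *
        (NA X.toBlocks₂₁ *ᵥ fun t => (Y - Y').toBlocks₂₂ t e) i := by
  have h21' : (Y - Y').toBlocks₂₁ = 0 := by
    ext a b
    have := congrFun (congrFun h21 a) b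
    change Y (Sum.inr a) (Sum.inl b) - Y' (Sum.inr a) (Sum.inl b) = 0
    change Y (Sum.inr a) (Sum.inl b) = Y' (Sum.inr a) (Sum.inl b) at this
    rw [this, sub_self]
  have h11' : (Y - Y').toBlocks₁₁ = 0 := by
    ext a b
    have := congrFun (congrFun h11 a) b
    change Y (Sum.inl a) (Sum.inl b) - Y' (Sum.inl a) (Sum.inl b) = 0
    change Y (Sum.inl a) (Sum.inl b) = Y' (Sum.inl a) (Sum.inl b) at this
    rw [this, sub_self]
  have hp : pmat X i (Sum.inr e) =
      (LA X.toBlocks₂₁ *ᵥ (X.toBlocks₁₁ *ᵥ fun k => X.toBlocks₁₂ k e)) i := by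
    rw [pmat, Matrix.mul_assoc, Um, Matrix.mul_fromCols, Matrix.mul_fromCols,
      Matrix.fromCols_apply_inr, Lm, LA]
    simp only [Matrix.mulVec, dotProduct, Matrix.mul_apply]
  have hg : gmat X i (Sum.inr e) = (NA X.toBlocks₂₁ *ᵥ fun t => X.toBlocks₂₂ t e) i := by
    rw [gmat, Vm, Matrix.mul_fromCols, Matrix.fromCols_apply_inr, Nm, NA, Matrix.mul_one,
      Matrix.mul_apply]
    rfl
  have hdp : dpmat X (Y - Y') i (Sum.inr e) =
      (LA X.toBlocks₂₁ *ᵥ (X.toBlocks₁₁ *ᵥ fun k => (Y - Y').toBlocks₁₂ k e)) i := by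
    rw [dpmat, Ld, Ud, h21', h11', Matrix.mul_zero, Matrix.zero_mul, add_zero]
    have h0 : (Matrix.fromRows (0 : Matrix ρ ρ ℂ) (0 : Matrix σ ρ ℂ)) = 0 := by
      ext a b; rcases a with a | a <;> rfl
    rw [h0, Matrix.zero_mul, Matrix.zero_mul, zero_add, Matrix.mul_assoc, Matrix.mul_fromCols,
      Matrix.mul_fromCols, Matrix.fromCols_apply_inr, Lm, LA]
    simp only [Matrix.mulVec, dotProduct, Matrix.mul_apply]
  have hdg : dgmat X (Y - Y') i (Sum.inr e) =
      (NA X.toBlocks₂₁ *ᵥ fun t => (Y - Y').toBlocks₂₂ t e) i := by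
    have h0 : Nd (Y - Y') = 0 := by
      rw [Nd, h21', Matrix.transpose_zero, neg_zero]
      ext a b; rcases a with a | a <;> rfl
    rw [dgmat, h0, Matrix.zero_mul, Matrix.zero_mul, zero_add, Vm, Vd, Matrix.add_apply,
      Matrix.mul_fromCols, Matrix.mul_fromCols, Matrix.fromCols_apply_inr,
      Matrix.fromCols_apply_inr, Nm, NA, Matrix.mul_one, Matrix.mul_zero, Matrix.mul_apply]
    change _ + 0 = _
    rw [add_zero]
    rfl
  rw [dpsi, Matrix.of_apply, hdp, hdg, hp, hg]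

theorem algInd_ext {u : Matrix (ρ ⊕ σ) (ρ ⊕ κ) ℂ} {w : ρ ⊕ σ → ℂ} {c : ε → ℂ}
    (X : Matrix (ρ ⊕ σ) (ρ ⊕ (κ ⊕ ε)) ℂ) (hfree : AlgebraicIndependent ℚ (freeFam X w c))
    (hpsi : psi X = sdat u w c) (e : ε) :
    AlgebraicIndependent ℚ (Sum.elim (fun x : σ × ρ => X.toBlocks₂₁ x.1 x.2)
      (Sum.elim (X.toBlocks₁₁ *ᵥ fun k => X.toBlocks₁₂ k (Sum.inr e))
        (fun t => X.toBlocks₂₂ t (Sum.inr e)))) := by
  set y : ρ → ℂ := X.toBlocks₁₁ *ᵥ fun k => X.toBlocks₁₂ k (Sum.inr e) with hy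
  set g : σ → ℂ := fun t => X.toBlocks₂₂ t (Sum.inr e) with hg
  -- the family (A, w, c_e)
  let ι₀ : (σ × ρ) ⊕ ((ρ ⊕ σ) ⊕ Unit) → ((ρ ⊕ σ) × (ρ ⊕ κ)) ⊕ ((ρ ⊕ σ) ⊕ ε) :=
    Sum.map (fun x => (Sum.inr x.1, Sum.inl x.2)) (Sum.map id (fun _ => e))
  have hι₀ : Function.Injective ι₀ := by
    apply Function.Injective.sumMap
    · intro a b hab
      simp only [Prod.mk.injEq, Sum.inr.injEq, Sum.inl.injEq] at hab
      exact Prod.ext hab.1 hab.2
    · exact Function.Injective.sumMap Function.injective_id (fun _ _ _ => rfl)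
  have hF0 := hfree.comp ι₀ hι₀
  have hce : c e ≠ 0 := hfree.ne_zero (Sum.inr (Sum.inr e))
  let F2 : (σ × ρ) ⊕ ((ρ ⊕ σ) ⊕ Unit) → ℂ := Sum.elim (fun x : σ × ρ => X.toBlocks₂₁ x.1 x.2)
    (Sum.elim (fun i => c e * w i) (fun _ => c e))
  have hF2 : AlgebraicIndependent ℚ F2 := by
    refine (algInd_of_acl _ F2 hF0 ?_ le_rfl).1
    have hmem : ∀ j, F2 j ∈ acl (Set.range F2) := fun j => subset_acl _ ⟨j, rfl⟩
    rintro (x | (i | _))
    · exact hmem (Sum.inl x)
    · have h1 := hmem (Sum.inr (Sum.inl i))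
      have h2 := hmem (Sum.inr (Sum.inr ()))
      have h3 := (acl (Set.range F2)).mul_mem h1 ((acl (Set.range F2)).inv_mem h2)
      have h4 : F2 (Sum.inr (Sum.inl i)) * (F2 (Sum.inr (Sum.inr ())))⁻¹ = w i := by
        change c e * w i * (c e)⁻¹ = w i
        field_simp
      rw [h4] at h3
      exact h3
    · exact hmem (Sum.inr (Sum.inr ()))
  let ι₁ : (σ × ρ) ⊕ (ρ ⊕ σ) → (σ × ρ) ⊕ ((ρ ⊕ σ) ⊕ Unit) := Sum.map id Sum.inl
  have hι₁ : Function.Injective ι₁ :=
    Function.Injective.sumMap Function.injective_id Sum.inl_injective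
  have hF1 := hF2.comp ι₁ hι₁
  refine algInd_transfer _ _ hF1 ?_
  set x : (σ × ρ) ⊕ (ρ ⊕ σ) → ℂ := Sum.elim (fun x : σ × ρ => X.toBlocks₂₁ x.1 x.2)
    (Sum.elim y g) with hx
  have hmem : ∀ j, x j ∈ Algebra.adjoin ℚ (Set.range x) := fun j => Algebra.subset_adjoin ⟨j, rfl⟩
  have hLA : ∀ i k, LA X.toBlocks₂₁ i k ∈ Algebra.adjoin ℚ (Set.range x) := by
    intro i k
    rcases i with i | i
    · change (1 : Matrix ρ ρ ℂ) i k ∈ _
      rw [Matrix.one_apply]
      split_ifs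
      · exact Subalgebra.one_mem _
      · exact Subalgebra.zero_mem _
    · exact hmem (Sum.inl (i, k))
  have hNA : ∀ i k, NA X.toBlocks₂₁ i k ∈ Algebra.adjoin ℚ (Set.range x) := by
    intro i k
    rcases i with i | i
    · exact Subalgebra.neg_mem _ (hmem (Sum.inl (k, i)))
    · change (1 : Matrix σ σ ℂ) i k ∈ _
      rw [Matrix.one_apply]
      split_ifs
      · exact Subalgebra.one_mem _
      · exact Subalgebra.zero_mem _
  rintro (z | i)
  · exact hmem (Sum.inl z)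
  · have h1 : psi X i (Sum.inr (Sum.inr e)) = c e * w i := by rw [hpsi]; rfl
    have h2 : (F2 ∘ ι₁) (Sum.inr i) = psi X i (Sum.inr (Sum.inr e)) := h1.symm
    rw [h2, psi_col]
    refine Subalgebra.mul_mem _ (Subalgebra.sum_mem _ fun k _ => Subalgebra.mul_mem _ (hLA i k)
      (hmem (Sum.inr (Sum.inl k)))) (Subalgebra.add_mem _ (Subalgebra.one_mem _)
      (Subalgebra.sum_mem _ fun k _ => Subalgebra.mul_mem _ (hNA i k)
        (hmem (Sum.inr (Sum.inr k)))))

/-- the conclusion of row E from the conclusion of `free_alg` -/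
theorem spec_Jac_ne_of {u : Matrix (ρ ⊕ σ) (ρ ⊕ κ) ℂ} {w : ρ ⊕ σ → ℂ} {c : ε → ℂ}
    (X : Matrix (ρ ⊕ σ) (ρ ⊕ (κ ⊕ ε)) ℂ) (hW : X.toBlocks₁₁.det ≠ 0)
    (hpsi : psi X = sdat u w c) (hfree : AlgebraicIndependent ℚ (freeFam X w c))
    (hXalg : ∀ i j, X i j ∈ acl (sset u w c)) : (Jac X).det ≠ 0 := by
  intro hdet
  obtain ⟨y, hy, h1⟩ := Matrix.exists_mulVec_eq_zero_iff.mpr hdet
  apply hy
  set Y : Matrix (ρ ⊕ σ) (ρ ⊕ (κ ⊕ ε)) ℂ := Matrix.of fun i j => y (i, j) with hY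
  have h2 : (fun b : (ρ ⊕ σ) × (ρ ⊕ (κ ⊕ ε)) => Y b.1 b.2) = y := rfl
  rw [← h2, Jac_mulVec] at h1
  have h3 : dpsi X Y = 0 := by
    ext i j
    exact congrFun h1 (i, j)
  obtain ⟨D, hD⟩ := exists_derivation (freeFam X w c) hfree
    (Sum.elim (fun x => Y x.1 (Sum.map id Sum.inl x.2)) (fun _ => 0))
  have hD1 : ∀ i k, D (X i (Sum.inl k)) = Y i (Sum.inl k) := fun i k =>
    hD (Sum.inl (i, Sum.inl k))
  have hD2 : ∀ i k, D (X i (Sum.inr (Sum.inl k))) = Y i (Sum.inr (Sum.inl k)) := fun i k =>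
    hD (Sum.inl (i, Sum.inr k))
  have hDw : ∀ i, D (w i) = 0 := fun i => hD (Sum.inr (Sum.inl i))
  have hDc : ∀ e, D (c e) = 0 := fun e => hD (Sum.inr (Sum.inr e))
  have hDpsi := derivation_psi D X
  have hlin : dpsi X (X.map D - Y) = dpsi X (X.map D) - dpsi X Y := map_sub (dpsiL X) _ _
  have hext : ∀ e i, D (X i (Sum.inr (Sum.inr e))) = Y i (Sum.inr (Sum.inr e)) := by
    intro e i
    have hne : ∀ i, c e * w i ≠ 0 := fun i =>
      mul_ne_zero (hfree.ne_zero (Sum.inr (Sum.inr e))) (hfree.ne_zero (Sum.inr (Sum.inl i)))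
    have hcol : ∀ i, psi X i (Sum.inr (Sum.inr e)) = c e * w i := fun i => by rw [hpsi]; rfl
    have hρ : Nonempty ρ := by
      by_contra hρ
      rw [not_nonempty_iff] at hρ
      apply hne i
      rw [← hcol, psi_col]
      have h4 : (LA X.toBlocks₂₁ *ᵥ (X.toBlocks₁₁ *ᵥ fun k => X.toBlocks₁₂ k (Sum.inr e))) i = 0 :=
        Finset.sum_eq_zero fun k _ => (hρ.false k).elim
      rw [h4, zero_mul]
    have hK := Km_det_ne _ _ _ (algInd_ext X hfree hpsi e)
    have hzero : ∀ i, dpsi X (X.map D - Y) i (Sum.inr (Sum.inr e)) = 0 := by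
      intro i
      rw [hlin, h3, sub_zero, ← hDpsi, Matrix.map_apply, hcol, Derivation.leibniz, hDw, hDc,
        smul_zero, smul_zero, add_zero]
    have hcoleq : ∀ i, (LA X.toBlocks₂₁ *ᵥ (X.toBlocks₁₁ *ᵥ fun k =>
        (X.map D - Y).toBlocks₁₂ k (Sum.inr e))) i *
          (1 + (NA X.toBlocks₂₁ *ᵥ fun t => X.toBlocks₂₂ t (Sum.inr e)) i) +
        (LA X.toBlocks₂₁ *ᵥ (X.toBlocks₁₁ *ᵥ fun k => X.toBlocks₁₂ k (Sum.inr e))) i *
          (NA X.toBlocks₂₁ *ᵥ fun t => (X.map D - Y).toBlocks₂₂ t (Sum.inr e)) i = 0 := by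
      intro i
      rw [← dpsi_col X (X.map D) Y]
      · exact hzero i
      · ext a b
        exact hD1 (Sum.inr a) b
      · ext a b
        exact hD1 (Sum.inl a) b
    have hker := Matrix.eq_zero_of_mulVec_eq_zero hK (v := Sum.elim
      (X.toBlocks₁₁ *ᵥ fun k => (X.map D - Y).toBlocks₁₂ k (Sum.inr e))
      (fun t => (X.map D - Y).toBlocks₂₂ t (Sum.inr e))) (by
        funext i
        rw [Km_mulVec]
        exact hcoleq i)
    have hB := Matrix.eq_zero_of_mulVec_eq_zero hW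
      (v := fun k => (X.map D - Y).toBlocks₁₂ k (Sum.inr e)) (by
        funext k
        exact congrFun hker (Sum.inl k))
    rcases i with i | i
    · have h4 := congrFun hB i
      exact sub_eq_zero.mp h4
    · have h4 := congrFun hker (Sum.inr i)
      exact sub_eq_zero.mp h4
  have hXY : X.map D = Y := by
    ext i j
    rcases j with j | (j | j)
    · exact hD1 i j
    · exact hD2 i j
    · exact hext j i
  rw [hXY, h3] at hDpsi
  have hDu : ∀ i j, D (u i j) = 0 := by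
    intro i j
    have h4 := congrFun (congrFun hDpsi i) (Sum.map id Sum.inl j)
    rw [Matrix.map_apply, hpsi] at h4
    rcases j with j | j
    · exact h4
    · exact h4
  have hkill : ∀ t ∈ sset u w c, D t = 0 := by
    rintro _ ⟨x | (i | e), rfl⟩
    · exact hDu x.1 x.2
    · exact hDw i
    · exact hDc e
  rw [← h2]
  funext b
  change Y b.1 b.2 = 0
  rw [← hXY, Matrix.map_apply]
  exact derivation_acl D _ hkill _ (hXalg b.1 b.2)

end main

end Pool.ML
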