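import Pool.Agent.ML14.Step

/-!
# Non-degenerate critical points persist
-/

set_option linter.unusedSectionVars false
set_option linter.unusedSimpArgs false

namespace Pool.ML

open Matrix Filter Topology

variable {ρ σ κ : Type} [Fintype ρ] [Fintype σ] [Fintype κ]
  [DecidableEq ρ] [DecidableEq σ] [DecidableEq κ]

/-- The map `psi` on functions of two variables. -/
def psif (X : (ρ ⊕ σ) → (ρ ⊕ κ) → ℂ) : (ρ ⊕ σ) → (ρ ⊕ κ) → ℂ :=
  fun i j => psi (Matrix.of X) i j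

theorem contDiff_Lf (i : ρ ⊕ σ) (k : ρ) :
    ContDiff ℂ 1 (fun X : (ρ ⊕ σ) → (ρ ⊕ κ) → ℂ => Lm (Matrix.of X) i k) := by
  rcases i with i | i
  · simp only [Lm, Matrix.fromRows_apply_inl]
    exact contDiff_const
  · simp only [Lm, Matrix.fromRows_apply_inr, Matrix.toBlocks₂₁, Matrix.of_apply]
    fun_prop

theorem contDiff_Uf (k : ρ) (j : ρ ⊕ κ) :
    ContDiff ℂ 1 (fun X : (ρ ⊕ σ) → (ρ ⊕ κ) → ℂ => Um (Matrix.of X) k j) := by
  rcases j with j | j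
  · simp only [Um, Matrix.fromCols_apply_inl]
    exact contDiff_const
  · simp only [Um, Matrix.fromCols_apply_inr, Matrix.toBlocks₁₂, Matrix.of_apply]
    fun_prop

theorem contDiff_Nf (i : ρ ⊕ σ) (k : σ) :
    ContDiff ℂ 1 (fun X : (ρ ⊕ σ) → (ρ ⊕ κ) → ℂ => Nm (Matrix.of X) i k) := by
  rcases i with i | i
  · simp only [Nm, Matrix.fromRows_apply_inl, Matrix.toBlocks₂₁, Matrix.of_apply,
      Matrix.neg_apply, Matrix.transpose_apply]
    fun_prop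
  · simp only [Nm, Matrix.fromRows_apply_inr]
    exact contDiff_const

theorem contDiff_Vf (k : κ) (j : ρ ⊕ κ) :
    ContDiff ℂ 1 (fun X : (ρ ⊕ σ) → (ρ ⊕ κ) → ℂ => Vm (Matrix.of X) k j) := by
  rcases j with j | j
  · simp only [Vm, Matrix.fromCols_apply_inl, Matrix.toBlocks₁₂, Matrix.of_apply,
      Matrix.neg_apply, Matrix.transpose_apply]
    fun_prop
  · simp only [Vm, Matrix.fromCols_apply_inr]
    exact contDiff_const

theorem contDiff_pmatf (i : ρ ⊕ σ) (j : ρ ⊕ κ) :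
    ContDiff ℂ 1 (fun X : (ρ ⊕ σ) → (ρ ⊕ κ) → ℂ => pmat (Matrix.of X) i j) := by
  simp only [pmat, Matrix.mul_apply]
  refine ContDiff.sum fun l _ => ContDiff.mul (ContDiff.sum fun k _ =>
    ContDiff.mul (contDiff_Lf i k) ?_) (contDiff_Uf l j)
  simp only [Matrix.toBlocks₁₁, Matrix.of_apply]
  fun_prop

theorem contDiff_gmatf (i : ρ ⊕ σ) (j : ρ ⊕ κ) :
    ContDiff ℂ 1 (fun X : (ρ ⊕ σ) → (ρ ⊕ κ) → ℂ => gmat (Matrix.of X) i j) := by
  simp only [gmat, Matrix.mul_apply]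
  refine ContDiff.sum fun l _ => ContDiff.mul (ContDiff.sum fun k _ =>
    ContDiff.mul (contDiff_Nf i k) ?_) (contDiff_Vf l j)
  simp only [Matrix.toBlocks₂₂, Matrix.of_apply]
  fun_prop

theorem contDiff_psif :
    ContDiff ℂ 1 (psif : ((ρ ⊕ σ) → (ρ ⊕ κ) → ℂ) → ((ρ ⊕ σ) → (ρ ⊕ κ) → ℂ)) := by
  rw [contDiff_pi]
  intro i
  rw [contDiff_pi]
  intro j
  exact (contDiff_pmatf i j).mul (contDiff_const.add (contDiff_gmatf i j))

/-- At a non-degenerate point the map `psi` sends neighbourhoods to neighbourhoods. -/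
theorem map_nhds_psif (X : (ρ ⊕ σ) → (ρ ⊕ κ) → ℂ) (hX : (Jac (Matrix.of X)).det ≠ 0) :
    Filter.map psif (𝓝 X) = 𝓝 (psif X) := by
  have hcd : ContDiffAt ℂ 1 (psif : ((ρ ⊕ σ) → (ρ ⊕ κ) → ℂ) → ((ρ ⊕ σ) → (ρ ⊕ κ) → ℂ)) X :=
    contDiff_psif.contDiffAt
  have hs := hcd.hasStrictFDerivAt one_ne_zero
  apply hs.map_nhds_eq_of_surj
  set D := fderiv ℂ (psif : ((ρ ⊕ σ) → (ρ ⊕ κ) → ℂ) → ((ρ ⊕ σ) → (ρ ⊕ κ) → ℂ)) X with hD
  have hinj : Function.Injective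
      (D : ((ρ ⊕ σ) → (ρ ⊕ κ) → ℂ) →ₗ[ℂ] ((ρ ⊕ σ) → (ρ ⊕ κ) → ℂ)) := by
    rw [injective_iff_map_eq_zero]
    intro Y hY
    have hY' : D Y = 0 := hY
    have hl : HasDerivAt (fun t : ℂ => psif (X + t • Y)) (0 : (ρ ⊕ σ) → (ρ ⊕ κ) → ℂ) 0 := by
      have h1 := hs.hasFDerivAt.hasLineDerivAt Y
      rw [hY'] at h1
      exact h1
    have h0 : Matrix.of Y = 0 := by
      apply dpsi_eq_zero_of_det (Matrix.of X) _ hX
      ext i j
      have h1 := hasDerivAt_pi.mp (hasDerivAt_pi.mp hl i) j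
      exact (hasDerivAt_psi (Matrix.of X) (Matrix.of Y) i j).unique h1
    exact h0
  have hsurj := (LinearMap.injective_iff_surjective (f := (D : ((ρ ⊕ σ) → (ρ ⊕ κ) → ℂ) →ₗ[ℂ]
    ((ρ ⊕ σ) → (ρ ⊕ κ) → ℂ)))).mp hinj
  exact LinearMap.range_eq_top.mpr hsurj

/-- Non-degenerate critical points persist: if the data `d` have a set `S` of non-degenerate
critical points, then an open set of data has at least as many critical points. -/
theorem LB_of_nondeg (d : Matrix (ρ ⊕ σ) (ρ ⊕ κ) ℂ) (S : Finset (Matrix (ρ ⊕ σ) (ρ ⊕ κ) ℂ))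
    (hS : ∀ P ∈ S, PCrit (Fintype.card ρ) d P ∧ P.toBlocks₁₁.det ≠ 0 ∧
      (Jac (chart d P)).det ≠ 0) :
    LB (ρ ⊕ σ) (ρ ⊕ κ) (Fintype.card ρ) S.card := by
  classical
  set Z : Matrix (ρ ⊕ σ) (ρ ⊕ κ) ℂ → ((ρ ⊕ σ) → (ρ ⊕ κ) → ℂ) := fun P i j => chart d P i j with hZ
  have hZof : ∀ P, Matrix.of (Z P) = chart d P := fun P => rfl
  have hZinj : Set.InjOn Z S := by
    intro P hP Q hQ h
    obtain ⟨hP1, hP2, -⟩ := hS P hP
    obtain ⟨hQ1, hQ2, -⟩ := hS Q hQ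
    have h1 : chart d P = chart d Q := by
      ext i j
      exact congrFun (congrFun h i) j
    rw [← pmat_chart d P hP1.rk hP2, h1, pmat_chart d Q hQ1.rk hQ2]
  have hpsi : ∀ P ∈ S, psif (Z P) = fun i j => d i j := by
    intro P hP
    obtain ⟨hP1, hP2, -⟩ := hS P hP
    funext i j
    change psi (Matrix.of (Z P)) i j = d i j
    rw [hZof, psi_chart d P hP1 hP2]
  obtain ⟨V, hV, hVdisj⟩ := ((S.image Z).finite_toSet).t2_separation
  set Ngood : Set ((ρ ⊕ σ) → (ρ ⊕ κ) → ℂ) := {X | (Matrix.of X).toBlocks₁₁.det ≠ 0 ∧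
    ∀ i j, pmat (Matrix.of X) i j ≠ 0} with hNgood
  have hNopen : IsOpen Ngood := by
    have h1 : Ngood = {X | (Matrix.of X).toBlocks₁₁.det ≠ 0} ∩
        ⋂ i, ⋂ j, {X | pmat (Matrix.of X) i j ≠ 0} := by
      ext z
      simp [hNgood]
    rw [h1]
    apply IsOpen.inter
    · have hc : Continuous fun X : (ρ ⊕ σ) → (ρ ⊕ κ) → ℂ => (Matrix.of X).toBlocks₁₁.det := by
        apply Continuous.matrix_det
        apply continuous_matrix
        intro i j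
        simp only [Matrix.toBlocks₁₁, Matrix.of_apply]
        fun_prop
      exact isOpen_ne_fun hc continuous_const
    · apply isOpen_iInter_of_finite
      intro i
      apply isOpen_iInter_of_finite
      intro j
      exact isOpen_ne_fun (contDiff_pmatf i j).continuous continuous_const
  have hZgood : ∀ P ∈ S, Z P ∈ Ngood := by
    intro P hP
    obtain ⟨hP1, hP2, -⟩ := hS P hP
    refine ⟨?_, ?_⟩
    · rw [hZof]
      simpa [chart] using hP2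
    · intro i j
      rw [hZof, pmat_chart d P hP1.rk hP2]
      exact hP1.ne i j
  have hO : ∀ P ∈ S, psif '' (V (Z P) ∩ Ngood) ∈ 𝓝 (fun i j => d i j) := by
    intro P hP
    have h1 := map_nhds_psif (Z P) (by rw [hZof]; exact (hS P hP).2.2)
    have h2 : V (Z P) ∩ Ngood ∈ 𝓝 (Z P) :=
      ((hV (Z P)).2.inter hNopen).mem_nhds ⟨(hV (Z P)).1, hZgood P hP⟩
    have h3 := Filter.image_mem_map (m := psif) h2
    rw [h1, hpsi P hP] at h3
    exact h3
  have hO' : (⋂ P ∈ S, psif '' (V (Z P) ∩ Ngood)) ∈ 𝓝 (fun i j => d i j) :=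
    (Filter.biInter_finset_mem S).mpr hO
  obtain ⟨O, hOsub, hOopen, hdO⟩ := mem_nhds_iff.mp hO'
  refine ⟨O, hOopen, ⟨_, hdO⟩, ?_⟩
  intro u hu
  have hmem := hOsub hu
  rw [Set.mem_iInter₂] at hmem
  have hch : ∀ P, ∃ X : (ρ ⊕ σ) → (ρ ⊕ κ) → ℂ, P ∈ S →
      X ∈ V (Z P) ∩ Ngood ∧ psif X = u := by
    intro P
    by_cases hP : P ∈ S
    · obtain ⟨X, hX, hX'⟩ := hmem P hP
      exact ⟨X, fun _ => ⟨hX, hX'⟩⟩
    · exact ⟨0, fun h => absurd h hP⟩
  choose X hX using hch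
  have hpsiX : ∀ P ∈ S, psi (Matrix.of (X P)) = Matrix.of u := by
    intro P hP
    ext i j
    exact congrFun (congrFun (hX P hP).2 i) j
  refine ⟨S.image fun P => pmat (Matrix.of (X P)), ?_, ?_⟩
  · rw [Finset.card_image_of_injOn]
    intro P hP Q hQ hPQ
    have h1 : Matrix.of (X P) = Matrix.of (X Q) := by
      rw [← chart_pmat _ (hX P hP).1.2.1 (hX P hP).1.2.2,
        ← chart_pmat _ (hX Q hQ).1.2.1 (hX Q hQ).1.2.2, hpsiX P hP, hpsiX Q hQ]
      have hPQ' : pmat (Matrix.of (X P)) = pmat (Matrix.of (X Q)) := hPQ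
      rw [hPQ']
    have h2 : X P = X Q := by
      funext i j
      exact congrFun (congrFun h1 i) j
    by_contra hne
    have h4 : Z P ≠ Z Q := fun h => hne (hZinj hP hQ h)
    have h5 := hVdisj (Finset.mem_coe.mpr (Finset.mem_image_of_mem Z hP))
      (Finset.mem_coe.mpr (Finset.mem_image_of_mem Z hQ)) h4
    exact Set.disjoint_left.mp h5 (hX P hP).1.1 (h2 ▸ (hX Q hQ).1.1)
  · intro p hp
    obtain ⟨P, hP, rfl⟩ := Finset.mem_image.mp hp
    have h1 := pcrit_pmat _ (hX P hP).1.2.1 (hX P hP).1.2.2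
    rw [hpsiX P hP] at h1
    exact h1

end Pool.ML
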