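import Pool.Agent.ML61.Extra

/-!
# The rank of the generic columns of a solution
-/

set_option linter.unusedSectionVars false
set_option linter.unusedSimpArgs false

namespace Pool.ML

open Matrix

variable {ρ σ κ ε ν : Type} [Fintype ρ] [Fintype σ] [Fintype κ] [Fintype ε] [Fintype ν]
  [DecidableEq ρ] [DecidableEq σ] [DecidableEq κ] [DecidableEq ε] [DecidableEq ν]

/-- The rank of the generic columns, for at least as many generic columns as rows. -/
theorem Sol.rank_of_le {u : Matrix (ρ ⊕ σ) ν ℂ}
    {w : ρ ⊕ σ → ℂ} {c : ε → ℂ} {A : Matrix σ ρ ℂ} {y : Matrix ρ (ν ⊕ ε) ℂ}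
    {g : Matrix σ (ν ⊕ ε) ℂ} (hS : SAlg u w c)
    (hc : Fintype.card ρ + Fintype.card σ ≤ Fintype.card ν)
    (h : Sol u w c A y g) : (y.submatrix id Sum.inl).rank = Fintype.card ρ := by
  classical
  obtain ⟨t, ht⟩ : ∃ t, (y.submatrix id (Sum.inl : ν → ν ⊕ ε)).rank = t := ⟨_, rfl⟩
  have htr : t ≤ Fintype.card ρ := by
    rw [← ht]
    exact Matrix.rank_le_card_height _
  have htν : t ≤ Fintype.card ν := by
    rw [← ht]
    exact Matrix.rank_le_card_width _
  obtain ⟨a, b, hab⟩ := exists_minor_ne (ρ := Fin t) (y.submatrix id (Sum.inl : ν → ν ⊕ ε))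
    (by simp [ht])
  have hb : Function.Injective b := by
    intro k l hkl
    by_contra hne
    apply hab
    exact Matrix.det_zero_of_column_eq hne (by intro i; simp [hkl])
  have hmem : ∀ x, rfam w c A y g a b x ∈ acl (Set.range (rfam w c A y g a b)) :=
    fun x => subset_acl _ ⟨x, rfl⟩
  have hfin := h.mem_of_rfam ht a b hab _ hmem (h.extra hS (acl_mono (rfam_sub w c A y g a b))
    fun e => hmem (Sum.inr (Sum.inl (Sum.inr e))))
  have hcard := card_le_of_acl _ _ hS hfin.2.2
  rw [card_rfam b hb] at hcard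
  simp only [Fintype.card_sum, Fintype.card_prod] at hcard
  rw [ht]
  by_contra hne
  have hlt : t < Fintype.card ρ := lt_of_le_of_ne htr hne
  obtain ⟨d, hd⟩ := Nat.exists_eq_add_of_lt hlt
  obtain ⟨f, hf⟩ := Nat.exists_eq_add_of_le htν
  rw [hf, Nat.add_sub_cancel_left] at hcard
  rw [hf, hd] at hc
  rw [hd] at hcard
  nlinarith

theorem card_compl_range {t : ℕ} (b : Fin t → ν) (hb : Function.Injective b) :
    Fintype.card {j : ν // j ∉ Set.range b} = Fintype.card ν - t := by
  classical
  rw [Fintype.card_subtype_compl]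
  congr 1
  exact (Fintype.card_congr (Equiv.ofInjective b hb)).symm.trans (Fintype.card_fin t)

/-- The normalised extra columns are algebraic over `A` and `w`. -/
theorem Sol.extra_norm {u : Matrix (ρ ⊕ σ) ν ℂ}
    {w : ρ ⊕ σ → ℂ} {c : ε → ℂ} {A : Matrix σ ρ ℂ} {y : Matrix ρ (ν ⊕ ε) ℂ}
    {g : Matrix σ (ν ⊕ ε) ℂ} (hS : SAlg u w c) (h : Sol u w c A y g) :
    (∀ k e, y k (Sum.inr e) / c e ∈
      acl (Set.range (fun x : σ × ρ => A x.1 x.2) ∪ Set.range w)) ∧
    (∀ s e, g s (Sum.inr e) ∈
      acl (Set.range (fun x : σ × ρ => A x.1 x.2) ∪ Set.range w)) := by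
  have key : ∀ e : ε, (∀ k, y k (Sum.inr e) / c e ∈
      acl (Set.range (fun x : σ × ρ => A x.1 x.2) ∪ Set.range w)) ∧
      (∀ s, g s (Sum.inr e) ∈
      acl (Set.range (fun x : σ × ρ => A x.1 x.2) ∪ Set.range w)) := by
    intro e
    exact fib_alg A w hS.w_ind.linearIndependent (fun k => y k (Sum.inr e) / c e)
      (fun s => g s (Sum.inr e)) (by
        intro i
        have h2 := h.eq i (Sum.inr e)
        have h3 : (LA A *ᵥ fun k => y k (Sum.inr e) / c e) i =
            (LA A * y) i (Sum.inr e) / c e := by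
          simp only [Matrix.mulVec, dotProduct, Matrix.mul_apply]
          rw [Finset.sum_div]
          exact Finset.sum_congr rfl fun k _ => by rw [mul_div_assoc]
        have h4 : (NA A *ᵥ fun s => g s (Sum.inr e)) i = (NA A * g) i (Sum.inr e) := rfl
        rw [h3, h4, div_mul_eq_mul_div, h2]
        simp only [sdata, Matrix.of_apply, Sum.elim_inr]
        rw [mul_div_cancel_left₀ _ (hS.c_ne e)])
  exact ⟨fun k e => (key e).1 k, fun s e => (key e).2 s⟩

theorem LA_mul_inl {J : Type} (A : Matrix σ ρ ℂ) (y : Matrix ρ J ℂ) (k : ρ) (j : J) :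
    (LA A * y) (Sum.inl k) j = y k j := by
  simp [LA, Matrix.mul_apply, Matrix.one_apply]

theorem LA_mul_inr {J : Type} (A : Matrix σ ρ ℂ) (y : Matrix ρ J ℂ) (s : σ) (j : J) :
    (LA A * y) (Sum.inr s) j = ∑ k, A s k * y k j := by
  simp [LA, Matrix.mul_apply]

theorem NA_mul_zero {J : Type} (A : Matrix σ ρ ℂ) (g : Matrix σ J ℂ) (j : J)
    (hg : ∀ s, g s j = 0) (i : ρ ⊕ σ) : (NA A * g) i j = 0 := by
  rw [Matrix.mul_apply]
  exact Finset.sum_eq_zero fun s _ => by rw [hg s, mul_zero]

/-- The rank of the generic columns, for one generic column less than rows and at least one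
extra column. -/
theorem Sol.rank_of_succ {u : Matrix (ρ ⊕ σ) ν ℂ}
    {w : ρ ⊕ σ → ℂ} {c : ε → ℂ} {A : Matrix σ ρ ℂ} {y : Matrix ρ (ν ⊕ ε) ℂ}
    {g : Matrix σ (ν ⊕ ε) ℂ} (hS : SAlg u w c)
    (hρν : Fintype.card ρ ≤ Fintype.card ν)
    (hc : Fintype.card ρ + Fintype.card σ ≤ Fintype.card ν + 1) (hε : Nonempty ε)
    (h : Sol u w c A y g) : (y.submatrix id Sum.inl).rank = Fintype.card ρ := by
  classical
  obtain ⟨t, ht⟩ : ∃ t, (y.submatrix id (Sum.inl : ν → ν ⊕ ε)).rank = t := ⟨_, rfl⟩
  have htr : t ≤ Fintype.card ρ := by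
    rw [← ht]
    exact Matrix.rank_le_card_height _
  have htν : t ≤ Fintype.card ν := by
    rw [← ht]
    exact Matrix.rank_le_card_width _
  obtain ⟨a, b, hab⟩ := exists_minor_ne (ρ := Fin t) (y.submatrix id (Sum.inl : ν → ν ⊕ ε))
    (by simp [ht])
  have hb : Function.Injective b := by
    intro k l hkl
    by_contra hne
    apply hab
    exact Matrix.det_zero_of_column_eq hne (by intro i; simp [hkl])
  rw [ht]
  by_contra hne
  have hlt : t < Fintype.card ρ := lt_of_le_of_ne htr hne
  obtain ⟨d, hd⟩ := Nat.exists_eq_add_of_lt hlt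
  obtain ⟨f, hf⟩ := Nat.exists_eq_add_of_le htν
  have hfc : Fintype.card ν - t = f := by omega
  obtain ⟨e₁⟩ := hε
  obtain ⟨k₀⟩ : Nonempty ρ := Fintype.card_pos_iff.mp (by omega)
  obtain ⟨hy', hg'⟩ := h.extra_norm hS
  have hyne : ∀ e, y k₀ (Sum.inr e) / c e ≠ 0 := by
    intro e he
    have h1 := h.eq (Sum.inl k₀) (Sum.inr e)
    rw [LA_mul_inl] at h1
    have h2 : y k₀ (Sum.inr e) = 0 := by
      rcases div_eq_zero_iff.mp he with h3 | h3
      · exact h3
      · exact absurd h3 (hS.c_ne e)
    rw [h2, zero_mul] at h1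
    simp only [sdata, Matrix.of_apply, Sum.elim_inr] at h1
    exact mul_ne_zero (hS.c_ne e) (hS.w_ind.ne_zero _) h1.symm
  by_cases hg0 : ∀ s, g s (Sum.inr e₁) = 0
  · -- `w` is in the column space
    obtain ⟨x, hx⟩ : ∃ x : (σ × ρ) ⊕ ((ρ ⊕ ε) ⊕ ((ρ × Fin t) ⊕
      ((Fin t × {j : ν // j ∉ Set.range b}) ⊕ (σ × {j : ν // j ∉ Set.range b})))) → ℂ,
      x = Sum.elim (fun x => A x.1 x.2) (Sum.elim (Sum.elim (fun k => w (Sum.inl k)) c)
        (Sum.elim (fun x => y x.1 (Sum.inl (b x.2))) (Sum.elim (fun x => y (a x.1) (Sum.inl x.2.1))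
          (fun x => g x.1 (Sum.inl x.2.1))))) := ⟨_, rfl⟩
    have hm : ∀ z, x z ∈ acl (Set.range x) := fun z => subset_acl _ ⟨z, rfl⟩
    have hw : ∀ i, w i ∈ acl (Set.range x) := by
      have hl : ∀ k, w (Sum.inl k) ∈ acl (Set.range x) := by
        intro k
        have := hm (Sum.inr (Sum.inl (Sum.inl k)))
        rw [congrFun hx (Sum.inr (Sum.inl (Sum.inl k)))] at this
        exact this
      rintro (k | s)
      · exact hl k
      · have h1 : w (Sum.inr s) = ∑ k, A s k * w (Sum.inl k) := by
          have h2 := h.eq (Sum.inr s) (Sum.inr e₁)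
          rw [LA_mul_inr, NA_mul_zero A g _ hg0, add_zero, mul_one] at h2
          have h3 : ∀ k, y k (Sum.inr e₁) = c e₁ * w (Sum.inl k) := by
            intro k
            have h4 := h.eq (Sum.inl k) (Sum.inr e₁)
            rwa [LA_mul_inl, NA_mul_zero A g _ hg0, add_zero, mul_one] at h4
          have h5 : c e₁ * w (Sum.inr s) = c e₁ * ∑ k, A s k * w (Sum.inl k) := by
            rw [Finset.mul_sum]
            have h6 : sdata u w c (Sum.inr s) (Sum.inr e₁) = c e₁ * w (Sum.inr s) := rfl
            rw [← h6, ← h2]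
            exact Finset.sum_congr rfl fun k _ => by rw [h3 k]; ring
          exact mul_left_cancel₀ (hS.c_ne e₁) h5
        rw [h1]
        refine sum_mem fun k _ => mul_mem ?_ (hl k)
        have := hm (Sum.inl (s, k))
        rw [congrFun hx (Sum.inl (s, k))] at this
        exact this
    have hmem : ∀ z, rfam w c A y g a b z ∈ acl (Set.range x) := by
      rintro (z | (i | e) | z | z | z)
      · have := hm (Sum.inl z)
        rw [congrFun hx (Sum.inl z)] at this
        exact this
      · exact hw i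
      · have := hm (Sum.inr (Sum.inl (Sum.inr e)))
        rw [congrFun hx (Sum.inr (Sum.inl (Sum.inr e)))] at this
        exact this
      · have := hm (Sum.inr (Sum.inr (Sum.inl z)))
        rw [congrFun hx (Sum.inr (Sum.inr (Sum.inl z)))] at this
        exact this
      · have := hm (Sum.inr (Sum.inr (Sum.inr (Sum.inl z))))
        rw [congrFun hx (Sum.inr (Sum.inr (Sum.inr (Sum.inl z))))] at this
        exact this
      · have := hm (Sum.inr (Sum.inr (Sum.inr (Sum.inr z))))
        rw [congrFun hx (Sum.inr (Sum.inr (Sum.inr (Sum.inr z))))] at this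
        exact this
    have hK : acl (Set.range (fun x : σ × ρ => A x.1 x.2) ∪ Set.range w) ≤ acl (Set.range x) := by
      apply acl_le
      rintro _ (⟨z, rfl⟩ | ⟨i, rfl⟩)
      · exact hmem (Sum.inl z)
      · exact hw i
    have hfin := h.mem_of_rfam ht a b hab _ hmem (h.extra hS hK
      fun e => hmem (Sum.inr (Sum.inl (Sum.inr e))))
    have hcard := card_le_of_acl _ _ hS hfin.2.2
    simp only [Fintype.card_sum, Fintype.card_prod, Fintype.card_fin,
      card_compl_range b hb, hfc] at hcard
    rw [hf, hd] at hcard hc hρν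
    rcases Nat.eq_zero_or_pos (Fintype.card σ) with h0 | h0
    · rw [h0] at hcard hc
      nlinarith
    · nlinarith
  · push Not at hg0
    obtain ⟨s₀, hs₀⟩ := hg0
    by_cases hE : ∀ k s, ∑ e, y k (Sum.inr e) * g s (Sum.inr e) = 0
    · -- a linear relation between the numbers `c`
      obtain ⟨x, hx⟩ : ∃ x : (σ × ρ) ⊕ (((ρ ⊕ σ) ⊕ {e : ε // e ≠ e₁}) ⊕ ((ρ × Fin t) ⊕
        ((Fin t × {j : ν // j ∉ Set.range b}) ⊕ (σ × {j : ν // j ∉ Set.range b})))) → ℂ,
        x = Sum.elim (fun x => A x.1 x.2) (Sum.elim (Sum.elim w (fun e => c e.1))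
          (Sum.elim (fun x => y x.1 (Sum.inl (b x.2)))
            (Sum.elim (fun x => y (a x.1) (Sum.inl x.2.1))
            (fun x => g x.1 (Sum.inl x.2.1))))) := ⟨_, rfl⟩
      have hm : ∀ z, x z ∈ acl (Set.range x) := fun z => subset_acl _ ⟨z, rfl⟩
      have hK : acl (Set.range (fun x : σ × ρ => A x.1 x.2) ∪ Set.range w) ≤
          acl (Set.range x) := by
        apply acl_le
        rintro _ (⟨z, rfl⟩ | ⟨i, rfl⟩)
        · have := hm (Sum.inl z)
          rw [congrFun hx (Sum.inl z)] at this
          exact this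
        · have := hm (Sum.inr (Sum.inl (Sum.inl i)))
          rw [congrFun hx (Sum.inr (Sum.inl (Sum.inl i)))] at this
          exact this
      have hc1 : ∀ e, e ≠ e₁ → c e ∈ acl (Set.range x) := by
        intro e he
        have := hm (Sum.inr (Sum.inl (Sum.inr ⟨e, he⟩)))
        rw [congrFun hx (Sum.inr (Sum.inl (Sum.inr ⟨e, he⟩)))] at this
        exact this
      have hc0 : c e₁ ∈ acl (Set.range x) := by
        have h1 := hE k₀ s₀
        rw [← Finset.add_sum_erase _ _ (Finset.mem_univ e₁)] at h1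
        have h2 : c e₁ * ((y k₀ (Sum.inr e₁) / c e₁) * g s₀ (Sum.inr e₁)) =
            -∑ e ∈ Finset.univ.erase e₁, c e * ((y k₀ (Sum.inr e) / c e) *
              g s₀ (Sum.inr e)) := by
          have h3 : ∀ e, c e * ((y k₀ (Sum.inr e) / c e) * g s₀ (Sum.inr e)) =
              y k₀ (Sum.inr e) * g s₀ (Sum.inr e) := by
            intro e
            have := hS.c_ne e
            field_simp
          rw [h3, Finset.sum_congr rfl fun e _ => h3 e]
          linear_combination h1
        have h4 : (y k₀ (Sum.inr e₁) / c e₁) * g s₀ (Sum.inr e₁) ≠ 0 :=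
          mul_ne_zero (hyne e₁) hs₀
        have h5 : c e₁ = (-∑ e ∈ Finset.univ.erase e₁, c e * ((y k₀ (Sum.inr e) / c e) *
              g s₀ (Sum.inr e))) / ((y k₀ (Sum.inr e₁) / c e₁) * g s₀ (Sum.inr e₁)) := by
          rw [← h2, mul_div_assoc, div_self h4, mul_one]
        rw [h5]
        refine div_mem (neg_mem (sum_mem fun e he => ?_)) (mul_mem (hK (hy' _ _)) (hK (hg' _ _)))
        exact mul_mem (hc1 e (Finset.ne_of_mem_erase he))
          (mul_mem (hK (hy' _ _)) (hK (hg' _ _)))
      have hcK : ∀ e, c e ∈ acl (Set.range x) := by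
        intro e
        by_cases he : e = e₁
        · rw [he]
          exact hc0
        · exact hc1 e he
      have hmem : ∀ z, rfam w c A y g a b z ∈ acl (Set.range x) := by
        rintro (z | (i | e) | z | z | z)
        · have := hm (Sum.inl z)
          rw [congrFun hx (Sum.inl z)] at this
          exact this
        · have := hm (Sum.inr (Sum.inl (Sum.inl i)))
          rw [congrFun hx (Sum.inr (Sum.inl (Sum.inl i)))] at this
          exact this
        · exact hcK e
        · have := hm (Sum.inr (Sum.inr (Sum.inl z)))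
          rw [congrFun hx (Sum.inr (Sum.inr (Sum.inl z)))] at this
          exact this
        · have := hm (Sum.inr (Sum.inr (Sum.inr (Sum.inl z))))
          rw [congrFun hx (Sum.inr (Sum.inr (Sum.inr (Sum.inl z))))] at this
          exact this
        · have := hm (Sum.inr (Sum.inr (Sum.inr (Sum.inr z))))
          rw [congrFun hx (Sum.inr (Sum.inr (Sum.inr (Sum.inr z))))] at this
          exact this
      have hfin := h.mem_of_rfam ht a b hab _ hmem (h.extra hS hK hcK)
      have hcard := card_le_of_acl _ _ hS hfin.2.2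
      have hce : Fintype.card {e : ε // e ≠ e₁} + 1 = Fintype.card ε := by
        have h1 : 0 < Fintype.card ε := Fintype.card_pos_iff.mpr ⟨e₁⟩
        rw [Fintype.card_subtype_compl, Fintype.card_subtype_eq]
        omega
      simp only [Fintype.card_sum, Fintype.card_prod, Fintype.card_fin,
        card_compl_range b hb, hfc] at hcard
      rw [hf, hd] at hcard hc hρν
      nlinarith
    · -- a linear relation between the columns of `y`
      push Not at hE
      obtain ⟨k₁, s₁, hks⟩ := hE
      have hfac := factor_minor (y.submatrix id (Sum.inl : ν → ν ⊕ ε)) ht a b hab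
      obtain ⟨Z, hZ⟩ : ∃ Z : Matrix (Fin t) ν ℂ, Z =
        ((y.submatrix id (Sum.inl : ν → ν ⊕ ε)).submatrix a b)⁻¹ *
          (y.submatrix id (Sum.inl : ν → ν ⊕ ε)).submatrix a id := ⟨_, rfl⟩
      rw [← hZ] at hfac
      have hyZ : ∀ k j, y k (Sum.inl j) = ∑ l, y k (Sum.inl (b l)) * Z l j := by
        intro k j
        have h1 := congrFun (congrFun hfac k) j
        rw [Matrix.mul_apply] at h1
        exact h1
      obtain ⟨G, hG⟩ : ∃ G : Fin t → ℂ, G = fun l => ∑ j, Z l j * g s₁ (Sum.inl j) := ⟨_, rfl⟩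
      have hGE : ∀ k, ∑ l, y k (Sum.inl (b l)) * G l =
          -∑ e, y k (Sum.inr e) * g s₁ (Sum.inr e) := by
        intro k
        have h2 := congrFun (congrFun h.orth k) s₁
        rw [Matrix.mul_apply, Fintype.sum_sum_type, Matrix.zero_apply] at h2
        simp only [Matrix.transpose_apply] at h2
        have h3 : ∑ l, y k (Sum.inl (b l)) * G l = ∑ j, y k (Sum.inl j) * g s₁ (Sum.inl j) := by
          rw [hG]
          simp only [Finset.mul_sum]
          rw [Finset.sum_comm]
          refine Finset.sum_congr rfl fun j _ => ?_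
          rw [hyZ k j, Finset.sum_mul]
          exact Finset.sum_congr rfl fun l _ => by ring
        rw [h3]
        linear_combination h2
      obtain ⟨l₀, hl₀⟩ : ∃ l, G l ≠ 0 := by
        by_contra hall
        push Not at hall
        apply hks
        have h1 := hGE k₁
        rw [Finset.sum_eq_zero fun l _ => by rw [hall l, mul_zero]] at h1
        linear_combination h1
      obtain ⟨x, hx⟩ : ∃ x : (σ × ρ) ⊕ (((ρ ⊕ σ) ⊕ ε) ⊕ (((ρ × {l : Fin t // l ≠ l₀}) ⊕ Fin t) ⊕
        ((Fin t × {j : ν // j ∉ Set.range b}) ⊕ (σ × {j : ν // j ∉ Set.range b})))) → ℂ,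
        x = Sum.elim (fun x => A x.1 x.2) (Sum.elim (Sum.elim w c)
          (Sum.elim (Sum.elim (fun x => y x.1 (Sum.inl (b x.2.1))) G)
            (Sum.elim (fun x => y (a x.1) (Sum.inl x.2.1))
            (fun x => g x.1 (Sum.inl x.2.1))))) := ⟨_, rfl⟩
      have hm : ∀ z, x z ∈ acl (Set.range x) := fun z => subset_acl _ ⟨z, rfl⟩
      have hK : acl (Set.range (fun x : σ × ρ => A x.1 x.2) ∪ Set.range w) ≤
          acl (Set.range x) := by
        apply acl_le
        rintro _ (⟨z, rfl⟩ | ⟨i, rfl⟩)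
        · have := hm (Sum.inl z)
          rw [congrFun hx (Sum.inl z)] at this
          exact this
        · have := hm (Sum.inr (Sum.inl (Sum.inl i)))
          rw [congrFun hx (Sum.inr (Sum.inl (Sum.inl i)))] at this
          exact this
      have hcK : ∀ e, c e ∈ acl (Set.range x) := by
        intro e
        have := hm (Sum.inr (Sum.inl (Sum.inr e)))
        rw [congrFun hx (Sum.inr (Sum.inl (Sum.inr e)))] at this
        exact this
      have hex := h.extra hS hK hcK
      have hy1 : ∀ k l, l ≠ l₀ → y k (Sum.inl (b l)) ∈ acl (Set.range x) := by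
        intro k l hl
        have := hm (Sum.inr (Sum.inr (Sum.inl (Sum.inl (k, ⟨l, hl⟩)))))
        rw [congrFun hx (Sum.inr (Sum.inr (Sum.inl (Sum.inl (k, ⟨l, hl⟩)))))] at this
        exact this
      have hGK : ∀ l, G l ∈ acl (Set.range x) := by
        intro l
        have := hm (Sum.inr (Sum.inr (Sum.inl (Sum.inr l))))
        rw [congrFun hx (Sum.inr (Sum.inr (Sum.inl (Sum.inr l))))] at this
        exact this
      have hy0 : ∀ k, y k (Sum.inl (b l₀)) ∈ acl (Set.range x) := by
        intro k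
        have h1 := hGE k
        rw [← Finset.add_sum_erase _ _ (Finset.mem_univ l₀)] at h1
        have h2 : y k (Sum.inl (b l₀)) = (-(∑ e, y k (Sum.inr e) * g s₁ (Sum.inr e)) -
            ∑ l ∈ Finset.univ.erase l₀, y k (Sum.inl (b l)) * G l) / G l₀ := by
          rw [eq_div_iff hl₀]
          linear_combination h1
        rw [h2]
        refine div_mem (sub_mem (neg_mem (sum_mem fun e _ => mul_mem (hex.1 _ _) (hex.2 _ _)))
          (sum_mem fun l hl => mul_mem (hy1 k l (Finset.ne_of_mem_erase hl)) (hGK l))) (hGK l₀)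
      have hmem : ∀ z, rfam w c A y g a b z ∈ acl (Set.range x) := by
        rintro (z | (i | e) | z | z | z)
        · have := hm (Sum.inl z)
          rw [congrFun hx (Sum.inl z)] at this
          exact this
        · have := hm (Sum.inr (Sum.inl (Sum.inl i)))
          rw [congrFun hx (Sum.inr (Sum.inl (Sum.inl i)))] at this
          exact this
        · exact hcK e
        · obtain ⟨k, l⟩ := z
          by_cases hl : l = l₀
          · rw [hl]
            exact hy0 k
          · exact hy1 k l hl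
        · have := hm (Sum.inr (Sum.inr (Sum.inr (Sum.inl z))))
          rw [congrFun hx (Sum.inr (Sum.inr (Sum.inr (Sum.inl z))))] at this
          exact this
        · have := hm (Sum.inr (Sum.inr (Sum.inr (Sum.inr z))))
          rw [congrFun hx (Sum.inr (Sum.inr (Sum.inr (Sum.inr z))))] at this
          exact this
      have hfin := h.mem_of_rfam ht a b hab _ hmem hex
      have hcard := card_le_of_acl _ _ hS hfin.2.2
      obtain ⟨t', ht'⟩ : ∃ t', t = t' + 1 := ⟨t - 1, by
        have := l₀.2
        omega⟩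
      have hcl : Fintype.card {l : Fin t // l ≠ l₀} = t' := by
        rw [Fintype.card_subtype_compl, Fintype.card_subtype_eq, Fintype.card_fin]
        omega
      simp only [Fintype.card_sum, Fintype.card_prod, Fintype.card_fin, hcl,
        card_compl_range b hb, hfc] at hcard
      rw [hf, hd] at hcard hc hρν
      rw [ht'] at hcard hc hρν
      nlinarith

/-- The rank of the generic columns of a solution. -/
theorem Sol.rank {u : Matrix (ρ ⊕ σ) ν ℂ}
    {w : ρ ⊕ σ → ℂ} {c : ε → ℂ} {A : Matrix σ ρ ℂ} {y : Matrix ρ (ν ⊕ ε) ℂ}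
    {g : Matrix σ (ν ⊕ ε) ℂ} (hS : SAlg u w c) (hc : Ample ρ σ ν ε)
    (h : Sol u w c A y g) : (y.submatrix id Sum.inl).rank = Fintype.card ρ := by
  rcases hc.2 with hc' | hc'
  · exact h.rank_of_le hS hc'
  · exact h.rank_of_succ hS hc.1 hc'.1 hc'.2

end Pool.ML
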