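import Pool.Agent.ML61.Persist
import Pool.Agent.ML61.Gen
import Pool.Agent.ML61.NonDeg
import Pool.Agent.ML61.Limit

/-!
# The number of critical points of the data with proportional extra columns
-/

set_option linter.unusedSectionVars false
set_option linter.unusedSimpArgs false

namespace Pool.ML

open Matrix

section general

variable {I J I' J' : Type} [Fintype I] [Fintype J] [Fintype I'] [Fintype J']

theorem le_encard_PCrit {r K : ℕ} (h : LB I J r K) (v : Matrix I J ℂ) (hv : Alg v) :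
    (K : ℕ∞) ≤ {P | PCrit r v P}.encard := by
  classical
  obtain ⟨U, hU, ⟨u₁, hu₁⟩, hS⟩ := h
  have hcont : Continuous (fun x : (I × J) → ℂ => (fun i j => x (i, j) : I → J → ℂ)) := by
    fun_prop
  obtain ⟨x, hxU, hx⟩ := exists_algInd _ (hU.preimage hcont) ⟨fun a => u₁ a.1 a.2, hu₁⟩
  obtain ⟨S, hcard, hp⟩ := hS _ hxU
  obtain ⟨φ, hφ⟩ := exists_autom x (fun a : I × J => v a.1 a.2) hx hv
  have h1 : (Matrix.of fun i j => x (i, j)).map φ = v := by
    ext i j
    exact hφ (i, j)
  have hinj : Function.Injective fun p : Matrix I J ℂ => p.map φ :=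
    fun p q hpq => Matrix.map_injective φ.injective hpq
  have h2 : ((S.image fun p => p.map φ : Finset (Matrix I J ℂ)) : Set (Matrix I J ℂ)) ⊆
      {P | PCrit r v P} := by
    intro q hq
    rw [Finset.mem_coe] at hq
    obtain ⟨p, hpS, rfl⟩ := Finset.mem_image.mp hq
    have h3 := (hp p hpS).map φ
    rwa [h1] at h3
  have h3 : (S.image fun p => p.map φ).card = K := by
    rw [Finset.card_image_of_injective _ hinj, hcard]
  rw [← h3, ← Set.encard_coe_eq_coe_finsetCard]
  exact Set.encard_le_encard h2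

theorem image_submatrix_PCrit {r : ℕ} (u : Matrix I J ℂ) (e : I' ≃ I) (f : J' ≃ J) :
    (fun p : Matrix I J ℂ => p.submatrix e f) '' {P | PCrit r u P} =
      {P | PCrit r (u.submatrix e f) P} := by
  ext q
  constructor
  · rintro ⟨p, hp, rfl⟩
    exact PCrit.submatrix hp e f
  · intro hq
    refine ⟨q.submatrix e.symm f.symm, ?_, ?_⟩
    · have h1 := PCrit.submatrix hq e.symm f.symm
      rw [Matrix.submatrix_submatrix] at h1
      simpa using h1
    · simp

theorem submatrix_inj (e : I' ≃ I) (f : J' ≃ J) :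
    Function.Injective fun p : Matrix I J ℂ => p.submatrix e f := by
  intro p q hpq
  ext i j
  have := congrFun (congrFun hpq (e.symm i)) (f.symm j)
  simpa using this

theorem encard_submatrix_PCrit {r : ℕ} (u : Matrix I J ℂ) (e : I' ≃ I) (f : J' ≃ J) :
    {P | PCrit r (u.submatrix e f) P}.encard = {P | PCrit r u P}.encard := by
  rw [← image_submatrix_PCrit, (submatrix_inj e f).encard_image]

theorem finite_PCrit {r : ℕ} (hr : 1 ≤ r) (hI : r ≤ Fintype.card I) (hJ : r ≤ Fintype.card J)
    (v : Matrix I J ℂ) (hv : Alg v) : {P | PCrit r v P}.Finite := by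
  classical
  have hv' := hv.submatrix (Fintype.equivFin I).symm (Fintype.equivFin J).symm
  have h1 := (finite_of_alg hr hI hJ _ hv').1
  have hs := Alg.sum_ne (le_trans hr hI) (le_trans hr hJ) _ hv'
  have h2 := h1.image (fun p => (∑ i, ∑ j, (v.submatrix (Fintype.equivFin I).symm
    (Fintype.equivFin J).symm) i j) • p)
  rw [crit_image hs] at h2
  have h3 := encard_submatrix_PCrit (r := r) v (Fintype.equivFin I).symm
    (Fintype.equivFin J).symm
  rw [← Set.encard_lt_top_iff, ← h3, Set.encard_lt_top_iff]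
  exact h2

theorem exists_Alg_matrix : ∃ v : Matrix I J ℂ, Alg v := by
  classical
  obtain ⟨x, -, hx⟩ := exists_algInd (Set.univ : Set ((I × J) → ℂ)) isOpen_univ
    ⟨0, Set.mem_univ _⟩
  exact ⟨Matrix.of fun i j => x (i, j), hx⟩

end general

variable {ρ σ κ ε : Type} [Fintype ρ] [Fintype σ] [Fintype κ] [Fintype ε]
  [DecidableEq ρ] [DecidableEq σ] [DecidableEq κ] [DecidableEq ε]

/-- The special data have at most as many critical points as data with algebraically independent
entries. -/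
theorem spec_le {u : Matrix (ρ ⊕ σ) (ρ ⊕ κ) ℂ} {w : ρ ⊕ σ → ℂ} {c : ε → ℂ} (hS : SAlg u w c)
    (hc : Ample ρ σ (ρ ⊕ κ) ε)
    (v : Matrix (ρ ⊕ σ) (ρ ⊕ (κ ⊕ ε)) ℂ) (hv : Alg v) :
    {P | PCrit (Fintype.card ρ) (sdat u w c) P}.encard ≤
      {P | PCrit (Fintype.card ρ) v P}.encard := by
  classical
  rw [← ENat.forall_natCast_le_iff_le]
  intro K hK
  obtain ⟨t, ht, htK⟩ := Set.exists_subset_encard_eq hK
  have htf : t.Finite := by
    rw [← Set.encard_lt_top_iff, htK]
    exact ENat.natCast_lt_top K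
  have hcard : htf.toFinset.card = K := by
    have h1 := htf.encard_eq_coe_toFinset_card
    rw [htK] at h1
    exact_mod_cast h1.symm
  have h1 := LB_of_nondeg (sdat u w c) htf.toFinset (by
    intro P hP
    have hP1 : PCrit (Fintype.card ρ) (sdat u w c) P := ht (htf.mem_toFinset.mp hP)
    have hP2 := spec_minor_ne hS hc P hP1
    refine ⟨hP1, hP2, ?_⟩
    apply spec_Jac_ne hS (chart (sdat u w c) P) _ (psi_chart _ _ hP1 hP2)
    simpa [chart] using hP2)
  rw [hcard] at h1
  exact le_encard_PCrit h1 v hv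

/-- The special data have exactly as many critical points as data with algebraically independent
entries. -/
theorem spec_encard {u : Matrix (ρ ⊕ σ) (ρ ⊕ κ) ℂ} {w : ρ ⊕ σ → ℂ} {c : ε → ℂ} (hS : SAlg u w c)
    (hc : Ample ρ σ (ρ ⊕ κ) ε) (hρ : 1 ≤ Fintype.card ρ)
    (v : Matrix (ρ ⊕ σ) (ρ ⊕ (κ ⊕ ε)) ℂ) (hv : Alg v) :
    {P | PCrit (Fintype.card ρ) (sdat u w c) P}.encard =
      {P | PCrit (Fintype.card ρ) v P}.encard :=
  le_antisymm (spec_le hS hc v hv) (spec_ge hS hc hρ v hv)

/-- The number of critical points of the special data is that of data with algebraically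
independent entries. -/
theorem spec_count {m n r : ℕ} (hr : 1 ≤ r) (hm : r ≤ m)
    (hn : m ≤ n ∨ (r ≤ n ∧ m ≤ n + 1 ∧ Nonempty ε))
    (u : Matrix (Fin m) (Fin n) ℂ) (w : Fin m → ℂ) (c : ε → ℂ) (hS : SAlg u w c) :
    {P | PCrit r (sdata u w c) P}.Finite ∧
    ∀ v : Matrix (Fin m) (Fin n ⊕ ε) ℂ, Alg v →
      {P | PCrit r (sdata u w c) P}.ncard = {P | PCrit r v P}.ncard := by
  classical
  have hrn : r ≤ n := by
    rcases hn with hn | ⟨hn, -, -⟩
    · exact le_trans hm hn
    · exact hn
  have hA : Ample (Fin r) (Fin (m - r)) (Fin r ⊕ Fin (n - r)) ε := by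
    refine ⟨by simp, ?_⟩
    simp only [Fintype.card_sum, Fintype.card_fin]
    rcases hn with hn | ⟨-, hn, hε⟩
    · exact Or.inl (by omega)
    · exact Or.inr ⟨by omega, hε⟩
  have e : Fin r ⊕ Fin (m - r) ≃ Fin m :=
    Fintype.equivOfCardEq (by simp only [Fintype.card_sum, Fintype.card_fin]; omega)
  have f : Fin r ⊕ Fin (n - r) ≃ Fin n :=
    Fintype.equivOfCardEq (by simp only [Fintype.card_sum, Fintype.card_fin]; omega)
  have hS' := hS.submatrix e f
  set F : Fin r ⊕ (Fin (n - r) ⊕ ε) ≃ Fin n ⊕ ε :=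
    (Equiv.sumAssoc (Fin r) (Fin (n - r)) ε).symm.trans (f.sumCongr (Equiv.refl ε)) with hFdef
  have hsd : sdat (u.submatrix e f) (w ∘ e) c = (sdata u w c).submatrix e F := by
    ext i j
    rcases j with j | j | j <;> rfl
  have key : ∀ v : Matrix (Fin m) (Fin n ⊕ ε) ℂ, Alg v →
      {P | PCrit r (sdata u w c) P}.encard = {P | PCrit r v P}.encard := by
    intro v hv
    have h1 := spec_encard hS' hA (by
      rw [Fintype.card_fin]; exact hr) (v.submatrix e F) (hv.submatrix e F)
    rw [hsd, Fintype.card_fin, encard_submatrix_PCrit, encard_submatrix_PCrit] at h1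
    exact h1
  refine ⟨?_, fun v hv => ?_⟩
  · obtain ⟨v, hv⟩ := exists_Alg_matrix (I := Fin m) (J := Fin n ⊕ ε)
    rw [← Set.encard_lt_top_iff, key v hv, Set.encard_lt_top_iff]
    exact finite_PCrit hr (by rw [Fintype.card_fin]; exact hm) (by
      simp only [Fintype.card_sum, Fintype.card_fin]; omega) v hv
  · rw [Set.ncard_def, Set.ncard_def, key v hv]

end Pool.ML
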