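import Pool.Agent.ML14.Deriv

/-!
# Uniqueness of the solutions over the power series with given constant term
-/

set_option linter.unusedSectionVars false
set_option linter.unusedSimpArgs false

namespace Pool.ML

open Matrix

section taylor

variable {ρ σ κ : Type*} [Fintype ρ] [Fintype σ] [Fintype κ]
  [DecidableEq ρ] [DecidableEq σ] [DecidableEq κ]
variable {R : Type*} [CommRing R]

theorem pmat_taylor (X Z : Matrix (ρ ⊕ σ) (ρ ⊕ κ) R) (t : R) :
    ∃ E, pmat (X + t • Z) = pmat X + t • dpmat X Z + (t ^ 2) • E := by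
  refine ⟨Ld Z * Z.toBlocks₁₁ * Um X + Ld Z * X.toBlocks₁₁ * Ud Z + Lm X * Z.toBlocks₁₁ * Ud Z +
    t • (Ld Z * Z.toBlocks₁₁ * Ud Z), ?_⟩
  rw [pmat, Lm_add, Um_add, Ld_smul, Ud_smul, (blocks_add X (t • Z)).1, (blocks_smul t Z).1,
    pmat, dpmat]
  simp only [Matrix.add_mul, Matrix.mul_add, Matrix.smul_mul, Matrix.mul_smul, smul_add, smul_smul]
  simp only [pow_two, ← mul_assoc]
  abel

theorem gmat_taylor (X Z : Matrix (ρ ⊕ σ) (ρ ⊕ κ) R) (t : R) :
    ∃ E, gmat (X + t • Z) = gmat X + t • dgmat X Z + (t ^ 2) • E := by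
  refine ⟨Nd Z * Z.toBlocks₂₂ * Vm X + Nd Z * X.toBlocks₂₂ * Vd Z + Nm X * Z.toBlocks₂₂ * Vd Z +
    t • (Nd Z * Z.toBlocks₂₂ * Vd Z), ?_⟩
  rw [gmat, Nm_add, Vm_add, Nd_smul, Vd_smul, (blocks_add X (t • Z)).2.2.2,
    (blocks_smul t Z).2.2.2, gmat, dgmat]
  simp only [Matrix.add_mul, Matrix.mul_add, Matrix.smul_mul, Matrix.mul_smul, smul_add, smul_smul]
  simp only [pow_two, ← mul_assoc]
  abel

theorem psi_taylor (X Z : Matrix (ρ ⊕ σ) (ρ ⊕ κ) R) (t : R) :
    ∃ E, psi (X + t • Z) = psi X + t • dpsi X Z + (t ^ 2) • E := by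
  obtain ⟨E₁, h₁⟩ := pmat_taylor X Z t
  obtain ⟨E₂, h₂⟩ := gmat_taylor X Z t
  refine ⟨Matrix.of fun i j => E₁ i j * (1 + gmat X i j) + pmat X i j * E₂ i j +
    dpmat X Z i j * dgmat X Z i j + t * (dpmat X Z i j * E₂ i j + E₁ i j * dgmat X Z i j) +
    t ^ 2 * (E₁ i j * E₂ i j), ?_⟩
  ext i j
  simp only [psi, dpsi, h₁, h₂, Matrix.of_apply, Matrix.add_apply, Matrix.smul_apply, smul_eq_mul]
  ring

end taylor

variable {ρ σ κ : Type} [Fintype ρ] [Fintype σ] [Fintype κ]
  [DecidableEq ρ] [DecidableEq σ] [DecidableEq κ]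

/-- A matrix of power series without constant term is divisible by the variable. -/
theorem exists_smul_of_map_eq_zero {k I J : Type} [Field k] (Z : Matrix I J (PowerSeries k))
    (h : Z.map (PowerSeries.constantCoeff (R := k)) = 0) :
    ∃ Z', Z = (PowerSeries.X : PowerSeries k) • Z' := by
  have h1 : ∀ i j, ∃ z, Z i j = PowerSeries.X * z := by
    intro i j
    have h2 : PowerSeries.constantCoeff (Z i j) = 0 := congrFun (congrFun h i) j
    exact PowerSeries.X_dvd_iff.2 h2
  choose z hz using h1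
  exact ⟨Matrix.of z, by ext1 i j; exact hz i j⟩

/-- **Uniqueness.** -/
theorem eq_of_psi_eq {k : Type} [Field k] (X Y : Matrix (ρ ⊕ σ) (ρ ⊕ κ) (PowerSeries k))
    (h0 : X.map (PowerSeries.constantCoeff (R := k)) = Y.map (PowerSeries.constantCoeff (R := k)))
    (hJ : (Jac (X.map (PowerSeries.constantCoeff (R := k)))).det ≠ 0) (h : psi X = psi Y) :
    X = Y := by
  have key : ∀ n : ℕ, ∃ Z, Y = X + ((PowerSeries.X : PowerSeries k) ^ (n + 1)) • Z := by
    intro n
    induction n with
    | zero =>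
      obtain ⟨Z, hZ⟩ := exists_smul_of_map_eq_zero (Y - X) (by
        ext i j
        have h1 := congrFun (congrFun h0 i) j
        simp only [Matrix.map_apply] at h1
        simp [h1])
      exact ⟨Z, by rw [zero_add, pow_one, ← hZ]; abel⟩
    | succ n ih =>
      obtain ⟨Z, hZ⟩ := ih
      set t : PowerSeries k := PowerSeries.X ^ (n + 1) with ht
      have ht0 : t ≠ 0 := pow_ne_zero _ PowerSeries.X_ne_zero
      obtain ⟨E, hE⟩ := psi_taylor X Z t
      rw [← hZ, ← h] at hE
      have h2 : t • (dpsi X Z + t • E) = 0 := by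
        have h3 : psi X = psi X + t • (dpsi X Z + t • E) := by
          rw [smul_add, smul_smul, ← pow_two, ← add_assoc]
          exact hE
        exact left_eq_add.1 h3
      have h4 : dpsi X Z + t • E = 0 := by
        ext1 i j
        have h5 := congrFun (congrFun h2 i) j
        rw [Matrix.smul_apply, smul_eq_mul] at h5
        exact (mul_eq_zero.1 h5).resolve_left ht0
      have h6 : dpsi (X.map (PowerSeries.constantCoeff (R := k)))
          (Z.map (PowerSeries.constantCoeff (R := k))) = 0 := by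
        have h7 := dpsi_map X Z (PowerSeries.constantCoeff (R := k))
        rw [h7]
        ext1 i j
        have h8 := congrFun (congrFun h4 i) j
        rw [Matrix.add_apply, Matrix.smul_apply, smul_eq_mul] at h8
        have h9 := congrArg (PowerSeries.constantCoeff (R := k)) h8
        rw [map_add, map_mul, ht, map_pow, PowerSeries.constantCoeff_X, zero_pow (Nat.succ_ne_zero n),
          zero_mul, add_zero] at h9
        exact h9.trans (map_zero _)
      have h10 := dpsi_eq_zero_of_det _ _ hJ h6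
      obtain ⟨Z', hZ'⟩ := exists_smul_of_map_eq_zero Z h10
      exact ⟨Z', by rw [pow_succ, ← smul_smul, ← hZ']; exact hZ⟩
  ext1 i j
  ext n
  obtain ⟨Z, hZ⟩ := key n
  have h1 : Y i j = X i j + PowerSeries.X ^ (n + 1) * Z i j := by
    conv_lhs => rw [hZ]
    rfl
  rw [h1, map_add, PowerSeries.coeff_X_pow_mul', if_neg (by omega), add_zero]

end Pool.ML
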